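import Mathlib

/-!
# Quantum groups of finite type, dual canonical bases, and the trihedron pairing: definitions

All definitions entering the q-roundness theorem are in this file.

* `HasQ K` : a field with a distinguished nonzero element `q`, no positive power of which is one;
  `Kq` is the field `ℂ(q)`.
* `qn K n` : the quantum integer `[n]`;  `IsQRound` : quotients of products of quantum integers.
* `Cartan I` : a Cartan matrix of finite type, with a symmetriser.
* `Mod C K M` : operators `E i`, `F i`, `K i`, `K i ⁻¹` on `M` satisfying the relations of the quantum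
  group `U_q(𝔤)`, except the quantum Serre relations, which are `Mod.Serre`.
* `Mod.tensor` : tensor product, for Lusztig's coproduct
  `Δ(E) = E ⊗ 1 + K ⊗ E`, `Δ(F) = F ⊗ K⁻¹ + 1 ⊗ F`, `Δ(K) = K ⊗ K`.
* `CanMod` : an irreducible module `V_λ` with its bar involution, canonical basis and dual
  canonical basis.
* `DualCan` : Lusztig's dual canonical basis of a tensor product of three irreducible modules.
* `Duality` : the identification of `V_{λ*}` with the (left) dual of `V_λ`.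
* `pair3` : the nested pairing of `(V_{λ₃*} ⊗ V_{λ₂*}) ⊗ V_{λ₁*}` with `(V_{λ₁} ⊗ V_{λ₂}) ⊗ V_{λ₃}`.
-/

namespace Pool.Agent.H387.QR

open scoped TensorProduct

/-! ## The parameter and quantum integers -/

/-- A field with a distinguished element `q ≠ 0` with `q ^ n ≠ 1` for all `n > 0`. -/
class HasQ (K : Type*) [Field K] where
  /-- the parameter -/
  q : K
  q_ne : q ≠ 0
  q_pow : ∀ n : ℕ, 0 < n → q ^ n ≠ 1

/-- The parameter `q`. -/
abbrev qq (K : Type*) [Field K] [HasQ K] : K := HasQ.q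

/-- `q ^ d - q ^ (-d)`. -/
def hq (K : Type*) [Field K] [HasQ K] (d : ℤ) : K := qq K ^ d - qq K ^ (-d)

/-- The quantum integer `[n]`. -/
def qn (K : Type*) [Field K] [HasQ K] (n : ℤ) : K :=
  (qq K ^ n - qq K ^ (-n)) / (qq K - (qq K)⁻¹)

/-- The quantum integer `[n]` in the variable `q ^ d`. -/
def qd (K : Type*) [Field K] [HasQ K] (d n : ℤ) : K :=
  (qq K ^ (d * n) - qq K ^ (-(d * n))) / hq K d

/-- The factorial `[n]!` in the variable `q ^ d`. -/
def qdfac (K : Type*) [Field K] [HasQ K] (d : ℤ) : ℕ → K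
  | 0 => 1
  | n + 1 => qdfac K d n * qd K d (n + 1)

/-- The ring `ℤ[q, q⁻¹]`. -/
def AA (K : Type*) [Field K] [HasQ K] : Subring K := Subring.closure {qq K, (qq K)⁻¹}

/-- A q-round element: a quotient of two finite products of quantum integers `[n]`, `n ≠ 0`. -/
def IsQRound {K : Type*} [Field K] [HasQ K] (x : K) : Prop :=
  ∃ s t : List ℤ, (∀ n ∈ s, n ≠ 0) ∧ (∀ n ∈ t, n ≠ 0) ∧
    x = (s.map (qn K)).prod / (t.map (qn K)).prod

/-! ## Cartan matrices and modules -/

/-- A Cartan matrix of finite type `a`, with a symmetriser. -/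
structure Cartan (I : Type) [Fintype I] [DecidableEq I] where
  /-- the Cartan matrix -/
  a : I → I → ℤ
  /-- the symmetriser, `d i = (α_i, α_i) / 2` -/
  d : I → ℕ
  d_pos : ∀ i, 0 < d i
  diag : ∀ i, a i i = 2
  off : ∀ i j, i ≠ j → a i j ≤ 0
  symm : ∀ i j, (d i : ℤ) * a i j = d j * a j i
  pos : ∀ n : I → ℤ, n ≠ 0 → 0 < ∑ i, ∑ j, n i * (d i * a i j) * n j

variable {I : Type} [Fintype I] [DecidableEq I]

/-- The inner product `(α_i, α_j) = d_i a_ij` of simple roots. -/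
def Cartan.br (C : Cartan I) (i j : I) : ℤ := d C i * a C i j

/-- Operators `E i`, `F i`, `K i`, `K i ⁻¹` with the relations of a quantum group (without the
quantum Serre relations); `K i` is `q ^ (d_i h_i)`. -/
structure Mod (C : Cartan I) (K : Type*) [Field K] [HasQ K] (M : Type*) [AddCommGroup M]
    [Module K M] where
  /-- the operator `E_i` -/
  E : I → M →ₗ[K] M
  /-- the operator `F_i` -/
  F : I → M →ₗ[K] M
  /-- the operator `K_i` -/
  Kp : I → M →ₗ[K] M
  /-- the operator `K_i⁻¹` -/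
  Km : I → M →ₗ[K] M
  kpkm : ∀ i x, Kp i (Km i x) = x
  kmkp : ∀ i x, Km i (Kp i x) = x
  kcomm : ∀ i j x, Kp i (Kp j x) = Kp j (Kp i x)
  ke : ∀ i j x, Kp i (E j x) = qq K ^ (C.br i j) • E j (Kp i x)
  kf : ∀ i j x, Kp i (F j x) = qq K ^ (-C.br i j) • F j (Kp i x)
  ef : ∀ i j x, E i (F j x) - F j (E i x) =
    if i = j then (hq K (C.d i))⁻¹ • (Kp i x - Km i x) else 0

variable {C : Cartan I} {K : Type*} [Field K] [HasQ K]
variable {M : Type*} [AddCommGroup M] [Module K M] {N : Type*} [AddCommGroup N] [Module K N]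

namespace Mod

/-- The divided power `E_i^(n)`. -/
def Ed (V : Mod C K M) (i : I) (n : ℕ) : M →ₗ[K] M := (qdfac K (C.d i) n)⁻¹ • (V.E i) ^ n

/-- The divided power `F_i^(n)`. -/
def Fd (V : Mod C K M) (i : I) (n : ℕ) : M →ₗ[K] M := (qdfac K (C.d i) n)⁻¹ • (V.F i) ^ n

/-- A product of divided powers `F_i^(n)`. -/
def Fdw (V : Mod C K M) : List (I × ℕ) → M →ₗ[K] M
  | [] => LinearMap.id
  | p :: w => V.Fd p.1 p.2 ∘ₗ V.Fdw w

/-- The `ℤ[q, q⁻¹]`-form generated by `v` under the divided powers of the `F_i`. -/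
def latA (V : Mod C K M) (v : M) : Submodule (AA K) M :=
  Submodule.span (AA K) (Set.range fun w => V.Fdw w v)

/-- The quantum Serre relations (written with divided powers). -/
def Serre (V : Mod C K M) : Prop :=
  ∀ i j : I, i ≠ j →
    (∑ n ∈ Finset.range ((1 - C.a i j).toNat + 1), (-1 : K) ^ n •
      V.Ed i n ∘ₗ V.E j ∘ₗ V.Ed i ((1 - C.a i j).toNat - n) = 0) ∧
    (∑ n ∈ Finset.range ((1 - C.a i j).toNat + 1), (-1 : K) ^ n •
      V.Fd i n ∘ₗ V.F j ∘ₗ V.Fd i ((1 - C.a i j).toNat - n) = 0)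

/-- Irreducibility: there are no proper nonzero subspaces stable under `E_i, F_i, K_i, K_i⁻¹`. -/
def Irr (V : Mod C K M) : Prop := ∀ S : Submodule K M,
  (∀ i, ∀ x ∈ S, V.E i x ∈ S ∧ V.F i x ∈ S ∧ V.Kp i x ∈ S ∧ V.Km i x ∈ S) → S = ⊥ ∨ S = ⊤

/-- The weight space on which `K_i` acts by `q ^ (d_i m_i)`. -/
def wt (V : Mod C K M) (m : I → ℤ) : Submodule K M where
  carrier := {x | ∀ i, V.Kp i x = qq K ^ ((C.d i : ℤ) * m i) • x}
  add_mem' {x y} hx hy i := by rw [map_add, hx i, hy i, smul_add]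
  zero_mem' i := by simp
  smul_mem' c x hx i := by rw [map_smul, hx i, smul_comm]

/-- The invariants: the vectors on which the quantum group acts by its counit. -/
def Inv (V : Mod C K M) : Submodule K M where
  carrier := {x | ∀ i, V.E i x = 0 ∧ V.F i x = 0 ∧ V.Kp i x = x}
  add_mem' {x y} hx hy i := by simp [hx i, hy i]
  zero_mem' i := by simp
  smul_mem' c x hx i := by simp [hx i]

theorem ke' (V : Mod C K M) (i j : I) (x : M) :
    V.Km i (V.E j x) = qq K ^ (-C.br i j) • V.E j (V.Km i x) := by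
  have h := V.ke i j (V.Km i x)
  rw [V.kpkm] at h
  have h2 := congrArg (V.Km i) h
  rw [V.kmkp, map_smul] at h2
  rw [h2, smul_smul, ← zpow_add₀ HasQ.q_ne]
  simp

theorem kf' (V : Mod C K M) (i j : I) (x : M) :
    V.Km i (V.F j x) = qq K ^ (C.br i j) • V.F j (V.Km i x) := by
  have h := V.kf i j (V.Km i x)
  rw [V.kpkm] at h
  have h2 := congrArg (V.Km i) h
  rw [V.kmkp, map_smul] at h2
  rw [h2, smul_smul, ← zpow_add₀ HasQ.q_ne]
  simp

theorem kcomm' (V : Mod C K M) (i j : I) (x : M) : V.Km i (V.Kp j x) = V.Kp j (V.Km i x) := by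
  have h := V.kcomm i j (V.Km i x)
  rw [V.kpkm] at h
  rw [← V.kmkp i (V.Kp j (V.Km i x)), h]

theorem kcomm'' (V : Mod C K M) (i j : I) (x : M) : V.Km i (V.Km j x) = V.Km j (V.Km i x) := by
  have h := V.kcomm' i j (V.Km j x)
  rw [V.kpkm] at h
  rw [h, V.kmkp]

/-- The tensor product, for the coproduct `Δ(E) = E ⊗ 1 + K ⊗ E`, `Δ(F) = F ⊗ K⁻¹ + 1 ⊗ F`,
`Δ(K) = K ⊗ K`. -/
def tensor (V : Mod C K M) (W : Mod C K N) : Mod C K (M ⊗[K] N) where
  E i := TensorProduct.map (V.E i) LinearMap.id + TensorProduct.map (V.Kp i) (W.E i)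
  F i := TensorProduct.map (V.F i) (W.Km i) + TensorProduct.map LinearMap.id (W.F i)
  Kp i := TensorProduct.map (V.Kp i) (W.Kp i)
  Km i := TensorProduct.map (V.Km i) (W.Km i)
  kpkm i x := by
    induction x using TensorProduct.induction_on with
    | zero => simp
    | tmul x y => simp [V.kpkm, W.kpkm]
    | add x y hx hy => rw [map_add, map_add, hx, hy]
  kmkp i x := by
    induction x using TensorProduct.induction_on with
    | zero => simp
    | tmul x y => simp [V.kmkp, W.kmkp]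
    | add x y hx hy => rw [map_add, map_add, hx, hy]
  kcomm i j x := by
    induction x using TensorProduct.induction_on with
    | zero => simp
    | tmul x y => simp [V.kcomm i j, W.kcomm i j]
    | add x y hx hy => simp only [map_add, hx, hy]
  ke i j x := by
    induction x using TensorProduct.induction_on with
    | zero => simp
    | tmul x y =>
      simp only [LinearMap.add_apply, TensorProduct.map_tmul, LinearMap.id_apply, map_add,
        V.ke i j, W.ke i j, V.kcomm i j, TensorProduct.smul_tmul', TensorProduct.tmul_smul,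
        smul_add]
    | add x y hx hy => simp only [map_add, hx, hy, smul_add]
  kf i j x := by
    induction x using TensorProduct.induction_on with
    | zero => simp
    | tmul x y =>
      have := W.kcomm' j i y
      simp only [LinearMap.add_apply, TensorProduct.map_tmul, LinearMap.id_apply, map_add,
        V.kf i j, W.kf i j, ← this, TensorProduct.smul_tmul', TensorProduct.tmul_smul,
        smul_add]
    | add x y hx hy => simp only [map_add, hx, hy, smul_add]
  ef i j x := by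
    induction x using TensorProduct.induction_on with
    | zero => simp
    | tmul x y =>
      have e1 := V.ef i j x
      have e2 := W.ef i j y
      have e3 : V.Kp i (V.F j x) = qq K ^ (-C.br i j) • V.F j (V.Kp i x) := V.kf i j x
      have e4 : W.Km j (W.E i y) = qq K ^ (-C.br j i) • W.E i (W.Km j y) := W.ke' j i y
      have e5 : C.br j i = C.br i j := (C.symm i j).symm
      rw [e5] at e4
      simp only [LinearMap.add_apply, TensorProduct.map_tmul, LinearMap.id_apply, map_add, e3, e4]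
      have e6 : V.E i (V.F j x) = V.F j (V.E i x) +
          (if i = j then (hq K (C.d i))⁻¹ • (V.Kp i x - V.Km i x) else 0) := by
        rw [← e1]; abel
      have e7 : W.E i (W.F j y) = W.F j (W.E i y) +
          (if i = j then (hq K (C.d i))⁻¹ • (W.Kp i y - W.Km i y) else 0) := by
        rw [← e2]; abel
      rw [e6, e7]
      by_cases hij : i = j
      · subst hij
        simp only [if_true, TensorProduct.add_tmul, TensorProduct.tmul_add,
          TensorProduct.sub_tmul, TensorProduct.tmul_sub, smul_sub, TensorProduct.smul_tmul',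
          TensorProduct.tmul_smul]
        abel
      · simp only [hij, if_false, add_zero, TensorProduct.smul_tmul',
          TensorProduct.tmul_smul]
        abel
    | add x y hx hy =>
      simp only [map_add]
      rw [show ∀ a b c d : M ⊗[K] N, a + b - (c + d) = (a - c) + (b - d) by intros; abel]
      rw [hx, hy]
      by_cases hij : i = j
      · simp only [hij, if_true, ← smul_add]
        congr 1; abel
      · simp [hij]

end Mod

/-! ## Pairings -/

/-- A pairing `N × M → K`, invariant for the action on `N ⊗ M`, i.e. `ev : N ⊗ M → K` is a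
homomorphism of modules. -/
structure IsPair (V' : Mod C K N) (V : Mod C K M) (ev : N →ₗ[K] M →ₗ[K] K) : Prop where
  E : ∀ i y x, ev (V'.E i y) x + ev (V'.Kp i y) (V.E i x) = 0
  F : ∀ i y x, ev (V'.F i y) (V.Km i x) + ev y (V.F i x) = 0
  Kp : ∀ i y x, ev (V'.Kp i y) (V.Kp i x) = ev y x

section nest

variable {M₁ M₂ N₁ N₂ : Type*} [AddCommGroup M₁] [Module K M₁] [AddCommGroup M₂] [Module K M₂]
  [AddCommGroup N₁] [Module K N₁] [AddCommGroup N₂] [Module K N₂]

/-- The nested pairing `(N₂ ⊗ N₁) × (M₁ ⊗ M₂) → K`,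
`(y₂ ⊗ y₁, x₁ ⊗ x₂) ↦ ev₁(y₁, x₁) ev₂(y₂, x₂)`. -/
noncomputable def nest (ev₁ : N₁ →ₗ[K] M₁ →ₗ[K] K) (ev₂ : N₂ →ₗ[K] M₂ →ₗ[K] K) :
    N₂ ⊗[K] N₁ →ₗ[K] M₁ ⊗[K] M₂ →ₗ[K] K :=
  TensorProduct.lift (LinearMap.mk₂ K
    (fun y₂ y₁ => (LinearMap.mul' K K) ∘ₗ TensorProduct.map (ev₁ y₁) (ev₂ y₂))
    (by intro a b c; ext x y; simp [mul_add])
    (by intro r a b; ext x y; simp [mul_left_comm])
    (by intro a b c; ext x y; simp [add_mul])
    (by intro r a b; ext x y; simp [mul_assoc]))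

end nest

section pair3

variable {M₁ M₂ M₃ N₁ N₂ N₃ : Type*} [AddCommGroup M₁] [Module K M₁] [AddCommGroup M₂] [Module K M₂]
  [AddCommGroup M₃] [Module K M₃]
  [AddCommGroup N₁] [Module K N₁] [AddCommGroup N₂] [Module K N₂] [AddCommGroup N₃] [Module K N₃]

/-- The nested pairing `((N₃ ⊗ N₂) ⊗ N₁) × ((M₁ ⊗ M₂) ⊗ M₃) → K`,
`((y₃ ⊗ y₂) ⊗ y₁, (x₁ ⊗ x₂) ⊗ x₃) ↦ ev₁(y₁, x₁) ev₂(y₂, x₂) ev₃(y₃, x₃)`. -/
noncomputable def pair3 (ev₁ : N₁ →ₗ[K] M₁ →ₗ[K] K) (ev₂ : N₂ →ₗ[K] M₂ →ₗ[K] K)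
    (ev₃ : N₃ →ₗ[K] M₃ →ₗ[K] K) :
    (N₃ ⊗[K] N₂) ⊗[K] N₁ →ₗ[K] (M₁ ⊗[K] M₂) ⊗[K] M₃ →ₗ[K] K :=
  nest (nest ev₁ ev₂) ev₃ ∘ₗ (TensorProduct.assoc K N₃ N₂ N₁).toLinearMap

end pair3

/-! ## The field `ℂ(q)` and the modules `V_λ` with their canonical bases -/

/-- The field `ℂ(q)`, that is, the field of fractions of the polynomial ring `ℂ[q]`, with its
automorphism `bar` over `ℂ` such that `q ↦ q⁻¹`. -/
class Cq (K : Type) [Field K] [HasQ K] where
  /-- the inclusion of the constants -/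
  cst : ℂ →+* K
  /-- `q` is transcendental over `ℂ` -/
  trans : ∀ p : Polynomial ℂ, p ≠ 0 → p.eval₂ cst (qq K) ≠ 0
  /-- `K` is the field of fractions of `ℂ[q]` -/
  gen : ∀ x : K, ∃ a b : Polynomial ℂ, b ≠ 0 ∧ x * b.eval₂ cst (qq K) = a.eval₂ cst (qq K)
  /-- the automorphism with `q ↦ q⁻¹` -/
  bar : K →+* K
  bar_cst : ∀ c, bar (cst c) = cst c
  bar_q : bar (qq K) = (qq K)⁻¹

/-- `x ∈ q⁻¹ ℂ[[q⁻¹]] ∩ ℂ(q)`, that is, `x = a / b` with `deg a < deg b`. -/
def SmallAtInf {K : Type} [Field K] [HasQ K] [Cq K] (x : K) : Prop :=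
  ∃ a b : Polynomial ℂ, a.degree < b.degree ∧
    x * b.eval₂ Cq.cst (qq K) = a.eval₂ Cq.cst (qq K)

/-- The irreducible type-1 module `V_λ` of `U_q(𝔤)` over `ℂ(q)`, on the vector space `M`, with
* its highest weight vector `v` and its bar involution `bar`;
* Lusztig's form `rho`, and its canonical basis `b` (up to signs), characterised as in Lusztig's
  book, 19.3.5: a basis of the integral form, bar-invariant and almost orthonormal at `q = ∞`;
* the contragredient form `tau`, and the dual canonical basis `bd` (dual to `b` with respect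
  to `tau`). -/
structure CanMod (C : Cartan I) (K : Type) [Field K] [HasQ K] [Cq K] (lam : I → ℕ) (M : Type*)
    [AddCommGroup M] [Module K M]
    (ι : Type*) [Fintype ι] [DecidableEq ι] where
  /-- the action of the generators of the quantum group -/
  V : Mod C K M
  serre : V.Serre
  fin : Module.Finite K M
  irr : V.Irr
  /-- the highest weight vector -/
  v : M
  v_ne : v ≠ 0
  v_E : ∀ i, V.E i v = 0
  v_K : ∀ i, V.Kp i v = qq K ^ ((C.d i : ℤ) * lam i) • v
  /-- the bar involution -/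
  bar : M →ₛₗ[Cq.bar (K := K)] M
  bar_v : bar v = v
  bar_E : ∀ i x, bar (V.E i x) = V.E i (bar x)
  bar_F : ∀ i x, bar (V.F i x) = V.F i (bar x)
  bar_K : ∀ i x, bar (V.Kp i x) = V.Km i (bar x)
  /-- Lusztig's form -/
  rho : M →ₗ[K] M →ₗ[K] K
  rho_v : rho v v = 1
  rho_E : ∀ i x y, rho (V.E i x) y = qq K ^ (C.d i : ℤ) * rho x (V.Kp i (V.F i y))
  rho_F : ∀ i x y, rho (V.F i x) y = qq K ^ (C.d i : ℤ) * rho x (V.Km i (V.E i y))
  rho_K : ∀ i x y, rho (V.Kp i x) y = rho x (V.Kp i y)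
  /-- the contragredient form -/
  tau : M →ₗ[K] M →ₗ[K] K
  tau_v : tau v v = 1
  tau_E : ∀ i x y, tau (V.E i x) y = tau x (V.F i y)
  tau_F : ∀ i x y, tau (V.F i x) y = tau x (V.E i y)
  tau_K : ∀ i x y, tau (V.Kp i x) y = tau x (V.Kp i y)
  /-- the canonical basis -/
  b : Module.Basis ι K M
  b_wt : ∀ j, ∃ m : I → ℤ, b j ∈ V.wt m
  b_lat : Submodule.span (AA K) (Set.range b) = V.latA v
  b_bar : ∀ j, bar (b j) = b j
  b_orth : ∀ j k, SmallAtInf (rho (b j) (b k) - if j = k then 1 else 0)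
  /-- the dual canonical basis -/
  bd : Module.Basis ι K M
  bd_tau : ∀ j k, tau (bd j) (b k) = if j = k then 1 else 0

variable {K : Type} [Field K] [HasQ K] [Cq K]

/-- The general form of a dual canonical basis: on a module `W`, with a family of vectors `e`,
* `Psi` is a bar involution, i.e. `Ψ(u z) = bar(u) Ψ(z)` for `u` in the quantum group, with prescribed
  values on some vectors: `gen z z'` implies `Ψ(z) = z'`;
* `D` is a basis of the `ℤ[q,q⁻¹]`-lattice spanned by the `e j`, `Ψ(D j) = D j`, and `D j` is congruent to `e j`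
  modulo `q ℤ[q]`. -/
structure BarBasis {L J : Type*} [AddCommGroup L] [Module K L] [Fintype J] (W : Mod C K L)
    (gen : L → L → Prop) (e : J → L) where
  /-- the bar involution -/
  Psi : L →ₛₗ[Cq.bar (K := K)] L
  Psi_E : ∀ i z, Psi (W.E i z) = W.E i (Psi z)
  Psi_F : ∀ i z, Psi (W.F i z) = W.F i (Psi z)
  Psi_K : ∀ i z, Psi (W.Kp i z) = W.Km i (Psi z)
  Psi_gen : ∀ z z', gen z z' → Psi z = z'
  /-- the basis -/
  D : Module.Basis J K L
  D_Psi : ∀ j, Psi (D j) = D j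
  D_tri : ∀ j, ∃ c : J → Polynomial ℤ, D j = e j +
    ∑ k, (qq K * (c k).eval₂ (Int.castRingHom K) (qq K)) • e k
  D_lat : ∀ j, ∃ c : J → AA K, e j = ∑ k, (c k : K) • D k

/-- The vectors `D (f 0), …, D (f (n - 1))` are distinct, and they span the invariants. -/
def IsInvBasis {L J : Type*} [AddCommGroup L] [Module K L] (W : Mod C K L) (D : J → L) {n : ℕ}
    (f : Fin n → J) : Prop :=
  Function.Injective f ∧ Submodule.span K (Set.range (D ∘ f)) = W.Inv

/-- The matrix of a pairing. -/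
def pairMat {L L' J J' : Type*} [AddCommGroup L] [Module K L] [AddCommGroup L'] [Module K L']
    (ev : L' →ₗ[K] L →ₗ[K] K) (D' : J' → L') (D : J → L) {n : ℕ} (g : Fin n → J') (f : Fin n → J) :
    Matrix (Fin n) (Fin n) K :=
  Matrix.of fun i j => ev (D' (g i)) (D (f j))

variable {lam₁ lam₂ lam₃ lam₁' lam₂' lam₃' : I → ℕ}
variable {M₁ M₂ M₃ N₁ N₂ N₃ : Type*} [AddCommGroup M₁] [Module K M₁]
  [AddCommGroup M₂] [Module K M₂] [AddCommGroup M₃] [Module K M₃]
  [AddCommGroup N₁] [Module K N₁] [AddCommGroup N₂] [Module K N₂] [AddCommGroup N₃] [Module K N₃]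
variable {ι₁ ι₂ ι₃ κ₁ κ₂ κ₃ : Type*} [Fintype ι₁] [DecidableEq ι₁] [Fintype ι₂] [DecidableEq ι₂]
  [Fintype ι₃] [DecidableEq ι₃] [Fintype κ₁] [DecidableEq κ₁] [Fintype κ₂] [DecidableEq κ₂]
  [Fintype κ₃] [DecidableEq κ₃]

/-- The tensor product `V_{λ₁} ⊗ V_{λ₂} ⊗ V_{λ₃}`. -/
def CanMod.V3 (A₁ : CanMod C K lam₁ M₁ ι₁) (A₂ : CanMod C K lam₂ M₂ ι₂)
    (A₃ : CanMod C K lam₃ M₃ ι₃) : Mod C K ((M₁ ⊗[K] M₂) ⊗[K] M₃) :=
  (A₁.V.tensor A₂.V).tensor A₃.V

/-- The tensor products of dual canonical basis vectors. -/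
noncomputable def CanMod.bd3 (A₁ : CanMod C K lam₁ M₁ ι₁) (A₂ : CanMod C K lam₂ M₂ ι₂)
    (A₃ : CanMod C K lam₃ M₃ ι₃) (j : ι₁ × ι₂ × ι₃) : (M₁ ⊗[K] M₂) ⊗[K] M₃ :=
  (A₁.bd j.1 ⊗ₜ A₂.bd j.2.1) ⊗ₜ A₃.bd j.2.2

/-- `z = l ⊗ x ⊗ v₃` and `z' = bar(l) ⊗ bar(x) ⊗ v₃`, where `l` is a lowest weight vector, `v₃` is the
highest weight vector and `x` is arbitrary.  The quasi-R-matrices act trivially on these vectors,
so that the bar involution `Ψ` of the tensor product maps `z` to `z'`; these vectors generate the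
tensor product. -/
def CanMod.gen3 (A₁ : CanMod C K lam₁ M₁ ι₁) (A₂ : CanMod C K lam₂ M₂ ι₂)
    (A₃ : CanMod C K lam₃ M₃ ι₃) (z z' : (M₁ ⊗[K] M₂) ⊗[K] M₃) : Prop :=
  ∃ l x, (∀ i, A₁.V.F i l = 0) ∧ z = (l ⊗ₜ x) ⊗ₜ A₃.v ∧ z' = (A₁.bar l ⊗ₜ A₂.bar x) ⊗ₜ A₃.v

/-- Lusztig's dual canonical basis `D` of `V_{λ₁} ⊗ V_{λ₂} ⊗ V_{λ₃}`: invariant under the bar
involution `Ψ` of the tensor product, and congruent to the tensor products of the dual
canonical basis vectors modulo `q ℤ[q]`. -/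
abbrev DualCan (A₁ : CanMod C K lam₁ M₁ ι₁) (A₂ : CanMod C K lam₂ M₂ ι₂)
    (A₃ : CanMod C K lam₃ M₃ ι₃) :=
  BarBasis (A₁.V3 A₂ A₃) (A₁.gen3 A₂ A₃) (A₁.bd3 A₂ A₃)

/-- The identification of `V_{λ'}` with the dual of `V_λ` (so `λ' = λ*`), given as an invariant
pairing `ev : V_{λ'} × V_λ → ℂ(q)`, sending the functional dual to the highest weight vector of `V_λ`
to the lowest weight vector in the canonical basis of `V_{λ'}`. -/
structure Duality (A' : CanMod C K lam₁' N₁ κ₁) (A : CanMod C K lam₁ M₁ ι₁) where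
  /-- the pairing -/
  ev : N₁ →ₗ[K] M₁ →ₗ[K] K
  pair : IsPair A'.V A.V ev
  /-- the index of the lowest weight vector in the canonical basis -/
  low : κ₁
  low_F : ∀ i, A'.V.F i (A'.b low) = 0
  low_K : ∀ i, A'.V.Kp i (A'.b low) = qq K ^ (-((C.d i : ℤ) * lam₁ i)) • A'.b low
  norm : ev (A'.b low) A.v = 1

/-- The enumeration `f` of dual canonical basis vectors gives a basis of the space of invariant
vectors of `V_{λ₁} ⊗ V_{λ₂} ⊗ V_{λ₃}`. -/
def Enumerates {A₁ : CanMod C K lam₁ M₁ ι₁} {A₂ : CanMod C K lam₂ M₂ ι₂}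
    {A₃ : CanMod C K lam₃ M₃ ι₃} (B : DualCan A₁ A₂ A₃) {n : ℕ} (f : Fin n → ι₁ × ι₂ × ι₃) : Prop :=
  IsInvBasis (A₁.V3 A₂ A₃) B.D f

/-- The matrix of the trihedron pairing, in the dual canonical bases of the invariants of
`V_{λ₃*} ⊗ V_{λ₂*} ⊗ V_{λ₁*}` (enumerated by `g`) and of `V_{λ₁} ⊗ V_{λ₂} ⊗ V_{λ₃}` (enumerated by `f`). -/
noncomputable def trihedron {A₁ : CanMod C K lam₁ M₁ ι₁} {A₂ : CanMod C K lam₂ M₂ ι₂}
    {A₃ : CanMod C K lam₃ M₃ ι₃} {A₁' : CanMod C K lam₁' N₁ κ₁} {A₂' : CanMod C K lam₂' N₂ κ₂}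
    {A₃' : CanMod C K lam₃' N₃ κ₃} (P₁ : Duality A₁' A₁) (P₂ : Duality A₂' A₂)
    (P₃ : Duality A₃' A₃) (B : DualCan A₁ A₂ A₃) (B' : DualCan A₃' A₂' A₁') {n : ℕ}
    (g : Fin n → κ₃ × κ₂ × κ₁) (f : Fin n → ι₁ × ι₂ × ι₃) : Matrix (Fin n) (Fin n) K :=
  pairMat (pair3 P₁.ev P₂.ev P₃.ev) B'.D B.D g f

end Pool.Agent.H387.QR
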