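import Pool.Agent.H387.QR.QRound

/-!
# `RatFunc ℂ` is an instance of `Cq`
-/

namespace Pool.Agent.H387.QR

/-- The automorphism of `ℂ(q)` over `ℂ` with `q ↦ q⁻¹`. -/
noncomputable def barq : RatFunc ℂ →ₐ[ℂ] RatFunc ℂ :=
  RatFunc.liftAlgHom (Polynomial.aeval (RatFunc.X : RatFunc ℂ)⁻¹) (by
    apply nonZeroDivisors_le_comap_nonZeroDivisors_of_injective
    have h : Transcendental ℂ (RatFunc.X : RatFunc ℂ)⁻¹ := by
      rw [Transcendental, IsAlgebraic.inv_iff]
      exact RatFunc.transcendental_X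
    exact transcendental_iff_injective.mp h)

theorem barq_X : barq (RatFunc.X : RatFunc ℂ) = (RatFunc.X : RatFunc ℂ)⁻¹ := by
  have := RatFunc.liftAlgHom_apply (Polynomial.aeval (RatFunc.X : RatFunc ℂ)⁻¹) (by
    apply nonZeroDivisors_le_comap_nonZeroDivisors_of_injective
    have h : Transcendental ℂ (RatFunc.X : RatFunc ℂ)⁻¹ := by
      rw [Transcendental, IsAlgebraic.inv_iff]
      exact RatFunc.transcendental_X
    exact transcendental_iff_injective.mp h) (RatFunc.X : RatFunc ℂ)
  rw [RatFunc.num_X, RatFunc.denom_X, Polynomial.aeval_X, map_one, div_one] at this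
  exact this

theorem evalC (p : Polynomial ℂ) :
    p.eval₂ (RatFunc.C : ℂ →+* RatFunc ℂ) (qq (RatFunc ℂ)) = algebraMap _ _ p := by
  have h : (Polynomial.eval₂RingHom (RatFunc.C : ℂ →+* RatFunc ℂ) (qq (RatFunc ℂ))) =
      algebraMap (Polynomial ℂ) (RatFunc ℂ) := by
    apply Polynomial.ringHom_ext
    · intro c
      simp
    · rw [Polynomial.coe_eval₂RingHom, Polynomial.eval₂_X, RatFunc.algebraMap_X]
      rfl
  exact congrArg (fun g : Polynomial ℂ →+* RatFunc ℂ => g p) h

/-- The field of rational functions, with its automorphism `q ↦ q⁻¹`. -/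
noncomputable instance instCqRatFunc : Cq (RatFunc ℂ) where
  cst := RatFunc.C
  trans p hp h := by
    rw [evalC] at h
    exact hp (RatFunc.algebraMap_injective ℂ (by rw [h, map_zero]))
  gen x := by
    refine ⟨x.num, x.denom, x.denom_ne_zero, ?_⟩
    rw [evalC, evalC]
    have h := RatFunc.num_div_denom x
    have h2 : algebraMap (Polynomial ℂ) (RatFunc ℂ) x.denom ≠ 0 := by
      intro h3
      exact x.denom_ne_zero (RatFunc.algebraMap_injective ℂ (by rw [h3, map_zero]))
    exact ((div_eq_iff h2).1 h).symm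
  bar := barq.toRingHom
  bar_cst c := barq.commutes c
  bar_q := barq_X

end Pool.Agent.H387.QR
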