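import Pool.Agent.H387.QR.Qnum

/-!
# Words, weight spaces, commutators, the tensor `Θ`: definitions

* `wd I n` : the words of length `n` (a `Finset`);
* `V.Fw w`, `V.Ew w` : the operators `F_{w_1} ... F_{w_n}`, `E_{w_1} ... E_{w_n}`;
* `V.wt m` : the weight space, on which `K_i` acts by `q ^ (d_i m_i)`;
* `lwN C i w g`, `rwN C i w g` : `g` evaluated at the two twisted derivatives of the word `w`;
* `GInv C K` : a generalised inverse of the Gram matrix `ph w x`, with its integrality;
* `V.Rad` : the radical of the form acts by zero on `V`;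
* `V.Et g u` : the operator `∑_v k(u,v) E_v`;
* `Theta` : the quasi-R-matrix.
-/

namespace Pool.Agent.H387.QR

open scoped TensorProduct

variable {I : Type} [Fintype I] [DecidableEq I] {C : Cartan I} {K : Type*} [Field K] [HasQ K]
variable {M : Type*} [AddCommGroup M] [Module K M] {N : Type*} [AddCommGroup N] [Module K N]

/-- The words of length `n`. -/
def wd (I : Type) [Fintype I] [DecidableEq I] : ℕ → Finset (List I)
  | 0 => {[]}
  | n + 1 => Finset.univ.biUnion fun i : I => (wd I n).image (List.cons i)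

theorem mem_wd {n : ℕ} {w : List I} : w ∈ wd I n ↔ w.length = n := by
  induction n generalizing w with
  | zero => simp [wd]
  | succ n ih =>
    cases w with
    | nil => simp [wd]
    | cons i w => simp [wd, ih]

theorem sum_wd_succ {A : Type*} [AddCommMonoid A] (n : ℕ) (f : List I → A) :
    ∑ w ∈ wd I (n + 1), f w = ∑ i, ∑ w ∈ wd I n, f (i :: w) := by
  rw [wd, Finset.sum_biUnion]
  · refine Finset.sum_congr rfl fun i _ => ?_
    rw [Finset.sum_image]
    intro a _ b _ h
    exact (List.cons.inj h).2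
  · intro i _ j _ hij
    simp only [Function.onFun]
    rw [Finset.disjoint_left]
    intro w hw hw'
    simp only [Finset.mem_image] at hw hw'
    obtain ⟨a, _, rfl⟩ := hw
    obtain ⟨b, _, h⟩ := hw'
    exact hij (List.cons.inj h).1.symm

theorem sum_wd_reverse {A : Type*} [AddCommMonoid A] (n : ℕ) (f : List I → A) :
    ∑ w ∈ wd I n, f w.reverse = ∑ w ∈ wd I n, f w := by
  refine Finset.sum_bij (fun w _ => w.reverse) ?_ ?_ ?_ ?_
  · intro w hw; rw [mem_wd] at hw ⊢; simpa using hw
  · intro a _ b _ h; exact List.reverse_injective h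
  · intro b hb
    refine ⟨b.reverse, ?_, by simp⟩
    rw [mem_wd] at hb ⊢; simpa using hb
  · intro a _; rfl

theorem sum_wd_succ' {A : Type*} [AddCommMonoid A] (n : ℕ) (f : List I → A) :
    ∑ w ∈ wd I (n + 1), f w = ∑ i, ∑ w ∈ wd I n, f (w ++ [i]) := by
  rw [← sum_wd_reverse, sum_wd_succ]
  refine Finset.sum_congr rfl fun i _ => ?_
  rw [← sum_wd_reverse n (fun w => f (w ++ [i]))]
  refine Finset.sum_congr rfl fun w _ => ?_
  rw [List.reverse_cons]

namespace Mod

/-- The operator `F_{w_1} ... F_{w_n}`. -/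
def Fw (V : Mod C K M) : List I → M →ₗ[K] M
  | [] => LinearMap.id
  | i :: w => V.F i ∘ₗ V.Fw w

/-- The operator `E_{w_1} ... E_{w_n}`. -/
def Ew (V : Mod C K M) : List I → M →ₗ[K] M
  | [] => LinearMap.id
  | i :: w => V.E i ∘ₗ V.Ew w

@[simp] theorem Fw_nil (V : Mod C K M) : V.Fw [] = LinearMap.id := rfl
@[simp] theorem Ew_nil (V : Mod C K M) : V.Ew [] = LinearMap.id := rfl
@[simp] theorem Fw_cons (V : Mod C K M) (i : I) (w : List I) :
    V.Fw (i :: w) = V.F i ∘ₗ V.Fw w := rfl
@[simp] theorem Ew_cons (V : Mod C K M) (i : I) (w : List I) :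
    V.Ew (i :: w) = V.E i ∘ₗ V.Ew w := rfl

theorem Fw_append (V : Mod C K M) (u w : List I) : V.Fw (u ++ w) = V.Fw u ∘ₗ V.Fw w := by
  induction u with
  | nil => simp
  | cons i u ih => rw [List.cons_append, Fw_cons, ih, Fw_cons, LinearMap.comp_assoc]

theorem Ew_append (V : Mod C K M) (u w : List I) : V.Ew (u ++ w) = V.Ew u ∘ₗ V.Ew w := by
  induction u with
  | nil => simp
  | cons i u ih => rw [List.cons_append, Ew_cons, ih, Ew_cons, LinearMap.comp_assoc]

theorem mem_wt {V : Mod C K M} {m : I → ℤ} {x : M} :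
    x ∈ V.wt m ↔ ∀ i, V.Kp i x = qq K ^ ((C.d i : ℤ) * m i) • x := Iff.rfl

/-- `V` is spanned by its weight vectors (of integral weights). -/
def IsWt (V : Mod C K M) : Prop := ⨆ m : I → ℤ, V.wt m = ⊤

/-- `V` is spanned by weight vectors with weights in the root lattice. -/
def IsRt (V : Mod C K M) : Prop :=
  ⨆ k : I → ℤ, V.wt (fun i => ∑ j, C.a i j * k j) = ⊤

/-- The radical of the form on the free algebra acts by zero. -/
def Rad (V : Mod C K M) : Prop := ∀ (n : ℕ) (c : List I → K),
  (∀ x : List I, ∑ w ∈ wd I n, c w * ph C w x = 0) →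
    (∑ w ∈ wd I n, c w • V.Fw w = 0) ∧ (∑ w ∈ wd I n, c w • V.Ew w = 0)

end Mod

variable (C) (K)

/-- `g` evaluated at the twisted derivative of a word, removing a letter `i` from the left. -/
def lwN {A : Type*} [AddCommGroup A] [Module K A] (i : I) : List I → (List I → A) → A
  | [], _ => 0
  | j :: w, g => (if j = i then g w else 0) + qq K ^ (C.br i j) • lwN i w (fun u => g (j :: u))

/-- `g` evaluated at the twisted derivative of a word, removing a letter `i` from the right. -/
def rwN {A : Type*} [AddCommGroup A] [Module K A] (i : I) : List I → (List I → A) → A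
  | [], _ => 0
  | j :: w, g => (if j = i then qq K ^ (pr C i w) • g w else 0) + rwN i w (fun u => g (j :: u))

/-- A generalised inverse `k` of the Gram matrix `(ph w x)`, such that
`(q - q⁻¹) ^ (n - 1) k(u, v)` is integral for words of length `n`. -/
structure GInv where
  /-- the matrix -/
  k : List I → List I → K
  perm : ∀ u v, k u v ≠ 0 → u.Perm v
  nil : k [] [] = 1
  int : ∀ u v, hq K 1 ^ (u.length - 1) * k u v ∈ RR K
  inv : ∀ n, ∀ w x : List I, w.length = n → x.length = n →
    ph C w x = ∑ u ∈ wd I n, ∑ v ∈ wd I n, ph C w u * k u v * ph C v x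

variable {C} {K}

/-- The operator `∑_v k(u, v) E_v`. -/
def Mod.Et (V : Mod C K M) (g : GInv C K) (u : List I) : M →ₗ[K] M :=
  ∑ v ∈ wd I u.length, g.k u v • V.Ew v

/-- The product of `ζ` over the letters of a word. -/
def zw (ζ : I → K) (u : List I) : K := (u.map ζ).prod

@[simp] theorem zw_nil (ζ : I → K) : zw ζ [] = 1 := rfl
@[simp] theorem zw_cons (ζ : I → K) (i : I) (u : List I) : zw ζ (i :: u) = ζ i * zw ζ u := by
  simp [zw]
@[simp] theorem zw_append (ζ : I → K) (u v : List I) : zw ζ (u ++ v) = zw ζ u * zw ζ v := by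
  simp [zw]
theorem zw_perm (ζ : I → K) {u v : List I} (h : u.Perm v) : zw ζ u = zw ζ v :=
  (h.map ζ).prod_eq

/-- The quasi-R-matrix `Θ`, truncated at length `n`. -/
def Theta (V : Mod C K M) (W : Mod C K N) (g : GInv C K) (n : ℕ) : M ⊗[K] N →ₗ[K] M ⊗[K] N :=
  ∑ m ∈ Finset.range (n + 1), ∑ u ∈ wd I m,
    zw (fun i => -hq K (C.d i)) u • TensorProduct.map (V.Fw u) (W.Et g u)

theorem lwN_add {A : Type*} [AddCommGroup A] [Module K A] (i : I) (w : List I)
    (g h : List I → A) : lwN C K i w (g + h) = lwN C K i w g + lwN C K i w h := by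
  induction w generalizing g h with
  | nil => simp [lwN]
  | cons j w ih =>
    have := ih (fun u => g (j :: u)) (fun u => h (j :: u))
    simp only [lwN, Pi.add_apply] at this ⊢
    rw [show (fun u => g (j :: u) + h (j :: u)) =
      (fun u => g (j :: u)) + (fun u => h (j :: u)) from rfl, this]
    split_ifs
    · rw [smul_add]; abel
    · rw [smul_add]; abel

theorem rwN_add {A : Type*} [AddCommGroup A] [Module K A] (i : I) (w : List I)
    (g h : List I → A) : rwN C K i w (g + h) = rwN C K i w g + rwN C K i w h := by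
  induction w generalizing g h with
  | nil => simp [rwN]
  | cons j w ih =>
    have := ih (fun u => g (j :: u)) (fun u => h (j :: u))
    simp only [rwN, Pi.add_apply] at this ⊢
    rw [show (fun u => g (j :: u) + h (j :: u)) =
      (fun u => g (j :: u)) + (fun u => h (j :: u)) from rfl, this]
    split_ifs
    · rw [smul_add]; abel
    · abel

/-- `lwN` commutes with linear maps. -/
theorem lwN_map {A B : Type*} [AddCommGroup A] [Module K A] [AddCommGroup B] [Module K B]
    (f : A →ₗ[K] B) (i : I) (w : List I) (g : List I → A) :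
    lwN C K i w (fun u => f (g u)) = f (lwN C K i w g) := by
  induction w generalizing g with
  | nil => simp [lwN]
  | cons j w ih =>
    simp only [lwN, map_add, map_smul]
    rw [ih (fun u => g (j :: u))]
    split_ifs <;> simp

/-- `rwN` commutes with linear maps. -/
theorem rwN_map {A B : Type*} [AddCommGroup A] [Module K A] [AddCommGroup B] [Module K B]
    (f : A →ₗ[K] B) (i : I) (w : List I) (g : List I → A) :
    rwN C K i w (fun u => f (g u)) = f (rwN C K i w g) := by
  induction w generalizing g with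
  | nil => simp [rwN]
  | cons j w ih =>
    simp only [rwN, map_add]
    rw [ih (fun u => g (j :: u))]
    split_ifs <;> simp

theorem lwN_eq (i : I) (w : List I) (a : List I → K) : lwN C K i w a = Lw C i w a := by
  induction w generalizing a with
  | nil => rfl
  | cons j w ih => rw [lwN, Lw, ih, smul_eq_mul]

theorem rwN_eq (i : I) (w : List I) (a : List I → K) : rwN C K i w a = Rw C i w a := by
  induction w generalizing a with
  | nil => rfl
  | cons j w ih => rw [rwN, Rw, ih, smul_eq_mul]

/-- Post-composition. -/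
theorem lwN_comp (f : M →ₗ[K] M) (i : I) (w : List I) (g : List I → (M →ₗ[K] M)) :
    lwN C K i w (fun u => f ∘ₗ g u) = f ∘ₗ lwN C K i w g :=
  lwN_map (LinearMap.compRight K f) i w g

theorem rwN_comp (f : M →ₗ[K] M) (i : I) (w : List I) (g : List I → (M →ₗ[K] M)) :
    rwN C K i w (fun u => f ∘ₗ g u) = f ∘ₗ rwN C K i w g :=
  rwN_map (LinearMap.compRight K f) i w g

namespace Mod

theorem Km_Fw (V : Mod C K M) (i : I) (w : List I) (x : M) :
    V.Km i (V.Fw w x) = qq K ^ (pr C i w) • V.Fw w (V.Km i x) := by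
  induction w with
  | nil => simp
  | cons j w ih =>
    rw [Fw_cons, LinearMap.comp_apply, V.kf', ih, map_smul, smul_smul, ← qadd, pr_cons]
    rfl

theorem Kp_Fw (V : Mod C K M) (i : I) (w : List I) (x : M) :
    V.Kp i (V.Fw w x) = qq K ^ (-pr C i w) • V.Fw w (V.Kp i x) := by
  induction w with
  | nil => simp
  | cons j w ih =>
    rw [Fw_cons, LinearMap.comp_apply, V.kf, ih, map_smul, smul_smul, ← qadd, pr_cons, neg_add]
    rfl

theorem Kp_Ew (V : Mod C K M) (i : I) (w : List I) (x : M) :
    V.Kp i (V.Ew w x) = qq K ^ (pr C i w) • V.Ew w (V.Kp i x) := by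
  induction w with
  | nil => simp
  | cons j w ih =>
    rw [Ew_cons, LinearMap.comp_apply, V.ke, ih, map_smul, smul_smul, ← qadd, pr_cons]
    rfl

theorem Km_Ew (V : Mod C K M) (i : I) (w : List I) (x : M) :
    V.Km i (V.Ew w x) = qq K ^ (-pr C i w) • V.Ew w (V.Km i x) := by
  induction w with
  | nil => simp
  | cons j w ih =>
    rw [Ew_cons, LinearMap.comp_apply, V.ke', ih, map_smul, smul_smul, ← qadd, pr_cons, neg_add]
    rfl

end Mod

/-- The commutator of `E_i` and `F_w`. -/
theorem comm_EF (V : Mod C K M) (i : I) (w : List I) :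
    V.E i ∘ₗ V.Fw w - V.Fw w ∘ₗ V.E i = (hq K (C.d i))⁻¹ •
      (V.Kp i ∘ₗ lwN C K i w V.Fw - rwN C K i w V.Fw ∘ₗ V.Km i) := by
  induction w with
  | nil => simp [lwN, rwN]
  | cons j w ih =>
    have h1 : lwN C K i (j :: w) V.Fw =
        (if j = i then V.Fw w else 0) + qq K ^ (C.br i j) • V.F j ∘ₗ lwN C K i w V.Fw := by
      rw [lwN]; congr 2; exact lwN_comp (V.F j) i w V.Fw
    have h2 : rwN C K i (j :: w) V.Fw =
        (if j = i then qq K ^ (pr C i w) • V.Fw w else 0) + V.F j ∘ₗ rwN C K i w V.Fw := by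
      rw [rwN]; congr 1; exact rwN_comp (V.F j) i w V.Fw
    rw [h1, h2]
    ext x
    have ihx := LinearMap.congr_fun ih x
    simp only [LinearMap.sub_apply, LinearMap.comp_apply, LinearMap.smul_apply] at ihx
    have e1 := V.ef i j (V.Fw w x)
    have e2 := V.kf i j (lwN C K i w V.Fw x)
    have e3 := V.Km_Fw i w x
    have e4 : V.E i (V.Fw w x) = V.Fw w (V.E i x) + (hq K (C.d i))⁻¹ •
      (V.Kp i (lwN C K i w V.Fw x) - rwN C K i w V.Fw (V.Km i x)) := by rw [← ihx]; abel
    have e5 : V.E i (V.F j (V.Fw w x)) = V.F j (V.E i (V.Fw w x)) +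
      (if i = j then (hq K (C.d i))⁻¹ • (V.Kp i (V.Fw w x) - V.Km i (V.Fw w x)) else 0) := by
      rw [← e1]; abel
    simp only [LinearMap.sub_apply, LinearMap.comp_apply, LinearMap.smul_apply, Mod.Fw_cons,
      LinearMap.add_apply, map_add, map_smul]
    rw [e5, e4, e2, smul_smul (qq K ^ (C.br i j)), ← qadd, add_neg_cancel, zpow_zero, one_smul]
    simp only [map_add, map_smul, map_sub]
    by_cases h : i = j
    · subst h
      simp only [if_true, e3, LinearMap.smul_apply]
      module
    · simp only [h, Ne.symm h, if_false, LinearMap.zero_apply, map_zero]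
      module

/-- The commutator of `F_i` and `E_w`. -/
theorem comm_FE (V : Mod C K M) (i : I) (w : List I) :
    V.F i ∘ₗ V.Ew w - V.Ew w ∘ₗ V.F i = (hq K (C.d i))⁻¹ •
      (V.Km i ∘ₗ lwN C K i w V.Ew - rwN C K i w V.Ew ∘ₗ V.Kp i) := by
  induction w with
  | nil => simp [lwN, rwN]
  | cons j w ih =>
    have h1 : lwN C K i (j :: w) V.Ew =
        (if j = i then V.Ew w else 0) + qq K ^ (C.br i j) • V.E j ∘ₗ lwN C K i w V.Ew := by
      rw [lwN]; congr 2; exact lwN_comp (V.E j) i w V.Ew
    have h2 : rwN C K i (j :: w) V.Ew =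
        (if j = i then qq K ^ (pr C i w) • V.Ew w else 0) + V.E j ∘ₗ rwN C K i w V.Ew := by
      rw [rwN]; congr 1; exact rwN_comp (V.E j) i w V.Ew
    rw [h1, h2]
    ext x
    have ihx := LinearMap.congr_fun ih x
    simp only [LinearMap.sub_apply, LinearMap.comp_apply, LinearMap.smul_apply] at ihx
    have e1 := V.ef j i (V.Ew w x)
    have e2 := V.ke' i j (lwN C K i w V.Ew x)
    have e3 := V.Kp_Ew i w x
    have e4 : V.F i (V.Ew w x) = V.Ew w (V.F i x) + (hq K (C.d i))⁻¹ •
      (V.Km i (lwN C K i w V.Ew x) - rwN C K i w V.Ew (V.Kp i x)) := by rw [← ihx]; abel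
    have e5 : V.F i (V.E j (V.Ew w x)) = V.E j (V.F i (V.Ew w x)) -
      (if j = i then (hq K (C.d j))⁻¹ • (V.Kp j (V.Ew w x) - V.Km j (V.Ew w x)) else 0) := by
      rw [← e1]; abel
    simp only [LinearMap.sub_apply, LinearMap.comp_apply, LinearMap.smul_apply, Mod.Ew_cons,
      LinearMap.add_apply, map_add, map_smul]
    rw [e5, e4, e2, smul_smul (qq K ^ (C.br i j)), ← qadd, add_neg_cancel, zpow_zero, one_smul]
    simp only [map_add, map_smul, map_sub]
    by_cases h : j = i
    · subst h
      simp only [if_true, e3, LinearMap.smul_apply]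
      module
    · simp only [h, if_false, LinearMap.zero_apply, map_zero]
      module

end Pool.Agent.H387.QR
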