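import Pool.Agent.H387.QR.Defs

/-!
# Weight operators, projectors on the invariants, pairings: definitions
-/

namespace Pool.Agent.H387.QR

open scoped TensorProduct

variable {I : Type} [Fintype I] [DecidableEq I] {C : Cartan I} {K : Type*} [Field K] [HasQ K]
variable {M : Type*} [AddCommGroup M] [Module K M] {N : Type*} [AddCommGroup N] [Module K N]

/-- The weight (in terms of the pairings with the coroots) of `∑_j k_j α_j`. -/
def Cartan.rt (C : Cartan I) (k : I → ℤ) : I → ℤ := fun i => ∑ j, C.a i j * k j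

/-- `(μ, μ + 2 ρ)` for `μ = ∑ k_j α_j`. -/
def Cartan.nrm (C : Cartan I) (k : I → ℤ) : ℤ :=
  ∑ i, ∑ j, k i * C.br i j * k j + ∑ j, 2 * (C.d j : ℤ) * k j

/-- An `R`-lattice stable under `E_i`, `F_i` and spanned by its weight vectors. -/
structure Mod.Stab (V : Mod C K M) (L : Submodule (RR K) M) : Prop where
  E : ∀ i, ∀ x ∈ L, V.E i x ∈ L
  F : ∀ i, ∀ x ∈ L, V.F i x ∈ L
  wt : L ≤ Submodule.span (RR K) {x | x ∈ L ∧ ∃ m : I → ℤ, x ∈ V.wt m}

/-- An equivariant projector on the invariants, preserving all stable `R`-lattices; `fac`: it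
fixes all functionals which vanish on the images of the `E_i`, `F_i`. -/
structure Mod.Proj (V : Mod C K M) where
  /-- the projector -/
  p : M →ₗ[K] M
  mem : ∀ x, p x ∈ V.Inv
  id : ∀ x ∈ V.Inv, p x = x
  E : ∀ i x, p (V.E i x) = 0
  F : ∀ i x, p (V.F i x) = 0
  fac : ∀ φ : M →ₗ[K] K, (∀ i x, φ (V.E i x) = 0) → (∀ i x, φ (V.F i x) = 0) →
    ∀ x, φ (p x) = φ x
  int : ∀ L : Submodule (RR K) M, V.Stab L → ∀ x ∈ L, p x ∈ L

/-- The integral Casimir operator. -/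
structure Mod.Cas (V : Mod C K M) where
  /-- the operator -/
  T : M →ₗ[K] M
  E : ∀ i x, T (V.E i x) = V.E i (T x)
  F : ∀ i x, T (V.F i x) = V.F i (T x)
  Kp : ∀ i x, T (V.Kp i x) = V.Kp i (T x)
  /-- a bound for the length -/
  n : ℕ
  /-- the coefficients -/
  r : (I → ℤ) → List I → List I → K
  r_mem : ∀ k u v, r k u v ∈ RR K
  apply : ∀ k, ∀ x ∈ V.wt (C.rt k), T x =
    ((hq K 1)⁻¹ * (qq K ^ (-C.nrm k) - 1)) • x +
      ∑ m ∈ Finset.range n, ∑ u ∈ wd I (m + 1), ∑ v ∈ wd I (m + 1),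
        r k u v • V.Fw u (V.Ew v x)

section nest

variable {M₁ M₂ N₁ N₂ : Type*} [AddCommGroup M₁] [Module K M₁] [AddCommGroup M₂] [Module K M₂]
  [AddCommGroup N₁] [Module K N₁] [AddCommGroup N₂] [Module K N₂]

@[simp] theorem nest_tmul (ev₁ : N₁ →ₗ[K] M₁ →ₗ[K] K) (ev₂ : N₂ →ₗ[K] M₂ →ₗ[K] K)
    (y₂ : N₂) (y₁ : N₁) (x₁ : M₁) (x₂ : M₂) :
    nest ev₁ ev₂ (y₂ ⊗ₜ y₁) (x₁ ⊗ₜ x₂) = ev₁ y₁ x₁ * ev₂ y₂ x₂ := by
  simp [nest]

end nest

/-- The tensor product of two `R`-lattices. -/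
def lt (L₁ : Submodule (RR K) M) (L₂ : Submodule (RR K) N) : Submodule (RR K) (M ⊗[K] N) :=
  Submodule.span (RR K) {z | ∃ x ∈ L₁, ∃ y ∈ L₂, z = x ⊗ₜ[K] y}

/-- `v` is a highest weight vector generating `V`. -/
structure IsHigh (V : Mod C K M) (m : I → ℤ) (v : M) : Prop where
  wt : v ∈ V.wt m
  E : ∀ i, V.E i v = 0
  span : Submodule.span K (Set.range fun w => V.Fw w v) = ⊤
  ne : v ≠ 0

/-- `l` is a lowest weight vector generating `V`. -/
structure IsLow (V : Mod C K M) (m : I → ℤ) (l : M) : Prop where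
  wt : l ∈ V.wt m
  F : ∀ i, V.F i l = 0
  span : Submodule.span K (Set.range fun w => V.Ew w l) = ⊤
  ne : l ≠ 0

/-- A semilinear bar involution. -/
structure IsBar (bar : K →+* K) (V : Mod C K M) (β : M →ₛₗ[bar] M) : Prop where
  E : ∀ i x, β (V.E i x) = V.E i (β x)
  F : ∀ i x, β (V.F i x) = V.F i (β x)
  Kp : ∀ i x, β (V.Kp i x) = V.Km i (β x)

end Pool.Agent.H387.QR
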