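import Pool.Agent.H387.QR.Defs2

/-!
# The nested pairing on triple tensor products; twisted (parity) semilinear maps: definitions
-/

namespace Pool.Agent.H387.QR

open scoped TensorProduct

variable {I : Type} [Fintype I] [DecidableEq I] {C : Cartan I} {K : Type*} [Field K] [HasQ K]

section pair3

variable {M₁ M₂ M₃ N₁ N₂ N₃ : Type*} [AddCommGroup M₁] [Module K M₁] [AddCommGroup M₂] [Module K M₂]
  [AddCommGroup M₃] [Module K M₃]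
  [AddCommGroup N₁] [Module K N₁] [AddCommGroup N₂] [Module K N₂] [AddCommGroup N₃] [Module K N₃]

@[simp] theorem pair3_tmul (ev₁ : N₁ →ₗ[K] M₁ →ₗ[K] K) (ev₂ : N₂ →ₗ[K] M₂ →ₗ[K] K)
    (ev₃ : N₃ →ₗ[K] M₃ →ₗ[K] K) (y₃ : N₃) (y₂ : N₂) (y₁ : N₁) (x₁ : M₁) (x₂ : M₂) (x₃ : M₃) :
    pair3 ev₁ ev₂ ev₃ ((y₃ ⊗ₜ y₂) ⊗ₜ y₁) ((x₁ ⊗ₜ x₂) ⊗ₜ x₃) =
      ev₁ y₁ x₁ * ev₂ y₂ x₂ * ev₃ y₃ x₃ := by
  simp [pair3]

end pair3

section tbar

variable {M : Type*} [AddCommGroup M] [Module K M] {N : Type*} [AddCommGroup N] [Module K N]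

/-- The bar involution `Θ ∘ (β_V ⊗ β_W)` on a tensor product (with `Θ` truncated at `n`). -/
noncomputable def tbar {bar : K →+* K} (g : GInv C K) (n : ℕ) (V : Mod C K M) (W : Mod C K N)
    (βV : M →ₛₗ[bar] M) (βW : N →ₛₗ[bar] N) : M ⊗[K] N →ₛₗ[bar] M ⊗[K] N :=
  (Theta V W g n).comp (TensorProduct.map βV βW)

theorem tbar_tmul {bar : K →+* K} (g : GInv C K) (n : ℕ) (V : Mod C K M) (W : Mod C K N)
    (βV : M →ₛₗ[bar] M) (βW : N →ₛₗ[bar] N) (x : M) (y : N) :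
    tbar g n V W βV βW (x ⊗ₜ y) = Theta V W g n (βV x ⊗ₜ βW y) := rfl

end tbar

end Pool.Agent.H387.QR
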