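import Pool.Agent.H387.QR.Defs3

/-!
# Twisted (parity) semilinear maps, weight spaces relative to a weight: definitions
-/

namespace Pool.Agent.H387.QR

open scoped TensorProduct

variable {I : Type} [Fintype I] [DecidableEq I] {C : Cartan I} {K : Type*} [Field K] [HasQ K]
variable {M : Type*} [AddCommGroup M] [Module K M] {N : Type*} [AddCommGroup N] [Module K N]

/-- The vectors with `K_i x = q ^ (n i - ∑_j (α_i, α_j) k_j) x` (that is, weight `n - ∑ k_j α_j`). -/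
def Mod.off (V : Mod C K M) (n k : I → ℤ) : Submodule K M where
  carrier := {x | ∀ i, V.Kp i x = qq K ^ (n i - ∑ j, C.br i j * k j) • x}
  add_mem' {x y} hx hy i := by rw [map_add, hx i, hy i, smul_add]
  zero_mem' i := by simp
  smul_mem' c x hx i := by rw [map_smul, hx i, smul_comm]

theorem mem_off {V : Mod C K M} {n k : I → ℤ} {x : M} :
    x ∈ V.off n k ↔ ∀ i, V.Kp i x = qq K ^ (n i - ∑ j, C.br i j * k j) • x := Iff.rfl

/-- A semilinear map `s` commuting with the `F_i`, `E_i` up to signs depending on the weight. -/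
structure IsTw (σ : K →+* K) (V : Mod C K M) (β : I → I → ℤ) (n φ : I → ℤ) (s : M →ₛₗ[σ] M) :
    Prop where
  dec : ⨆ k : I → ℤ, V.off n k = ⊤
  off : ∀ k, ∀ x ∈ V.off n k, s x ∈ V.off n k
  F : ∀ i k, ∀ x ∈ V.off n k,
    s (V.F i x) = (-1 : K) ^ (∑ j, β i j * k j + φ i) • V.F i (s x)
  E : ∀ i k, ∀ x ∈ V.off n k,
    s (V.E i x) = (-1 : K) ^ (∑ j, β j i * k j + n i + C.d i + β i i + φ i) • V.E i (s x)
  inv : ∀ x, s (s x) = x

/-- The sign exponent of the pairing, `(k,k)/2 + ∑ (d_i + β_ii + n_i + φ_i + φ'_i) k_i`. -/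
def omg (C : Cartan I) (β : I → I → ℤ) (n φ φ' k : I → ℤ) : ℤ :=
  (∑ i, ∑ j, k i * C.br i j * k j) / 2 + ∑ i, (C.d i + β i i + n i + φ i + φ' i) * k i

/-- `s`, `s'` are compatible with the pairing `ev`, up to signs and a scalar `u`. -/
def TwPair (σ : K →+* K) (V' : Mod C K N) (V : Mod C K M) (ev : N →ₗ[K] M →ₗ[K] K)
    (β : I → I → ℤ) (n φ φ' : I → ℤ) (s' : N →ₛₗ[σ] N) (s : M →ₛₗ[σ] M) (u : K) : Prop :=
  ∀ k : I → ℤ, ∀ x ∈ V.off n k, ∀ y ∈ V'.off (-n) (-k),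
    ev (s' y) (s x) = u * (-1 : K) ^ omg C β n φ φ' k * σ (ev y x)

end Pool.Agent.H387.QR
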