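import Pool.Agent.H387.QR.Defs4

/-!
# The `R`-forms generated by extremal vectors; the module twisted by `ω`
-/

namespace Pool.Agent.H387.QR

open scoped TensorProduct

variable {I : Type} [Fintype I] [DecidableEq I] {C : Cartan I} {K : Type*} [Field K] [HasQ K]
variable {M : Type*} [AddCommGroup M] [Module K M]

/-- The `R`-form generated by the highest weight vector. -/
def latF (V : Mod C K M) (v : M) : Submodule (RR K) M :=
  Submodule.span (RR K) (Set.range fun w => V.Fw w v)

/-- The `R`-form generated by the lowest weight vector. -/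
def latE (V : Mod C K M) (v : M) : Submodule (RR K) M :=
  Submodule.span (RR K) (Set.range fun w => V.Ew w v)

/-- The module twisted by the automorphism `E ↔ F`, `K ↔ K⁻¹`. -/
def Mod.omega (V : Mod C K M) : Mod C K M where
  E := V.F
  F := V.E
  Kp := V.Km
  Km := V.Kp
  kpkm := V.kmkp
  kmkp := V.kpkm
  kcomm := V.kcomm''
  ke i j x := by rw [V.kf' i j x]
  kf i j x := by rw [V.ke' i j x]
  ef i j x := by
    have h := V.ef j i x
    rw [← neg_sub, h]
    by_cases hij : i = j
    · subst hij
      simp only [if_true]
      rw [← smul_neg, neg_sub]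
    · simp [hij, Ne.symm hij]

@[simp] theorem Mod.omega_E (V : Mod C K M) (i : I) : V.omega.E i = V.F i := rfl
@[simp] theorem Mod.omega_F (V : Mod C K M) (i : I) : V.omega.F i = V.E i := rfl
@[simp] theorem Mod.omega_Kp (V : Mod C K M) (i : I) : V.omega.Kp i = V.Km i := rfl
@[simp] theorem Mod.omega_Km (V : Mod C K M) (i : I) : V.omega.Km i = V.Kp i := rfl

theorem Mod.omega_Ew (V : Mod C K M) (w : List I) : V.omega.Ew w = V.Fw w := by
  induction w with
  | nil => rfl
  | cons i w ih => rw [Ew_cons, Fw_cons, ih]; rfl

theorem Mod.omega_Fw (V : Mod C K M) (w : List I) : V.omega.Fw w = V.Ew w := by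
  induction w with
  | nil => rfl
  | cons i w ih => rw [Ew_cons, Fw_cons, ih]; rfl

end Pool.Agent.H387.QR
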