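import Pool.Agent.H387.QR.Defs2

/-!
# Content spaces in the shuffle algebra: definitions
-/

namespace Pool.Agent.H387.QR

variable {I : Type} [Fintype I] [DecidableEq I] (C : Cartan I) (K : Type*) [Field K] [HasQ K]

/-- The span of the functions of the words of content `η`. -/
def fc (η : Multiset I) : Submodule K (Fn I K) :=
  Submodule.span K {a | ∃ w : List I, (w : Multiset I) = η ∧ a = ph C w}

/-- The `RR`-span of the functions of the words of content `η`. -/
def fR (η : Multiset I) : Submodule (RR K) (Fn I K) :=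
  Submodule.span (RR K) {a | ∃ w : List I, (w : Multiset I) = η ∧ a = ph C w}

/-- The pairing of a content with a coroot: `⟨η, α_i^∨⟩ = ∑_{j ∈ η} a_ij`. -/
def cor (η : Multiset I) (i : I) : ℤ := (η.map (C.a i)).sum

/-- The operator `ad_i = L_i - R_i Q_i⁻¹`. -/
def adop (i : I) : Fn I K →ₗ[K] Fn I K := Lop C i - Rop C i ∘ₗ Qinv C i

end Pool.Agent.H387.QR
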