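import Pool.Agent.H387.QR.P07A

/-!
# T07B. Bar-invariance of the nested pairing of invariants

You may use the lemmas `rad_of_finite`, `tensor_isWt`, `Fw_nilp`, `Theta_E`, `Theta_F`, `Theta_Kp` below
as sorry-ed lemmas (they are proved in other subtasks; in your final file keep them as sorry-ed
statements of exactly this form at the top; I plug the proofs in).

Notation: coproduct `Δ(E) = E ⊗ 1 + K ⊗ E`, `Δ(F) = F ⊗ K⁻¹ + 1 ⊗ F`.  `TensorProduct.map` exists for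
SEMILINEAR maps in this Mathlib.  `tbar g n V W βV βW = Θ ∘ (βV ⊗ βW)` (Defs3).

You may also use `Theta_low`, `Theta_high`, `tbar_isBar` (proved in T07A) as sorry-ed lemmas.

PROOF.
Step 0.  `Θ(x ⊗ y) = x ⊗ y` if `F_i x = 0` for all `i`, or if `E_i y = 0` for all `i`: `Theta_low/high`.
Step 1.  If `β_V`, `β_W` are bars then `tbar = Θ ∘ (β_V ⊗ β_W)` is a bar on `V.tensor W`: `tbar_isBar`.
Step 2 (generation).  Let `Y' = V₃' ⊗ X'`, `Y = X ⊗ V₃`, `l` a lowest vector generating `V₃'`, `v` a highest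
vector generating `V₃`.  If `B : Y' → Y → K` is invariant (`IsPair`) and `B(l ⊗ x', x ⊗ v) = 0` for all
`x', x`, then `B = 0`: first `B(l ⊗ x', x ⊗ F_w v) = 0` by induction on `w` (all `x, x'`):
`x ⊗ F_i z = F_i (x ⊗ z) - F_i x ⊗ K_i⁻¹ z`, and
`B(l ⊗ x', F_i t) = - B(F_i (l ⊗ x'), K_i⁻¹ t) = - B(l ⊗ F_i x', K_i⁻¹ t)` (`F_i l = 0`; here
`Δ(F_i)(l ⊗ x') = F_i l ⊗ K_i⁻¹ x' + l ⊗ F_i x'`); `K_i⁻¹ (x ⊗ z) = K_i⁻¹ x ⊗ K_i⁻¹ z` and `K_i⁻¹ F_w v` is a
multiple of `F_w v`.  Then `B(E_w l ⊗ x', y) = 0` for all `x', y` by induction on `w`: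
`E_i z ⊗ x' = E_i (z ⊗ x') - K_i z ⊗ E_i x'`, `B(E_i t, y) = - B(K_i t, E_i y)`.
Base version: an invariant `B : V₁' → V₁ → K` with `B(l, v) = 0` is `0` (same proof without `X`, `X'`;
or take for `X`, `X'` the trivial module `K`).
Step 3.  For modules `X'`, `X` with bars `β'`, `β` and an invariant pairing `ev` put
`B♯(y, x) = bar (ev^lin (Θ (β' y ⊗ β x)))`, `ev^lin : X' ⊗ X → K` linear (`TensorProduct.lift ev`), so
`B♯(y, x) = bar (∑_u t_u ev(F_u β' y, Et_u β x))`.  It is bilinear and invariant: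
`B♯(E_i y, x) + B♯(K_i y, E_i x) = bar (ev^lin Θ (E_i β'y ⊗ βx + K_i⁻¹ β'y ⊗ E_i βx))
 = bar (ev^lin (E_i Θ(..))) = 0`, etc.
Claim(X', X): `B♯ = ev`.
 * Claim(V₁', V₁) holds by the base version of Step 2: `B♯(l, v) = bar (ev(l, v)) = 1`
   (`β' l = l`, `β v = v`, Step 0).
 * Claim(X', X) implies Claim(Y', Y) for `Y' = V₃' ⊗ X'`, `Y = X ⊗ V₃` with the bars of Step 1 and the
   pairing `nest ev_X ev_3`: by Step 2 it suffices to compare on `(l ⊗ x', x ⊗ v)`.  By Step 0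
   `β_{Y'}(l ⊗ x') = l ⊗ β' x'`, `β_Y(x ⊗ v) = βx ⊗ v`; and `F_u (l ⊗ x') = l ⊗ F_u x'`,
   `E_v (x ⊗ v) = E_v x ⊗ v` (so `Et_u (x ⊗ v) = Et_u x ⊗ v`); hence
   `B♯_Y(l ⊗ x', x ⊗ v) = B♯_X(x', x) * bar (ev_3(l, v)) = ev_X(x', x) = ev_Y(l ⊗ x', x ⊗ v)`.
   (Take one `n` large for all modules involved.)
Step 4.  `f ∈ Inv`, `tbar f = f`, `y ∈ Inv`, `tbar y = y`.  By the claims (base, then twice the induction
step: `X = V₁ ⊗ V₂`, `Y = X ⊗ V₃`), `B♯(y, f) = nest (nest ev₁ ev₂) ev₃ y f`; and as `Et_u f = 0` for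
`u ≠ []` (so `Θ(y ⊗ f) = y ⊗ f`, `Theta_high`), `B♯(y, f) = bar (ev (tbar y) (tbar f)) = bar (ev y f)`.
-/

namespace Pool.Agent.H387.QR

open scoped TensorProduct

variable {I : Type} [Fintype I] [DecidableEq I] {C : Cartan I} {K : Type*} [Field K] [HasQ K]


variable {bar : K →+* K}


namespace T07B

section aux

variable {M : Type*} [AddCommGroup M] [Module K M] {N : Type*} [AddCommGroup N] [Module K N]
variable {M' : Type*} [AddCommGroup M'] [Module K M'] {N' : Type*} [AddCommGroup N'] [Module K N']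

theorem tE (V : Mod C K M) (W : Mod C K N) (i : I) (x : M) (y : N) :
    (V.tensor W).E i (x ⊗ₜ y) = V.E i x ⊗ₜ y + V.Kp i x ⊗ₜ W.E i y := rfl

theorem tF (V : Mod C K M) (W : Mod C K N) (i : I) (x : M) (y : N) :
    (V.tensor W).F i (x ⊗ₜ y) = V.F i x ⊗ₜ W.Km i y + x ⊗ₜ W.F i y := rfl

theorem tKp (V : Mod C K M) (W : Mod C K N) (i : I) (x : M) (y : N) :
    (V.tensor W).Kp i (x ⊗ₜ y) = V.Kp i x ⊗ₜ W.Kp i y := rfl

theorem tKm (V : Mod C K M) (W : Mod C K N) (i : I) (x : M) (y : N) :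
    (V.tensor W).Km i (x ⊗ₜ y) = V.Km i x ⊗ₜ W.Km i y := rfl

theorem pair_Km {V' : Mod C K N} {V : Mod C K M} {ev : N →ₗ[K] M →ₗ[K] K} (p : IsPair V' V ev)
    (i : I) (y : N) (x : M) : ev (V'.Km i y) (V.Km i x) = ev y x := by
  have h := p.Kp i (V'.Km i y) (V.Km i x)
  rw [V'.kpkm, V.kpkm] at h
  exact h.symm

theorem lift_E {V' : Mod C K N} {V : Mod C K M} {ev : N →ₗ[K] M →ₗ[K] K} (p : IsPair V' V ev)
    (i : I) (t : N ⊗[K] M) : TensorProduct.lift ev ((V'.tensor V).E i t) = 0 := by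
  induction t using TensorProduct.induction_on with
  | zero => simp
  | tmul y x => rw [tE, map_add, TensorProduct.lift.tmul, TensorProduct.lift.tmul, p.E i y x]
  | add a b ha hb => rw [map_add, map_add, ha, hb, add_zero]

theorem lift_F {V' : Mod C K N} {V : Mod C K M} {ev : N →ₗ[K] M →ₗ[K] K} (p : IsPair V' V ev)
    (i : I) (t : N ⊗[K] M) : TensorProduct.lift ev ((V'.tensor V).F i t) = 0 := by
  induction t using TensorProduct.induction_on with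
  | zero => simp
  | tmul y x => rw [tF, map_add, TensorProduct.lift.tmul, TensorProduct.lift.tmul, p.F i y x]
  | add a b ha hb => rw [map_add, map_add, ha, hb, add_zero]

theorem lift_Km {V' : Mod C K N} {V : Mod C K M} {ev : N →ₗ[K] M →ₗ[K] K} (p : IsPair V' V ev)
    (i : I) (t : N ⊗[K] M) :
    TensorProduct.lift ev ((V'.tensor V).Km i t) = TensorProduct.lift ev t := by
  induction t using TensorProduct.induction_on with
  | zero => simp
  | tmul y x => rw [tKm, TensorProduct.lift.tmul, TensorProduct.lift.tmul, pair_Km p i y x]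
  | add a b ha hb => rw [map_add, map_add, map_add, ha, hb]

theorem pair_sub {V' : Mod C K N} {V : Mod C K M} {a b : N →ₗ[K] M →ₗ[K] K} (p : IsPair V' V a)
    (p' : IsPair V' V b) : IsPair V' V (a - b) := by
  refine ⟨fun i y x => ?_, fun i y x => ?_, fun i y x => ?_⟩
  · have h1 := p.E i y x
    have h2 := p'.E i y x
    simp only [LinearMap.sub_apply]
    linear_combination h1 - h2
  · have h1 := p.F i y x
    have h2 := p'.F i y x
    simp only [LinearMap.sub_apply]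
    linear_combination h1 - h2
  · have h1 := p.Kp i y x
    have h2 := p'.Kp i y x
    simp only [LinearMap.sub_apply]
    linear_combination h1 - h2

/-- extensionality on the tensor products -/
theorem ext_four {ev ev' : N' ⊗[K] N →ₗ[K] M ⊗[K] M' →ₗ[K] K}
    (h : ∀ y' y x x', ev (y' ⊗ₜ y) (x ⊗ₜ x') = ev' (y' ⊗ₜ y) (x ⊗ₜ x')) : ev = ev' := by
  refine TensorProduct.ext' fun y' y => ?_
  exact TensorProduct.ext' fun x x' => h y' y x x'

theorem nest_pair {V' : Mod C K N} {V : Mod C K M} {W' : Mod C K N'} {W : Mod C K M'}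
    {ev : N →ₗ[K] M →ₗ[K] K} {ew : N' →ₗ[K] M' →ₗ[K] K} (p : IsPair V' V ev)
    (r : IsPair W' W ew) : IsPair (W'.tensor V') (V.tensor W) (nest ev ew) := by
  refine ⟨fun i => ?_, fun i => ?_, fun i => ?_⟩
  · have h : (nest ev ew) ∘ₗ ((W'.tensor V').E i) +
        ((nest ev ew) ∘ₗ ((W'.tensor V').Kp i)).compl₂ ((V.tensor W).E i) = 0 := by
      refine ext_four fun y' y x x' => ?_
      simp only [LinearMap.add_apply, LinearMap.comp_apply, LinearMap.compl₂_apply, tE, tKp,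
        map_add, nest_tmul, LinearMap.zero_apply]
      have h1 := p.E i y x
      have h2 := r.E i y' x'
      have h3 := p.Kp i y x
      rw [h3]
      linear_combination ev y x * h2 + ew (W'.Kp i y') x' * h1
    intro y x
    exact LinearMap.congr_fun (LinearMap.congr_fun h y) x
  · have h : ((nest ev ew) ∘ₗ ((W'.tensor V').F i)).compl₂ ((V.tensor W).Km i) +
        (nest ev ew).compl₂ ((V.tensor W).F i) = 0 := by
      refine ext_four fun y' y x x' => ?_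
      simp only [LinearMap.add_apply, LinearMap.comp_apply, LinearMap.compl₂_apply, tF, tKm,
        map_add, nest_tmul, LinearMap.zero_apply]
      have h1 := p.F i y x
      have h2 := r.F i y' x'
      have h3 := pair_Km p i y x
      rw [h3]
      linear_combination ev y x * h2 + ew y' (W.Km i x') * h1
    intro y x
    exact LinearMap.congr_fun (LinearMap.congr_fun h y) x
  · have h : ((nest ev ew) ∘ₗ ((W'.tensor V').Kp i)).compl₂ ((V.tensor W).Kp i) = nest ev ew := by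
      refine ext_four fun y' y x x' => ?_
      simp only [LinearMap.comp_apply, LinearMap.compl₂_apply, tKp, nest_tmul]
      rw [p.Kp i y x, r.Kp i y' x']
    intro y x
    exact LinearMap.congr_fun (LinearMap.congr_fun h y) x

/-- the pairing `B♯` -/
noncomputable def Bs (hbb : ∀ x, bar (bar x) = x) (g : GInv C K) (n : ℕ) (V' : Mod C K N)
    (V : Mod C K M) (β' : N →ₛₗ[bar] N) (β : M →ₛₗ[bar] M) (ev : N →ₗ[K] M →ₗ[K] K) :
    N →ₗ[K] M →ₗ[K] K :=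
  LinearMap.mk₂ K (fun y x => bar (TensorProduct.lift ev (tbar g n V' V β' β (y ⊗ₜ x))))
    (by intro a b c; simp only [TensorProduct.add_tmul, map_add])
    (by
      intro r a b
      rw [← TensorProduct.smul_tmul', LinearMap.map_smulₛₗ, map_smul, smul_eq_mul, map_mul, hbb,
        smul_eq_mul])
    (by intro a b c; simp only [TensorProduct.tmul_add, map_add])
    (by
      intro r a b
      rw [TensorProduct.tmul_smul, LinearMap.map_smulₛₗ, map_smul, smul_eq_mul, map_mul, hbb,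
        smul_eq_mul])

theorem Bs_apply (hbb : ∀ x, bar (bar x) = x) (g : GInv C K) (n : ℕ) (V' : Mod C K N)
    (V : Mod C K M) (β' : N →ₛₗ[bar] N) (β : M →ₛₗ[bar] M) (ev : N →ₗ[K] M →ₗ[K] K) (y : N)
    (x : M) : Bs hbb g n V' V β' β ev y x =
      bar (TensorProduct.lift ev (tbar g n V' V β' β (y ⊗ₜ x))) := rfl

theorem Bs_pair (hbb : ∀ x, bar (bar x) = x) (g : GInv C K) (n : ℕ) (V' : Mod C K N)
    (V : Mod C K M) (hV' : V'.Rad) (hV : V.Rad) (hn : ∀ w : List I, n ≤ w.length → V'.Fw w = 0)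
    {β' : N →ₛₗ[bar] N} {β : M →ₛₗ[bar] M} (b' : IsBar bar V' β') (b : IsBar bar V β)
    {ev : N →ₗ[K] M →ₗ[K] K} (p : IsPair V' V ev) :
    IsPair V' V (Bs hbb g n V' V β' β ev) := by
  have hT := tbar_isBar g n V' V hV' hV hn b' b
  refine ⟨fun i y x => ?_, fun i y x => ?_, fun i y x => ?_⟩
  · rw [Bs_apply, Bs_apply, ← map_add, ← map_add, ← map_add, ← tE, hT.E, lift_E p, map_zero]
  · rw [Bs_apply, Bs_apply, ← map_add, ← map_add, ← map_add, ← tF, hT.F, lift_F p, map_zero]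
  · rw [Bs_apply, Bs_apply, ← tKp, hT.Kp, lift_Km p]

theorem wt_Km {V : Mod C K M} {m : I → ℤ} {v : M} (hv : v ∈ V.wt m) (i : I) :
    ∃ c : K, V.Km i v = c • v := by
  have h := Mod.mem_wt.1 hv i
  have h2 := congrArg (V.Km i) h
  rw [V.kmkp, map_smul] at h2
  refine ⟨(qq K ^ ((C.d i : ℤ) * m i))⁻¹, ?_⟩
  have hne : qq K ^ ((C.d i : ℤ) * m i) ≠ 0 := zpow_ne_zero _ HasQ.q_ne
  conv_rhs => rw [h2]
  rw [smul_smul, inv_mul_cancel₀ hne, one_smul]

theorem Fw_Km {V : Mod C K M} {m : I → ℤ} {v : M} (hv : v ∈ V.wt m) (i : I) (w : List I) :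
    ∃ c : K, V.Km i (V.Fw w v) = c • V.Fw w v := by
  obtain ⟨c, hc⟩ := wt_Km hv i
  exact ⟨qq K ^ (pr C i w) * c, by rw [V.Km_Fw, hc, map_smul, smul_smul]⟩

theorem Ew_Kp {V : Mod C K M} {m : I → ℤ} {v : M} (hv : v ∈ V.wt m) (i : I) (w : List I) :
    ∃ c : K, V.Kp i (V.Ew w v) = c • V.Ew w v :=
  ⟨_, by rw [V.Kp_Ew, Mod.mem_wt.1 hv i, map_smul, smul_smul]⟩

/-- a linear map which vanishes on generators vanishes -/
theorem span_zero {A : Type*} [AddCommGroup A] [Module K A] {s : List I → M}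
    (hs : Submodule.span K (Set.range s) = ⊤) (f : M →ₗ[K] A) (h : ∀ w, f (s w) = 0) (x : M) :
    f x = 0 := by
  have hx : x ∈ Submodule.span K (Set.range s) := by rw [hs]; trivial
  induction hx using Submodule.span_induction with
  | mem x hx => obtain ⟨w, rfl⟩ := hx; exact h w
  | zero => exact map_zero f
  | add x y _ _ hx hy => rw [map_add, hx, hy, add_zero]
  | smul c x _ hx => rw [map_smul, hx, smul_zero]

theorem gen_base {V' : Mod C K N} {V : Mod C K M} {B : N →ₗ[K] M →ₗ[K] K} (p : IsPair V' V B)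
    {m m' : I → ℤ} {v : M} {l : N} (a : IsHigh V m v) (c : IsLow V' m' l) (h : B l v = 0) :
    B = 0 := by
  have h1 : ∀ w, B l (V.Fw w v) = 0 := by
    intro w
    cases w with
    | nil => exact h
    | cons i w =>
      have h2 := p.F i l (V.Fw w v)
      rw [c.F i, map_zero, LinearMap.zero_apply, zero_add] at h2
      exact h2
  have h3 : ∀ w x, B (V'.Ew w l) x = 0 := by
    intro w
    induction w with
    | nil => exact fun x => span_zero a.span (B l) h1 x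
    | cons i w ih =>
      intro x
      have h4 := p.E i (V'.Ew w l) x
      obtain ⟨d, hd⟩ := Ew_Kp c.wt i w
      rw [hd, map_smul, LinearMap.smul_apply, ih, smul_zero, add_zero] at h4
      exact h4
  ext y x
  exact LinearMap.congr_fun (span_zero c.span B (fun w => LinearMap.ext (h3 w)) y) x

theorem gen_step {W' : Mod C K N'} {V' : Mod C K N} {V : Mod C K M} {W : Mod C K M'}
    {B : N' ⊗[K] N →ₗ[K] M ⊗[K] M' →ₗ[K] K} (p : IsPair (W'.tensor V') (V.tensor W) B)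
    {m m' : I → ℤ} {v : M'} {l : N'} (a : IsHigh W m v) (c : IsLow W' m' l)
    (h : ∀ x' x, B (l ⊗ₜ x') (x ⊗ₜ v) = 0) : B = 0 := by
  have h1 : ∀ w x' x, B (l ⊗ₜ x') (x ⊗ₜ W.Fw w v) = 0 := by
    intro w
    induction w with
    | nil => exact h
    | cons i w ih =>
      intro x' x
      obtain ⟨d, hd⟩ := Fw_Km a.wt i w
      have h2 := p.F i (l ⊗ₜ x') (x ⊗ₜ W.Fw w v)
      rw [tF, tF, tKm, c.F i, TensorProduct.zero_tmul, zero_add, hd, TensorProduct.tmul_smul,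
        TensorProduct.tmul_smul, map_smul, map_add, map_smul, ih, ih, smul_zero,
        zero_add, zero_add] at h2
      exact h2
  have h3 : ∀ w x' z, B (W'.Ew w l ⊗ₜ x') z = 0 := by
    intro w
    induction w with
    | nil =>
      intro x' z
      induction z using TensorProduct.induction_on with
      | zero => exact map_zero _
      | tmul x y =>
        exact span_zero a.span ((B (l ⊗ₜ x')) ∘ₗ (TensorProduct.mk K M M' x)) (fun w => h1 w x' x) y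
      | add a b ha hb => rw [map_add, ha, hb, add_zero]
    | cons i w ih =>
      intro x' z
      obtain ⟨d, hd⟩ := Ew_Kp c.wt i w
      have h4 := p.E i (W'.Ew w l ⊗ₜ x') z
      rw [tE, tKp, hd, ← TensorProduct.smul_tmul', ← TensorProduct.smul_tmul', map_add,
        LinearMap.add_apply, map_smul, map_smul, LinearMap.smul_apply, LinearMap.smul_apply, ih, ih,
        smul_zero, add_zero, add_zero] at h4
      exact h4
  refine TensorProduct.ext' fun y x' => ?_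
  exact span_zero c.span (B ∘ₗ (TensorProduct.mk K N' N).flip x')
    (fun w => LinearMap.ext (h3 w x')) y

theorem claim_base (hbb : ∀ x, bar (bar x) = x) (g : GInv C K) (n : ℕ) (V' : Mod C K N)
    (V : Mod C K M) (hV' : V'.Rad) (hV : V.Rad) (hn : ∀ w : List I, n ≤ w.length → V'.Fw w = 0)
    {β' : N →ₛₗ[bar] N} {β : M →ₛₗ[bar] M} (b' : IsBar bar V' β') (b : IsBar bar V β)
    {ev : N →ₗ[K] M →ₗ[K] K} (p : IsPair V' V ev) {m m' : I → ℤ} {v : M} {l : N}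
    (a : IsHigh V m v) (c : IsLow V' m' l) (ev0 : β v = v) (el0 : β' l = l) (r : ev l v = 1) :
    Bs hbb g n V' V β' β ev = ev := by
  rw [← sub_eq_zero]
  refine gen_base (pair_sub (Bs_pair hbb g n V' V hV' hV hn b' b p) p) a c ?_
  rw [LinearMap.sub_apply, LinearMap.sub_apply, Bs_apply, tbar_tmul, ev0, el0,
    Theta_low g n V' V c.F, TensorProduct.lift.tmul, r, map_one, sub_self]

theorem Fw_low {W' : Mod C K N'} {V' : Mod C K N} {l : N'} (hl : ∀ i, W'.F i l = 0) (u : List I)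
    (x : N) : (W'.tensor V').Fw u (l ⊗ₜ x) = l ⊗ₜ V'.Fw u x := by
  induction u with
  | nil => rfl
  | cons i u ih =>
    rw [Mod.Fw_cons, LinearMap.comp_apply, ih, tF, hl, TensorProduct.zero_tmul, zero_add]
    rfl

theorem Ew_high {V : Mod C K M} {W : Mod C K M'} {v : M'} (hv : ∀ i, W.E i v = 0) (u : List I)
    (x : M) : (V.tensor W).Ew u (x ⊗ₜ v) = V.Ew u x ⊗ₜ v := by
  induction u with
  | nil => rfl
  | cons i u ih =>
    rw [Mod.Ew_cons, LinearMap.comp_apply, ih, tE, hv, TensorProduct.tmul_zero, add_zero]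
    rfl

theorem Et_high (g : GInv C K) {V : Mod C K M} {W : Mod C K M'} {v : M'} (hv : ∀ i, W.E i v = 0)
    (u : List I) (x : M) : (V.tensor W).Et g u (x ⊗ₜ v) = V.Et g u x ⊗ₜ v := by
  unfold Mod.Et
  rw [LinearMap.sum_apply, LinearMap.sum_apply, TensorProduct.sum_tmul]
  refine Finset.sum_congr rfl fun w _ => ?_
  rw [LinearMap.smul_apply, LinearMap.smul_apply, Ew_high hv, TensorProduct.smul_tmul']

theorem Theta_nest (g : GInv C K) (n : ℕ) {W' : Mod C K N'} {V' : Mod C K N} {V : Mod C K M}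
    {W : Mod C K M'} {v : M'} {l : N'} (hv : ∀ i, W.E i v = 0) (hl : ∀ i, W'.F i l = 0)
    (ev : N →ₗ[K] M →ₗ[K] K) (ew : N' →ₗ[K] M' →ₗ[K] K) (y : N) (x : M) :
    TensorProduct.lift (nest ev ew)
      (Theta (W'.tensor V') (V.tensor W) g n ((l ⊗ₜ y) ⊗ₜ (x ⊗ₜ v))) =
    TensorProduct.lift ev (Theta V' V g n (y ⊗ₜ x)) * ew l v := by
  unfold Theta
  simp only [LinearMap.sum_apply, LinearMap.smul_apply, TensorProduct.map_tmul, map_sum, map_smul,
    TensorProduct.lift.tmul, Fw_low hl, Et_high g hv, nest_tmul, Finset.sum_mul, smul_eq_mul,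
    mul_assoc]

theorem claim_step (hbb : ∀ x, bar (bar x) = x) (g : GInv C K) (n : ℕ) (W' : Mod C K N')
    (V' : Mod C K N) (V : Mod C K M) (W : Mod C K M')
    (hV' : V'.Rad) (hV : V.Rad) (hW' : W'.Rad) (hW : W.Rad)
    (hWV' : (W'.tensor V').Rad) (hVW : (V.tensor W).Rad)
    (hnV : ∀ w : List I, n ≤ w.length → V.Fw w = 0)
    (hnW' : ∀ w : List I, n ≤ w.length → W'.Fw w = 0)
    (hn : ∀ w : List I, n ≤ w.length → (W'.tensor V').Fw w = 0)
    {β' : N →ₛₗ[bar] N} {β : M →ₛₗ[bar] M} (b' : IsBar bar V' β') (b : IsBar bar V β)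
    {γ' : N' →ₛₗ[bar] N'} {γ : M' →ₛₗ[bar] M'} (d' : IsBar bar W' γ') (d : IsBar bar W γ)
    {ev : N →ₗ[K] M →ₗ[K] K} (p : IsPair V' V ev) {ew : N' →ₗ[K] M' →ₗ[K] K}
    (pw : IsPair W' W ew) {m m' : I → ℤ} {v : M'} {l : N'}
    (a : IsHigh W m v) (c : IsLow W' m' l) (ev0 : γ v = v) (el0 : γ' l = l) (r : ew l v = 1)
    (hcl : Bs hbb g n V' V β' β ev = ev) :
    Bs hbb g n (W'.tensor V') (V.tensor W) (tbar g n W' V' γ' β') (tbar g n V W β γ)
      (nest ev ew) = nest ev ew := by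
  rw [← sub_eq_zero]
  refine gen_step (pair_sub (Bs_pair hbb g n _ _ hWV' hVW hn (tbar_isBar g n W' V' hW' hV' hnW' d' b')
    (tbar_isBar g n V W hV hW hnV b d) (nest_pair p pw)) (nest_pair p pw)) a c ?_
  intro y x
  have h1 := LinearMap.congr_fun (LinearMap.congr_fun hcl y) x
  rw [Bs_apply, tbar_tmul] at h1
  rw [LinearMap.sub_apply, LinearMap.sub_apply, Bs_apply, tbar_tmul, tbar_tmul, tbar_tmul, ev0, el0,
    Theta_low g n W' V' c.F, Theta_high g n V W _ a.E, Theta_nest g n a.E c.F, r, mul_one, h1,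
    nest_tmul, r, mul_one, sub_self]

end aux

end T07B

variable {M₁ M₂ M₃ N₁ N₂ N₃ : Type*} [AddCommGroup M₁] [Module K M₁] [AddCommGroup M₂] [Module K M₂]
  [AddCommGroup M₃] [Module K M₃]
  [AddCommGroup N₁] [Module K N₁] [AddCommGroup N₂] [Module K N₂] [AddCommGroup N₃] [Module K N₃]
  [Module.Finite K M₁] [Module.Finite K M₂] [Module.Finite K M₃]
  [Module.Finite K N₁] [Module.Finite K N₂] [Module.Finite K N₃]

theorem bar_inv_nest (g : GInv C K) (hbar : bar (qq K) = (qq K)⁻¹) (hbb : ∀ x, bar (bar x) = x)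
    (n : ℕ) (V₁ : Mod C K M₁) (V₂ : Mod C K M₂) (V₃ : Mod C K M₃)
    (V₁' : Mod C K N₁) (V₂' : Mod C K N₂) (V₃' : Mod C K N₃)
    (h₁ : V₁.IsWt) (h₂ : V₂.IsWt) (h₃ : V₃.IsWt) (h₁' : V₁'.IsWt) (h₂' : V₂'.IsWt) (h₃' : V₃'.IsWt)
    -- `n` is large enough for all modules:
    (k₁ : ∀ w : List I, n ≤ w.length → V₁.Fw w = 0)
    (k₂ : ∀ w : List I, n ≤ w.length → (V₁.tensor V₂).Fw w = 0)
    (k₁' : ∀ w : List I, n ≤ w.length → V₁'.Fw w = 0)
    (k₂' : ∀ w : List I, n ≤ w.length → V₂'.Fw w = 0)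
    (k₃' : ∀ w : List I, n ≤ w.length → V₃'.Fw w = 0)
    (k₂₁' : ∀ w : List I, n ≤ w.length → (V₂'.tensor V₁').Fw w = 0)
    (k₃₂₁' : ∀ w : List I, n ≤ w.length → (V₃'.tensor (V₂'.tensor V₁')).Fw w = 0)
    {m₁ m₂ m₃ n₁' n₂' n₃' : I → ℤ}
    {v₁ : M₁} {v₂ : M₂} {v₃ : M₃} {l₁' : N₁} {l₂' : N₂} {l₃' : N₃}
    (a₁ : IsHigh V₁ m₁ v₁) (a₂ : IsHigh V₂ m₂ v₂) (a₃ : IsHigh V₃ m₃ v₃)
    (c₁' : IsLow V₁' n₁' l₁') (c₂' : IsLow V₂' n₂' l₂') (c₃' : IsLow V₃' n₃' l₃')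
    {β₁ : M₁ →ₛₗ[bar] M₁} {β₂ : M₂ →ₛₗ[bar] M₂} {β₃ : M₃ →ₛₗ[bar] M₃}
    {β₁' : N₁ →ₛₗ[bar] N₁} {β₂' : N₂ →ₛₗ[bar] N₂} {β₃' : N₃ →ₛₗ[bar] N₃}
    (b₁ : IsBar bar V₁ β₁) (b₂ : IsBar bar V₂ β₂) (b₃ : IsBar bar V₃ β₃)
    (b₁' : IsBar bar V₁' β₁') (b₂' : IsBar bar V₂' β₂') (b₃' : IsBar bar V₃' β₃')
    (e₁ : β₁ v₁ = v₁) (e₂ : β₂ v₂ = v₂) (e₃ : β₃ v₃ = v₃)
    (f₁' : β₁' l₁' = l₁') (f₂' : β₂' l₂' = l₂') (f₃' : β₃' l₃' = l₃')
    {ev₁ : N₁ →ₗ[K] M₁ →ₗ[K] K} {ev₂ : N₂ →ₗ[K] M₂ →ₗ[K] K} {ev₃ : N₃ →ₗ[K] M₃ →ₗ[K] K}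
    (p₁ : IsPair V₁' V₁ ev₁) (p₂ : IsPair V₂' V₂ ev₂) (p₃ : IsPair V₃' V₃ ev₃)
    (r₁ : ev₁ l₁' v₁ = 1) (r₂ : ev₂ l₂' v₂ = 1) (r₃ : ev₃ l₃' v₃ = 1)
    {f : (M₁ ⊗[K] M₂) ⊗[K] M₃} (hf : f ∈ ((V₁.tensor V₂).tensor V₃).Inv)
    (hf' : tbar g n (V₁.tensor V₂) V₃ (tbar g n V₁ V₂ β₁ β₂) β₃ f = f)
    {y : N₃ ⊗[K] (N₂ ⊗[K] N₁)} (hy : y ∈ (V₃'.tensor (V₂'.tensor V₁')).Inv)
    (hy' : tbar g n V₃' (V₂'.tensor V₁') β₃' (tbar g n V₂' V₁' β₂' β₁') y = y) :
    bar (nest (nest ev₁ ev₂) ev₃ y f) = nest (nest ev₁ ev₂) ev₃ y f := by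
  have R₁ := rad_of_finite V₁ h₁
  have R₂ := rad_of_finite V₂ h₂
  have R₃ := rad_of_finite V₃ h₃
  have R₁' := rad_of_finite V₁' h₁'
  have R₂' := rad_of_finite V₂' h₂'
  have R₃' := rad_of_finite V₃' h₃'
  have h₁₂ := tensor_isWt V₁ V₂ h₁ h₂
  have h₂₁' := tensor_isWt V₂' V₁' h₂' h₁'
  have R₁₂ := rad_of_finite (V₁.tensor V₂) h₁₂
  have R₂₁' := rad_of_finite (V₂'.tensor V₁') h₂₁'
  have R₁₂₃ := rad_of_finite ((V₁.tensor V₂).tensor V₃) (tensor_isWt _ _ h₁₂ h₃)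
  have R₃₂₁' := rad_of_finite (V₃'.tensor (V₂'.tensor V₁')) (tensor_isWt _ _ h₃' h₂₁')
  have c₁ := T07B.claim_base hbb g n V₁' V₁ R₁' R₁ k₁' b₁' b₁ p₁ a₁ c₁' e₁ f₁' r₁
  have c₂ := T07B.claim_step hbb g n V₂' V₁' V₁ V₂ R₁' R₁ R₂' R₂ R₂₁' R₁₂ k₁ k₂' k₂₁' b₁' b₁ b₂' b₂
    p₁ p₂ a₂ c₂' e₂ f₂' r₂ c₁
  have c₃ := T07B.claim_step hbb g n V₃' (V₂'.tensor V₁') (V₁.tensor V₂) V₃ R₂₁' R₁₂ R₃' R₃ R₃₂₁'
    R₁₂₃ k₂ k₃' k₃₂₁' (tbar_isBar g n V₂' V₁' R₂' R₁' k₂' b₂' b₁')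
    (tbar_isBar g n V₁ V₂ R₁ R₂ k₁ b₁ b₂) b₃' b₃ (T07B.nest_pair p₁ p₂) p₃ a₃ c₃' e₃ f₃' r₃ c₂
  have h := LinearMap.congr_fun (LinearMap.congr_fun c₃ y) f
  rw [T07B.Bs_apply, tbar_tmul, hy', hf',
    Theta_high g n _ _ y (fun i => (hf i).1), TensorProduct.lift.tmul] at h
  exact h

end Pool.Agent.H387.QR
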