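import Pool.Agent.H387.QR.Defs2

/-!
# T00. Weight spaces are independent; operators acting by scalars on weight spaces
-/

namespace Pool.Agent.H387.QR

variable {I : Type} [Fintype I] [DecidableEq I] {C : Cartan I} {K : Type*} [Field K] [HasQ K]
variable {M : Type*} [AddCommGroup M] [Module K M]

namespace T00

theorem zpow_inj {a b : ℤ} (h : qq K ^ a = qq K ^ b) : a = b := by
  by_contra hab
  wlog hlt : b < a generalizing a b with H
  · exact H h.symm (Ne.symm hab) (lt_of_le_of_ne (not_lt.1 hlt) hab)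
  have h1 : qq K ^ (a - b) = 1 := by
    rw [zpow_sub₀ HasQ.q_ne, h, div_self (zpow_ne_zero _ HasQ.q_ne)]
  obtain ⟨n, hn⟩ := Int.eq_ofNat_of_zero_le (show 0 ≤ a - b by omega)
  rw [hn, zpow_natCast] at h1
  exact HasQ.q_pow n (by omega) h1

theorem wt_inj {m m' : I → ℤ}
    (h : ∀ i, qq K ^ ((C.d i : ℤ) * m i) = qq K ^ ((C.d i : ℤ) * m' i)) : m = m' := by
  funext i
  have h1 := zpow_inj (h i)
  have h2 := C.d_pos i
  have h3 : (C.d i : ℤ) ≠ 0 := by omega
  exact mul_left_cancel₀ h3 h1

end T00

open T00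

theorem wt_indep (V : Mod C K M) : iSupIndep V.wt := by
  have h := Module.End.independent_iInf_maxGenEigenspace_of_forall_mapsTo
    (fun i => (V.Kp i : Module.End K M)) (fun i j φ =>
      Module.End.mapsTo_maxGenEigenspace_of_comm
        (show Commute (V.Kp j : Module.End K M) (V.Kp i) from
          LinearMap.ext fun x => V.kcomm j i x) φ)
  have h2 := h.comp (f := fun (m : I → ℤ) (i : I) => qq K ^ ((C.d i : ℤ) * m i))
    (fun m m' hm => wt_inj (fun i => congrFun hm i))
  refine h2.mono fun m => ?_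
  simp only [Function.comp]
  refine le_iInf fun i => ?_
  intro x hx
  have h3 : x ∈ Module.End.eigenspace (V.Kp i : Module.End K M) (qq K ^ ((C.d i : ℤ) * m i)) := by
    rw [Module.End.mem_eigenspace_iff]
    exact hx i
  exact (Module.End.genEigenspace (V.Kp i : Module.End K M) _).monotone le_top h3

/-- A nonzero vector has at most one weight. -/
theorem wt_unique (V : Mod C K M) {m m' : I → ℤ} {x : M} (hx : x ≠ 0) (h : x ∈ V.wt m)
    (h' : x ∈ V.wt m') : m = m' := by
  refine wt_inj (K := K) (C := C) fun i => ?_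
  have h1 := h i
  rw [h' i] at h1
  exact (smul_left_injective K hx h1).symm

theorem exists_wtOp (V : Mod C K M) (hV : V.IsWt) (z : (I → ℤ) → K) :
    ∃ Z : M →ₗ[K] M, ∀ m, ∀ x ∈ V.wt m, Z x = z m • x := by
  have hint := DirectSum.isInternal_submodule_of_iSupIndep_of_iSup_eq_top (wt_indep V) hV
  set e := LinearEquiv.ofBijective (DirectSum.coeLinearMap V.wt) hint with he
  refine ⟨(DirectSum.toModule K (I → ℤ) M fun m => z m • (V.wt m).subtype) ∘ₗ
    e.symm.toLinearMap, fun m x hx => ?_⟩
  have h1 : e (DirectSum.lof K (I → ℤ) (fun m => V.wt m) m ⟨x, hx⟩) = x := by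
    rw [he, LinearEquiv.ofBijective_apply]
    exact DirectSum.coeLinearMap_lof V.wt m ⟨x, hx⟩
  have h2 : e.symm x = DirectSum.lof K (I → ℤ) (fun m => V.wt m) m ⟨x, hx⟩ := by
    rw [LinearEquiv.symm_apply_eq, h1]
  rw [LinearMap.comp_apply, LinearEquiv.coe_coe, h2, DirectSum.toModule_lof]
  rfl

theorem rt_inj : Function.Injective C.rt := by
  intro k k' h
  by_contra hne
  have hn : k - k' ≠ 0 := sub_ne_zero.2 hne
  have h1 := C.pos (k - k') hn
  have h2 : ∀ i, ∑ j, C.a i j * (k - k') j = 0 := by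
    intro i
    have h3 : ∑ j, C.a i j * k j = ∑ j, C.a i j * k' j := congrFun h i
    simp only [Pi.sub_apply, mul_sub, Finset.sum_sub_distrib, h3, sub_self]
  have h3 : ∑ i, ∑ j, (k - k') i * (C.d i * C.a i j) * (k - k') j = 0 := by
    refine Finset.sum_eq_zero fun i _ => ?_
    have h4 : ∑ j, (k - k') i * (C.d i * C.a i j) * (k - k') j =
        (k - k') i * C.d i * ∑ j, C.a i j * (k - k') j := by
      rw [Finset.mul_sum]
      exact Finset.sum_congr rfl fun j _ => by ring
    rw [h4, h2, mul_zero]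
  omega

theorem isWt_of_isRt (V : Mod C K M) (hV : V.IsRt) : V.IsWt := by
  unfold Mod.IsWt
  rw [eq_top_iff]
  rw [Mod.IsRt] at hV
  rw [← hV]
  exact iSup_le fun k => le_iSup V.wt _

theorem wt_of_isRt (V : Mod C K M) (hV : V.IsRt) {m : I → ℤ} {x : M} (hx : x ≠ 0)
    (h : x ∈ V.wt m) : ∃ k, m = C.rt k := by
  by_contra hcon
  push Not at hcon
  apply hx
  have h1 := (wt_indep V) m
  rw [Submodule.disjoint_def] at h1
  refine h1 x h ?_
  have h2 : (⊤ : Submodule K M) ≤ ⨆ (j : I → ℤ) (_ : j ≠ m), V.wt j := by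
    rw [Mod.IsRt] at hV
    rw [← hV]
    refine iSup_le fun k => ?_
    exact le_iSup₂_of_le (C.rt k) (Ne.symm (hcon k)) le_rfl
  exact h2 Submodule.mem_top

/-- In a finite-dimensional module all but finitely many weight spaces are zero. -/
theorem wt_finite (V : Mod C K M) [Module.Finite K M] : {m : I → ℤ | V.wt m ≠ ⊥}.Finite :=
  WellFoundedGT.finite_ne_bot_of_iSupIndep (wt_indep V)

theorem E_wt (V : Mod C K M) (j : I) {m : I → ℤ} {x : M} (h : x ∈ V.wt m) :
    V.E j x ∈ V.wt (fun i => m i + C.a i j) := by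
  intro i
  rw [V.ke, h i, map_smul, smul_smul, ← zpow_add₀ HasQ.q_ne]
  congr 2
  show (C.d i : ℤ) * C.a i j + C.d i * m i = _
  ring

theorem F_wt (V : Mod C K M) (j : I) {m : I → ℤ} {x : M} (h : x ∈ V.wt m) :
    V.F j x ∈ V.wt (fun i => m i - C.a i j) := by
  intro i
  rw [V.kf, h i, map_smul, smul_smul, ← zpow_add₀ HasQ.q_ne]
  congr 2
  show -((C.d i : ℤ) * C.a i j) + C.d i * m i = _
  ring

/-- Weight components of an element of the span of weight vectors of a submodule over a subring. -/
theorem IsWt.tensor {N : Type*} [AddCommGroup N] [Module K N] (V : Mod C K M) (W : Mod C K N)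
    (hV : V.IsWt) (hW : W.IsWt) : (V.tensor W).IsWt := by
  unfold Mod.IsWt at hV hW ⊢
  rw [eq_top_iff]
  have key : ∀ (x : M) (y : N), TensorProduct.tmul K x y ∈ ⨆ m, (V.tensor W).wt m := by
    intro x y
    have hx : x ∈ ⨆ m, V.wt m := by rw [hV]; exact Submodule.mem_top
    have hy : y ∈ ⨆ m, W.wt m := by rw [hW]; exact Submodule.mem_top
    refine Submodule.iSup_induction V.wt (motive := fun x =>
      TensorProduct.tmul K x y ∈ ⨆ m, (V.tensor W).wt m) hx ?_ ?_ ?_
    · intro m x hx
      refine Submodule.iSup_induction W.wt (motive := fun y =>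
        TensorProduct.tmul K x y ∈ ⨆ m, (V.tensor W).wt m) hy ?_ ?_ ?_
      · intro m' y hy
        refine Submodule.mem_iSup_of_mem (m + m') ?_
        intro i
        show TensorProduct.map (V.Kp i) (W.Kp i) (TensorProduct.tmul K x y) = _
        rw [TensorProduct.map_tmul, hx i, hy i, TensorProduct.smul_tmul_smul,
          ← zpow_add₀ HasQ.q_ne]
        congr 2
        rw [Pi.add_apply]
        ring
      · rw [TensorProduct.tmul_zero]
        exact Submodule.zero_mem _
      · intro y₁ y₂ h1 h2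
        rw [TensorProduct.tmul_add]
        exact Submodule.add_mem _ h1 h2
    · rw [TensorProduct.zero_tmul]
      exact Submodule.zero_mem _
    · intro x₁ x₂ h1 h2
      rw [TensorProduct.add_tmul]
      exact Submodule.add_mem _ h1 h2
  intro z _
  induction z using TensorProduct.induction_on with
  | zero => exact Submodule.zero_mem _
  | tmul x y => exact key x y
  | add x y hx hy => exact Submodule.add_mem _ (hx trivial) (hy trivial)

end Pool.Agent.H387.QR
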