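import Pool.Agent.H387.QR.Defs2

/-!
# T03. The canonical identities (proof by helper824)
-/

set_option autoImplicit false

namespace Pool.Agent.H387.QR.T03

open Pool.Agent.H387.QR

variable {I : Type} [Fintype I] [DecidableEq I] {C : Cartan I} {K : Type*} [Field K] [HasQ K]
variable {M : Type*} [AddCommGroup M] [Module K M] {N : Type*} [AddCommGroup N] [Module K N]
variable {P : Type*} [AddCommGroup P] [Module K P]

theorem Lw_ne (i : I) (x : List I) (a : List I → K) (h : Lw C i x a ≠ 0) :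
    ∃ y, a y ≠ 0 ∧ x.Perm (i :: y) := by
  induction x generalizing a with
  | nil => exact absurd rfl h
  | cons j w ih =>
    rw [Lw] at h
    by_cases h1 : Lw C i w (fun u => a (j :: u)) = 0
    · rw [h1, mul_zero, add_zero] at h
      by_cases hj : j = i
      · subst hj
        rw [if_pos rfl] at h
        exact ⟨w, h, List.Perm.refl _⟩
      · rw [if_neg hj] at h
        exact absurd rfl h
    · obtain ⟨y, hy, hp⟩ := ih _ h1
      exact ⟨j :: y, hy, (hp.cons j).trans (List.Perm.swap i j y)⟩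

theorem ph_perm (w x : List I) (h : ph C (K := K) w x ≠ 0) : w.Perm x := by
  induction w generalizing x with
  | nil =>
    have h1 : ph C (K := K) [] x ≠ 0 := h
    rw [ph_symm, ph_apply_nil] at h1
    by_cases hx : x = []
    · rw [hx]
    · rw [if_neg hx] at h1
      exact absurd rfl h1
  | cons i w ih =>
    obtain ⟨y, hy, hp⟩ := Lw_ne i x _ h
    exact ((ih y hy).cons i).trans hp.symm

theorem ph_len {w x : List I} (h : w.length ≠ x.length) : ph C (K := K) w x = 0 := by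
  by_contra h1
  exact h (ph_perm w x h1).length_eq

/-- a family of operators killed by the radical of the form -/
def RadF (C : Cartan I) (Φ : List I → (M →ₗ[K] M)) : Prop := ∀ (n : ℕ) (c : List I → K),
  (∀ x : List I, ∑ w ∈ wd I n, c w * ph C w x = 0) → ∑ w ∈ wd I n, c w • Φ w = 0

theorem radF (V : Mod C K M) (hV : V.Rad) : RadF C V.Fw := fun n c h => (hV n c h).1

theorem radE (V : Mod C K M) (hV : V.Rad) : RadF C V.Ew := fun n c h => (hV n c h).2

theorem R1 (g : GInv C K) {Φ : List I → (M →ₗ[K] M)} (hΦ : RadF C Φ) {n : ℕ} (w : List I)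
    (hw : w.length = n) : Φ w = ∑ v ∈ wd I n, (∑ u ∈ wd I n, ph C w u * g.k u v) • Φ v := by
  have h := hΦ n (fun x => (if x = w then 1 else 0) - ∑ u ∈ wd I n, ph C w u * g.k u x) (by
    intro y
    simp only [sub_mul, Finset.sum_sub_distrib, ite_mul, one_mul, zero_mul, Finset.sum_ite_eq', mem_wd, hw, if_true]
    by_cases hy : y.length = n
    · rw [g.inv n w y hw hy, Finset.sum_comm]
      rw [sub_eq_zero]
      refine Finset.sum_congr rfl fun x _ => ?_
      rw [Finset.sum_mul]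
    · rw [ph_len (by rw [hw]; exact Ne.symm hy), zero_sub, neg_eq_zero]
      refine Finset.sum_eq_zero fun x hx => ?_
      rw [ph_len (by rw [mem_wd.1 hx]; exact Ne.symm hy), mul_zero])
  simp only [sub_smul, Finset.sum_sub_distrib, ite_smul, one_smul, zero_smul, Finset.sum_ite_eq', mem_wd, hw,
    if_true] at h
  exact sub_eq_zero.1 h

theorem R2 (g : GInv C K) {Φ : List I → (M →ₗ[K] M)} (hΦ : RadF C Φ) {n : ℕ} (w : List I)
    (hw : w.length = n) : Φ w = ∑ u ∈ wd I n, (∑ v ∈ wd I n, g.k u v * ph C v w) • Φ u := by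
  have h := hΦ n (fun x => (if x = w then 1 else 0) - ∑ v ∈ wd I n, g.k x v * ph C v w) (by
    intro y
    simp only [sub_mul, Finset.sum_sub_distrib, ite_mul, one_mul, zero_mul, Finset.sum_ite_eq', mem_wd, hw, if_true]
    by_cases hy : y.length = n
    · rw [ph_symm C w y, g.inv n y w hy hw]
      rw [sub_eq_zero]
      refine Finset.sum_congr rfl fun x _ => ?_
      rw [Finset.sum_mul]
      refine Finset.sum_congr rfl fun v _ => ?_
      rw [ph_symm C x y]
      ring
    · rw [ph_len (by rw [hw]; exact Ne.symm hy), zero_sub, neg_eq_zero]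
      refine Finset.sum_eq_zero fun x hx => ?_
      rw [ph_len (by rw [mem_wd.1 hx]; exact Ne.symm hy), mul_zero])
  simp only [sub_smul, Finset.sum_sub_distrib, ite_smul, one_smul, zero_smul, Finset.sum_ite_eq', mem_wd, hw,
    if_true] at h
  exact sub_eq_zero.1 h

/-- (R1) in terms of `Et` -/
theorem R1' (g : GInv C K) (W : Mod C K N) (hW : W.Rad) {n : ℕ} (w : List I) (hw : w.length = n) :
    W.Ew w = ∑ u ∈ wd I n, ph C (K := K) w u • W.Et g u := by
  rw [R1 g (radE W hW) w hw]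
  simp only [Finset.sum_smul, mul_smul]
  rw [Finset.sum_comm]
  refine Finset.sum_congr rfl fun u hu => ?_
  rw [Mod.Et, mem_wd.1 hu, Finset.smul_sum]

theorem lwN_congr {A : Type*} [AddCommGroup A] [Module K A] (i : I) (u : List I) (g h : List I → A)
    (hgh : ∀ x, x.length + 1 = u.length → g x = h x) : lwN C K i u g = lwN C K i u h := by
  induction u generalizing g h with
  | nil => rfl
  | cons j w ih =>
    rw [lwN, lwN, hgh w (by simp), ih (fun u => g (j :: u)) (fun u => h (j :: u)) (fun x hx => hgh _ (by simp [hx]))]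

theorem rwN_congr {A : Type*} [AddCommGroup A] [Module K A] (i : I) (u : List I) (g h : List I → A)
    (hgh : ∀ x, x.length + 1 = u.length → g x = h x) : rwN C K i u g = rwN C K i u h := by
  induction u generalizing g h with
  | nil => rfl
  | cons j w ih =>
    rw [rwN, rwN, hgh w (by simp), ih (fun u => g (j :: u)) (fun u => h (j :: u)) (fun x hx => hgh _ (by simp [hx]))]

/-- a linear combination -/
def comb {A : Type*} [AddCommGroup A] [Module K A] (s : Finset (List I)) (Φ : List I → A) :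
    (List I → K) →ₗ[K] A where
  toFun a := ∑ w ∈ s, a w • Φ w
  map_add' a b := by simp [add_smul, Finset.sum_add_distrib]
  map_smul' c a := by simp [mul_smul, Finset.smul_sum]

theorem lwN_comb {A : Type*} [AddCommGroup A] [Module K A] (i : I) (u : List I) (s : Finset (List I))
    (Φ : List I → A) (e : List I → List I → K) :
    lwN C K i u (fun x => ∑ w ∈ s, e w x • Φ w) = ∑ w ∈ s, Lw C i u (e w) • Φ w := by
  have h := lwN_map (C := C) (comb s Φ) i u (fun x w => e w x)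
  have h2 : ∀ w, lwN C K i u (fun x w => e w x) w = Lw C i u (e w) := by
    intro w
    rw [← lwN_eq]
    exact (lwN_map (C := C) (LinearMap.proj (R := K) (φ := fun _ : List I => K) w) i u (fun x w => e w x)).symm
  have h3 : comb s Φ (lwN C K i u (fun x w => e w x)) = ∑ w ∈ s, Lw C i u (e w) • Φ w := by
    show ∑ w ∈ s, lwN C K i u (fun x w => e w x) w • Φ w = _
    simp only [h2]
  rw [← h3, ← h]
  rfl

theorem rwN_comb {A : Type*} [AddCommGroup A] [Module K A] (i : I) (u : List I) (s : Finset (List I))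
    (Φ : List I → A) (e : List I → List I → K) :
    rwN C K i u (fun x => ∑ w ∈ s, e w x • Φ w) = ∑ w ∈ s, Rw C i u (e w) • Φ w := by
  have h := rwN_map (C := C) (comb s Φ) i u (fun x w => e w x)
  have h2 : ∀ w, rwN C K i u (fun x w => e w x) w = Rw C i u (e w) := by
    intro w
    rw [← rwN_eq]
    exact (rwN_map (C := C) (LinearMap.proj (R := K) (φ := fun _ : List I => K) w) i u (fun x w => e w x)).symm
  have h3 : comb s Φ (rwN C K i u (fun x w => e w x)) = ∑ w ∈ s, Rw C i u (e w) • Φ w := by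
    show ∑ w ∈ s, rwN C K i u (fun x w => e w x) w • Φ w = _
    simp only [h2]
  rw [← h3, ← h]
  rfl

/-- [L1], left -/
theorem L1l (g : GInv C K) {Φ : List I → (M →ₗ[K] M)} (hΦ : RadF C Φ) (i : I) {n : ℕ} (u : List I)
    (hu : u.length = n + 1) :
    lwN C K i u Φ = ∑ w ∈ wd I n, (∑ v ∈ wd I n, g.k w v * ph C (i :: v) u) • Φ w := by
  rw [lwN_congr i u Φ (fun x => ∑ w ∈ wd I n, (∑ v ∈ wd I n, g.k w v * ph C v x) • Φ w)
    (fun x hx => R2 g hΦ x (by omega))]
  rw [lwN_comb i u (wd I n) Φ (fun w x => ∑ v ∈ wd I n, g.k w v * ph C v x)]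
  refine Finset.sum_congr rfl fun w _ => ?_
  congr 1
  have h : (fun x => ∑ v ∈ wd I n, g.k w v * ph C v x) = ∑ v ∈ wd I n, g.k w v • ph C v := by
    funext x
    rw [Finset.sum_apply]
    rfl
  rw [h]
  show Lop C i (∑ v ∈ wd I n, g.k w v • ph C v) u = _
  rw [map_sum, Finset.sum_apply]
  refine Finset.sum_congr rfl fun v _ => ?_
  rw [map_smul]
  rfl

/-- [L1], right -/
theorem L1r (g : GInv C K) {Φ : List I → (M →ₗ[K] M)} (hΦ : RadF C Φ) (i : I) {n : ℕ} (u : List I)
    (hu : u.length = n + 1) :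
    rwN C K i u Φ = ∑ w ∈ wd I n, (∑ v ∈ wd I n, g.k w v * ph C (v ++ [i]) u) • Φ w := by
  rw [rwN_congr i u Φ (fun x => ∑ w ∈ wd I n, (∑ v ∈ wd I n, g.k w v * ph C v x) • Φ w)
    (fun x hx => R2 g hΦ x (by omega))]
  rw [rwN_comb i u (wd I n) Φ (fun w x => ∑ v ∈ wd I n, g.k w v * ph C v x)]
  refine Finset.sum_congr rfl fun w _ => ?_
  congr 1
  have h : (fun x => ∑ v ∈ wd I n, g.k w v * ph C v x) = ∑ v ∈ wd I n, g.k w v • ph C v := by
    funext x
    rw [Finset.sum_apply]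
    rfl
  rw [h]
  show Rop C i (∑ v ∈ wd I n, g.k w v • ph C v) u = _
  rw [map_sum, Finset.sum_apply]
  refine Finset.sum_congr rfl fun v _ => ?_
  rw [map_smul, R_ph]
  rfl

/-- [L2], left -/
theorem L2l (g : GInv C K) (W : Mod C K N) (hW : W.Rad) (i : I) {n : ℕ} (u : List I)
    (hu : u.length = n + 1) :
    lwN C K i u W.Ew = ∑ w ∈ wd I n, ph C (K := K) u (i :: w) • W.Et g w := by
  rw [lwN_congr i u W.Ew (fun x => ∑ w ∈ wd I n, ph C (K := K) x w • W.Et g w)
    (fun x hx => R1' g W hW x (by omega))]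
  rw [lwN_comb i u (wd I n) (W.Et g) (fun w x => ph C x w)]
  refine Finset.sum_congr rfl fun w _ => ?_
  rw [ph_dual]

/-- [L2], right -/
theorem L2r (g : GInv C K) (W : Mod C K N) (hW : W.Rad) (i : I) {n : ℕ} (u : List I)
    (hu : u.length = n + 1) :
    rwN C K i u W.Ew = ∑ w ∈ wd I n, ph C (K := K) u (w ++ [i]) • W.Et g w := by
  rw [rwN_congr i u W.Ew (fun x => ∑ w ∈ wd I n, ph C (K := K) x w • W.Et g w)
    (fun x hx => R1' g W hW x (by omega))]
  rw [rwN_comb i u (wd I n) (W.Et g) (fun w x => ph C x w)]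
  refine Finset.sum_congr rfl fun w _ => ?_
  have h : (fun x => ph C (K := K) x w) = ph C w := by
    funext x
    exact ph_symm C x w
  rw [h, ph_symm C u, ← R_ph]
  rfl

theorem wt_eq (ζ : I → K) (i : I) {u v w : List I} (huv : u.Perm (i :: v)) (hvw : w.Perm v) :
    zw ζ u = ζ i * zw ζ w := by
  rw [zw_perm ζ (huv.trans (hvw.symm.cons i)), zw_cons]

theorem can_E (g : GInv C K) (V : Mod C K M) (W : Mod C K N) (hW : W.Rad)
    (β : (M →ₗ[K] M) →ₗ[K] (N →ₗ[K] N) →ₗ[K] P) (ζ : I → K) (i : I) (n : ℕ)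
    (s : List I → List I) (hs : ∀ v, (s v).Perm (i :: v)) (X : List I → (M →ₗ[K] M))
    (hX : ∀ u : List I, u.length = n + 1 →
      X u = ∑ w ∈ wd I n, (∑ v ∈ wd I n, g.k w v * ph C (s v) u) • V.Fw w) :
    ∑ u ∈ wd I (n + 1), zw ζ u • β (X u) (W.Et g u) =
      ζ i • ∑ w ∈ wd I n, zw ζ w • β (V.Fw w) (∑ v ∈ wd I n, g.k w v • W.Ew (s v)) := by
  have h1 : ∀ u ∈ wd I (n + 1), zw ζ u • β (X u) (W.Et g u) =
      ∑ w ∈ wd I n, ∑ v ∈ wd I n, (ζ i * zw ζ w * (g.k w v * ph C (s v) u)) • β (V.Fw w) (W.Et g u) := by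
    intro u hu
    rw [hX u (mem_wd.1 hu)]
    simp only [map_sum, map_smul, LinearMap.sum_apply, LinearMap.smul_apply, Finset.smul_sum, Finset.sum_smul, smul_smul]
    refine Finset.sum_congr rfl fun w _ => Finset.sum_congr rfl fun v _ => ?_
    by_cases hz : g.k w v * ph C (s v) u = 0
    · rw [hz, mul_zero, mul_zero]
    · have h2 := g.perm w v (left_ne_zero_of_mul hz)
      have h3 := ph_perm _ _ (right_ne_zero_of_mul hz)
      rw [wt_eq ζ i (h3.symm.trans (hs v)) h2]
  rw [Finset.sum_congr rfl h1, Finset.sum_comm, Finset.smul_sum]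
  refine Finset.sum_congr rfl fun w _ => ?_
  rw [Finset.sum_comm]
  simp only [map_sum, map_smul, Finset.smul_sum]
  refine Finset.sum_congr rfl fun v hv => ?_
  rw [R1' g W hW (s v) (n := n + 1) (by rw [(hs v).length_eq, List.length_cons, mem_wd.1 hv])]
  simp only [map_sum, map_smul, Finset.smul_sum, smul_smul, mul_assoc]

theorem can_F (g : GInv C K) (V : Mod C K M) (W : Mod C K N) (hV : V.Rad)
    (β : (M →ₗ[K] M) →ₗ[K] (N →ₗ[K] N) →ₗ[K] P) (ζ : I → K) (i : I) (n : ℕ)
    (s : List I → List I) (hs : ∀ v, (s v).Perm (i :: v)) (Y : List I → (N →ₗ[K] N))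
    (hY : ∀ u : List I, u.length = n + 1 → Y u = ∑ w ∈ wd I n, ph C (K := K) u (s w) • W.Et g w) :
    ∑ u ∈ wd I (n + 1), zw ζ u • β (V.Fw u) (∑ v ∈ wd I (n + 1), g.k u v • Y v) =
      ζ i • ∑ w ∈ wd I n, zw ζ w • β (V.Fw (s w)) (W.Et g w) := by
  have h1 : ∀ u ∈ wd I (n + 1), zw ζ u • β (V.Fw u) (∑ v ∈ wd I (n + 1), g.k u v • Y v) =
      ∑ w ∈ wd I n, ∑ v ∈ wd I (n + 1),
        (ζ i * zw ζ w * (g.k u v * ph C v (s w))) • β (V.Fw u) (W.Et g w) := by
    intro u _
    rw [Finset.sum_comm, map_sum, Finset.smul_sum]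
    refine Finset.sum_congr rfl fun v hv => ?_
    rw [hY v (mem_wd.1 hv)]
    simp only [map_sum, map_smul, Finset.smul_sum, smul_smul]
    refine Finset.sum_congr rfl fun w _ => ?_
    by_cases hz : g.k u v * ph C v (s w) = 0
    · rw [mul_assoc, hz, mul_zero, mul_zero, zero_smul, mul_zero, zero_smul]
    · have h2 := g.perm u v (left_ne_zero_of_mul hz)
      have h3 := ph_perm _ _ (right_ne_zero_of_mul hz)
      rw [wt_eq ζ i ((h2.trans h3).trans (hs w)) (List.Perm.refl w), mul_assoc]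
  rw [Finset.sum_congr rfl h1, Finset.sum_comm, Finset.smul_sum]
  refine Finset.sum_congr rfl fun w hw => ?_
  rw [R2 g (radF V hV) (s w) (n := n + 1) (by rw [(hs w).length_eq, List.length_cons, mem_wd.1 hw])]
  simp only [map_sum, map_smul, LinearMap.sum_apply, LinearMap.smul_apply, Finset.smul_sum, Finset.sum_smul,
    smul_smul, mul_assoc]

theorem can_E1 (g : GInv C K) (V : Mod C K M) (W : Mod C K N) (hV : V.Rad) (hW : W.Rad)
    (β : (M →ₗ[K] M) →ₗ[K] (N →ₗ[K] N) →ₗ[K] P) (ζ : I → K) (i : I) (n : ℕ) :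
    ∑ u ∈ wd I (n + 1), zw ζ u • β (lwN C K i u V.Fw) (W.Et g u) =
      ζ i • ∑ w ∈ wd I n, zw ζ w • β (V.Fw w) (W.E i ∘ₗ W.Et g w) := by
  rw [can_E g V W hW β ζ i n (fun v => i :: v) (fun _ => List.Perm.refl _) _
    (fun u hu => L1l g (radF V hV) i u hu)]
  congr 1
  refine Finset.sum_congr rfl fun w hw => ?_
  rw [Mod.Et, mem_wd.1 hw]
  congr 2
  apply LinearMap.ext
  intro x
  simp only [LinearMap.comp_apply, LinearMap.sum_apply, LinearMap.smul_apply, map_sum, map_smul, Mod.Ew_cons]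

theorem can_E2 (g : GInv C K) (V : Mod C K M) (W : Mod C K N) (hV : V.Rad) (hW : W.Rad)
    (β : (M →ₗ[K] M) →ₗ[K] (N →ₗ[K] N) →ₗ[K] P) (ζ : I → K) (i : I) (n : ℕ) :
    ∑ u ∈ wd I (n + 1), zw ζ u • β (rwN C K i u V.Fw) (W.Et g u) =
      ζ i • ∑ w ∈ wd I n, zw ζ w • β (V.Fw w) (W.Et g w ∘ₗ W.E i) := by
  rw [can_E g V W hW β ζ i n (fun v => v ++ [i]) (fun v => List.perm_append_singleton i v) _
    (fun u hu => L1r g (radF V hV) i u hu)]
  congr 1
  refine Finset.sum_congr rfl fun w hw => ?_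
  rw [Mod.Et, mem_wd.1 hw]
  congr 2
  apply LinearMap.ext
  intro x
  simp only [LinearMap.comp_apply, LinearMap.sum_apply, LinearMap.smul_apply, Mod.Ew_append]
  rfl

theorem can_F1 (g : GInv C K) (V : Mod C K M) (W : Mod C K N) (hV : V.Rad) (hW : W.Rad)
    (β : (M →ₗ[K] M) →ₗ[K] (N →ₗ[K] N) →ₗ[K] P) (ζ : I → K) (i : I) (n : ℕ) :
    ∑ u ∈ wd I (n + 1), zw ζ u •
        β (V.Fw u) (∑ v ∈ wd I (n + 1), g.k u v • lwN C K i v W.Ew) =
      ζ i • ∑ w ∈ wd I n, zw ζ w • β (V.F i ∘ₗ V.Fw w) (W.Et g w) :=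
  can_F g V W hV β ζ i n (fun v => i :: v) (fun _ => List.Perm.refl _) _
    (fun u hu => L2l g W hW i u hu)

theorem can_F2 (g : GInv C K) (V : Mod C K M) (W : Mod C K N) (hV : V.Rad) (hW : W.Rad)
    (β : (M →ₗ[K] M) →ₗ[K] (N →ₗ[K] N) →ₗ[K] P) (ζ : I → K) (i : I) (n : ℕ) :
    ∑ u ∈ wd I (n + 1), zw ζ u •
        β (V.Fw u) (∑ v ∈ wd I (n + 1), g.k u v • rwN C K i v W.Ew) =
      ζ i • ∑ w ∈ wd I n, zw ζ w • β (V.Fw w ∘ₗ V.F i) (W.Et g w) := by
  rw [can_F g V W hV β ζ i n (fun v => v ++ [i]) (fun v => List.perm_append_singleton i v) _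
    (fun u hu => L2r g W hW i u hu)]
  congr 1
  refine Finset.sum_congr rfl fun w _ => ?_
  rw [Mod.Fw_append]
  rfl

end Pool.Agent.H387.QR.T03
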