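import Pool.Agent.H387.QR.Defs2

/-!
# T04. The integral Casimir operator (proof)
-/

namespace Pool.Agent.H387.QR.T04

open Pool.Agent.H387.QR

variable {I : Type} [Fintype I] [DecidableEq I] {C : Cartan I} {K : Type*} [Field K] [HasQ K]
variable {M : Type*} [AddCommGroup M] [Module K M]

/-- `(α_i, μ)` for `μ = ∑ k_j α_j`. -/
def bk (C : Cartan I) (i : I) (k : I → ℤ) : ℤ := (C.d i : ℤ) * C.rt k i

theorem bk_eq (i : I) (k : I → ℤ) : bk C i k = ∑ j, C.br i j * k j := by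
  simp only [bk, Cartan.rt, Cartan.br, Finset.mul_sum, mul_assoc]

theorem bk_add (i j : I) (k : I → ℤ) (c : ℤ) :
    bk C i (k + Pi.single j c) = bk C i k + C.br i j * c := by
  rw [bk_eq, bk_eq]
  simp only [Pi.add_apply, mul_add, Finset.sum_add_distrib]
  congr 1
  rw [Finset.sum_eq_single j]
  · simp
  · intro b _ hb; simp [Pi.single_eq_of_ne hb]
  · intro h; exact absurd (Finset.mem_univ j) h

theorem br_diag (j : I) : C.br j j = 2 * (C.d j : ℤ) := by
  rw [Cartan.br, C.diag, mul_comm]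

theorem nrm_eq (k : I → ℤ) :
    C.nrm k = ∑ i, k i * bk C i k + ∑ j, 2 * (C.d j : ℤ) * k j := by
  rw [Cartan.nrm]
  congr 1
  refine Finset.sum_congr rfl fun i _ => ?_
  rw [bk_eq, Finset.mul_sum]
  exact Finset.sum_congr rfl fun j _ => by ring

theorem sum_single_mul (j : I) (c : ℤ) (f : I → ℤ) :
    ∑ i, (Pi.single j c : I → ℤ) i * f i = c * f j := by
  rw [Finset.sum_eq_single j]
  · simp
  · intro b _ hb; simp [Pi.single_eq_of_ne hb]
  · intro h; exact absurd (Finset.mem_univ j) h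

theorem nrm_add (k : I → ℤ) (j : I) (c : ℤ) :
    C.nrm (k + Pi.single j c) = C.nrm k + 2 * c * bk C j k + 2 * (C.d j : ℤ) * c * c
      + 2 * (C.d j : ℤ) * c := by
  rw [nrm_eq, nrm_eq]
  simp only [bk_add, Pi.add_apply, mul_add, add_mul, Finset.sum_add_distrib]
  have h1 := sum_single_mul (I := I) j c (fun i => bk C i k)
  have h2 := sum_single_mul (I := I) j c (fun i => C.br i j * c)
  have h3 : ∑ i, k i * (C.br i j * c) = c * bk C j k := by
    rw [bk_eq, Finset.mul_sum]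
    exact Finset.sum_congr rfl fun i _ => by rw [br_symm C i j]; ring
  have h4 : ∑ i, 2 * (C.d i : ℤ) * (Pi.single j c : I → ℤ) i = 2 * (C.d j : ℤ) * c := by
    rw [← mul_comm c, ← sum_single_mul (I := I) j c (fun i => 2 * (C.d i : ℤ))]
    exact Finset.sum_congr rfl fun i _ => by ring
  rw [h1, h2, h3, h4, br_diag]
  ring

theorem rt_inj {k k' : I → ℤ} (h : C.rt k = C.rt k') : k = k' := by
  by_contra hne
  have hpos := C.pos (k - k') (sub_ne_zero.mpr hne)
  have : ∑ i, ∑ j, (k - k') i * (C.d i * C.a i j) * (k - k') j = 0 := by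
    refine Finset.sum_eq_zero fun i _ => ?_
    have h1 : C.rt k i = C.rt k' i := congrFun h i
    rw [Cartan.rt, Cartan.rt] at h1
    have h2 : ∑ j, C.a i j * (k - k') j = 0 := by
      simp only [Pi.sub_apply, mul_sub, Finset.sum_sub_distrib]
      rw [h1, sub_self]
    calc ∑ j, (k - k') i * (C.d i * C.a i j) * (k - k') j
        = ∑ j, (k - k') i * C.d i * (C.a i j * (k - k') j) :=
          Finset.sum_congr rfl fun j _ => by ring
      _ = 0 := by rw [← Finset.mul_sum, h2, mul_zero]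
  omega

theorem mem_wt' {V : Mod C K M} {k : I → ℤ} {x : M} (hx : x ∈ V.wt (C.rt k)) (i : I) :
    V.Kp i x = qq K ^ bk C i k • x := hx i

theorem Km_wt {V : Mod C K M} {k : I → ℤ} {x : M} (hx : x ∈ V.wt (C.rt k)) (i : I) :
    V.Km i x = qq K ^ (-bk C i k) • x := by
  have h := mem_wt' hx i
  have h2 := congrArg (V.Km i) h
  rw [V.kmkp, map_smul] at h2
  have h3 : qq K ^ (-bk C i k) • x = qq K ^ (-bk C i k) • (qq K ^ bk C i k • V.Km i x) := by
    rw [← h2]
  rw [h3, smul_smul, ← qadd, neg_add_cancel, zpow_zero, one_smul]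

/-- the scalar at weight `k` -/
def zt (C : Cartan I) (K : Type*) [Field K] [HasQ K] (k : I → ℤ) (i : I) : K :=
  -hq K (C.d i) * qq K ^ (-bk C i k - 2 * (C.d i : ℤ))

theorem zt_add (k : I → ℤ) (j : I) (c : ℤ) (i : I) :
    zt C K (k + Pi.single j c) i = zt C K k i * qq K ^ (-(C.br j i * c)) := by
  rw [zt, zt, bk_add, mul_assoc, ← qadd, br_symm C i j]
  congr 2
  ring

theorem zw_zt_add (k : I → ℤ) (j : I) (c : ℤ) (u : List I) :
    zw (zt C K (k + Pi.single j c)) u = zw (zt C K k) u * qq K ^ (-(pr C j u * c)) := by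
  induction u with
  | nil => simp
  | cons i u ih =>
    rw [zw_cons, zw_cons, ih, zt_add, pr_cons]
    rw [show (-((C.br j i + pr C j u) * c) : ℤ) = -(C.br j i * c) + -(pr C j u * c) by ring, qadd]
    ring

theorem pr_perm (i : I) {u v : List I} (h : u.Perm v) : pr C i u = pr C i v :=
  (h.map _).sum_eq

theorem Kp_Et (V : Mod C K M) (g : GInv C K) (i : I) (u : List I) (x : M) :
    V.Kp i (V.Et g u x) = qq K ^ (pr C i u) • V.Et g u (V.Kp i x) := by
  simp only [Mod.Et, LinearMap.sum_apply, map_sum, Finset.smul_sum, LinearMap.smul_apply, map_smul]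
  refine Finset.sum_congr rfl fun v _ => ?_
  by_cases h : g.k u v = 0
  · simp [h]
  · rw [V.Kp_Ew, pr_perm i (g.perm u v h), smul_comm]

theorem Km_Et (V : Mod C K M) (g : GInv C K) (i : I) (u : List I) (x : M) :
    V.Km i (V.Et g u x) = qq K ^ (-pr C i u) • V.Et g u (V.Km i x) := by
  simp only [Mod.Et, LinearMap.sum_apply, map_sum, Finset.smul_sum, LinearMap.smul_apply, map_smul]
  refine Finset.sum_congr rfl fun v _ => ?_
  by_cases h : g.k u v = 0
  · simp [h]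
  · rw [V.Km_Ew, pr_perm i (g.perm u v h), smul_comm]

theorem Kp_FE (V : Mod C K M) (g : GInv C K) (i : I) (u : List I) (x : M) :
    V.Kp i (V.Fw u (V.Et g u x)) = V.Fw u (V.Et g u (V.Kp i x)) := by
  rw [V.Kp_Fw, Kp_Et, map_smul, smul_smul, ← qadd, neg_add_cancel, zpow_zero, one_smul]

theorem E_wt {V : Mod C K M} {k : I → ℤ} {x : M} (hx : x ∈ V.wt (C.rt k)) (j : I) :
    V.E j x ∈ V.wt (C.rt (k + Pi.single j 1)) := by
  intro i
  change V.Kp i (V.E j x) = qq K ^ bk C i (k + Pi.single j 1) • V.E j x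
  rw [V.ke, mem_wt' hx, map_smul, smul_smul, ← qadd, bk_add, mul_one, add_comm]

theorem F_wt {V : Mod C K M} {k : I → ℤ} {x : M} (hx : x ∈ V.wt (C.rt k)) (j : I) :
    V.F j x ∈ V.wt (C.rt (k + Pi.single j (-1))) := by
  intro i
  change V.Kp i (V.F j x) = qq K ^ bk C i (k + Pi.single j (-1)) • V.F j x
  rw [V.kf, mem_wt' hx, map_smul, smul_smul, ← qadd, bk_add, mul_neg_one, add_comm]

/-- linear maps agreeing on the weight vectors are equal -/
theorem ext_wt {V : Mod C K M} (hV : V.IsRt) {N : Type*} [AddCommGroup N] [Module K N]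
    {f g : M →ₗ[K] N} (h : ∀ k, ∀ x ∈ V.wt (C.rt k), f x = g x) : f = g := by
  have h1 : (⨆ k : I → ℤ, V.wt (C.rt k)) = ⊤ := hV
  have h2 : (⨆ k : I → ℤ, V.wt (C.rt k)) ≤ LinearMap.eqLocus f g :=
    iSup_le fun k x hx => h k x hx
  rw [h1] at h2
  ext x
  exact h2 (Submodule.mem_top (x := x))

/-- scalars depending on the weight `k` -/
theorem hopk {V : Mod C K M}
    (hop : ∀ z : (I → ℤ) → K, ∃ Z : M →ₗ[K] M, ∀ m, ∀ x ∈ V.wt m, Z x = z m • x)
    (f : (I → ℤ) → K) : ∃ Z : M →ₗ[K] M, ∀ k, ∀ x ∈ V.wt (C.rt k), Z x = f k • x := by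
  classical
  obtain ⟨Z, hZ⟩ := hop (fun m => if h : ∃ k, C.rt k = m then f h.choose else 0)
  refine ⟨Z, fun k x hx => ?_⟩
  rw [hZ _ x hx]
  have h : ∃ k', C.rt k' = C.rt k := ⟨k, rfl⟩
  simp only [h, dif_pos]
  rw [rt_inj h.choose_spec]

/-- the height -/
def ht (k : I → ℤ) : ℤ := ∑ i, k i

theorem ht_add (k : I → ℤ) (j : I) (c : ℤ) : ht (k + Pi.single j c) = ht k + c := by
  simp only [ht, Pi.add_apply, Finset.sum_add_distrib]
  congr 1
  simp

theorem q_inj {m n : ℤ} (h : qq K ^ m = qq K ^ n) : m = n := by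
  by_contra hne
  refine q_zpow_ne_one (K := K) (n := m - n) (by omega) ?_
  rw [zpow_sub₀ HasQ.q_ne, h, div_self (zpow_ne_zero _ HasQ.q_ne)]

/-- nilpotency -/
theorem exists_nil (V : Mod C K M) [Module.Finite K M] (hV : V.IsRt)
    (hop : ∀ z : (I → ℤ) → K, ∃ Z : M →ₗ[K] M, ∀ m, ∀ x ∈ V.wt m, Z x = z m • x) :
    ∃ n : ℕ, ∀ u : List I, n ≤ u.length → V.Fw u = 0 := by
  obtain ⟨H, hH⟩ := hopk (C := C) hop (fun k => qq K ^ ht k)
  have hfin : Set.Finite {h : ℤ | Module.End.HasEigenvalue H (qq K ^ h)} := by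
    have := Module.End.finite_hasEigenvalue H
    exact Set.Finite.preimage (fun a _ b _ hab => q_inj hab) this
  obtain ⟨b, hb⟩ := hfin.bddAbove
  obtain ⟨a, ha⟩ := hfin.bddBelow
  have key : ∀ k, ∀ x ∈ V.wt (C.rt k), x ≠ 0 → a ≤ ht k ∧ ht k ≤ b := by
    intro k x hx hne
    have : Module.End.HasEigenvalue H (qq K ^ ht k) :=
      Module.End.hasEigenvalue_of_hasEigenvector
        ⟨Module.End.mem_eigenspace_iff.mpr (hH k x hx), hne⟩
    exact ⟨ha this, hb this⟩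
  have hF : ∀ (u : List I) k, ∀ x ∈ V.wt (C.rt k),
      ∃ k', V.Fw u x ∈ V.wt (C.rt k') ∧ ht k' = ht k - u.length := by
    intro u
    induction u with
    | nil => intro k x hx; exact ⟨k, hx, by simp⟩
    | cons j u ih =>
      intro k x hx
      obtain ⟨k', h1, h2⟩ := ih k x hx
      refine ⟨k' + Pi.single j (-1), F_wt h1 j, ?_⟩
      rw [ht_add, h2]; simp; ring
  refine ⟨(b - a + 1).toNat, fun u hu => ?_⟩
  refine ext_wt hV fun k x hx => ?_
  by_contra hne
  have hx0 : x ≠ 0 := by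
    rintro rfl; exact hne (by simp)
  obtain ⟨k', h1, h2⟩ := hF u k x hx
  have h3 := key k x hx hx0
  have h4 := key k' _ h1 (by simpa using hne)
  omega

/-- the layer of `Ω` of length `m` -/
def Om (V : Mod C K M) (g : GInv C K) (ζ : I → K) (m : ℕ) : M →ₗ[K] M :=
  ∑ u ∈ wd I m, zw ζ u • (V.Fw u ∘ₗ V.Et g u)

theorem Om_apply (V : Mod C K M) (g : GInv C K) (ζ : I → K) (m : ℕ) (x : M) :
    Om V g ζ m x = ∑ u ∈ wd I m, zw ζ u • V.Fw u (V.Et g u x) := by
  simp [Om]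

theorem EF_apply (V : Mod C K M) (i : I) (w : List I) (y : M) :
    V.E i (V.Fw w y) = V.Fw w (V.E i y) + ((hq K (C.d i))⁻¹ • V.Kp i (lwN C K i w V.Fw y)
      - (hq K (C.d i))⁻¹ • rwN C K i w V.Fw (V.Km i y)) := by
  have h := LinearMap.congr_fun (comm_EF V i w) y
  simp only [LinearMap.sub_apply, LinearMap.comp_apply, LinearMap.smul_apply, smul_sub] at h
  rw [← h]; abel

theorem FE_apply (V : Mod C K M) (i : I) (w : List I) (y : M) :
    V.Ew w (V.F i y) = V.F i (V.Ew w y) - ((hq K (C.d i))⁻¹ • V.Km i (lwN C K i w V.Ew y)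
      - (hq K (C.d i))⁻¹ • rwN C K i w V.Ew (V.Kp i y)) := by
  have h := LinearMap.congr_fun (comm_FE V i w) y
  simp only [LinearMap.sub_apply, LinearMap.comp_apply, LinearMap.smul_apply, smul_sub] at h
  rw [← h]; abel

/-- `A_u` -/
def Al (V : Mod C K M) (g : GInv C K) (i : I) (u : List I) : M →ₗ[K] M :=
  ∑ v ∈ wd I u.length, g.k u v • lwN C K i v V.Ew

/-- `B_u` -/
def Ar (V : Mod C K M) (g : GInv C K) (i : I) (u : List I) : M →ₗ[K] M :=
  ∑ v ∈ wd I u.length, g.k u v • rwN C K i v V.Ew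

theorem Et_F (V : Mod C K M) (g : GInv C K) (i : I) (u : List I) (y : M) :
    V.Et g u (V.F i y) = V.F i (V.Et g u y) - ((hq K (C.d i))⁻¹ • V.Km i (Al V g i u y)
      - (hq K (C.d i))⁻¹ • Ar V g i u (V.Kp i y)) := by
  simp only [Mod.Et, Al, Ar, LinearMap.sum_apply, LinearMap.smul_apply, FE_apply, map_sum,
    map_smul, smul_sub, Finset.sum_sub_distrib, Finset.smul_sum]
  congr 1
  congr 1
  · exact Finset.sum_congr rfl fun v _ => by rw [smul_comm]
  · exact Finset.sum_congr rfl fun v _ => by rw [smul_comm]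

/-- composition with `K_j⁻¹` in between -/
noncomputable def bK (V : Mod C K M) (j : I) :
    (M →ₗ[K] M) →ₗ[K] (M →ₗ[K] M) →ₗ[K] M →ₗ[K] M :=
  (LinearMap.llcomp K M M M).compl₂ (LinearMap.llcomp K M M M (V.Km j))

theorem bK_apply (V : Mod C K M) (j : I) (f g : M →ₗ[K] M) (x : M) :
    bK V j f g x = f (V.Km j (g x)) := rfl

omit [HasQ K] in
theorem ll_apply (f g : M →ₗ[K] M) (x : M) :
    LinearMap.llcomp K M M M f g x = f (g x) := rfl

section E

variable (g : GInv C K) (V : Mod C K M)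

/-- the term `A_m` -/
def At (ζ : I → K) (j : I) (m : ℕ) (x : M) : M :=
  ∑ w ∈ wd I m, zw ζ w • V.Fw w (V.E j (V.Et g w x))

theorem zt_h (k : I → ℤ) (j : I) : (hq K (C.d j))⁻¹ * (zt C K k j * qq K ^ (bk C j k + 2 * (C.d j : ℤ)))
    = -1 := by
  have h : hq K (C.d j) ≠ 0 := hq_ne (by have := C.d_pos j; omega)
  rw [zt, mul_assoc, ← qadd]
  rw [show (-bk C j k - 2 * (C.d j : ℤ) + (bk C j k + 2 * (C.d j : ℤ)) : ℤ) = 0 by ring, zpow_zero,
    mul_one, mul_neg, inv_mul_cancel₀ h]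

theorem E_layer
    (hE1 : ∀ (β : (M →ₗ[K] M) →ₗ[K] (M →ₗ[K] M) →ₗ[K] M →ₗ[K] M) (ζ : I → K)
      (i : I) (n : ℕ), ∑ u ∈ wd I (n + 1), zw ζ u • β (lwN C K i u V.Fw) (V.Et g u) =
      ζ i • ∑ w ∈ wd I n, zw ζ w • β (V.Fw w) (V.E i ∘ₗ V.Et g w))
    (hE2 : ∀ (β : (M →ₗ[K] M) →ₗ[K] (M →ₗ[K] M) →ₗ[K] M →ₗ[K] M) (ζ : I → K)
      (i : I) (n : ℕ), ∑ u ∈ wd I (n + 1), zw ζ u • β (rwN C K i u V.Fw) (V.Et g u) =
      ζ i • ∑ w ∈ wd I n, zw ζ w • β (V.Fw w) (V.Et g w ∘ₗ V.E i))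
    (k : I → ℤ) (x : M) (hx : x ∈ V.wt (C.rt k)) (j : I) (m : ℕ) :
    V.E j (Om V g (zt C K k) (m + 1) x) =
      At g V (zt C K k) j (m + 1) x - At g V (zt C K k) j m x +
      qq K ^ (-2 * (bk C j k + 2 * (C.d j : ℤ))) •
        Om V g (zt C K (k + Pi.single j 1)) m (V.E j x) := by
  have e1 := LinearMap.congr_fun (hE1 (LinearMap.llcomp K M M M) (zt C K k) j m) x
  have e2 := LinearMap.congr_fun (hE2 (bK V j) (zt C K k) j m) x
  simp only [LinearMap.sum_apply, LinearMap.smul_apply, ll_apply, bK_apply,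
    LinearMap.comp_apply] at e1 e2
  rw [Om_apply, map_sum]
  simp only [map_smul, EF_apply, smul_add, smul_sub, Finset.sum_add_distrib,
    Finset.sum_sub_distrib]
  have f1 : ∑ u ∈ wd I (m + 1), zw (zt C K k) u • (hq K (C.d j))⁻¹ •
      V.Kp j (lwN C K j u V.Fw (V.Et g u x)) = - At g V (zt C K k) j m x := by
    have : ∑ u ∈ wd I (m + 1), zw (zt C K k) u • (hq K (C.d j))⁻¹ •
      V.Kp j (lwN C K j u V.Fw (V.Et g u x)) = (hq K (C.d j))⁻¹ •
        V.Kp j (∑ u ∈ wd I (m + 1), zw (zt C K k) u • lwN C K j u V.Fw (V.Et g u x)) := by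
      rw [map_sum, Finset.smul_sum]
      exact Finset.sum_congr rfl fun u _ => by rw [map_smul, smul_comm]
    rw [this, e1, map_smul, map_sum]
    have h2 : ∀ w ∈ wd I m, V.Kp j (zw (zt C K k) w • V.Fw w (V.E j (V.Et g w x))) =
        qq K ^ (bk C j k + 2 * (C.d j : ℤ)) •
          (zw (zt C K k) w • V.Fw w (V.E j (V.Et g w x))) := by
      intro w _
      rw [map_smul, V.Kp_Fw, V.ke, Kp_Et, mem_wt' hx]
      simp only [map_smul, smul_smul]
      congr 1
      rw [mul_comm (qq K ^ (bk C j k + 2 * (C.d j : ℤ))), ← qadd, ← qadd, ← qadd,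
        br_diag]
      congr 2
      ring
    rw [Finset.sum_congr rfl h2, ← Finset.smul_sum, smul_smul, smul_smul, mul_assoc, zt_h, At,
      neg_one_smul]
  have f2 : ∑ u ∈ wd I (m + 1), zw (zt C K k) u • (hq K (C.d j))⁻¹ •
      rwN C K j u V.Fw (V.Km j (V.Et g u x)) =
      - qq K ^ (-2 * (bk C j k + 2 * (C.d j : ℤ))) •
        Om V g (zt C K (k + Pi.single j 1)) m (V.E j x) := by
    have : ∑ u ∈ wd I (m + 1), zw (zt C K k) u • (hq K (C.d j))⁻¹ •
      rwN C K j u V.Fw (V.Km j (V.Et g u x)) = (hq K (C.d j))⁻¹ •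
        ∑ u ∈ wd I (m + 1), zw (zt C K k) u • rwN C K j u V.Fw (V.Km j (V.Et g u x)) := by
      rw [Finset.smul_sum]
      exact Finset.sum_congr rfl fun u _ => by rw [smul_comm]
    rw [this, e2, Om_apply, Finset.smul_sum, Finset.smul_sum, Finset.smul_sum]
    refine Finset.sum_congr rfl fun w _ => ?_
    rw [Km_Et, Km_wt (E_wt hx j), zw_zt_add, bk_add, br_diag]
    simp only [map_smul, smul_smul]
    congr 1
    have h := zt_h (C := C) (K := K) k j
    have h3 : qq K ^ (-(bk C j k + 2 * (C.d j : ℤ) * 1)) =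
        qq K ^ (bk C j k + 2 * (C.d j : ℤ)) *
          qq K ^ (-2 * (bk C j k + 2 * (C.d j : ℤ))) := by
      rw [← qadd]; congr 1; ring
    rw [h3, mul_one]
    linear_combination (zw (zt C K k) w * qq K ^ (-pr C j w) *
      qq K ^ (-2 * (bk C j k + 2 * (C.d j : ℤ)))) * h
  have hA : At g V (zt C K k) j (m + 1) x =
    ∑ w ∈ wd I (m + 1), zw (zt C K k) w • V.Fw w (V.E j (V.Et g w x)) := rfl
  rw [f1, f2, hA]
  module

theorem E_layer0 (k : I → ℤ) (x : M) (j : I) :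
    V.E j (Om V g (zt C K k) 0 x) = At g V (zt C K k) j 0 x := by
  simp [Om_apply, At, wd, Mod.Et, g.nil]

end E

section F

variable (g : GInv C K) (V : Mod C K M)

/-- the term `A'_m` -/
def Af (ζ : I → K) (j : I) (m : ℕ) (x : M) : M :=
  ∑ w ∈ wd I m, zw ζ w • V.Fw w (V.F j (V.Et g w x))

theorem zt_hF (k : I → ℤ) (j : I) :
    (hq K (C.d j))⁻¹ * (zt C K (k + Pi.single j (-1)) j * qq K ^ (bk C j k)) = -1 := by
  have h : hq K (C.d j) ≠ 0 := hq_ne (by have := C.d_pos j; omega)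
  rw [zt, mul_assoc, ← qadd, bk_add, br_diag]
  rw [show (-(bk C j k + 2 * (C.d j : ℤ) * -1) - 2 * (C.d j : ℤ) + bk C j k : ℤ) = 0 by ring,
    zpow_zero, mul_one, mul_neg, inv_mul_cancel₀ h]

theorem F_layer
    (hF1 : ∀ (β : (M →ₗ[K] M) →ₗ[K] (M →ₗ[K] M) →ₗ[K] M →ₗ[K] M) (ζ : I → K)
      (i : I) (n : ℕ), ∑ u ∈ wd I (n + 1), zw ζ u •
        β (V.Fw u) (∑ v ∈ wd I (n + 1), g.k u v • lwN C K i v V.Ew) =
      ζ i • ∑ w ∈ wd I n, zw ζ w • β (V.F i ∘ₗ V.Fw w) (V.Et g w))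
    (hF2 : ∀ (β : (M →ₗ[K] M) →ₗ[K] (M →ₗ[K] M) →ₗ[K] M →ₗ[K] M) (ζ : I → K)
      (i : I) (n : ℕ), ∑ u ∈ wd I (n + 1), zw ζ u •
        β (V.Fw u) (∑ v ∈ wd I (n + 1), g.k u v • rwN C K i v V.Ew) =
      ζ i • ∑ w ∈ wd I n, zw ζ w • β (V.Fw w ∘ₗ V.F i) (V.Et g w))
    (k : I → ℤ) (x : M) (hx : x ∈ V.wt (C.rt k)) (j : I) (m : ℕ) :
    Om V g (zt C K (k + Pi.single j (-1))) (m + 1) (V.F j x) =
      Af g V (zt C K (k + Pi.single j (-1))) j (m + 1) x -
      Af g V (zt C K (k + Pi.single j (-1))) j m x +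
      qq K ^ (-2 * bk C j k) • V.F j (Om V g (zt C K k) m x) := by
  set ζ' := zt C K (k + Pi.single j (-1)) with hζ'
  have e1 := LinearMap.congr_fun (hF1 (bK V j) ζ' j m) x
  have e2 := LinearMap.congr_fun (hF2 (LinearMap.llcomp K M M M) ζ' j m) x
  have hAl : ∀ u ∈ wd I (m + 1), (∑ v ∈ wd I (m + 1), g.k u v • lwN C K j v V.Ew) =
      Al V g j u := by
    intro u hu; rw [Al, mem_wd.mp hu]
  have hAr : ∀ u ∈ wd I (m + 1), (∑ v ∈ wd I (m + 1), g.k u v • rwN C K j v V.Ew) =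
      Ar V g j u := by
    intro u hu; rw [Ar, mem_wd.mp hu]
  rw [Finset.sum_congr rfl (fun u hu => by rw [hAl u hu])] at e1
  rw [Finset.sum_congr rfl (fun u hu => by rw [hAr u hu])] at e2
  simp only [LinearMap.sum_apply, LinearMap.smul_apply, ll_apply, bK_apply,
    LinearMap.comp_apply] at e1 e2
  rw [Om_apply]
  simp only [Et_F, map_sub, map_smul, smul_sub, Finset.sum_sub_distrib]
  have f1 : ∑ u ∈ wd I (m + 1), zw ζ' u • (hq K (C.d j))⁻¹ •
      V.Fw u (V.Km j (Al V g j u x)) = - qq K ^ (-2 * bk C j k) •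
        V.F j (Om V g (zt C K k) m x) := by
    have : ∑ u ∈ wd I (m + 1), zw ζ' u • (hq K (C.d j))⁻¹ •
      V.Fw u (V.Km j (Al V g j u x)) = (hq K (C.d j))⁻¹ •
        ∑ u ∈ wd I (m + 1), zw ζ' u • V.Fw u (V.Km j (Al V g j u x)) := by
      rw [Finset.smul_sum]
      exact Finset.sum_congr rfl fun u _ => by rw [smul_comm]
    rw [this, e1, Om_apply, map_sum, Finset.smul_sum, Finset.smul_sum, Finset.smul_sum]
    refine Finset.sum_congr rfl fun w _ => ?_
    rw [Km_Et, Km_wt hx, hζ', zw_zt_add]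
    simp only [map_smul, smul_smul]
    congr 1
    have h := zt_hF (C := C) (K := K) k j
    have h3 : qq K ^ (-bk C j k) = qq K ^ (bk C j k) * qq K ^ (-2 * bk C j k) := by
      rw [← qadd]; congr 1; ring
    have h4 : qq K ^ (-(pr C j w * -1)) * qq K ^ (-pr C j w) = 1 := by
      rw [← qadd, mul_neg_one, neg_neg, add_neg_cancel, zpow_zero]
    rw [h3]
    linear_combination (zw (zt C K k) w * qq K ^ (-(pr C j w * -1)) * qq K ^ (-pr C j w) *
      qq K ^ (-2 * bk C j k)) * h - (zw (zt C K k) w *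
      qq K ^ (-2 * bk C j k)) * h4
  have f2 : ∑ u ∈ wd I (m + 1), zw ζ' u • (hq K (C.d j))⁻¹ •
      V.Fw u (Ar V g j u (V.Kp j x)) = - Af g V ζ' j m x := by
    have : ∑ u ∈ wd I (m + 1), zw ζ' u • (hq K (C.d j))⁻¹ •
      V.Fw u (Ar V g j u (V.Kp j x)) = (hq K (C.d j))⁻¹ • qq K ^ (bk C j k) •
        ∑ u ∈ wd I (m + 1), zw ζ' u • V.Fw u (Ar V g j u x) := by
      rw [Finset.smul_sum, Finset.smul_sum]
      refine Finset.sum_congr rfl fun u _ => ?_
      rw [mem_wt' hx]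
      simp only [map_smul, smul_smul]
      congr 1; ring
    rw [this, e2, Af, smul_smul, smul_smul, mul_assoc, mul_comm (qq K ^ (bk C j k)), zt_hF,
      neg_one_smul]
  have hA : Af g V ζ' j (m + 1) x =
    ∑ w ∈ wd I (m + 1), zw ζ' w • V.Fw w (V.F j (V.Et g w x)) := rfl
  rw [f1, f2, hA]
  module

theorem F_layer0 (ζ : I → K) (x : M) (j : I) :
    Om V g ζ 0 (V.F j x) = Af g V ζ j 0 x := by
  simp [Om_apply, Af, wd, Mod.Et, g.nil]

end F

section fin

variable (g : GInv C K) (V : Mod C K M)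

theorem Om_zero (ζ : I → K) (x : M) : Om V g ζ 0 x = x := by
  simp [Om_apply, wd, Mod.Et, g.nil]

theorem Om_nil (ζ : I → K) {n : ℕ} (hn : ∀ u : List I, n ≤ u.length → V.Fw u = 0) (x : M) :
    Om V g ζ n x = 0 := by
  rw [Om_apply]
  refine Finset.sum_eq_zero fun u hu => ?_
  rw [hn u (by rw [mem_wd.mp hu])]; simp

theorem At_nil (ζ : I → K) (j : I) {n : ℕ} (hn : ∀ u : List I, n ≤ u.length → V.Fw u = 0)
    (x : M) : At g V ζ j n x = 0 := by
  rw [At]
  refine Finset.sum_eq_zero fun u hu => ?_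
  rw [hn u (by rw [mem_wd.mp hu])]; simp

theorem Af_nil (ζ : I → K) (j : I) {n : ℕ} (hn : ∀ u : List I, n ≤ u.length → V.Fw u = 0)
    (x : M) : Af g V ζ j n x = 0 := by
  rw [Af]
  refine Finset.sum_eq_zero fun u hu => ?_
  rw [hn u (by rw [mem_wd.mp hu])]; simp

/-- `zw ζ u / h₁` times the inverse Gram matrix is integral for nonempty words. -/
theorem zw_mem (k : I → ℤ) (u : List I) :
    ∃ c ∈ RR K, zw (zt C K k) u = hq K 1 ^ u.length * c := by
  induction u with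
  | nil => exact ⟨1, Subring.one_mem _, by simp⟩
  | cons i u ih =>
    obtain ⟨c, hc, h⟩ := ih
    refine ⟨-(qn K (C.d i) * qq K ^ (-bk C i k - 2 * (C.d i : ℤ)) * c), ?_, ?_⟩
    · exact Subring.neg_mem _ (Subring.mul_mem _ (Subring.mul_mem _ (qn_mem _) (qz_mem _)) hc)
    · rw [zw_cons, h, zt, hq_eq (C.d i : ℤ), List.length_cons, pow_succ]
      ring

theorem r_mem (k : I → ℤ) (u v : List I) (hu : u ≠ []) :
    (hq K 1)⁻¹ * qq K ^ (-C.nrm k) * zw (zt C K k) u * g.k u v ∈ RR K := by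
  obtain ⟨c, hc, h⟩ := zw_mem (C := C) (K := K) k u
  have hl : u.length = (u.length - 1) + 1 := by
    have := List.length_pos_iff.mpr hu; omega
  have e : (hq K 1)⁻¹ * qq K ^ (-C.nrm k) * zw (zt C K k) u * g.k u v =
      qq K ^ (-C.nrm k) * c * (hq K 1 ^ (u.length - 1) * g.k u v) := by
    rw [h]
    nth_rw 1 [hl]
    rw [pow_succ]
    have h1 : hq K 1 ≠ 0 := hq_ne one_ne_zero
    field_simp
  rw [e]
  exact Subring.mul_mem _ (Subring.mul_mem _ (qz_mem _) hc) (g.int u v)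

end fin

/-- The integral Casimir operator exists. -/
theorem exists_cas (g : GInv C K) (V : Mod C K M) [Module.Finite K M] (hV : V.IsRt) (hR : V.Rad)
    (hop : ∀ z : (I → ℤ) → K, ∃ Z : M →ₗ[K] M, ∀ m, ∀ x ∈ V.wt m, Z x = z m • x)
    (hE1 : ∀ (β : (M →ₗ[K] M) →ₗ[K] (M →ₗ[K] M) →ₗ[K] M →ₗ[K] M) (ζ : I → K)
      (i : I) (n : ℕ), ∑ u ∈ wd I (n + 1), zw ζ u • β (lwN C K i u V.Fw) (V.Et g u) =
      ζ i • ∑ w ∈ wd I n, zw ζ w • β (V.Fw w) (V.E i ∘ₗ V.Et g w))
    (hE2 : ∀ (β : (M →ₗ[K] M) →ₗ[K] (M →ₗ[K] M) →ₗ[K] M →ₗ[K] M) (ζ : I → K)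
      (i : I) (n : ℕ), ∑ u ∈ wd I (n + 1), zw ζ u • β (rwN C K i u V.Fw) (V.Et g u) =
      ζ i • ∑ w ∈ wd I n, zw ζ w • β (V.Fw w) (V.Et g w ∘ₗ V.E i))
    (hF1 : ∀ (β : (M →ₗ[K] M) →ₗ[K] (M →ₗ[K] M) →ₗ[K] M →ₗ[K] M) (ζ : I → K)
      (i : I) (n : ℕ), ∑ u ∈ wd I (n + 1), zw ζ u •
        β (V.Fw u) (∑ v ∈ wd I (n + 1), g.k u v • lwN C K i v V.Ew) =
      ζ i • ∑ w ∈ wd I n, zw ζ w • β (V.F i ∘ₗ V.Fw w) (V.Et g w))
    (hF2 : ∀ (β : (M →ₗ[K] M) →ₗ[K] (M →ₗ[K] M) →ₗ[K] M →ₗ[K] M) (ζ : I → K)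
      (i : I) (n : ℕ), ∑ u ∈ wd I (n + 1), zw ζ u •
        β (V.Fw u) (∑ v ∈ wd I (n + 1), g.k u v • rwN C K i v V.Ew) =
      ζ i • ∑ w ∈ wd I n, zw ζ w • β (V.Fw w ∘ₗ V.F i) (V.Et g w)) :
    Nonempty V.Cas := by
  obtain ⟨n, hn⟩ := exists_nil V hV hop
  choose Z hZ using fun u : List I => hopk (C := C) hop
    (fun k => qq K ^ (-C.nrm k) * zw (zt C K k) u)
  let C₀ : M →ₗ[K] M := ∑ m ∈ Finset.range (n + 1), ∑ u ∈ wd I m, V.Fw u ∘ₗ V.Et g u ∘ₗ Z u
  have hC₀ : ∀ k, ∀ x ∈ V.wt (C.rt k), C₀ x =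
      qq K ^ (-C.nrm k) • ∑ m ∈ Finset.range (n + 1), Om V g (zt C K k) m x := by
    intro k x hx
    simp only [C₀, LinearMap.sum_apply, LinearMap.comp_apply, Om_apply, Finset.smul_sum]
    refine Finset.sum_congr rfl fun m _ => Finset.sum_congr rfl fun u _ => ?_
    rw [hZ u k x hx, map_smul, map_smul, smul_smul]
  have hE : ∀ (j : I) (x : M), C₀ (V.E j x) = V.E j (C₀ x) := by
    intro j
    have : C₀ ∘ₗ V.E j = V.E j ∘ₗ C₀ := by
      refine ext_wt hV fun k x hx => ?_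
      rw [LinearMap.comp_apply, LinearMap.comp_apply, hC₀ k x hx, hC₀ _ _ (E_wt hx j),
        Finset.sum_range_succ, Om_nil g V _ hn, add_zero, map_smul, map_sum,
        Finset.sum_range_succ', E_layer0,
        Finset.sum_congr rfl (fun m _ => E_layer g V hE1 hE2 k x hx j m),
        Finset.sum_add_distrib, Finset.sum_range_sub (fun m => At g V (zt C K k) j m x),
        At_nil g V _ j hn, ← Finset.smul_sum, nrm_add]
      have h3 : qq K ^ (-(C.nrm k + 2 * 1 * bk C j k + 2 * (C.d j : ℤ) * 1 * 1 +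
          2 * (C.d j : ℤ) * 1)) =
          qq K ^ (-C.nrm k) * qq K ^ (-2 * (bk C j k + 2 * (C.d j : ℤ))) := by
        rw [← qadd]; congr 1; ring
      rw [h3]
      module
    intro x
    exact LinearMap.congr_fun this x
  have hF : ∀ (j : I) (x : M), C₀ (V.F j x) = V.F j (C₀ x) := by
    intro j
    have : C₀ ∘ₗ V.F j = V.F j ∘ₗ C₀ := by
      refine ext_wt hV fun k x hx => ?_
      obtain ⟨a, ha⟩ : ∃ a : ℕ → M, ∀ m, a m =
          Af g V (zt C K (k + Pi.single j (-1))) j m x := ⟨_, fun _ => rfl⟩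
      have hl : ∀ m, Om V g (zt C K (k + Pi.single j (-1))) (m + 1) (V.F j x) =
          a (m + 1) - a m + qq K ^ (-2 * bk C j k) • V.F j (Om V g (zt C K k) m x) := by
        intro m; rw [ha, ha]; exact F_layer g V hF1 hF2 k x hx j m
      have h0 : Om V g (zt C K (k + Pi.single j (-1))) 0 (V.F j x) = a 0 := by
        rw [ha]; exact F_layer0 g V _ x j
      have hn0 : a n = 0 := by rw [ha]; exact Af_nil g V _ j hn x
      have hs : ∑ m ∈ Finset.range (n + 1), Om V g (zt C K (k + Pi.single j (-1))) m (V.F j x) =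
          qq K ^ (-2 * bk C j k) • ∑ m ∈ Finset.range n, V.F j (Om V g (zt C K k) m x) := by
        rw [Finset.sum_range_succ', h0, Finset.sum_congr rfl (fun m _ => hl m),
          Finset.sum_add_distrib, Finset.sum_range_sub, hn0, ← Finset.smul_sum]
        abel
      rw [LinearMap.comp_apply, LinearMap.comp_apply, hC₀ k x hx, hC₀ _ _ (F_wt hx j), hs,
        Finset.sum_range_succ (fun m => Om V g (zt C K k) m x), Om_nil g V _ hn, add_zero,
        map_smul, map_sum, nrm_add]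
      have h3 : qq K ^ (-C.nrm k) = qq K ^ (-(C.nrm k + 2 * -1 * bk C j k +
          2 * (C.d j : ℤ) * -1 * -1 + 2 * (C.d j : ℤ) * -1)) * qq K ^ (-2 * bk C j k) := by
        rw [← qadd]; congr 1; ring
      rw [h3]
      module
    intro x
    exact LinearMap.congr_fun this x
  have hK : ∀ (i : I) (x : M), C₀ (V.Kp i x) = V.Kp i (C₀ x) := by
    intro i
    have : C₀ ∘ₗ V.Kp i = V.Kp i ∘ₗ C₀ := by
      refine ext_wt hV fun k x hx => ?_
      have h1 : V.Kp i (C₀ x) = qq K ^ bk C i k • C₀ x := by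
        rw [hC₀ k x hx, map_smul, smul_comm (qq K ^ bk C i k)]
        congr 1
        rw [map_sum, Finset.smul_sum]
        refine Finset.sum_congr rfl fun m _ => ?_
        rw [Om_apply, map_sum, Finset.smul_sum]
        refine Finset.sum_congr rfl fun u _ => ?_
        rw [map_smul, Kp_FE, mem_wt' hx, map_smul, map_smul, smul_comm]
      rw [LinearMap.comp_apply, LinearMap.comp_apply, h1, mem_wt' hx, map_smul]
    intro x
    exact LinearMap.congr_fun this x
  refine ⟨{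
    T := (hq K 1)⁻¹ • (C₀ - LinearMap.id)
    E := ?_
    F := ?_
    Kp := ?_
    n := n
    r := fun k u v => if u = [] then 0 else
      (hq K 1)⁻¹ * qq K ^ (-C.nrm k) * zw (zt C K k) u * g.k u v
    r_mem := ?_
    apply := ?_ }⟩
  · intro i x
    simp only [LinearMap.smul_apply, LinearMap.sub_apply, LinearMap.id_apply, hE, map_smul, map_sub]
  · intro i x
    simp only [LinearMap.smul_apply, LinearMap.sub_apply, LinearMap.id_apply, hF, map_smul, map_sub]
  · intro i x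
    simp only [LinearMap.smul_apply, LinearMap.sub_apply, LinearMap.id_apply, hK, map_smul, map_sub]
  · intro k u v
    by_cases hu : u = []
    · simp only [hu, if_true]; exact Subring.zero_mem _
    · simp only [hu, if_false]; exact r_mem g k u v hu
  · intro k x hx
    rw [LinearMap.smul_apply, LinearMap.sub_apply, LinearMap.id_apply, hC₀ k x hx,
      Finset.sum_range_succ', Om_zero]
    have h : ∑ m ∈ Finset.range n, ∑ u ∈ wd I (m + 1), ∑ v ∈ wd I (m + 1),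
        (if u = [] then 0 else
          (hq K 1)⁻¹ * qq K ^ (-C.nrm k) * zw (zt C K k) u * g.k u v) • V.Fw u (V.Ew v x) =
        ((hq K 1)⁻¹ * qq K ^ (-C.nrm k)) •
          ∑ m ∈ Finset.range n, Om V g (zt C K k) (m + 1) x := by
      rw [Finset.smul_sum]
      refine Finset.sum_congr rfl fun m _ => ?_
      rw [Om_apply, Finset.smul_sum]
      refine Finset.sum_congr rfl fun u hu => ?_
      have hlen := mem_wd.mp hu
      have hne : u ≠ [] := by rintro rfl; simp at hlen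
      simp only [hne, if_false, Mod.Et, LinearMap.sum_apply, LinearMap.smul_apply, map_sum,
        map_smul, Finset.smul_sum, hlen]
      refine Finset.sum_congr rfl fun v _ => ?_
      simp only [smul_smul]
      congr 1
      ring
    rw [h]
    module

end Pool.Agent.H387.QR.T04
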