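import Pool.Agent.H387.QR.P00

/-!
# T05. The equivariant projector on the invariants, from the integral Casimir operator
-/

namespace Pool.Agent.H387.QR

variable {I : Type} [Fintype I] [DecidableEq I] {C : Cartan I} {K : Type*} [Field K] [HasQ K]
variable {M : Type*} [AddCommGroup M] [Module K M]

namespace T05

open Polynomial

/-! ### the bilinear form -/

/-- The bilinear form on the root lattice. -/
def bb (C : Cartan I) (k l : I → ℤ) : ℤ := ∑ i, ∑ j, k i * C.br i j * l j

theorem br_symm (C : Cartan I) (i j : I) : C.br i j = C.br j i := C.symm i j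

theorem bb_symm (k l : I → ℤ) : bb C k l = bb C l k := by
  unfold bb
  rw [Finset.sum_comm]
  refine Finset.sum_congr rfl fun i _ => Finset.sum_congr rfl fun j _ => ?_
  rw [br_symm C j i]
  ring

theorem bb_add_left (k k' l : I → ℤ) : bb C (k + k') l = bb C k l + bb C k' l := by
  unfold bb
  rw [← Finset.sum_add_distrib]
  refine Finset.sum_congr rfl fun i _ => ?_
  rw [← Finset.sum_add_distrib]
  refine Finset.sum_congr rfl fun j _ => ?_
  rw [Pi.add_apply]
  ring

theorem bb_smul_left (n : ℤ) (k l : I → ℤ) : bb C (n • k) l = n * bb C k l := by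
  unfold bb
  rw [Finset.mul_sum]
  refine Finset.sum_congr rfl fun i _ => ?_
  rw [Finset.mul_sum]
  refine Finset.sum_congr rfl fun j _ => ?_
  rw [Pi.smul_apply, smul_eq_mul]
  ring

theorem bb_add_right (k l l' : I → ℤ) : bb C k (l + l') = bb C k l + bb C k l' := by
  rw [bb_symm, bb_add_left, bb_symm l, bb_symm l']

theorem bb_smul_right (n : ℤ) (k l : I → ℤ) : bb C k (n • l) = n * bb C k l := by
  rw [bb_symm, bb_smul_left, bb_symm l]

/-- The simple root. -/
def al (i : I) : I → ℤ := Pi.single i 1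

theorem bb_al_left (i : I) (k : I → ℤ) : bb C (al i) k = C.d i * C.rt k i := by
  unfold bb al
  rw [Finset.sum_eq_single i]
  · rw [Cartan.rt, Finset.mul_sum]
    refine Finset.sum_congr rfl fun j _ => ?_
    rw [Pi.single_eq_same, one_mul, Cartan.br, mul_assoc]
  · intro j _ hj
    simp [Pi.single_eq_of_ne hj]
  · simp

theorem rt_al (i j : I) : C.rt (al j) i = C.a i j := by
  unfold Cartan.rt al
  rw [Finset.sum_eq_single j]
  · simp
  · intro l _ hl
    simp [Pi.single_eq_of_ne hl]
  · simp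

theorem rt_add (k l : I → ℤ) : C.rt (k + l) = C.rt k + C.rt l := by
  funext i
  simp only [Cartan.rt, Pi.add_apply, mul_add, Finset.sum_add_distrib]

theorem rt_smul (n : ℤ) (k : I → ℤ) : C.rt (n • k) = n • C.rt k := by
  funext i
  simp only [Cartan.rt, Pi.smul_apply, smul_eq_mul, Finset.mul_sum]
  refine Finset.sum_congr rfl fun j _ => ?_
  ring

theorem rt_zero : C.rt (0 : I → ℤ) = 0 := by
  funext i
  simp [Cartan.rt]

theorem bb_al_al (i : I) : bb C (al i) (al i) = 2 * C.d i := by
  rw [bb_al_left, rt_al, C.diag]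
  ring

theorem bb_shift (k : I → ℤ) (n : ℤ) (i : I) : bb C (k + n • al i) (k + n • al i) =
    bb C k k + 2 * n * (C.d i * C.rt k i) + n ^ 2 * (2 * C.d i) := by
  rw [bb_add_left, bb_add_right, bb_add_right, bb_smul_left, bb_smul_left, bb_smul_right,
    bb_smul_right, bb_symm k (al i), bb_al_left, bb_al_al]
  ring

theorem bb_pos (k : I → ℤ) (hk : k ≠ 0) : 0 < bb C k k := C.pos k hk

theorem nrm_eq (k : I → ℤ) : C.nrm k = bb C k k + ∑ j, 2 * (C.d j : ℤ) * k j := rfl

theorem nrm_zero : C.nrm (0 : I → ℤ) = 0 := by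
  simp [Cartan.nrm]

omit [Fintype I] in
/-- Evenness of the norm. -/
theorem even_aux (f : I → I → ℤ) (hs : ∀ i j, f i j = f j i) (hd : ∀ i, Even (f i i))
    (s : Finset I) : Even (∑ i ∈ s, ∑ j ∈ s, f i j) := by
  induction s using Finset.induction_on with
  | empty => simp
  | insert a s ha ih =>
    rw [Finset.sum_insert ha]
    have h1 : ∑ i ∈ s, ∑ j ∈ insert a s, f i j = ∑ i ∈ s, f a i + ∑ i ∈ s, ∑ j ∈ s, f i j := by
      rw [← Finset.sum_add_distrib]
      refine Finset.sum_congr rfl fun i _ => ?_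
      rw [Finset.sum_insert ha, hs i a]
    rw [h1, Finset.sum_insert ha]
    have h2 : f a a + ∑ j ∈ s, f a j + (∑ i ∈ s, f a i + ∑ i ∈ s, ∑ j ∈ s, f i j) =
        f a a + (∑ j ∈ s, f a j + ∑ j ∈ s, f a j) + ∑ i ∈ s, ∑ j ∈ s, f i j := by ring
    rw [h2]
    exact ((hd a).add (Even.add_self _)).add ih

theorem nrm_even (k : I → ℤ) : ∃ a : ℤ, C.nrm k = 2 * a := by
  have h1 : Even (bb C k k) := by
    refine even_aux (fun i j => k i * C.br i j * k j) (fun i j => ?_) (fun i => ?_) Finset.univ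
    · rw [br_symm C i j]; ring
    · refine ⟨k i * C.d i * k i, ?_⟩
      rw [Cartan.br, C.diag]; ring
  obtain ⟨b, hb⟩ := h1
  refine ⟨b + ∑ j, (C.d j : ℤ) * k j, ?_⟩
  rw [nrm_eq, hb, mul_add, Finset.mul_sum]
  congr 1
  · ring
  · refine Finset.sum_congr rfl fun j _ => ?_
    ring

/-! ### the eigenvalues -/

variable (C K) in
/-- The eigenvalue of the Casimir operator on a highest weight vector. -/
def xk (k : I → ℤ) : K := (hq K 1)⁻¹ * (qq K ^ (-C.nrm k) - 1)

theorem xk_eq {k : I → ℤ} {a : ℤ} (ha : C.nrm k = 2 * a) : xk C K k = -(qq K ^ (-a) * qn K a) := by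
  have h3 : hq K a = qq K ^ a - qq K ^ (-a) := rfl
  rw [xk, ha, qn_eq, h3, div_eq_mul_inv]
  have h1 : qq K ^ (-(2 * a)) = qq K ^ (-a) * qq K ^ (-a) := by
    rw [← qadd]; congr 1; ring
  have h2 : qq K ^ (-a) * qq K ^ a = 1 := by
    rw [← qadd]; simp
  rw [h1]
  linear_combination (hq K 1)⁻¹ * h2

theorem xk_mem (k : I → ℤ) : xk C K k ∈ RR K := by
  obtain ⟨a, ha⟩ := nrm_even (C := C) k
  rw [xk_eq ha]
  exact Subring.neg_mem _ (Subring.mul_mem _ (qz_mem _) (qn_mem _))

theorem xk_ne {k : I → ℤ} (hk : C.nrm k ≠ 0) : xk C K k ≠ 0 := by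
  obtain ⟨a, ha⟩ := nrm_even (C := C) k
  rw [xk_eq ha]
  have h1 : a ≠ 0 := by rintro rfl; exact hk (by rw [ha]; ring)
  exact neg_ne_zero.2 (mul_ne_zero (zpow_ne_zero _ HasQ.q_ne) (qn_ne h1))

theorem xk_inv_mem {k : I → ℤ} (hk : C.nrm k ≠ 0) : (xk C K k)⁻¹ ∈ RR K := by
  obtain ⟨a, ha⟩ := nrm_even (C := C) k
  rw [xk_eq ha]
  have h1 : a ≠ 0 := by rintro rfl; exact hk (by rw [ha]; ring)
  rw [inv_neg, mul_inv, ← zpow_neg]
  exact Subring.neg_mem _ (Subring.mul_mem _ (qz_mem _) (qn_inv_mem h1))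

theorem xk_zero {k : I → ℤ} (hk : C.nrm k = 0) : xk C K k = 0 := by
  rw [xk, hk]; simp

theorem nrm_of_xk {k : I → ℤ} (hk : xk C K k = 0) : C.nrm k = 0 := by
  by_contra h
  exact xk_ne h hk

/-! ### operators -/

theorem Fw_pred (V : Mod C K M) (P : M → Prop) (hF : ∀ i y, P y → P (V.F i y)) {x : M} (hx : P x)
    (u : List I) : P (V.Fw u x) := by
  induction u with
  | nil => exact hx
  | cons i u ih => exact hF i _ ih

theorem Ew_pred (V : Mod C K M) (P : M → Prop) (hE : ∀ i y, P y → P (V.E i y)) {x : M}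
    (hx : ∀ i, P (V.E i x)) (u : List I) (hu : u ≠ []) : P (V.Ew u x) := by
  induction u with
  | nil => exact absurd rfl hu
  | cons i u ih =>
    rcases u with _ | ⟨j, u⟩
    · exact hx i
    · exact hE i _ (ih (by simp))

theorem ne_nil_of_wd {m : ℕ} {u : List I} (hu : u ∈ wd I (m + 1)) : u ≠ [] := by
  rw [mem_wd] at hu
  rintro rfl
  simp at hu

omit [HasQ K] in
theorem poly_comm (T A : Module.End K M) (h : ∀ x, T (A x) = A (T x)) (f : K[X]) (x : M) :
    aeval T f (A x) = A (aeval T f x) := by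
  have h1 : ∀ (n : ℕ) (x : M), (T ^ n) (A x) = A ((T ^ n) x) := by
    intro n
    induction n with
    | zero => intro x; simp
    | succ n ih =>
      intro x
      rw [pow_succ]
      show (T ^ n) (T (A x)) = A ((T ^ n) (T x))
      rw [h, ih]
  induction f using Polynomial.induction_on' with
  | add f g hf hg => simp only [map_add, LinearMap.add_apply, hf, hg]
  | monomial n a =>
    rw [aeval_monomial]
    simp only [Module.End.mul_apply, Module.algebraMap_end_apply, h1, map_smul]

theorem T_wt {V : Mod C K M} (c : V.Cas) {m : I → ℤ} {x : M} (h : x ∈ V.wt m) : c.T x ∈ V.wt m := by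
  intro i
  rw [← c.Kp, h i, map_smul]

theorem poly_wt {V : Mod C K M} (c : V.Cas) (f : K[X]) {m : I → ℤ} {x : M} (h : x ∈ V.wt m) :
    aeval (c.T : Module.End K M) f x ∈ V.wt m := by
  intro i
  rw [← poly_comm (c.T : Module.End K M) (V.Kp i) (c.Kp i), h i, map_smul]

theorem E_rt (V : Mod C K M) (i : I) {k : I → ℤ} {x : M} (h : x ∈ V.wt (C.rt k)) :
    V.E i x ∈ V.wt (C.rt (k + al i)) := by
  have h1 := E_wt V i h
  have h2 : (fun l => C.rt k l + C.a l i) = C.rt (k + al i) := by
    rw [rt_add]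
    funext l
    rw [Pi.add_apply, rt_al]
  rwa [h2] at h1

theorem F_rt (V : Mod C K M) (i : I) {k : I → ℤ} {x : M} (h : x ∈ V.wt (C.rt k)) :
    V.F i x ∈ V.wt (C.rt (k + (-1 : ℤ) • al i)) := by
  have h1 := F_wt V i h
  have h2 : (fun l => C.rt k l - C.a l i) = C.rt (k + (-1 : ℤ) • al i) := by
    rw [rt_add, rt_smul]
    funext l
    rw [Pi.add_apply, Pi.smul_apply, rt_al]
    simp only [smul_eq_mul]
    ring
  rwa [h2] at h1

theorem EF_wt (V : Mod C K M) (i : I) {m : I → ℤ} {x : M} (h : x ∈ V.wt m) :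
    V.E i (V.F i x) - V.F i (V.E i x) = qd K (C.d i) (m i) • x := by
  have h1 := V.ef i i x
  rw [if_pos rfl] at h1
  have h2 := h i
  have h3 : V.Km i x = qq K ^ (-((C.d i : ℤ) * m i)) • x := by
    have h4 := V.kmkp i x
    rw [h2, map_smul] at h4
    calc V.Km i x = (qq K ^ (-((C.d i : ℤ) * m i)) * qq K ^ ((C.d i : ℤ) * m i)) • V.Km i x := by
          rw [← qadd]; simp
      _ = qq K ^ (-((C.d i : ℤ) * m i)) • x := by rw [mul_smul, h4]
  rw [h1, h2, h3, ← sub_smul, smul_smul, qd, div_eq_mul_inv, mul_comm]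

/-- The Casimir operator modulo a stable submodule. -/
theorem T_sub_mem {V : Mod C K M} (c : V.Cas) (W : Submodule K M)
    (hE : ∀ i y, y ∈ W → V.E i y ∈ W) (hF : ∀ i y, y ∈ W → V.F i y ∈ W) {k : I → ℤ} {x : M}
    (hx : x ∈ V.wt (C.rt k)) (hEx : ∀ i, V.E i x ∈ W) : c.T x - xk C K k • x ∈ W := by
  have h1 := c.apply k x hx
  have h2 : c.T x - xk C K k • x = ∑ m ∈ Finset.range c.n, ∑ u ∈ wd I (m + 1), ∑ v ∈ wd I (m + 1),
      c.r k u v • V.Fw u (V.Ew v x) := by
    rw [h1, xk]; abel
  rw [h2]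
  refine Submodule.sum_mem _ fun m _ => Submodule.sum_mem _ fun u _ => Submodule.sum_mem _
    fun v hv => Submodule.smul_mem _ _ ?_
  exact Fw_pred V (fun y => y ∈ W) hF
    (Ew_pred V (fun y => y ∈ W) hE hEx v (ne_nil_of_wd hv)) u

theorem T_eq {V : Mod C K M} (c : V.Cas) {k : I → ℤ} {x : M}
    (hx : x ∈ V.wt (C.rt k)) (hEx : ∀ i, V.E i x = 0) : c.T x = xk C K k • x := by
  have h1 := T_sub_mem c ⊥ (fun i y hy => by rw [Submodule.mem_bot] at hy ⊢; rw [hy, map_zero])
    (fun i y hy => by rw [Submodule.mem_bot] at hy ⊢; rw [hy, map_zero]) hx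
    (fun i => by rw [hEx i]; exact Submodule.zero_mem _)
  rw [Submodule.mem_bot, sub_eq_zero] at h1
  exact h1

/-- The invariants have weight zero. -/
theorem inv_wt (V : Mod C K M) {x : M} (hx : x ∈ V.Inv) : x ∈ V.wt (C.rt 0) := by
  intro i
  rw [rt_zero, (hx i).2.2]
  simp

theorem T_inv {V : Mod C K M} (c : V.Cas) {x : M} (hx : x ∈ V.Inv) : c.T x = 0 := by
  rw [T_eq c (inv_wt V hx) (fun i => (hx i).1), xk_zero nrm_zero, zero_smul]

theorem sum_al (k : I → ℤ) (n : ℤ) (i : I) : ∑ j, (k + n • al i) j = ∑ j, k j + n := by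
  simp only [Pi.add_apply, Finset.sum_add_distrib, Pi.smul_apply, smul_eq_mul, al]
  congr 1
  rw [← Finset.mul_sum]
  simp

/-- A finite set which contains all weights. -/
theorem exists_S (V : Mod C K M) [Module.Finite K M] :
    ∃ S : Finset (I → ℤ), ∀ k, V.wt (C.rt k) ≠ ⊥ → k ∈ S := by
  have h1 := (wt_finite V).preimage (rt_inj (C := C)).injOn
  exact ⟨h1.toFinset, fun k hk => by rw [Set.Finite.mem_toFinset]; exact hk⟩

/-- Claim (1): some power of the product of the `T - x_k` is zero. -/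
theorem nilp (V : Mod C K M) [Module.Finite K M] (hV : V.IsRt) (c : V.Cas) (S : Finset (I → ℤ))
    (hS : ∀ k, V.wt (C.rt k) ≠ ⊥ → k ∈ S) :
    ∃ d : ℕ, ∀ x, aeval (c.T : Module.End K M) ((∏ k ∈ S, (X - Polynomial.C (xk C K k))) ^ d) x = 0 := by
  set f : K[X] := ∏ k ∈ S, (X - Polynomial.C (xk C K k)) with hf
  set T : Module.End K M := c.T with hT
  obtain ⟨d, hd⟩ := (LinearMap.eventually_iSup_ker_pow_eq (aeval T f)).exists
  refine ⟨d, fun x => ?_⟩
  set W : Submodule K M := LinearMap.ker (aeval T f ^ d) with hW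
  have hmem : ∀ y, y ∈ W ↔ aeval T (f ^ d) y = 0 := by
    intro y; rw [hW, LinearMap.mem_ker, map_pow]
  have hcomm : ∀ A : Module.End K M, (∀ x, T (A x) = A (T x)) → ∀ y, y ∈ W → A y ∈ W := by
    intro A hA y hy
    rw [hmem] at hy ⊢
    rw [poly_comm T A hA, hy, map_zero]
  have hE : ∀ i y, y ∈ W → V.E i y ∈ W := fun i => hcomm _ (c.E i)
  have hF : ∀ i y, y ∈ W → V.F i y ∈ W := fun i => hcomm _ (c.F i)
  have hpoly : ∀ (g : K[X]) y, y ∈ W → aeval T g y ∈ W := fun g => hcomm _ fun x =>
    (poly_comm T T (fun _ => rfl) g x).symm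
  have key : ∀ k, V.wt (C.rt k) ≤ W := by
    by_contra hcon
    push Not at hcon
    obtain ⟨k0, hk0⟩ := hcon
    have hne : ∀ k, ¬ V.wt (C.rt k) ≤ W → k ∈ S := fun k hk => hS k fun h0 => hk (by rw [h0]; exact bot_le)
    classical
    obtain ⟨k, hk, hmax⟩ := Finset.exists_max_image (S.filter fun k => ¬ V.wt (C.rt k) ≤ W)
      (fun k => ∑ j, k j) ⟨k0, by rw [Finset.mem_filter]; exact ⟨hne k0 hk0, hk0⟩⟩
    rw [Finset.mem_filter] at hk
    obtain ⟨hkS, hkW⟩ := hk
    obtain ⟨x, hx, hxW⟩ := Set.not_subset.1 (show ¬ (V.wt (C.rt k) : Set M) ⊆ W from hkW)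
    have hEx : ∀ i, V.E i x ∈ W := by
      intro i
      by_cases h1 : V.wt (C.rt (k + al i)) ≤ W
      · exact h1 (E_rt V i hx)
      · have h2 : ∑ j, (k + al i) j ≤ ∑ j, k j :=
          hmax (k + al i) (by rw [Finset.mem_filter]; exact ⟨hne _ h1, h1⟩)
        have h3 := sum_al k 1 i
        rw [one_smul] at h3
        omega
    have h1 := T_sub_mem c W hE hF hx hEx
    have h2 : aeval T f x ∈ W := by
      rw [hf, ← Finset.prod_erase_mul S _ hkS, map_mul, Module.End.mul_apply]
      refine hpoly _ _ ?_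
      have h3 : aeval T (X - Polynomial.C (xk C K k)) x = T x - xk C K k • x := by
        simp [Module.algebraMap_end_apply]
      rw [h3]
      exact h1
    apply hxW
    have h4 : x ∈ LinearMap.ker (aeval T f ^ (d + 1)) := by
      rw [LinearMap.mem_ker, pow_succ]
      exact h2
    have h5 : LinearMap.ker (aeval T f ^ (d + 1)) ≤ ⨆ m, LinearMap.ker (aeval T f ^ m) :=
      le_iSup (fun m => LinearMap.ker (aeval T f ^ m)) (d + 1)
    rw [hd] at h5
    exact h5 h4
  have h6 : (⊤ : Submodule K M) ≤ W := by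
    rw [← hV]
    exact iSup_le key
  exact (hmem x).1 (h6 trivial)

/-! ### the sl2 argument -/

theorem sl2_num (d : ℤ) (hd : d ≠ 0) (a m : ℤ) :
    qd K d a * qd K d (m - a + 1) + qd K d (m - 2 * a) = qd K d (a + 1) * qd K d (m - a) := by
  have h1 := hq_ne (K := K) hd
  simp only [qd_eq]
  have h2 : hq K (d * a) * hq K (d * (m - a + 1)) + hq K d * hq K (d * (m - 2 * a)) =
      hq K (d * (a + 1)) * hq K (d * (m - a)) := by
    simp only [hq, sub_mul, mul_sub, ← qadd]
    ring_nf
  field_simp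
  linear_combination h2

theorem sl2 {V : Mod C K M} (i : I) {k : I → ℤ} {x : M} (hx : x ∈ V.wt (C.rt k))
    (hF : V.F i x = 0) (m : ℕ) (hm : C.rt k i = -m) :
    ∀ a : ℕ, ((V.E i) ^ a) x ∈ V.wt (C.rt (k + (a : ℤ) • al i)) ∧
      V.F i (((V.E i) ^ (a + 1)) x) =
        (qd K (C.d i) (a + 1) * qd K (C.d i) (m - a)) • ((V.E i) ^ a) x := by
  have hd : (C.d i : ℤ) ≠ 0 := by have := C.d_pos i; omega
  have hw : ∀ a : ℕ, ((V.E i) ^ a) x ∈ V.wt (C.rt (k + (a : ℤ) • al i)) := by
    intro a
    induction a with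
    | zero => simpa using hx
    | succ a ih =>
      have h1 := E_rt V i ih
      rw [pow_succ']
      have h2 : k + (a : ℤ) • al i + al i = k + ((a + 1 : ℕ) : ℤ) • al i := by
        push_cast
        rw [add_smul, one_smul, add_assoc]
      rw [h2] at h1
      exact h1
  intro a
  refine ⟨hw a, ?_⟩
  have hwt : ∀ a : ℕ, C.rt (k + (a : ℤ) • al i) i = -m + 2 * a := by
    intro a
    rw [rt_add, rt_smul, Pi.add_apply, Pi.smul_apply, rt_al, C.diag, hm, smul_eq_mul]
    ring
  have hstep : ∀ a : ℕ, V.F i (((V.E i) ^ (a + 1)) x) = V.E i (V.F i (((V.E i) ^ a) x)) -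
      qd K (C.d i) (-m + 2 * a) • ((V.E i) ^ a) x := by
    intro a
    have h1 := EF_wt V i (hw a)
    rw [hwt] at h1
    rw [pow_succ']
    show V.F i (V.E i (((V.E i) ^ a) x)) = _
    rw [← h1]
    abel
  have hneg : ∀ n : ℤ, qd K (C.d i) (-n) = -qd K (C.d i) n := by
    intro n
    rw [qd_eq, qd_eq, mul_neg, hq_neg, neg_div]
  induction a with
  | zero =>
    rw [hstep 0]
    simp only [pow_zero, Module.End.one_apply, Nat.cast_zero, mul_zero, add_zero, sub_zero, zero_add]
    rw [hF, map_zero, hneg, neg_smul, zero_sub, neg_neg]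
    have : qd K (C.d i : ℤ) 1 = 1 := by
      rw [qd_eq, mul_one]
      exact div_self (hq_ne hd)
    rw [this, one_mul]
  | succ a ih =>
    rw [hstep (a + 1), ih, map_smul]
    have h1 : V.E i (((V.E i) ^ a) x) = ((V.E i) ^ (a + 1)) x := by
      rw [pow_succ']; rfl
    rw [h1, ← sub_smul]
    congr 1
    have h2 := sl2_num (K := K) (C.d i : ℤ) hd (a + 1) m
    have h3 : (-(m : ℤ) + 2 * ((a + 1 : ℕ) : ℤ)) = -((m : ℤ) - 2 * (a + 1)) := by
      push_cast; ring
    rw [h3, hneg]
    push_cast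
    rw [← h2]
    ring_nf

theorem E_pow_ne {V : Mod C K M} (i : I) {k : I → ℤ} {x : M} (hx : x ∈ V.wt (C.rt k)) (h0 : x ≠ 0)
    (hF : V.F i x = 0) (m : ℕ) (hm : C.rt k i = -m) : ((V.E i) ^ m) x ≠ 0 := by
  have hd : (C.d i : ℤ) ≠ 0 := by have := C.d_pos i; omega
  have key : ∀ a : ℕ, a ≤ m → ((V.E i) ^ a) x ≠ 0 := by
    intro a
    induction a with
    | zero => intro _; simpa using h0
    | succ a ih =>
      intro ha h1
      have h2 := (sl2 i hx hF m hm a).2
      rw [h1, map_zero] at h2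
      have h3 := smul_eq_zero.1 h2.symm
      rcases h3 with h3 | h3
      · rcases mul_eq_zero.1 h3 with h4 | h4
        · exact qd_ne hd (by omega) h4
        · exact qd_ne hd (by omega) h4
      · exact ih (by omega) h3
  exact key m le_rfl

/-- A vector in the root lattice with nonnegative pairings with the simple roots. -/
theorem nonneg_of_dom (k : I → ℤ) (hk : ∀ i, 0 ≤ C.rt k i) : ∀ i, 0 ≤ k i := by
  classical
  set n : I → ℤ := fun i => max (-k i) 0 with hn
  set p : I → ℤ := fun i => max (k i) 0 with hp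
  have hkp : k = p + (-1 : ℤ) • n := by
    funext i
    simp only [hp, hn, Pi.add_apply, Pi.smul_apply, smul_eq_mul]
    rcases le_total 0 (k i) with h | h
    · rw [max_eq_left h, max_eq_right (by omega)]; ring
    · rw [max_eq_right h, max_eq_left (by omega)]; ring
  have h1 : 0 ≤ bb C n k := by
    have h2 : bb C n k = ∑ i, n i * (C.d i * C.rt k i) := by
      unfold bb
      refine Finset.sum_congr rfl fun i _ => ?_
      rw [Cartan.rt, Finset.mul_sum, Finset.mul_sum]
      refine Finset.sum_congr rfl fun j _ => ?_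
      rw [Cartan.br]; ring
    rw [h2]
    refine Finset.sum_nonneg fun i _ => ?_
    have h3 : 0 ≤ n i := le_max_right _ _
    have h4 := hk i
    positivity
  have h2 : bb C n p ≤ 0 := by
    unfold bb
    refine Finset.sum_nonpos fun i _ => Finset.sum_nonpos fun j _ => ?_
    have h3 : 0 ≤ n i := le_max_right _ _
    have h4 : 0 ≤ p j := le_max_right _ _
    by_cases hij : i = j
    · subst hij
      have h5 : n i * p i = 0 := by
        simp only [hp, hn]
        rcases le_total 0 (k i) with h | h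
        · rw [max_eq_right (by omega : -k i ≤ 0), zero_mul]
        · rw [max_eq_right h, mul_zero]
      have h6 : n i * C.br i i * p i = C.br i i * (n i * p i) := by ring
      rw [h6, h5, mul_zero]
    · have h5 : C.br i j ≤ 0 := by
        rw [Cartan.br]
        exact mul_nonpos_of_nonneg_of_nonpos (by positivity) (C.off i j hij)
      have h6 : n i * C.br i j ≤ 0 := mul_nonpos_of_nonneg_of_nonpos h3 h5
      exact mul_nonpos_of_nonpos_of_nonneg h6 h4
  have h3 : bb C n n ≤ 0 := by
    have h4 : bb C n k = bb C n p - bb C n n := by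
      conv_lhs => rw [hkp]
      rw [bb_add_right, bb_smul_right]
      ring
    omega
  have h4 : n = 0 := by
    by_contra h5
    have := bb_pos (C := C) n h5
    omega
  intro i
  have h5 := congrFun h4 i
  simp only [hn, Pi.zero_apply] at h5
  have h6 : -k i ≤ max (-k i) 0 := le_max_left _ _
  omega

/-- Claim (3): the weights of the kernel of a power of `T` are zero. -/
theorem ker_wt (V : Mod C K M) [Module.Finite K M] (c : V.Cas) (e : ℕ) {k0 : I → ℤ} {x0 : M}
    (hx0 : x0 ∈ V.wt (C.rt k0)) (hne0 : x0 ≠ 0)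
    (hT0 : aeval (c.T : Module.End K M) ((X : K[X]) ^ e) x0 = 0) : k0 = 0 := by
  classical
  by_contra hk0
  obtain ⟨S, hS⟩ := exists_S V
  set T : Module.End K M := c.T with hTdef
  set Gd : (I → ℤ) → Prop := fun k => k ≠ 0 ∧ ∃ x ∈ V.wt (C.rt k), x ≠ 0 ∧
    aeval T ((X : K[X]) ^ e) x = 0 with hGd
  have hGS : ∀ k, Gd k → k ∈ S := by
    rintro k ⟨-, x, hx, hx0, -⟩
    refine hS k fun h => hx0 ?_
    rw [h, Submodule.mem_bot] at hx
    exact hx
  obtain ⟨k, hk, hmax⟩ := Finset.exists_max_image (S.filter Gd)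
    (fun k => toLex (bb C k k, ∑ j, k j))
    ⟨k0, by rw [Finset.mem_filter]; exact ⟨hGS k0 ⟨hk0, x0, hx0, hne0, hT0⟩, hk0, x0, hx0, hne0, hT0⟩⟩
  rw [Finset.mem_filter] at hk
  obtain ⟨hkS, hkne, x, hx, hxne, hTx⟩ := hk
  have hmax' : ∀ k', Gd k' → bb C k' k' < bb C k k ∨ (bb C k' k' = bb C k k ∧ ∑ j, k' j ≤ ∑ j, k j) := by
    intro k' hk'
    have := hmax k' (by rw [Finset.mem_filter]; exact ⟨hGS k' hk', hk'⟩)
    rw [Prod.Lex.toLex_le_toLex] at this
    exact this
  have hbk := bb_pos (C := C) k hkne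
  have hne_of : ∀ k' : I → ℤ, 0 < bb C k' k' → k' ≠ 0 := by
    rintro k' h rfl
    simp [bb] at h
  have hdom : ∀ i, 0 ≤ C.rt k i := by
    intro i
    by_contra hneg
    push Not at hneg
    have hd : (0 : ℤ) < C.d i := by exact_mod_cast C.d_pos i
    have hprod : (C.d i : ℤ) * C.rt k i < 0 := mul_neg_of_pos_of_neg hd hneg
    have hF : V.F i x = 0 := by
      by_contra hF0
      have h1 := bb_shift (C := C) k (-1) i
      have h2 : Gd (k + (-1 : ℤ) • al i) := by
        refine ⟨hne_of _ (by rw [h1]; nlinarith), V.F i x, F_rt V i hx, hF0, ?_⟩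
        rw [poly_comm T (V.F i) (c.F i), hTx, map_zero]
      rcases hmax' _ h2 with h3 | ⟨h3, -⟩
      · rw [h1] at h3; nlinarith
      · rw [h1] at h3; nlinarith
    obtain ⟨m, hm⟩ : ∃ m : ℕ, C.rt k i = -m := ⟨(-C.rt k i).toNat, by omega⟩
    have hm0 : 0 < m := by
      rcases Nat.eq_zero_or_pos m with h | h
      · subst h; simp at hm; omega
      · exact h
    have h1 := bb_shift (C := C) k (m : ℤ) i
    have h2 : bb C (k + (m : ℤ) • al i) (k + (m : ℤ) • al i) = bb C k k := by
      rw [h1, hm]; ring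
    have h3 : Gd (k + (m : ℤ) • al i) := by
      refine ⟨hne_of _ (by rw [h2]; exact hbk), ((V.E i) ^ m) x, (sl2 i hx hF m hm m).1,
        E_pow_ne i hx hxne hF m hm, ?_⟩
      have h4 : ∀ a : ℕ, aeval T ((X : K[X]) ^ e) (((V.E i) ^ a) x) = 0 := by
        intro a
        induction a with
        | zero => simpa using hTx
        | succ a ih =>
          rw [pow_succ' (V.E i)]
          show aeval T ((X : K[X]) ^ e) (V.E i (((V.E i) ^ a) x)) = 0
          rw [poly_comm T (V.E i) (c.E i), ih, map_zero]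
      exact h4 m
    rcases hmax' _ h3 with h5 | ⟨-, h5⟩
    · omega
    · rw [sum_al] at h5
      omega
  have hE : ∀ i, V.E i x = 0 := by
    intro i
    by_contra hE0
    have hd : (0 : ℤ) < C.d i := by exact_mod_cast C.d_pos i
    have hprod : 0 ≤ (C.d i : ℤ) * C.rt k i := mul_nonneg hd.le (hdom i)
    have h1 := bb_shift (C := C) k 1 i
    rw [one_smul] at h1
    have h2 : Gd (k + al i) := by
      refine ⟨hne_of _ (by rw [h1]; nlinarith), V.E i x, E_rt V i hx, hE0, ?_⟩
      rw [poly_comm T (V.E i) (c.E i), hTx, map_zero]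
    rcases hmax' _ h2 with h3 | ⟨h3, -⟩
    · rw [h1] at h3; nlinarith
    · rw [h1] at h3; nlinarith
  have hTe : c.T x = xk C K k • x := T_eq c hx hE
  have hpow : ∀ a : ℕ, (T ^ a) x = (xk C K k) ^ a • x := by
    intro a
    induction a with
    | zero => simp
    | succ a ih =>
      rw [pow_succ']
      show T ((T ^ a) x) = _
      rw [ih, map_smul]
      show (xk C K k) ^ a • c.T x = _
      rw [hTe, smul_smul, ← pow_succ]
  have h0 : xk C K k = 0 := by
    rw [map_pow, aeval_X, hpow] at hTx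
    rcases smul_eq_zero.1 hTx with h | h
    · by_contra h'
      exact pow_ne_zero e h' h
    · exact absurd h hxne
  have h1 := nrm_of_xk h0
  have h2 := nonneg_of_dom (C := C) k hdom
  rw [nrm_eq] at h1
  have h3 : 0 ≤ ∑ j, 2 * (C.d j : ℤ) * k j := Finset.sum_nonneg fun j _ => by
    have := h2 j
    positivity
  omega

/-- Weight components: a submodule which is the kernel of a polynomial in `T`. -/
theorem comp_ker (V : Mod C K M) (hV : V.IsRt) (c : V.Cas) (f : K[X])
    (W : Submodule K M) (hW : ∀ k, ∀ x ∈ V.wt (C.rt k), aeval (c.T : Module.End K M) f x = 0 → x ∈ W)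
    (x : M) (hx : aeval (c.T : Module.End K M) f x = 0) : x ∈ W := by
  classical
  have h0 : x ∈ ⨆ k : I → ℤ, V.wt (C.rt k) := by
    have h1 : ⨆ k : I → ℤ, V.wt (C.rt k) = ⊤ := hV
    rw [h1]; trivial
  rw [Submodule.mem_iSup_iff_exists_finsupp] at h0
  obtain ⟨g, hg, hgx⟩ := h0
  have hind : iSupIndep fun k : I → ℤ => V.wt (C.rt k) := (wt_indep V).comp rt_inj
  have h2 : ∀ k, aeval (c.T : Module.End K M) f (g k) = 0 := by
    have h3 : ∑ k ∈ g.support, aeval (c.T : Module.End K M) f (g k) = 0 := by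
      rw [← map_sum]
      have h4 : ∑ k ∈ g.support, g k = x := hgx
      rw [h4, hx]
    intro k
    by_cases hk : k ∈ g.support
    · have h5 := hind k
      rw [Submodule.disjoint_def] at h5
      refine h5 _ (poly_wt c f (hg k)) ?_
      rw [← Finset.add_sum_erase _ _ hk] at h3
      rw [eq_neg_of_add_eq_zero_left h3]
      refine Submodule.neg_mem _ (Submodule.sum_mem _ fun l hl => ?_)
      have h6 : V.wt (C.rt l) ≤ ⨆ j, ⨆ (_ : j ≠ k), V.wt (C.rt j) :=
        le_iSup₂_of_le l (Finset.ne_of_mem_erase hl) le_rfl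
      exact h6 (poly_wt c f (hg l))
    · rw [Finsupp.notMem_support_iff.1 hk, map_zero]
  rw [← hgx]
  exact Submodule.sum_mem _ fun k _ => hW k _ (hg k) (h2 k)

omit [HasQ K] in
theorem poly_zero (T : Module.End K M) {x : M} (hx : T x = 0) (f : K[X]) :
    aeval T f x = f.eval 0 • x := by
  induction f using Polynomial.induction_on' with
  | add f g hf hg => rw [map_add, LinearMap.add_apply, hf, hg, eval_add, add_smul]
  | monomial n a =>
    rw [aeval_monomial, eval_monomial]
    rcases n with _ | n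
    · simp [Module.algebraMap_end_apply]
    · rw [pow_succ]
      simp only [Module.End.mul_apply, hx, map_zero]
      simp

theorem exists_proj_aux (V : Mod C K M) [Module.Finite K M] (hV : V.IsRt) (c : V.Cas) :
    Nonempty V.Proj := by
  classical
  obtain ⟨S, hS⟩ := exists_S V
  obtain ⟨d, hd⟩ := nilp V hV c S hS
  set T : Module.End K M := c.T with hTdef
  set P : K[X] := ∏ k ∈ S.filter (fun k => C.nrm k ≠ 0),
    (1 - Polynomial.C (xk C K k)⁻¹ * X) ^ d with hP
  have hP0 : P.eval 0 = 1 := by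
    rw [hP, eval_prod]
    refine Finset.prod_eq_one fun k _ => ?_
    simp
  -- the factorisation
  obtain ⟨e, u, hu, hfac⟩ : ∃ (e : ℕ) (u : K), u ≠ 0 ∧
      (∏ k ∈ S, (X - Polynomial.C (xk C K k))) ^ d = X ^ e * (Polynomial.C u * P) := by
    refine ⟨d * (S.filter fun k => ¬ C.nrm k ≠ 0).card,
      ∏ k ∈ S.filter (fun k => C.nrm k ≠ 0), (-xk C K k) ^ d, ?_, ?_⟩
    · refine Finset.prod_ne_zero_iff.2 fun k hk => ?_
      rw [Finset.mem_filter] at hk
      exact pow_ne_zero _ (neg_ne_zero.2 (xk_ne hk.2))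
    · rw [← Finset.prod_pow, ← Finset.prod_filter_mul_prod_filter_not S (fun k => C.nrm k ≠ 0), mul_comm]
      congr 1
      · rw [pow_mul, ← Finset.prod_const]
        refine Finset.prod_congr rfl fun k hk => ?_
        rw [Finset.mem_filter, not_not] at hk
        rw [xk_zero hk.2, Polynomial.C_0, sub_zero]
      · rw [hP, map_prod, ← Finset.prod_mul_distrib]
        refine Finset.prod_congr rfl fun k hk => ?_
        rw [Finset.mem_filter] at hk
        have h1 := xk_ne (K := K) hk.2
        rw [map_pow, ← mul_pow]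
        congr 1
        have h2 : Polynomial.C (xk C K k) * Polynomial.C (xk C K k)⁻¹ = (1 : K[X]) := by
          rw [← Polynomial.C_mul, mul_inv_cancel₀ h1, Polynomial.C_1]
        rw [map_neg]
        linear_combination (-X) * h2
  have hker : ∀ x, aeval T ((X : K[X]) ^ e) (aeval T P x) = 0 := by
    intro x
    have h1 := hd x
    rw [hfac, map_mul, Module.End.mul_apply, map_mul, Module.End.mul_apply, aeval_C,
      Module.algebraMap_end_apply, map_smul] at h1
    exact (smul_eq_zero.1 h1).resolve_left hu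
  have hInv : ∀ x, aeval T ((X : K[X]) ^ e) x = 0 → x ∈ V.Inv := by
    refine comp_ker V hV c (X ^ e) V.Inv fun k x hx hx0 => ?_
    by_cases hne : x = 0
    · rw [hne]; exact Submodule.zero_mem _
    have hk := ker_wt V c e hx hne hx0
    subst hk
    intro i
    refine ⟨?_, ?_, ?_⟩
    · by_contra h1
      have h2 := ker_wt V c e (E_rt V i hx) h1 (by
        rw [poly_comm (c.T : Module.End K M) (V.E i) (c.E i), hx0, map_zero])
      have h3 := congrFun h2 i
      simp [al] at h3
    · by_contra h1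
      have h2 := ker_wt V c e (F_rt V i hx) h1 (by
        rw [poly_comm (c.T : Module.End K M) (V.F i) (c.F i), hx0, map_zero])
      have h3 := congrFun h2 i
      simp [al] at h3
    · have h1 := hx i
      rw [rt_zero] at h1
      simpa using h1
  have hmem : ∀ x, aeval T P x ∈ V.Inv := fun x => hInv _ (hker x)
  refine ⟨{ p := aeval T P, mem := hmem, id := ?_, E := ?_, F := ?_, fac := ?_, int := ?_ }⟩
  · intro x hx
    rw [poly_zero T (T_inv c hx), hP0, one_smul]
  · intro i x
    have h1 := poly_comm T (V.E i) (c.E i) P x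
    rw [h1]
    exact (hmem x i).1
  · intro i x
    have h1 := poly_comm T (V.F i) (c.F i) P x
    rw [h1]
    exact (hmem x i).2.1
  · intro φ hφE hφF x
    have hφT : ∀ y, φ (T y) = 0 := by
      have h1 : (⊤ : Submodule K M) ≤ LinearMap.ker (φ ∘ₗ c.T) := by
        rw [← hV]
        refine iSup_le fun k y hy => ?_
        rw [LinearMap.mem_ker, LinearMap.comp_apply]
        have hy' : y ∈ V.wt (C.rt k) := hy
        by_cases hk : k = 0
        · subst hk
          rw [c.apply 0 y hy']
          have h2 : (hq K 1)⁻¹ * (qq K ^ (-C.nrm 0) - 1) = xk C K 0 := rfl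
          rw [h2, xk_zero nrm_zero, zero_smul, zero_add]
          simp only [map_sum, map_smul]
          refine Finset.sum_eq_zero fun m _ => Finset.sum_eq_zero fun u hu => Finset.sum_eq_zero
            fun v _ => ?_
          rcases u with _ | ⟨i, u⟩
          · exact absurd rfl (ne_nil_of_wd hu)
          · rw [Mod.Fw_cons, LinearMap.comp_apply, hφF, smul_zero]
        · have h2 : C.rt k ≠ 0 := fun h => hk (rt_inj (h.trans rt_zero.symm))
          obtain ⟨i, hi⟩ := Function.ne_iff.1 h2
          have h3 := EF_wt V i (T_wt c hy')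
          have h4 := congrArg φ h3
          rw [map_sub, hφE, hφF, sub_zero, map_smul] at h4
          have hdi : (C.d i : ℤ) ≠ 0 := by have := C.d_pos i; omega
          exact (smul_eq_zero.1 h4.symm).resolve_left (qd_ne hdi hi)
      intro y
      exact h1 (Submodule.mem_top (x := y))
    have h1 : (X : K[X]) ∣ P - 1 := by
      rw [Polynomial.X_dvd_iff, coeff_sub, coeff_zero_eq_eval_zero, hP0]
      simp
    obtain ⟨R, hR⟩ := h1
    have h2 : P = 1 + X * R := by rw [← hR]; ring
    rw [h2, map_add, map_one, map_mul, aeval_X, LinearMap.add_apply, Module.End.one_apply,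
      Module.End.mul_apply, map_add, hφT, add_zero]
  · intro L hL
    have hTL : ∀ x ∈ L, T x ∈ L := by
      intro x hx
      have h1 := hL.wt hx
      clear hx
      induction h1 using Submodule.span_induction with
      | mem y hy =>
        obtain ⟨hyL, m, hym⟩ := hy
        by_cases hy0 : y = 0
        · rw [hy0, map_zero]; exact L.zero_mem
        obtain ⟨k, rfl⟩ := wt_of_isRt V hV hy0 hym
        have h2 := c.apply k y hym
        have h3 : (hq K 1)⁻¹ * (qq K ^ (-C.nrm k) - 1) = xk C K k := rfl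
        rw [h3] at h2
        rw [hTdef, h2]
        refine L.add_mem (L.smul_mem (⟨xk C K k, xk_mem k⟩ : RR K) hyL) ?_
        refine L.sum_mem fun m _ => L.sum_mem fun u _ => L.sum_mem fun v _ => ?_
        refine L.smul_mem (⟨c.r k u v, c.r_mem k u v⟩ : RR K) ?_
        refine Fw_pred V (fun y => y ∈ L) (fun i y hy => hL.F i y hy) ?_ u
        rcases v with _ | ⟨i, v⟩
        · exact hyL
        · exact Ew_pred V (fun y => y ∈ L) (fun i y hy => hL.E i y hy)
            (fun i => hL.E i y hyL) _ (by simp)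
      | zero => rw [map_zero]; exact L.zero_mem
      | add y z _ _ hy hz => rw [map_add]; exact L.add_mem hy hz
      | smul r y _ hy =>
        have h2 : T (r • y) = r • T y := by
          rw [Subring.smul_def, Subring.smul_def, map_smul]
        rw [h2]
        exact L.smul_mem r hy
    have hprod : ∀ x ∈ L, aeval T P x ∈ L := by
      rw [hP]
      refine Finset.prod_induction _ (fun f : K[X] => ∀ x ∈ L, aeval T f x ∈ L) ?_ ?_ ?_
      · intro f g hf hg x hx
        rw [map_mul, Module.End.mul_apply]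
        exact hf _ (hg _ hx)
      · intro x hx
        rw [map_one]
        exact hx
      · intro k hk
        rw [Finset.mem_filter] at hk
        have h1 : ∀ x ∈ L, aeval T (1 - Polynomial.C (xk C K k)⁻¹ * X) x ∈ L := by
          intro x hx
          rw [map_sub, map_one, map_mul, aeval_C, aeval_X, LinearMap.sub_apply, Module.End.one_apply,
            Module.End.mul_apply, Module.algebraMap_end_apply]
          exact L.sub_mem hx (L.smul_mem (⟨(xk C K k)⁻¹, xk_inv_mem hk.2⟩ : RR K) (hTL x hx))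
        have h2 : ∀ n : ℕ, ∀ x ∈ L,
            aeval T ((1 - Polynomial.C (xk C K k)⁻¹ * X) ^ n) x ∈ L := by
          intro n
          induction n with
          | zero => intro x hx; rw [pow_zero, map_one]; exact hx
          | succ n ih =>
            intro x hx
            rw [pow_succ, map_mul, Module.End.mul_apply]
            exact ih _ (h1 x hx)
        exact h2 d
    exact hprod

end T05

theorem exists_proj (V : Mod C K M) [Module.Finite K M] (hV : V.IsRt) (c : V.Cas) :
    Nonempty V.Proj := T05.exists_proj_aux V hV c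

end Pool.Agent.H387.QR
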