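import Pool.Agent.H387.QR.Defs2

/-!
# T06. The quasi-R-matrix intertwines the coproduct and its bar conjugate
-/

namespace Pool.Agent.H387.QR

open scoped TensorProduct

variable {I : Type} [Fintype I] [DecidableEq I] {C : Cartan I} {K : Type*} [Field K] [HasQ K]
variable {M : Type*} [AddCommGroup M] [Module K M] {N : Type*} [AddCommGroup N] [Module K N]

namespace T06

omit [HasQ K] in
/-- The telescoping sum. -/
theorem tele {X : Type*} [AddCommGroup X] [Module K X] (h : K) (hh : h ≠ 0) (a p : ℕ → X) (n : ℕ)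
    (ha0 : a 0 = 0) (ha : ∀ m, a (m + 1) = (-h) • p m) (hp : p n = 0) :
    ∑ m ∈ Finset.range (n + 1), (h⁻¹ • a m + p m) = 0 := by
  rw [Finset.sum_add_distrib, Finset.sum_range_succ' (fun m => h⁻¹ • a m),
    Finset.sum_range_succ p, ha0, hp, smul_zero, add_zero, add_zero, ← Finset.sum_add_distrib]
  refine Finset.sum_eq_zero fun m _ => ?_
  rw [ha, smul_smul, mul_neg, inv_mul_cancel₀ hh, neg_one_smul, neg_add_cancel]

omit [HasQ K] in
/-- `(f, g) ↦ (A ∘ f) ⊗ g` -/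
noncomputable def bl (A : M →ₗ[K] M) :
    (M →ₗ[K] M) →ₗ[K] (N →ₗ[K] N) →ₗ[K] M ⊗[K] N →ₗ[K] M ⊗[K] N :=
  LinearMap.mk₂ K (fun f g => TensorProduct.map (A ∘ₗ f) g)
    (fun a b c => by rw [LinearMap.comp_add, TensorProduct.map_add_left])
    (fun r a b => by rw [LinearMap.comp_smul, TensorProduct.map_smul_left])
    (fun a b c => by rw [TensorProduct.map_add_right])
    (fun r a b => by rw [TensorProduct.map_smul_right])

omit [HasQ K] in
/-- `(f, g) ↦ (f ∘ A) ⊗ g` -/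
noncomputable def br (A : M →ₗ[K] M) :
    (M →ₗ[K] M) →ₗ[K] (N →ₗ[K] N) →ₗ[K] M ⊗[K] N →ₗ[K] M ⊗[K] N :=
  LinearMap.mk₂ K (fun f g => TensorProduct.map (f ∘ₗ A) g)
    (fun a b c => by rw [LinearMap.add_comp, TensorProduct.map_add_left])
    (fun r a b => by rw [LinearMap.smul_comp, TensorProduct.map_smul_left])
    (fun a b c => by rw [TensorProduct.map_add_right])
    (fun r a b => by rw [TensorProduct.map_smul_right])

omit [HasQ K] in
/-- `(f, g) ↦ f ⊗ (A ∘ g)` -/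
noncomputable def cl (A : N →ₗ[K] N) :
    (M →ₗ[K] M) →ₗ[K] (N →ₗ[K] N) →ₗ[K] M ⊗[K] N →ₗ[K] M ⊗[K] N :=
  LinearMap.mk₂ K (fun f g => TensorProduct.map f (A ∘ₗ g))
    (fun a b c => by rw [TensorProduct.map_add_left])
    (fun r a b => by rw [TensorProduct.map_smul_left])
    (fun a b c => by rw [LinearMap.comp_add, TensorProduct.map_add_right])
    (fun r a b => by rw [LinearMap.comp_smul, TensorProduct.map_smul_right])

omit [HasQ K] in
/-- `(f, g) ↦ f ⊗ (g ∘ A)` -/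
noncomputable def cr (A : N →ₗ[K] N) :
    (M →ₗ[K] M) →ₗ[K] (N →ₗ[K] N) →ₗ[K] M ⊗[K] N →ₗ[K] M ⊗[K] N :=
  LinearMap.mk₂ K (fun f g => TensorProduct.map f (g ∘ₗ A))
    (fun a b c => by rw [TensorProduct.map_add_left])
    (fun r a b => by rw [TensorProduct.map_smul_left])
    (fun a b c => by rw [LinearMap.add_comp, TensorProduct.map_add_right])
    (fun r a b => by rw [LinearMap.smul_comp, TensorProduct.map_smul_right])

omit [HasQ K] in
theorem comp_sum {A B D : Type*} [AddCommGroup A] [Module K A] [AddCommGroup B] [Module K B]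
    [AddCommGroup D] [Module K D] {ι : Type*} (s : Finset ι) (f : B →ₗ[K] D)
    (h : ι → (A →ₗ[K] B)) : f ∘ₗ (∑ j ∈ s, h j) = ∑ j ∈ s, f ∘ₗ h j := by
  ext x
  simp only [LinearMap.comp_apply, LinearMap.sum_apply, map_sum]

omit [HasQ K] in
theorem sum_comp {A B D : Type*} [AddCommGroup A] [Module K A] [AddCommGroup B] [Module K B]
    [AddCommGroup D] [Module K D] {ι : Type*} (s : Finset ι) (f : A →ₗ[K] B)
    (h : ι → (B →ₗ[K] D)) : (∑ j ∈ s, h j) ∘ₗ f = ∑ j ∈ s, h j ∘ₗ f := by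
  ext x
  simp only [LinearMap.comp_apply, LinearMap.sum_apply]

end T06

theorem theta_E (g : GInv C K) (V : Mod C K M) (W : Mod C K N) (n : ℕ)
    (hn : ∀ w : List I, n ≤ w.length → V.Fw w = 0)
    (hE1 : ∀ (β : (M →ₗ[K] M) →ₗ[K] (N →ₗ[K] N) →ₗ[K] M ⊗[K] N →ₗ[K] M ⊗[K] N) (ζ : I → K)
      (i : I) (n : ℕ), ∑ u ∈ wd I (n + 1), zw ζ u • β (lwN C K i u V.Fw) (W.Et g u) =
      ζ i • ∑ w ∈ wd I n, zw ζ w • β (V.Fw w) (W.E i ∘ₗ W.Et g w))
    (hE2 : ∀ (β : (M →ₗ[K] M) →ₗ[K] (N →ₗ[K] N) →ₗ[K] M ⊗[K] N →ₗ[K] M ⊗[K] N) (ζ : I → K)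
      (i : I) (n : ℕ), ∑ u ∈ wd I (n + 1), zw ζ u • β (rwN C K i u V.Fw) (W.Et g u) =
      ζ i • ∑ w ∈ wd I n, zw ζ w • β (V.Fw w) (W.Et g w ∘ₗ W.E i)) (i : I) :
    (V.tensor W).E i ∘ₗ Theta V W g n = Theta V W g n ∘ₗ
      (TensorProduct.map (V.E i) LinearMap.id + TensorProduct.map (V.Km i) (W.E i)) := by
  have hh : hq K (C.d i) ≠ 0 := hq_ne (by exact_mod_cast (C.d_pos i).ne')
  set t : List I → K := fun u => zw (fun i => -hq K (C.d i)) u with ht
  have e1 := fun m => hE1 (T06.bl (V.Kp i)) (fun i => -hq K (C.d i)) i m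
  have e2 := fun m => hE2 (T06.br (V.Km i)) (fun i => -hq K (C.d i)) i m
  have t1 := T06.tele (hq K (C.d i)) hh
    (fun m => ∑ u ∈ wd I m, t u • TensorProduct.map (V.Kp i ∘ₗ lwN C K i u V.Fw) (W.Et g u))
    (fun m => ∑ u ∈ wd I m, t u • TensorProduct.map (V.Kp i ∘ₗ V.Fw u) (W.E i ∘ₗ W.Et g u)) n
    (by simp [wd, lwN]) e1 (by
      refine Finset.sum_eq_zero fun u hu => ?_
      rw [hn u (mem_wd.1 hu).ge, LinearMap.comp_zero, TensorProduct.map_zero_left, smul_zero])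
  have t2 := T06.tele (hq K (C.d i)) hh
    (fun m => ∑ u ∈ wd I m, t u • TensorProduct.map (rwN C K i u V.Fw ∘ₗ V.Km i) (W.Et g u))
    (fun m => ∑ u ∈ wd I m, t u • TensorProduct.map (V.Fw u ∘ₗ V.Km i) (W.Et g u ∘ₗ W.E i)) n
    (by simp [wd, rwN]) e2 (by
      refine Finset.sum_eq_zero fun u hu => ?_
      rw [hn u (mem_wd.1 hu).ge, LinearMap.zero_comp, TensorProduct.map_zero_left, smul_zero])
  have key : (V.tensor W).E i ∘ₗ Theta V W g n - Theta V W g n ∘ₗ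
      (TensorProduct.map (V.E i) LinearMap.id + TensorProduct.map (V.Km i) (W.E i)) =
      (∑ m ∈ Finset.range (n + 1), ((hq K (C.d i))⁻¹ •
        (∑ u ∈ wd I m, t u • TensorProduct.map (V.Kp i ∘ₗ lwN C K i u V.Fw) (W.Et g u)) +
        ∑ u ∈ wd I m, t u • TensorProduct.map (V.Kp i ∘ₗ V.Fw u) (W.E i ∘ₗ W.Et g u))) -
      (∑ m ∈ Finset.range (n + 1), ((hq K (C.d i))⁻¹ •
        (∑ u ∈ wd I m, t u • TensorProduct.map (rwN C K i u V.Fw ∘ₗ V.Km i) (W.Et g u)) +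
        ∑ u ∈ wd I m, t u • TensorProduct.map (V.Fw u ∘ₗ V.Km i) (W.Et g u ∘ₗ W.E i))) := by
    rw [Theta, T06.comp_sum, T06.sum_comp, ← Finset.sum_sub_distrib,
      ← Finset.sum_sub_distrib]
    refine Finset.sum_congr rfl fun m _ => ?_
    rw [T06.comp_sum, T06.sum_comp, ← Finset.sum_sub_distrib, Finset.smul_sum,
      Finset.smul_sum, ← Finset.sum_add_distrib, ← Finset.sum_add_distrib,
      ← Finset.sum_sub_distrib]
    refine Finset.sum_congr rfl fun u _ => ?_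
    have hc := comm_EF V i u
    rw [show (V.tensor W).E i = TensorProduct.map (V.E i) LinearMap.id +
      TensorProduct.map (V.Kp i) (W.E i) from rfl]
    rw [LinearMap.comp_smul, LinearMap.smul_comp, LinearMap.add_comp, LinearMap.comp_add,
      ← TensorProduct.map_comp, ← TensorProduct.map_comp, ← TensorProduct.map_comp,
      ← TensorProduct.map_comp, LinearMap.id_comp, LinearMap.comp_id]
    have h1 : V.E i ∘ₗ V.Fw u = V.Fw u ∘ₗ V.E i + (hq K (C.d i))⁻¹ •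
      (V.Kp i ∘ₗ lwN C K i u V.Fw + (-1 : K) • rwN C K i u V.Fw ∘ₗ V.Km i) := by
      rw [neg_one_smul, ← sub_eq_add_neg, ← hc]; abel
    rw [h1, TensorProduct.map_add_left, TensorProduct.map_smul_left, TensorProduct.map_add_left,
      TensorProduct.map_smul_left]
    change t u • _ - t u • _ = _
    module
  rw [t1, t2, sub_zero] at key
  exact sub_eq_zero.1 key

theorem theta_F (g : GInv C K) (V : Mod C K M) (W : Mod C K N) (n : ℕ)
    (hn : ∀ w : List I, n ≤ w.length → V.Fw w = 0)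
    (hF1 : ∀ (β : (M →ₗ[K] M) →ₗ[K] (N →ₗ[K] N) →ₗ[K] M ⊗[K] N →ₗ[K] M ⊗[K] N) (ζ : I → K)
      (i : I) (n : ℕ), ∑ u ∈ wd I (n + 1), zw ζ u •
        β (V.Fw u) (∑ v ∈ wd I (n + 1), g.k u v • lwN C K i v W.Ew) =
      ζ i • ∑ w ∈ wd I n, zw ζ w • β (V.F i ∘ₗ V.Fw w) (W.Et g w))
    (hF2 : ∀ (β : (M →ₗ[K] M) →ₗ[K] (N →ₗ[K] N) →ₗ[K] M ⊗[K] N →ₗ[K] M ⊗[K] N) (ζ : I → K)
      (i : I) (n : ℕ), ∑ u ∈ wd I (n + 1), zw ζ u •
        β (V.Fw u) (∑ v ∈ wd I (n + 1), g.k u v • rwN C K i v W.Ew) =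
      ζ i • ∑ w ∈ wd I n, zw ζ w • β (V.Fw w ∘ₗ V.F i) (W.Et g w)) (i : I) :
    (V.tensor W).F i ∘ₗ Theta V W g n = Theta V W g n ∘ₗ
      (TensorProduct.map (V.F i) (W.Kp i) + TensorProduct.map LinearMap.id (W.F i)) := by
  have hh : hq K (C.d i) ≠ 0 := hq_ne (by exact_mod_cast (C.d_pos i).ne')
  set t : List I → K := fun u => zw (fun i => -hq K (C.d i)) u with ht
  have e1 := fun m => hF1 (T06.cl (W.Km i)) (fun i => -hq K (C.d i)) i m
  have e2 := fun m => hF2 (T06.cr (W.Kp i)) (fun i => -hq K (C.d i)) i m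
  have t1 := T06.tele (hq K (C.d i)) hh
    (fun m => ∑ u ∈ wd I m, t u • TensorProduct.map (V.Fw u)
      (W.Km i ∘ₗ ∑ v ∈ wd I m, g.k u v • lwN C K i v W.Ew))
    (fun m => ∑ u ∈ wd I m, t u • TensorProduct.map (V.F i ∘ₗ V.Fw u) (W.Km i ∘ₗ W.Et g u)) n
    (by simp [wd, lwN]) e1 (by
      refine Finset.sum_eq_zero fun u hu => ?_
      rw [hn u (mem_wd.1 hu).ge, LinearMap.comp_zero, TensorProduct.map_zero_left, smul_zero])
  have t2 := T06.tele (hq K (C.d i)) hh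
    (fun m => ∑ u ∈ wd I m, t u • TensorProduct.map (V.Fw u)
      ((∑ v ∈ wd I m, g.k u v • rwN C K i v W.Ew) ∘ₗ W.Kp i))
    (fun m => ∑ u ∈ wd I m, t u • TensorProduct.map (V.Fw u ∘ₗ V.F i) (W.Et g u ∘ₗ W.Kp i)) n
    (by simp [wd, rwN]) e2 (by
      refine Finset.sum_eq_zero fun u hu => ?_
      rw [hn u (mem_wd.1 hu).ge, LinearMap.zero_comp, TensorProduct.map_zero_left, smul_zero])
  have key : (V.tensor W).F i ∘ₗ Theta V W g n - Theta V W g n ∘ₗ
      (TensorProduct.map (V.F i) (W.Kp i) + TensorProduct.map LinearMap.id (W.F i)) =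
      (∑ m ∈ Finset.range (n + 1), ((hq K (C.d i))⁻¹ •
        (∑ u ∈ wd I m, t u • TensorProduct.map (V.Fw u)
          (W.Km i ∘ₗ ∑ v ∈ wd I m, g.k u v • lwN C K i v W.Ew)) +
        ∑ u ∈ wd I m, t u • TensorProduct.map (V.F i ∘ₗ V.Fw u) (W.Km i ∘ₗ W.Et g u))) -
      (∑ m ∈ Finset.range (n + 1), ((hq K (C.d i))⁻¹ •
        (∑ u ∈ wd I m, t u • TensorProduct.map (V.Fw u)
          ((∑ v ∈ wd I m, g.k u v • rwN C K i v W.Ew) ∘ₗ W.Kp i)) +
        ∑ u ∈ wd I m, t u • TensorProduct.map (V.Fw u ∘ₗ V.F i) (W.Et g u ∘ₗ W.Kp i))) := by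
    rw [Theta, T06.comp_sum, T06.sum_comp, ← Finset.sum_sub_distrib,
      ← Finset.sum_sub_distrib]
    refine Finset.sum_congr rfl fun m _ => ?_
    rw [T06.comp_sum, T06.sum_comp, ← Finset.sum_sub_distrib, Finset.smul_sum,
      Finset.smul_sum, ← Finset.sum_add_distrib, ← Finset.sum_add_distrib,
      ← Finset.sum_sub_distrib]
    refine Finset.sum_congr rfl fun u hu => ?_
    have hlen := mem_wd.1 hu
    rw [show (V.tensor W).F i = TensorProduct.map (V.F i) (W.Km i) +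
      TensorProduct.map LinearMap.id (W.F i) from rfl]
    rw [LinearMap.comp_smul, LinearMap.smul_comp, LinearMap.add_comp, LinearMap.comp_add,
      ← TensorProduct.map_comp, ← TensorProduct.map_comp, ← TensorProduct.map_comp,
      ← TensorProduct.map_comp, LinearMap.id_comp, LinearMap.comp_id]
    have h1 : W.F i ∘ₗ W.Et g u = W.Et g u ∘ₗ W.F i + (hq K (C.d i))⁻¹ •
      ((W.Km i ∘ₗ ∑ v ∈ wd I m, g.k u v • lwN C K i v W.Ew) +
        (-1 : K) • ((∑ v ∈ wd I m, g.k u v • rwN C K i v W.Ew) ∘ₗ W.Kp i)) := by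
      rw [Mod.Et, hlen, T06.comp_sum, T06.sum_comp, T06.comp_sum,
        T06.sum_comp, Finset.smul_sum, ← Finset.sum_add_distrib, Finset.smul_sum,
        ← Finset.sum_add_distrib]
      refine Finset.sum_congr rfl fun v _ => ?_
      have hc := comm_FE W i v
      have hc' : W.F i ∘ₗ W.Ew v = W.Ew v ∘ₗ W.F i + (hq K (C.d i))⁻¹ •
        (W.Km i ∘ₗ lwN C K i v W.Ew + (-1 : K) • (rwN C K i v W.Ew ∘ₗ W.Kp i)) := by
        rw [neg_one_smul, ← sub_eq_add_neg, ← hc]; abel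
      rw [LinearMap.comp_smul, LinearMap.smul_comp, LinearMap.comp_smul, LinearMap.smul_comp, hc']
      module
    rw [h1, TensorProduct.map_add_right, TensorProduct.map_smul_right,
      TensorProduct.map_add_right, TensorProduct.map_smul_right]
    change t u • _ - t u • _ = _
    module
  rw [t1, t2, sub_zero] at key
  exact sub_eq_zero.1 key

theorem theta_Kp (g : GInv C K) (V : Mod C K M) (W : Mod C K N) (n : ℕ) (i : I) :
    (V.tensor W).Kp i ∘ₗ Theta V W g n = Theta V W g n ∘ₗ (V.tensor W).Kp i := by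
  rw [Theta, T06.comp_sum, T06.sum_comp]
  refine Finset.sum_congr rfl fun m _ => ?_
  rw [T06.comp_sum, T06.sum_comp]
  refine Finset.sum_congr rfl fun u _ => ?_
  rw [show (V.tensor W).Kp i = TensorProduct.map (V.Kp i) (W.Kp i) from rfl,
    LinearMap.comp_smul, LinearMap.smul_comp, ← TensorProduct.map_comp, ← TensorProduct.map_comp]
  congr 1
  have h1 : V.Kp i ∘ₗ V.Fw u = qq K ^ (-pr C i u) • (V.Fw u ∘ₗ V.Kp i) := by
    ext x; exact V.Kp_Fw i u x
  have h2 : W.Kp i ∘ₗ W.Et g u = qq K ^ (pr C i u) • (W.Et g u ∘ₗ W.Kp i) := by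
    rw [Mod.Et, T06.comp_sum, T06.sum_comp, Finset.smul_sum]
    refine Finset.sum_congr rfl fun v _ => ?_
    by_cases hk : g.k u v = 0
    · rw [hk, zero_smul, LinearMap.comp_zero, LinearMap.zero_comp, smul_zero]
    · have hp : pr C i u = pr C i v := by
        rw [pr, pr]; exact ((g.perm u v hk).map _).sum_eq
      have h3 : W.Kp i ∘ₗ W.Ew v = qq K ^ (pr C i v) • (W.Ew v ∘ₗ W.Kp i) := by
        ext x; exact W.Kp_Ew i v x
      rw [LinearMap.comp_smul, LinearMap.smul_comp, h3, hp, smul_comm]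
  rw [h1, h2, TensorProduct.map_smul_left, TensorProduct.map_smul_right, smul_smul, ← qadd,
    neg_add_cancel, zpow_zero, one_smul]

end Pool.Agent.H387.QR
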