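import Pool.Agent.H387.QR.PA3

/-!
# A4. Existence of the generalised inverse of the Gram matrix (`GInv`)

Use the lemmas of `section hyp` as sorry-ed lemmas (proved in A1-A3).

PROOF.  For contents `η, ζ` let `IM η ζ ⊆ (Fn →ₗ[K] Fn)` be the `RR K`-span of the rank one maps
`a ↦ a(u) • ph v`, `u` of content `η`, `v` of content `ζ`.
(IM1) If `T ∈ IM η ζ` and `O : Fn → Fn` is linear with `O (fR ζ) ⊆ fR ζ'` then `O ∘ T ∈ IM η ζ'`.
(IM2) If `T ∈ IM η ζ` then `T ∘ D_i, T ∘ r_i ∈ IM (i ::ₘ η) ζ` (`(D_i a)(u) = a(i :: u)`, `(r_i a)(u) = a(u ++ [i])`).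
CLAIM: for every `η ≠ 0` there is `T_η ∈ IM η η` with `T_η a = h^{card η - 1} a` for all `a ∈ fc η`, `h = hq K 1`.
Induction on `card η`.
 * `card η = 1`, `η = {i}`: `fc η = K ph [i]`, `ph [i] [i] = 1`; `T a = a([i]) ph [i]`.
 * `n = card η ≥ 2`.  There is `i` with `m := cor C η i ≥ 1` (`C.pos` applied to the multiplicities `c_j`
   of `η`: `0 < ∑_{ij} c_i d_i a_ij c_j = ∑_i c_i d_i cor C η i`); then `i ∈ η` (`C.off`).  Let `η' = η.erase i`,
   `T' = T_{η'}`, `G` from `boson_inv i η'` and `X` from `X_inv i η`, `L = L_i`, `D = D_i`, `h_i = hq K (C.d i)`.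
   For `a ∈ fc η` let `b = a - L (G (D a)) ∈ fc η`; `D b = D a - D L G (D a) = 0`.  So
   `b = X (h_i⁻¹ ad_i (r_i b))`, and `r_i b ∈ fc η'`, `h^{n-2} r_i b = r_i (h^{n-2} a) - r_i L G (h^{n-2} D a)
   = T' (r_i a) - r_i L G T' (D a)` (as `r_i a, D a ∈ fc η'`).  Hence
   `h^{n-1} a = h L G T' D a + (h/h_i) X ad_i (T' r_i a - r_i L G T' D a)`,
   i.e. `T_η = h • L ∘ G ∘ T' ∘ D + (h/h_i) • X ∘ ad_i ∘ (T' ∘ r_i - r_i ∘ L ∘ G ∘ T' ∘ D)`, which is in `IM η η` by
   (IM1), (IM2), `hq_div_mem`, `hq_mem` (`i ::ₘ η' = η`).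
`GInv`: for `η ≠ 0` write `T_η = ∑_{u,v} r(u,v) (a ↦ a(u) ph v)`, `r(u,v) ∈ RR`, `u`, `v` of content `η`;
put `k(u,v) = h^{-(n-1)} r(u,v)` for `u, v` of the same content `η`, `n = card η`, `k [] [] = 1`, and `k(u,v) = 0` if
`u, v` are not permutations of each other.  `inv`: `ph w ∈ fc η`, `η` the content of `w`:
`h^{n-1} ph w = T_η (ph w) = ∑_{u,v} r(u,v) ph w u • ph v`, evaluate at `x`; words of other contents
contribute zero (`ph_eq_zero`, `k = 0`).
-/

namespace Pool.Agent.H387.QR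

variable {I : Type} [Fintype I] [DecidableEq I] {C : Cartan I} {K : Type*} [Field K] [HasQ K]


namespace A4

open Classical in
/-- The words of content `η`. -/
noncomputable def Wc (η : Multiset I) : Finset (List I) :=
  (wd I (Multiset.card η)).filter (fun u => (u : Multiset I) = η)

theorem mem_Wc {η : Multiset I} {u : List I} : u ∈ Wc η ↔ (u : Multiset I) = η := by
  unfold Wc
  rw [Finset.mem_filter, mem_wd]
  constructor
  · rintro ⟨_, h⟩; exact h
  · intro h
    exact ⟨by rw [← h, Multiset.coe_card], h⟩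

/-- integral maps -/
def IM (C : Cartan I) (K : Type*) [Field K] [HasQ K] (η ζ : Multiset I)
    (T : Fn I K →ₗ[K] Fn I K) : Prop :=
  ∃ s : List I → Fn I K, (∀ u, s u ∈ fR C K ζ) ∧ ∀ a, T a = ∑ u ∈ Wc η, a u • s u

theorem IM.comp {η ζ ζ' : Multiset I} {T O : Fn I K →ₗ[K] Fn I K} (hT : IM C K η ζ T)
    (hO : ∀ a ∈ fR C K ζ, O a ∈ fR C K ζ') : IM C K η ζ' (O ∘ₗ T) := by
  obtain ⟨s, hs, hT⟩ := hT
  refine ⟨fun u => O (s u), fun u => hO _ (hs u), fun a => ?_⟩
  rw [LinearMap.comp_apply, hT, map_sum]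
  exact Finset.sum_congr rfl fun u _ => map_smul O _ _

theorem IM.pull {η η' ζ : Multiset I} {T P : Fn I K →ₗ[K] Fn I K} (hT : IM C K η ζ T)
    {φ : List I → List I} (hφ : ∀ u ∈ Wc η, φ u ∈ Wc η') (hP : ∀ a u, P a u = a (φ u)) :
    IM C K η' ζ (T ∘ₗ P) := by
  classical
  obtain ⟨s, hs, hT⟩ := hT
  refine ⟨fun u' => ∑ u ∈ (Wc η).filter (fun u => φ u = u'), s u,
    fun u' => Submodule.sum_mem _ fun u _ => hs u, fun a => ?_⟩
  rw [LinearMap.comp_apply, hT]
  rw [← Finset.sum_fiberwise_of_maps_to hφ]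
  refine Finset.sum_congr rfl fun u' _ => ?_
  rw [Finset.smul_sum]
  refine Finset.sum_congr rfl fun u hu => ?_
  rw [hP, (Finset.mem_filter.1 hu).2]

theorem IM.add {η ζ : Multiset I} {T T' : Fn I K →ₗ[K] Fn I K} (hT : IM C K η ζ T)
    (hT' : IM C K η ζ T') : IM C K η ζ (T + T') := by
  obtain ⟨s, hs, hT⟩ := hT
  obtain ⟨s', hs', hT'⟩ := hT'
  refine ⟨fun u => s u + s' u, fun u => Submodule.add_mem _ (hs u) (hs' u), fun a => ?_⟩
  rw [LinearMap.add_apply, hT, hT', ← Finset.sum_add_distrib]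
  exact Finset.sum_congr rfl fun u _ => (smul_add _ _ _).symm

theorem IM.sub {η ζ : Multiset I} {T T' : Fn I K →ₗ[K] Fn I K} (hT : IM C K η ζ T)
    (hT' : IM C K η ζ T') : IM C K η ζ (T - T') := by
  obtain ⟨s, hs, hT⟩ := hT
  obtain ⟨s', hs', hT'⟩ := hT'
  refine ⟨fun u => s u - s' u, fun u => Submodule.sub_mem _ (hs u) (hs' u), fun a => ?_⟩
  rw [LinearMap.sub_apply, hT, hT', ← Finset.sum_sub_distrib]
  exact Finset.sum_congr rfl fun u _ => (smul_sub _ _ _).symm

theorem IM.smul {η ζ : Multiset I} {T : Fn I K →ₗ[K] Fn I K} (hT : IM C K η ζ T)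
    {c : K} (hc : c ∈ RR K) : IM C K η ζ (c • T) := by
  obtain ⟨s, hs, hT⟩ := hT
  refine ⟨fun u => c • s u, fun u => Submodule.smul_mem _ (⟨c, hc⟩ : RR K) (hs u), fun a => ?_⟩
  rw [LinearMap.smul_apply, hT, Finset.smul_sum]
  exact Finset.sum_congr rfl fun u _ => smul_comm _ _ _

theorem IM.D {η ζ : Multiset I} {T : Fn I K →ₗ[K] Fn I K} (hT : IM C K η ζ T) (i : I) :
    IM C K (i ::ₘ η) ζ (T ∘ₗ Dop i) := by
  refine hT.pull (φ := fun u => i :: u) ?_ (fun a u => rfl)
  intro u hu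
  rw [mem_Wc] at hu ⊢
  rw [← hu]; rfl

theorem IM.r {η ζ : Multiset I} {T : Fn I K →ₗ[K] Fn I K} (hT : IM C K η ζ T) (i : I) :
    IM C K (i ::ₘ η) ζ (T ∘ₗ rop i) := by
  refine hT.pull (φ := fun u => u ++ [i]) ?_ (fun a u => rfl)
  intro u hu
  rw [mem_Wc] at hu ⊢
  rw [← hu, Multiset.cons_coe, Multiset.coe_eq_coe]
  exact List.perm_append_singleton i u

theorem ph_mem (w : List I) : ph C (K := K) w ∈ fc C K (w : Multiset I) :=
  Submodule.subset_span ⟨w, rfl, rfl⟩

theorem ph_memR (w : List I) : ph C (K := K) w ∈ fR C K (w : Multiset I) :=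
  Submodule.subset_span ⟨w, rfl, rfl⟩

theorem ph_single (i : I) : ph C (K := K) [i] [i] = 1 := by
  rw [ph_cons, Lop_cons, D_ph_nil, map_zero, if_pos rfl, ph_apply_nil]
  simp

theorem fc_single (i : I) {a : Fn I K} (ha : a ∈ fc C K {i}) : a = a [i] • ph C [i] := by
  unfold fc at ha
  induction ha using Submodule.span_induction with
  | mem x hx =>
    obtain ⟨w, hw, rfl⟩ := hx
    have : w = [i] := by
      have h1 : (w : Multiset I) = ([i] : List I) := hw
      rw [Multiset.coe_eq_coe] at h1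
      exact List.perm_singleton.1 h1
    subst this
    rw [ph_single, one_smul]
  | zero => simp
  | add x y _ _ hx hy =>
    rw [Pi.add_apply, add_smul, ← hx, ← hy]
  | smul c x _ hx =>
    rw [Pi.smul_apply, smul_assoc, ← hx]

theorem fc_zero {a : Fn I K} (ha : a ∈ fc C K 0) : a = a [] • ph C [] := by
  unfold fc at ha
  induction ha using Submodule.span_induction with
  | mem x hx =>
    obtain ⟨w, hw, rfl⟩ := hx
    have : w = [] := Multiset.coe_eq_zero _ |>.1 hw
    subst this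
    rw [ph_apply_nil, if_pos rfl, one_smul]
  | zero => simp
  | add x y _ _ hx hy =>
    rw [Pi.add_apply, add_smul, ← hx, ← hy]
  | smul c x _ hx =>
    rw [Pi.smul_apply, smul_assoc, ← hx]

/-- explicit form of the elements of `fR` -/
theorem fR_repr {ζ : Multiset I} {a : Fn I K} (ha : a ∈ fR C K ζ) :
    ∃ r : List I → K, (∀ v, r v ∈ RR K) ∧ a = ∑ v ∈ Wc ζ, r v • ph C v := by
  classical
  unfold fR at ha
  induction ha using Submodule.span_induction with
  | mem x hx =>
    obtain ⟨w, hw, rfl⟩ := hx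
    refine ⟨fun v => if v = w then 1 else 0, fun v => ?_, ?_⟩
    · dsimp only
      split_ifs
      · exact Subring.one_mem _
      · exact Subring.zero_mem _
    · rw [Finset.sum_eq_single w]
      · dsimp only
        rw [if_pos rfl, one_smul]
      · intro v _ hv
        dsimp only
        rw [if_neg hv, zero_smul]
      · intro h
        exact absurd (mem_Wc.2 hw) h
  | zero => exact ⟨fun _ => 0, fun _ => Subring.zero_mem _, by simp⟩
  | add x y _ _ hx hy =>
    obtain ⟨r, hr, hx⟩ := hx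
    obtain ⟨r', hr', hy⟩ := hy
    refine ⟨fun v => r v + r' v, fun v => Subring.add_mem _ (hr v) (hr' v), ?_⟩
    rw [hx, hy, ← Finset.sum_add_distrib]
    exact Finset.sum_congr rfl fun v _ => (add_smul _ _ _).symm
  | smul c x _ hx =>
    obtain ⟨r, hr, hx⟩ := hx
    refine ⟨fun v => c * r v, fun v => Subring.mul_mem _ c.2 (hr v), ?_⟩
    rw [hx, Finset.smul_sum]
    refine Finset.sum_congr rfl fun v _ => ?_
    rw [mul_smul]
    rfl

theorem cor_eq (η : Multiset I) (i : I) : cor C η i = ∑ j, (η.count j : ℤ) * C.a i j := by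
  unfold cor
  rw [Finset.sum_multiset_map_count]
  rw [Finset.sum_subset (Finset.subset_univ _)]
  · exact Finset.sum_congr rfl fun j _ => by simp
  · intro j _ hj
    rw [Multiset.mem_toFinset] at hj
    rw [Multiset.count_eq_zero_of_notMem hj, zero_smul]

theorem exists_cor {η : Multiset I} (hη : η ≠ 0) : ∃ i ∈ η, 1 ≤ cor C η i := by
  have h := C.pos (fun i => (η.count i : ℤ)) (by
    intro h0
    apply hη
    ext i
    have := congrFun h0 i
    simpa using this)
  have e : ∑ i, ∑ j, (η.count i : ℤ) * (C.d i * C.a i j) * (η.count j : ℤ) =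
      ∑ i, (η.count i : ℤ) * (C.d i : ℤ) * cor C η i := by
    refine Finset.sum_congr rfl fun i _ => ?_
    rw [cor_eq, Finset.mul_sum]
    exact Finset.sum_congr rfl fun j _ => by ring
  rw [e] at h
  obtain ⟨i, _, hi⟩ := Finset.exists_lt_of_sum_lt (s := Finset.univ)
    (f := fun _ : I => (0 : ℤ)) (g := fun i => (η.count i : ℤ) * (C.d i : ℤ) * cor C η i)
    (by simpa using h)
  have hd : (0 : ℤ) < C.d i := by exact_mod_cast C.d_pos i
  have hc : (0 : ℤ) ≤ η.count i := by positivity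
  refine ⟨i, ?_, ?_⟩
  · by_contra hn
    rw [Multiset.count_eq_zero_of_notMem hn] at hi
    simp at hi
  · by_contra hn
    have h1 : cor C η i ≤ 0 := by omega
    have : (η.count i : ℤ) * (C.d i : ℤ) * cor C η i ≤ 0 :=
      mul_nonpos_of_nonneg_of_nonpos (mul_nonneg hc hd.le) h1
    omega

/-- the claim -/
theorem claim (n : ℕ) : ∀ η : Multiset I, Multiset.card η = n + 1 →
    ∃ T : Fn I K →ₗ[K] Fn I K, IM C K η η T ∧ ∀ a ∈ fc C K η, T a = hq K 1 ^ n • a := by
  induction n with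
  | zero =>
    intro η hη
    obtain ⟨i, rfl⟩ := Multiset.card_eq_one.1 hη
    refine ⟨LinearMap.smulRight (LinearMap.proj [i]) (ph C [i]), ⟨fun _ => ph C [i],
      fun _ => ph_memR [i], fun a => ?_⟩, fun a ha => ?_⟩
    · have : Wc ({i} : Multiset I) = {[i]} := by
        ext u
        rw [mem_Wc, Finset.mem_singleton]
        constructor
        · intro h
          have h1 : (u : Multiset I) = ([i] : List I) := h
          rw [Multiset.coe_eq_coe] at h1
          exact List.perm_singleton.1 h1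
        · rintro rfl; rfl
      rw [this, Finset.sum_singleton]
      rfl
    · rw [pow_zero, one_smul]
      exact (fc_single i ha).symm
  | succ n ih =>
    intro η hη
    have hη0 : η ≠ 0 := by
      rintro rfl
      simp at hη
    obtain ⟨i, hi, hcor⟩ := exists_cor (C := C) hη0
    have hcons : i ::ₘ η.erase i = η := Multiset.cons_erase hi
    have hcard : Multiset.card (η.erase i) = n + 1 := by
      have := Multiset.card_cons i (η.erase i)
      rw [hcons] at this
      omega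
    obtain ⟨T', hT', hTa⟩ := ih (η.erase i) hcard
    obtain ⟨G, hG1, hG2, hG3⟩ := boson_inv (C := C) (K := K) i (η.erase i)
    obtain ⟨X, hX1, hX2⟩ := X_inv (C := C) (K := K) i η hcor
    have hdi : (C.d i : ℤ) ≠ 0 := by exact_mod_cast (C.d_pos i).ne'
    have hh : hq K (C.d i) ≠ 0 := hq_ne hdi
    -- the building blocks
    have hA : IM C K η (η.erase i) (G ∘ₗ (T' ∘ₗ Dop i)) := by
      have := hT'.D i
      rw [hcons] at this
      exact this.comp hG3
    have hB : IM C K η η (Lop C i ∘ₗ (G ∘ₗ (T' ∘ₗ Dop i))) := by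
      refine hA.comp fun a ha => ?_
      have := L_memR (C := C) (K := K) i ha
      rwa [hcons] at this
    have hC' : IM C K η (η.erase i) (rop i ∘ₗ (Lop C i ∘ₗ (G ∘ₗ (T' ∘ₗ Dop i)))) :=
      hB.comp fun a ha => r_memR (C := C) (K := K) i ha
    have hD : IM C K η (η.erase i) (T' ∘ₗ rop i) := by
      have := hT'.r i
      rwa [hcons] at this
    have hE : IM C K η η (X ∘ₗ (adop C K i ∘ₗ
        (T' ∘ₗ rop i - rop i ∘ₗ (Lop C i ∘ₗ (G ∘ₗ (T' ∘ₗ Dop i)))))) := by
      refine IM.comp ?_ hX2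
      refine (hD.sub hC').comp fun a ha => ?_
      have := ad_memR (C := C) (K := K) i ha
      rwa [hcons] at this
    refine ⟨hq K 1 • (Lop C i ∘ₗ (G ∘ₗ (T' ∘ₗ Dop i))) + (hq K 1 * (hq K (C.d i))⁻¹) •
      (X ∘ₗ (adop C K i ∘ₗ (T' ∘ₗ rop i - rop i ∘ₗ (Lop C i ∘ₗ (G ∘ₗ (T' ∘ₗ Dop i)))))),
      (hB.smul (hq_mem 1)).add (hE.smul (hq_div_mem hdi)), fun a ha => ?_⟩
    have hDa := D_mem (C := C) (K := K) i ha
    have hra := r_mem (C := C) (K := K) i ha
    have h1 := hTa _ hDa
    have h2 := hTa _ hra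
    set b := a - Lop C i (G (Dop i a)) with hb
    have hbm : b ∈ fc C K η := by
      refine Submodule.sub_mem _ ha ?_
      have := L_mem (C := C) (K := K) i (hG2 _ hDa)
      rwa [hcons] at this
    have hDb : Dop i b = 0 := by
      rw [hb, map_sub, hG1 _ hDa, sub_self]
    have h3 := hX1 b hbm hDb
    have h4 : rop i b = rop i a - rop i (Lop C i (G (Dop i a))) := by rw [hb, map_sub]
    simp only [LinearMap.add_apply, LinearMap.smul_apply, LinearMap.comp_apply,
      LinearMap.sub_apply]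
    rw [h1, h2]
    simp only [map_smul]
    rw [← smul_sub, ← h4]
    simp only [map_smul]
    rw [map_smul] at h3
    have h5 : a = Lop C i (G (Dop i a)) + b := by rw [hb]; abel
    rw [smul_smul, smul_smul, pow_succ]
    have h6 : hq K 1 * (hq K (C.d i))⁻¹ * hq K 1 ^ n = (hq K 1 ^ n * hq K 1) * (hq K (C.d i))⁻¹ := by
      ring
    rw [h6, mul_smul (hq K 1 ^ n * hq K 1) (hq K (C.d i))⁻¹, h3, mul_comm (hq K 1) (hq K 1 ^ n),
      ← smul_add, ← h5]

/-- the integral matrix for a content -/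
theorem exists_r (η : Multiset I) : ∃ r : List I → List I → K, (∀ u v, r u v ∈ RR K) ∧
    (η = 0 → r [] [] = 1) ∧
    ∀ a ∈ fc C K η, hq K 1 ^ (Multiset.card η - 1) • a =
      ∑ u ∈ Wc η, ∑ v ∈ Wc η, (a u * r u v) • ph C v := by
  by_cases hη : η = 0
  · subst hη
    refine ⟨fun _ _ => 1, fun _ _ => Subring.one_mem _, fun _ => rfl, fun a ha => ?_⟩
    have hW : Wc (0 : Multiset I) = {[]} := by
      ext u
      rw [mem_Wc, Finset.mem_singleton, Multiset.coe_eq_zero]
    rw [hW, Finset.sum_singleton, Finset.sum_singleton, mul_one, ← fc_zero ha]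
    simp
  · obtain ⟨n, hn⟩ : ∃ n, Multiset.card η = n + 1 :=
      Nat.exists_eq_succ_of_ne_zero (fun h => hη (Multiset.card_eq_zero.1 h))
    obtain ⟨T, ⟨s, hs, hT⟩, hTa⟩ := claim (C := C) (K := K) n η hn
    choose r hr hr' using fun u => fR_repr (hs u)
    refine ⟨r, hr, fun h => absurd h hη, fun a ha => ?_⟩
    rw [hn, Nat.add_sub_cancel, ← hTa a ha, hT]
    refine Finset.sum_congr rfl fun u _ => ?_
    rw [hr' u, Finset.smul_sum]
    exact Finset.sum_congr rfl fun v _ => (mul_smul _ _ _).symm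

end A4

open A4 in
theorem exists_ginv (C : Cartan I) (K : Type*) [Field K] [HasQ K] : Nonempty (GInv C K) := by
  classical
  choose r hr h0 hra using fun η : Multiset I => exists_r (C := C) (K := K) η
  have hh : hq K 1 ≠ 0 := hq_ne one_ne_zero
  refine ⟨⟨fun u v => if (u : Multiset I) = v then
    (hq K 1 ^ (u.length - 1))⁻¹ * r (u : Multiset I) u v else 0, ?_, ?_, ?_, ?_⟩⟩
  · intro u v h
    by_contra hn
    apply h
    rw [if_neg]
    intro h'
    exact hn (Multiset.coe_eq_coe.1 h')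
  · rw [if_pos rfl, h0 (([] : List I) : Multiset I) rfl]
    simp
  · intro u v
    split_ifs
    · rw [← mul_assoc, mul_inv_cancel₀ (pow_ne_zero _ hh), one_mul]
      exact hr _ _ _
    · rw [mul_zero]; exact Subring.zero_mem _
  · intro n w x hw hx
    have h1 := congrFun (hra (w : Multiset I) (ph C w) (ph_mem w)) x
    rw [Multiset.coe_card, hw] at h1
    simp only [Pi.smul_apply, Finset.sum_apply, smul_eq_mul] at h1
    have hne : hq K 1 ^ (n - 1) ≠ 0 := pow_ne_zero _ hh
    have h2 : ph C w x = ∑ u ∈ Wc (w : Multiset I), ∑ v ∈ Wc (w : Multiset I),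
        (hq K 1 ^ (n - 1))⁻¹ * (ph C w u * r (w : Multiset I) u v * ph C v x) := by
      simp_rw [← Finset.mul_sum]
      rw [← h1, ← mul_assoc, inv_mul_cancel₀ hne, one_mul]
    rw [h2]
    have hsub : Wc (w : Multiset I) ⊆ wd I n := by
      intro u hu
      rw [mem_Wc, Multiset.coe_eq_coe] at hu
      rw [mem_wd, hu.length_eq, hw]
    rw [← Finset.sum_subset hsub]
    · refine Finset.sum_congr rfl fun u hu => ?_
      rw [← Finset.sum_subset hsub]
      · refine Finset.sum_congr rfl fun v hv => ?_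
        rw [mem_Wc] at hu hv
        have hul : u.length = n := by
          rw [Multiset.coe_eq_coe] at hu
          rw [hu.length_eq, hw]
        rw [if_pos (by rw [hu, hv]), hul, hu]
        ring
      · intro v _ hv
        rw [mem_Wc] at hu hv
        rw [if_neg (by rw [hu]; exact fun h => hv h.symm), mul_zero, zero_mul]
    · intro u _ hu
      rw [mem_Wc, Multiset.coe_eq_coe] at hu
      refine Finset.sum_eq_zero fun v _ => ?_
      rw [ph_eq_zero (fun h => hu h.symm), zero_mul, zero_mul]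

end Pool.Agent.H387.QR
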