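import Pool.Agent.H387.QR.P00
import Pool.Agent.H387.QR.P02
import Pool.Agent.H387.QR.P03
import Pool.Agent.H387.QR.P04
import Pool.Agent.H387.QR.P05
import Pool.Agent.H387.QR.P06
import Pool.Agent.H387.QR.PA4

/-!
# The quasi-R-matrix and the projectors: combination of the previous results
-/

namespace Pool.Agent.H387.QR

open scoped TensorProduct

variable {I : Type} [Fintype I] [DecidableEq I] {C : Cartan I} {K : Type*} [Field K] [HasQ K]
variable {M : Type*} [AddCommGroup M] [Module K M] {N : Type*} [AddCommGroup N] [Module K N]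

theorem tensor_isWt (V : Mod C K M) (W : Mod C K N) (hV : V.IsWt) (hW : W.IsWt) :
    (V.tensor W).IsWt := IsWt.tensor V W hV hW

theorem Theta_E (g : GInv C K) (V : Mod C K M) (W : Mod C K N) (hV : V.Rad) (hW : W.Rad) (n : ℕ)
    (hn : ∀ w : List I, n ≤ w.length → V.Fw w = 0) (i : I) :
    (V.tensor W).E i ∘ₗ Theta V W g n = Theta V W g n ∘ₗ
      (TensorProduct.map (V.E i) LinearMap.id + TensorProduct.map (V.Km i) (W.E i)) :=
  theta_E g V W n hn (fun β ζ i n => T03.can_E1 g V W hV hW β ζ i n)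
    (fun β ζ i n => T03.can_E2 g V W hV hW β ζ i n) i

theorem Theta_F (g : GInv C K) (V : Mod C K M) (W : Mod C K N) (hV : V.Rad) (hW : W.Rad) (n : ℕ)
    (hn : ∀ w : List I, n ≤ w.length → V.Fw w = 0) (i : I) :
    (V.tensor W).F i ∘ₗ Theta V W g n = Theta V W g n ∘ₗ
      (TensorProduct.map (V.F i) (W.Kp i) + TensorProduct.map LinearMap.id (W.F i)) :=
  theta_F g V W n hn (fun β ζ i n => T03.can_F1 g V W hV hW β ζ i n)
    (fun β ζ i n => T03.can_F2 g V W hV hW β ζ i n) i

theorem Theta_Kp (g : GInv C K) (V : Mod C K M) (W : Mod C K N) (n : ℕ) (i : I) :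
    (V.tensor W).Kp i ∘ₗ Theta V W g n = Theta V W g n ∘ₗ (V.tensor W).Kp i :=
  theta_Kp g V W n i

theorem proj_of_isRt (V : Mod C K M) [Module.Finite K M] (hV : V.IsRt) : Nonempty V.Proj := by
  obtain ⟨g⟩ := exists_ginv C K
  have hwt := isWt_of_isRt V hV
  have hR := rad_of_finite V hwt
  obtain ⟨c⟩ := T04.exists_cas g V hV hR (exists_wtOp V hwt)
    (fun β ζ i n => T03.can_E1 g V V hR hR β ζ i n)
    (fun β ζ i n => T03.can_E2 g V V hR hR β ζ i n)
    (fun β ζ i n => T03.can_F1 g V V hR hR β ζ i n)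
    (fun β ζ i n => T03.can_F2 g V V hR hR β ζ i n)
  exact exists_proj V hV c

end Pool.Agent.H387.QR
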