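import Pool.Agent.H387.QR.P12A
import Pool.Agent.H387.QR.P08
import Pool.Agent.H387.QR.PTheta

/-!
# T12B. Self-duality of the `R`-form; equality of the forms of the dual module

(see helper387's file `h387_QR_T12B.lean` for the paper proof).
-/

set_option autoImplicit false
set_option linter.unusedSectionVars false
set_option linter.unusedVariables false

namespace Pool.Agent.H387.QR.T12B

open scoped TensorProduct

variable {I : Type} [Fintype I] [DecidableEq I] {C : Cartan I} {K : Type*} [Field K] [HasQ K]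
variable {M : Type*} [AddCommGroup M] [Module K M] {N : Type*} [AddCommGroup N] [Module K N]


/-! ### the scalars -/

/-- the exponent of `q` -/
def ex (C : Cartan I) (lam k : I → ℤ) : ℤ :=
  (∑ i, ∑ j, k i * C.br i j * k j) / 2 - ∑ i, ((C.d i : ℤ) * lam i + C.d i) * k i

/-- the scalar by which `Z` acts -/
def gg (K : Type*) [Field K] [HasQ K] (C : Cartan I) (lam k : I → ℤ) : K :=
  (-1 : K) ^ (∑ i, k i) * qq K ^ ex C lam k

theorem br_symm (i j : I) : C.br i j = C.br j i := C.symm i j

theorem br_diag (i : I) : C.br i i = 2 * C.d i := by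
  rw [Cartan.br, C.diag]; ring

theorem sum_single_mul (f : I → ℤ) (i : I) : ∑ j, f j * (Pi.single i 1 : I → ℤ) j = f i := by
  rw [Finset.sum_eq_single i]
  · simp
  · intro b _ hb
    rw [Pi.single_eq_of_ne hb, mul_zero]
  · intro h
    exact absurd (Finset.mem_univ i) h

theorem quad_add (k : I → ℤ) (i : I) :
    ∑ a, ∑ b, (k + (Pi.single i 1 : I → ℤ)) a * C.br a b * (k + (Pi.single i 1 : I → ℤ)) b =
      ∑ a, ∑ b, k a * C.br a b * k b + 2 * (∑ j, C.br i j * k j + C.d i) := by
  have e1 : ∀ a, ∑ b, (k + (Pi.single i 1 : I → ℤ)) a * C.br a b * (k + (Pi.single i 1 : I → ℤ)) b =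
      (∑ b, k a * C.br a b * k b + k a * C.br a i) +
        ((∑ b, C.br a b * k b) * (Pi.single i 1 : I → ℤ) a +
          C.br a i * (Pi.single i 1 : I → ℤ) a) := by
    intro a
    have e2 : ∀ b, (k + (Pi.single i 1 : I → ℤ)) a * C.br a b * (k + (Pi.single i 1 : I → ℤ)) b =
        k a * C.br a b * k b + (k a * C.br a b) * (Pi.single i 1 : I → ℤ) b +
          ((C.br a b * k b) * (Pi.single i 1 : I → ℤ) a +
            ((Pi.single i 1 : I → ℤ) a * C.br a b) * (Pi.single i 1 : I → ℤ) b) := by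
      intro b
      simp only [Pi.add_apply]
      ring
    simp only [e2, Finset.sum_add_distrib]
    rw [sum_single_mul (fun b => k a * C.br a b) i,
      sum_single_mul (fun b => (Pi.single i 1 : I → ℤ) a * C.br a b) i, Finset.sum_mul]
    ring
  simp only [e1, Finset.sum_add_distrib]
  rw [sum_single_mul (fun a => ∑ b, C.br a b * k b) i, sum_single_mul (fun a => C.br a i) i,
    br_diag]
  have e3 : ∑ a, k a * C.br a i = ∑ j, C.br i j * k j :=
    Finset.sum_congr rfl fun a _ => by rw [br_symm]; ring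
  rw [e3]
  ring

theorem gg_add (lam k : I → ℤ) (i : I) : gg K C lam (k + Pi.single i 1) =
    -(qq K ^ (-((C.d i : ℤ) * (lam i - C.rt k i))) * gg K C lam k) := by
  have h1 : ∑ a, (k + (Pi.single i 1 : I → ℤ)) a = ∑ a, k a + 1 := by
    simp only [Pi.add_apply, Finset.sum_add_distrib]
    congr 1
    have := sum_single_mul (fun _ => 1) i
    simp
  have h2 : ex C lam (k + Pi.single i 1) =
      -((C.d i : ℤ) * (lam i - C.rt k i)) + ex C lam k := by
    unfold ex
    rw [quad_add, Int.add_mul_ediv_left _ _ (two_ne_zero)]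
    have h3 : ∑ a, ((C.d a : ℤ) * lam a + C.d a) * (k + (Pi.single i 1 : I → ℤ)) a =
        ∑ a, ((C.d a : ℤ) * lam a + C.d a) * k a + ((C.d i : ℤ) * lam i + C.d i) := by
      have h5 : ∀ a, ((C.d a : ℤ) * lam a + C.d a) * (k + (Pi.single i 1 : I → ℤ)) a =
          ((C.d a : ℤ) * lam a + C.d a) * k a +
            ((C.d a : ℤ) * lam a + C.d a) * (Pi.single i 1 : I → ℤ) a := fun a => by
        rw [Pi.add_apply, mul_add]
      rw [Finset.sum_congr rfl fun a _ => h5 a, Finset.sum_add_distrib,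
        sum_single_mul (fun a => (C.d a : ℤ) * lam a + C.d a) i]
    rw [h3]
    have h4 : (C.d i : ℤ) * C.rt k i = ∑ j, C.br i j * k j := by
      rw [Cartan.rt, Finset.mul_sum]
      exact Finset.sum_congr rfl fun j _ => by rw [Cartan.br]; ring
    rw [← h4]
    ring
  unfold gg
  rw [h1, h2, qadd, zpow_add₀ (neg_ne_zero.2 one_ne_zero), zpow_one]
  ring

theorem gg_zero (lam : I → ℤ) : gg K C lam 0 = 1 := by
  simp [gg, ex]

theorem neg_one_zpow_mem (n : ℤ) : (-1 : K) ^ n ∈ RR K := by
  rcases Int.even_or_odd n with h | h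
  · rw [h.neg_one_zpow]; exact (RR K).one_mem
  · rw [h.neg_one_zpow]; exact (RR K).neg_mem (RR K).one_mem

theorem gg_mem (lam k : I → ℤ) : gg K C lam k ∈ RR K :=
  (RR K).mul_mem (neg_one_zpow_mem _) (qz_mem _)

theorem gg_inv_mem (lam k : I → ℤ) : (gg K C lam k)⁻¹ ∈ RR K := by
  unfold gg
  rw [mul_inv, ← zpow_neg, ← zpow_neg]
  exact (RR K).mul_mem (neg_one_zpow_mem _) (qz_mem _)

theorem gg_ne (lam k : I → ℤ) : gg K C lam k ≠ 0 :=
  mul_ne_zero (zpow_ne_zero _ (neg_ne_zero.2 one_ne_zero)) (zpow_ne_zero _ HasQ.q_ne)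

theorem isWt_of_high {V : Mod C K M} {lam : I → ℤ} {v : M} (hv : IsHigh V lam v) : V.IsWt := by
  rw [Mod.IsWt, eq_top_iff, ← hv.span, Submodule.span_le]
  rintro _ ⟨w, rfl⟩
  exact Submodule.mem_iSup_of_mem _ (T08.Fw_wt V hv.wt w)

theorem exists_Z {V : Mod C K M} {lam : I → ℤ} {v : M} (hv : IsHigh V lam v) :
    ∃ Z : M →ₗ[K] M, ∀ k : I → ℤ, ∀ x ∈ V.wt (lam - C.rt k), Z x = gg K C lam k • x := by
  classical
  obtain ⟨Z, hZ⟩ := exists_wtOp V (isWt_of_high hv)
    (fun m => if h : ∃ k, m = lam - C.rt k then gg K C lam h.choose else 0)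
  refine ⟨Z, fun k x hx => ?_⟩
  rw [hZ _ x hx]
  have h : ∃ k', lam - C.rt k = lam - C.rt k' := ⟨k, rfl⟩
  rw [dif_pos h]
  have h2 : h.choose = k := by
    have h3 := h.choose_spec
    exact (rt_inj (sub_right_injective h3)).symm
  rw [h2]

theorem ind_high {V : Mod C K M} {lam : I → ℤ} {v : M} (hv : IsHigh V lam v) {P : M → Prop}
    (h0 : P 0) (hadd : ∀ x y, P x → P y → P (x + y)) (hsmul : ∀ (c : K) x, P x → P (c • x))
    (h : ∀ w, P (V.Fw w v)) (x : M) : P x := by
  have hx : x ∈ Submodule.span K (Set.range fun w => V.Fw w v) := by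
    rw [hv.span]; exact Submodule.mem_top
  induction hx using Submodule.span_induction with
  | mem x hx => obtain ⟨w, rfl⟩ := hx; exact h w
  | zero => exact h0
  | add x y _ _ hx hy => exact hadd x y hx hy
  | smul c x _ hx => exact hsmul c x hx

section tau

variable {V : Mod C K M} {tau : M →ₗ[K] M →ₗ[K] K}

theorem tau_wt (tK : ∀ i x y, tau (V.Kp i x) y = tau x (V.Kp i y)) {m m' : I → ℤ} {x y : M}
    (hx : x ∈ V.wt m) (hy : y ∈ V.wt m') (h : tau x y ≠ 0) : m = m' := by
  refine T00.wt_inj (K := K) (C := C) fun i => ?_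
  have h1 := tK i x y
  rw [hx i, hy i, map_smul, map_smul, LinearMap.smul_apply, smul_eq_mul, smul_eq_mul] at h1
  exact mul_right_cancel₀ h h1

theorem nd_left (hirr : V.Irr) {v : M} (tv : tau v v = 1)
    (tE : ∀ i x y, tau (V.E i x) y = tau x (V.F i y))
    (tF : ∀ i x y, tau (V.F i x) y = tau x (V.E i y))
    (tK : ∀ i x y, tau (V.Kp i x) y = tau x (V.Kp i y)) {x : M} (hx : ∀ y, tau y x = 0) :
    x = 0 := by
  have h := hirr (LinearMap.ker tau.flip) (by
    intro i x hx
    have hx' : ∀ y, tau y x = 0 := fun y => LinearMap.congr_fun (LinearMap.mem_ker.1 hx) y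
    refine ⟨?_, ?_, ?_, ?_⟩
    · refine LinearMap.mem_ker.2 (LinearMap.ext fun y => ?_)
      show tau y (V.E i x) = 0
      rw [← tF, hx']
    · refine LinearMap.mem_ker.2 (LinearMap.ext fun y => ?_)
      show tau y (V.F i x) = 0
      rw [← tE, hx']
    · refine LinearMap.mem_ker.2 (LinearMap.ext fun y => ?_)
      show tau y (V.Kp i x) = 0
      rw [← tK, hx']
    · refine LinearMap.mem_ker.2 (LinearMap.ext fun y => ?_)
      show tau y (V.Km i x) = 0
      rw [← V.kpkm i y, tK, V.kpkm, hx'])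
  have hxm : x ∈ LinearMap.ker tau.flip := LinearMap.mem_ker.2 (LinearMap.ext fun y => hx y)
  rcases h with h | h
  · rw [h] at hxm
    exact (Submodule.mem_bot K).1 hxm
  · have h1 : v ∈ LinearMap.ker tau.flip := by rw [h]; exact Submodule.mem_top
    have h2 : tau v v = 0 := LinearMap.congr_fun (LinearMap.mem_ker.1 h1) v
    rw [tv] at h2
    exact absurd h2 one_ne_zero

theorem nd_right (hirr : V.Irr) {v : M} (tv : tau v v = 1)
    (tE : ∀ i x y, tau (V.E i x) y = tau x (V.F i y))
    (tF : ∀ i x y, tau (V.F i x) y = tau x (V.E i y))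
    (tK : ∀ i x y, tau (V.Kp i x) y = tau x (V.Kp i y)) {x : M} (hx : ∀ y, tau x y = 0) :
    x = 0 :=
  nd_left (tau := tau.flip) hirr tv (fun i x y => (tF i y x).symm) (fun i x y => (tE i y x).symm)
    (fun i x y => (tK i y x).symm) hx

theorem Z_symm {lam : I → ℤ} {v : M} (hv : IsHigh V lam v)
    (tK : ∀ i x y, tau (V.Kp i x) y = tau x (V.Kp i y)) {Z : M →ₗ[K] M}
    (hZ : ∀ k : I → ℤ, ∀ x ∈ V.wt (lam - C.rt k), Z x = gg K C lam k • x) (x y : M) :
    tau (Z x) y = tau x (Z y) := by
  refine ind_high hv (P := fun x => tau (Z x) y = tau x (Z y)) (by simp)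
    (fun a b ha hb => by simp only [map_add, LinearMap.add_apply, ha, hb])
    (fun c a ha => by simp only [map_smul, LinearMap.smul_apply, ha]) (fun u => ?_) x
  refine ind_high hv (P := fun y => tau (Z (V.Fw u v)) y = tau (V.Fw u v) (Z y)) (by simp)
    (fun a b ha hb => by simp only [map_add, ha, hb])
    (fun c a ha => by simp only [map_smul, ha]) (fun w => ?_) y
  rw [hZ _ _ (T08.Fw_wt V hv.wt u), hZ _ _ (T08.Fw_wt V hv.wt w), map_smul, map_smul,
    LinearMap.smul_apply]
  by_cases h : tau (V.Fw u v) (V.Fw w v) = 0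
  · rw [h, smul_zero, smul_zero]
  · have h1 := tau_wt tK (T08.Fw_wt V hv.wt u) (T08.Fw_wt V hv.wt w) h
    rw [rt_inj (sub_right_injective h1)]

end tau

theorem isLow_omega {V : Mod C K M} {lam : I → ℤ} {v : M} (hv : IsHigh V lam v) :
    IsLow V.omega (-lam) v where
  wt i := by
    show V.Km i v = _
    rw [T08.Km_wt V hv.wt i]
    congr 2
    rw [Pi.neg_apply]; ring
  F i := hv.E i
  span := by
    have h := hv.span
    simp only [Mod.omega_Ew]
    exact h
  ne := hv.ne

theorem tau_selfdual (V : Mod C K M) [Module.Finite K M] (hirr : V.Irr) {lam : I → ℤ} {v : M}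
    (hv : IsHigh V lam v) (tau : M →ₗ[K] M →ₗ[K] K) (tv : tau v v = 1)
    (tE : ∀ i x y, tau (V.E i x) y = tau x (V.F i y))
    (tF : ∀ i x y, tau (V.F i x) y = tau x (V.E i y))
    (tK : ∀ i x y, tau (V.Kp i x) y = tau x (V.Kp i y))
    {ι : Type*} [Fintype ι] (b : Module.Basis ι K M)
    (hb : Submodule.span (RR K) (Set.range b) = latF V v) (x : M) :
    (∀ y ∈ latF V v, tau x y ∈ RR K) ↔ x ∈ latF V v := by
  obtain ⟨Z, hZ⟩ := exists_Z hv
  have hsym := Z_symm hv tK hZ
  have hZF : ∀ w, Z (V.Fw w v) = gg K C lam (T08.kw w) • V.Fw w v := fun w =>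
    hZ _ _ (T08.Fw_wt V hv.wt w)
  have hKm : ∀ i w, V.Km i (V.Fw w v) =
      qq K ^ (-((C.d i : ℤ) * (lam i - C.rt (T08.kw w) i))) • V.Fw w v := fun i w =>
    T08.Km_wt V (T08.Fw_wt V hv.wt w) i
  have hZFi : ∀ i w, Z (V.F i (V.Fw w v)) =
      gg K C lam (T08.kw w + Pi.single i 1) • V.F i (V.Fw w v) := fun i w => hZF (i :: w)
  have hZK : ∀ i x, Z (V.Km i x) = V.Km i (Z x) := by
    intro i x
    refine ind_high hv (P := fun x => Z (V.Km i x) = V.Km i (Z x)) (by simp)
      (fun a b ha hb => by simp only [map_add, ha, hb])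
      (fun c a ha => by simp only [map_smul, ha]) (fun w => ?_) x
    rw [hKm, map_smul, hZF, map_smul, hKm, smul_comm]
  set ev : M →ₗ[K] M →ₗ[K] K := tau ∘ₗ Z with hev'
  have hevap : ∀ y x, ev y x = tau (Z y) x := fun _ _ => rfl
  have hev : IsPair V.omega V ev := by
    refine ⟨fun i y x => ?_, fun i y x => ?_, fun i y x => ?_⟩
    · show tau (Z (V.F i y)) x + tau (Z (V.Km i y)) (V.E i x) = 0
      refine ind_high hv (P := fun y => tau (Z (V.F i y)) x + tau (Z (V.Km i y)) (V.E i x) = 0)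
        (by simp) (fun a b ha hb => ?_) (fun c a ha => ?_) (fun w => ?_) y
      · simp only [map_add, LinearMap.add_apply] at ha hb ⊢
        linear_combination ha + hb
      · simp only [map_smul, LinearMap.smul_apply, smul_eq_mul] at ha ⊢
        linear_combination c * ha
      · rw [hZFi, hKm, map_smul Z, hZF, map_smul, map_smul, map_smul, LinearMap.smul_apply,
          LinearMap.smul_apply, LinearMap.smul_apply, ← tF, gg_add, smul_eq_mul, smul_eq_mul,
          smul_eq_mul]
        ring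
    · show tau (Z (V.E i y)) (V.Km i x) + tau (Z y) (V.F i x) = 0
      rw [hsym, hsym]
      refine ind_high hv (P := fun x => tau (V.E i y) (Z (V.Km i x)) + tau y (Z (V.F i x)) = 0)
        (by simp) (fun a b ha hb => ?_) (fun c a ha => ?_) (fun w => ?_) x
      · simp only [map_add] at ha hb ⊢
        linear_combination ha + hb
      · simp only [map_smul, smul_eq_mul] at ha ⊢
        linear_combination c * ha
      · rw [hZFi, hKm, map_smul Z, hZF, map_smul, map_smul, map_smul, ← tE, gg_add, smul_eq_mul,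
          smul_eq_mul, smul_eq_mul]
        ring
    · show tau (Z (V.Km i y)) (V.Kp i x) = tau (Z y) x
      rw [hZK, ← tK, V.kpkm]
  have h1 : ev v v = 1 := by
    have h2 := hZF []
    rw [Mod.Fw_nil, LinearMap.id_apply] at h2
    rw [hevap, h2]
    show tau (gg K C lam 0 • v) v = 1
    rw [gg_zero, one_smul, tv]
  have hsurj : Function.Surjective Z := by
    rw [← LinearMap.range_eq_top, eq_top_iff, ← hv.span, Submodule.span_le]
    rintro _ ⟨w, rfl⟩
    refine ⟨(gg K C lam (T08.kw w))⁻¹ • V.Fw w v, ?_⟩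
    rw [map_smul, hZF, smul_smul, inv_mul_cancel₀ (gg_ne _ _), one_smul]
  have hinj : Function.Injective Z := LinearMap.injective_iff_surjective.2 hsurj
  have nd : ∀ x, (∀ y, ev y x = 0) → x = 0 := by
    intro x hx
    refine nd_left hirr tv tE tF tK fun y => ?_
    obtain ⟨y', rfl⟩ := hsurj y
    exact hx y'
  have nd' : ∀ y, (∀ x, ev y x = 0) → y = 0 := by
    intro y hy
    apply hinj
    rw [map_zero]
    exact nd_right hirr tv tE tF tK hy
  have hlow := isLow_omega hv
  obtain ⟨P⟩ := proj_of_isRt _ (tensor_isRt V V.omega hv hlow)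
  have hperf := T08.perfect_left V V.omega hv hlow hev h1 nd nd' b hb P x
  have hlat : latE V.omega v = latF V v := by
    unfold latE latF
    simp only [Mod.omega_Ew]
  rw [hlat] at hperf
  rw [← hperf]
  have hkey : ∀ w, tau (Z x) (V.Fw w v) = gg K C lam (T08.kw w) * tau x (V.Fw w v) := by
    intro w
    rw [hsym, hZF, map_smul, smul_eq_mul]
  constructor
  · intro h y hy
    refine T08.fun_span (ev x) ?_ hy
    rintro _ ⟨w, rfl⟩
    rw [hevap, hkey]
    exact (RR K).mul_mem (gg_mem _ _) (h _ (Submodule.subset_span ⟨w, rfl⟩))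
  · intro h y hy
    refine T08.fun_span (tau x) ?_ hy
    rintro _ ⟨w, rfl⟩
    have h3 := h _ (Submodule.subset_span ⟨w, rfl⟩)
    rw [hevap, hkey] at h3
    have h4 := (RR K).mul_mem (gg_inv_mem (K := K) (C := C) lam (T08.kw w)) h3
    rwa [inv_mul_cancel_left₀ (gg_ne _ _)] at h4

theorem latF_bd (V : Mod C K M) [Module.Finite K M] (hirr : V.Irr) {lam : I → ℤ} {v : M}
    (hv : IsHigh V lam v) (tau : M →ₗ[K] M →ₗ[K] K) (tv : tau v v = 1)
    (tE : ∀ i x y, tau (V.E i x) y = tau x (V.F i y))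
    (tF : ∀ i x y, tau (V.F i x) y = tau x (V.E i y))
    (tK : ∀ i x y, tau (V.Kp i x) y = tau x (V.Kp i y))
    {ι : Type*} [Fintype ι] [DecidableEq ι] (b : Module.Basis ι K M)
    (hb : Submodule.span (RR K) (Set.range b) = latF V v) (bd : Module.Basis ι K M)
    (hbd : ∀ j k, tau (bd j) (b k) = if j = k then 1 else 0) :
    Submodule.span (RR K) (Set.range bd) = latF V v := by
  have hc : ∀ x k, tau x (b k) = bd.repr x k := by
    intro x k
    conv_lhs => rw [← bd.sum_repr x]
    rw [map_sum, LinearMap.sum_apply]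
    simp only [map_smul, LinearMap.smul_apply, hbd, smul_eq_mul, mul_ite, mul_one, mul_zero]
    rw [Finset.sum_ite_eq' Finset.univ k]
    simp
  ext x
  rw [← tau_selfdual V hirr hv tau tv tE tF tK b hb x, ← hb]
  constructor
  · intro hx y hy
    refine T08.fun_span (tau x) ?_ hy
    rintro _ ⟨k, rfl⟩
    refine T08.fun_span (tau.flip (b k)) ?_ hx
    rintro _ ⟨j, rfl⟩
    rw [LinearMap.flip_apply, hbd]
    split_ifs
    · exact (RR K).one_mem
    · exact (RR K).zero_mem
  · intro h
    rw [← bd.sum_repr x]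
    refine Submodule.sum_mem _ fun k _ => ?_
    refine T08.smul_memR ?_ (Submodule.subset_span ⟨k, rfl⟩)
    rw [← hc]
    exact h _ (Submodule.subset_span ⟨k, rfl⟩)

theorem latF_eq_latE (V : Mod C K M) (V' : Mod C K N) [Module.Finite K M] [Module.Finite K N]
    {lam : I → ℤ} {v : M} {l : N}
    (hv : IsHigh V lam v) (hl : IsLow V' (-lam) l) {ev : N →ₗ[K] M →ₗ[K] K} (hev : IsPair V' V ev)
    (h1 : ev l v = 1) (nd : ∀ x, (∀ y, ev y x = 0) → x = 0) (nd' : ∀ y, (∀ x, ev y x = 0) → y = 0)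
    {ι : Type*} [Fintype ι] (b : Module.Basis ι K M)
    (hb : Submodule.span (RR K) (Set.range b) = latF V v)
    {lam' : I → ℤ} {v' : N} (hv' : IsHigh V' lam' v') (hl0 : l ∈ latF V' v')
    (hl1 : ∀ y ∈ latF V' v', y ∈ V'.wt (-lam) → ∃ r ∈ RR K, y = r • l) :
    latF V' v' = latE V' l := by
  have hstab : V'.Stab (latF V' v') := T08.latF_stab V' hv'
  apply le_antisymm
  · intro y hy
    obtain ⟨P⟩ := proj_of_isRt _ (tensor_isRt V V' hv hl)
    refine (T08.perfect_left V V' hv hl hev h1 nd nd' b hb P y).1 ?_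
    intro x hx
    refine T08.fun_span (ev y) ?_ hx
    rintro _ ⟨w, rfl⟩
    show ev y (V.Fw w v) ∈ RR K
    clear hx x
    induction w generalizing y with
    | nil =>
      show ev y v ∈ RR K
      have h2 := hstab.wt hy
      refine T08.fun_span (ev.flip v) ?_ h2
      rintro y' ⟨hy', m, hm⟩
      rw [LinearMap.flip_apply]
      by_cases h3 : ev y' v = 0
      · rw [h3]; exact (RR K).zero_mem
      · have h4 : m = -lam := by
          refine T00.wt_inj (K := K) (C := C) fun i => ?_
          have h5 := hev.Kp i y' v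
          rw [hm i, hv.wt i, map_smul, map_smul, LinearMap.smul_apply, smul_eq_mul, smul_eq_mul,
            ← mul_assoc] at h5
          have h6 : qq K ^ ((C.d i : ℤ) * lam i) * qq K ^ ((C.d i : ℤ) * m i) = 1 :=
            mul_right_cancel₀ h3 (by rw [h5, one_mul])
          rw [Pi.neg_apply, mul_neg, zpow_neg]
          exact eq_inv_of_mul_eq_one_right h6
        rw [h4] at hm
        obtain ⟨r, hr, rfl⟩ := hl1 y' hy' hm
        rw [map_smul, LinearMap.smul_apply, h1, smul_eq_mul, mul_one]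
        exact hr
    | cons i w ih =>
      show ev y (V.F i (V.Fw w v)) ∈ RR K
      have h2 := hev.F i y (V.Fw w v)
      rw [T08.Km_wt V (T08.Fw_wt V hv.wt w) i, map_smul, smul_eq_mul] at h2
      have h3 : ev y (V.F i (V.Fw w v)) =
          -(qq K ^ (-((C.d i : ℤ) * (lam - C.rt (T08.kw w)) i)) *
            ev (V'.F i y) (V.Fw w v)) := by linear_combination h2
      rw [h3]
      exact (RR K).neg_mem ((RR K).mul_mem (qz_mem _) (ih (hstab.F i y hy)))
  · unfold latE
    rw [Submodule.span_le]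
    rintro _ ⟨w, rfl⟩
    show V'.Ew w l ∈ latF V' v'
    induction w with
    | nil => exact hl0
    | cons i w ih => exact hstab.E i _ ih

end Pool.Agent.H387.QR.T12B
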