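import Pool.Agent.H387.QR.Defs5

/-!
# T13A. The determinant of an invariant pairing on invariants is a unit (abstract form); nested lattices
-/

namespace Pool.Agent.H387.QR

open scoped TensorProduct

variable {I : Type} [Fintype I] [DecidableEq I] {C : Cartan I} {K : Type*} [Field K] [HasQ K]
variable {M : Type*} [AddCommGroup M] [Module K M] {N : Type*} [AddCommGroup N] [Module K N]

namespace T13A

theorem mem_span_iff {ι : Type*} (b : Module.Basis ι K M) (x : M) :
    x ∈ Submodule.span (RR K) (Set.range b) ↔ ∀ i, b.repr x i ∈ RR K := by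
  rw [Module.Basis.mem_span_iff_repr_mem (RR K) b x]
  refine forall_congr' fun i => ?_
  constructor
  · rintro ⟨r, hr⟩
    rw [← hr]
    exact r.2
  · intro h
    exact ⟨⟨_, h⟩, rfl⟩

theorem exists_dual [Module.Finite K M] [Module.Finite K N] {ev : N →ₗ[K] M →ₗ[K] K}
    {κ : Type*} [Fintype κ] [DecidableEq κ] (c : Module.Basis κ K N)
    (nd : ∀ x, (∀ y, ev y x = 0) → x = 0) (nd' : ∀ y, (∀ x, ev y x = 0) → y = 0) :
    ∃ d : Module.Basis κ K M, ∀ j k, ev (c j) (d k) = if j = k then 1 else 0 := by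
  have i1 : Function.Injective ev := by
    rw [← LinearMap.ker_eq_bot, LinearMap.ker_eq_bot']
    intro y hy
    exact nd' y fun x => by rw [hy]; rfl
  have i2 : Function.Injective ev.flip := by
    rw [← LinearMap.ker_eq_bot, LinearMap.ker_eq_bot']
    intro x hx
    refine nd x fun y => ?_
    have := LinearMap.congr_fun hx y
    simpa using this
  have f1 : Module.finrank K N ≤ Module.finrank K M := by
    have := LinearMap.finrank_le_finrank_of_injective i1
    rwa [Subspace.dual_finrank_eq] at this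
  have f2 : Module.finrank K M ≤ Module.finrank K N := by
    have := LinearMap.finrank_le_finrank_of_injective i2
    rwa [Subspace.dual_finrank_eq] at this
  have hf : Module.finrank K N = Module.finrank K (Module.Dual K M) := by
    rw [Subspace.dual_finrank_eq]; omega
  let e : N ≃ₗ[K] Module.Dual K M := LinearEquiv.ofBijective ev
    ⟨i1, (LinearMap.injective_iff_surjective_of_finrank_eq_finrank hf).1 i1⟩
  refine ⟨((c.map e).dualBasis).map (Module.evalEquiv K M).symm, fun j k => ?_⟩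
  have h1 : ev (c j) = (c.map e) j := rfl
  have h2 : ∀ (φ : Module.Dual K M) (z : Module.Dual K (Module.Dual K M)),
      φ ((Module.evalEquiv K M).symm z) = z φ := by
    intro φ z
    conv_rhs => rw [← (Module.evalEquiv K M).apply_symm_apply z]
    rfl
  rw [h1, Module.Basis.map_apply (f := (Module.evalEquiv K M).symm), h2,
    Module.Basis.dualBasis_apply_self]

theorem det_mem {n : ℕ} (A : Matrix (Fin n) (Fin n) K) (h : ∀ i j, A i j ∈ RR K) :
    A.det ∈ RR K := by
  rw [Matrix.det_apply]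
  refine Subring.sum_mem _ fun σ _ => ?_
  rw [Units.smul_def]
  exact Subring.zsmul_mem _ (Subring.prod_mem _ fun i _ => h _ _) _

theorem tmul_mem_span {ι κ : Type*} (b : ι → M) (c : κ → N) {x : M} {y : N}
    (hx : x ∈ Submodule.span (RR K) (Set.range b)) (hy : y ∈ Submodule.span (RR K) (Set.range c)) :
    x ⊗ₜ[K] y ∈ Submodule.span (RR K) (Set.range fun p : ι × κ => b p.1 ⊗ₜ[K] c p.2) := by
  induction hx using Submodule.span_induction with
  | mem x hx =>
    obtain ⟨i, rfl⟩ := hx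
    induction hy using Submodule.span_induction with
    | mem y hy =>
      obtain ⟨j, rfl⟩ := hy
      exact Submodule.subset_span ⟨(i, j), rfl⟩
    | zero => rw [TensorProduct.tmul_zero]; exact Submodule.zero_mem _
    | add y z _ _ hy hz => rw [TensorProduct.tmul_add]; exact Submodule.add_mem _ hy hz
    | smul a y _ hy =>
      rw [show a • y = (a : K) • y from rfl, TensorProduct.tmul_smul]
      exact Submodule.smul_mem _ a hy
  | zero => rw [TensorProduct.zero_tmul]; exact Submodule.zero_mem _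
  | add x z _ _ hx hz => rw [TensorProduct.add_tmul]; exact Submodule.add_mem _ hx hz
  | smul a x _ hx =>
    rw [show a • x = (a : K) • x from rfl, ← TensorProduct.smul_tmul']
    exact Submodule.smul_mem _ a hx

end T13A

theorem unit_det (W : Mod C K M) (W' : Mod C K N) (hwt : W'.IsWt) (P : N →ₗ[K] M →ₗ[K] K)
    (hP : IsPair W' W P) (Pr : W'.Proj) {ι κ : Type*} [Fintype ι] [Fintype κ]
    (D : Module.Basis ι K M) (D' : Module.Basis κ K N)
    (hint : ∀ j i, P (D' j) (D i) ∈ RR K)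
    (hperf : ∀ x : M, (∀ j, P (D' j) x ∈ RR K) → x ∈ Submodule.span (RR K) (Set.range D))
    (hrep : ∀ φ : N →ₗ[K] K, ∃ x : M, ∀ y, P y x = φ y)
    (hnd : ∀ x : M, (∀ y, P y x = 0) → x = 0)
    (hstab : W'.Stab (Submodule.span (RR K) (Set.range D')))
    {n : ℕ} (f : Fin n → ι) (g : Fin n → κ) (hf : Function.Injective f) (hg : Function.Injective g)
    (hf' : Submodule.span K (Set.range (D ∘ f)) = W.Inv)
    (hg' : Submodule.span K (Set.range (D' ∘ g)) = W'.Inv) :
    (Matrix.of fun i j => P (D' (g i)) (D (f j))).det ≠ 0 ∧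
    (Matrix.of fun i j => P (D' (g i)) (D (f j))).det ∈ RR K ∧
    ((Matrix.of fun i j => P (D' (g i)) (D (f j))).det)⁻¹ ∈ RR K := by
  classical
  -- the vectors `x_j`
  have hx : ∀ j, ∃ x : M, ∀ y, P y x = D'.coord (g j) (Pr.p y) := fun j =>
    hrep (D'.coord (g j) ∘ₗ Pr.p)
  choose x hx using hx
  -- (i)
  have hxR : ∀ j, x j ∈ Submodule.span (RR K) (Set.range D) := by
    intro j
    refine hperf _ fun k => ?_
    rw [hx]
    have : Pr.p (D' k) ∈ Submodule.span (RR K) (Set.range D') :=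
      Pr.int _ hstab _ (Submodule.subset_span ⟨k, rfl⟩)
    exact (T13A.mem_span_iff D' _).1 this (g j)
  -- `Pr.p` kills nonzero weights
  have hKp : ∀ i y, Pr.p (W'.Kp i y) = Pr.p y ∧ Pr.p (W'.Km i y) = Pr.p y := by
    intro i y
    have hy : y ∈ ⨆ m : I → ℤ, W'.wt m := by rw [hwt]; trivial
    induction hy using Submodule.iSup_induction' with
    | mem m y hy =>
      have h1 : W'.Kp i y = qq K ^ ((C.d i : ℤ) * m i) • y := hy i
      have h2 : W'.Km i y = qq K ^ (-((C.d i : ℤ) * m i)) • y := by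
        have := congrArg (W'.Km i) h1
        rw [W'.kmkp, map_smul] at this
        rw [zpow_neg, this, smul_smul, inv_mul_cancel₀ (zpow_ne_zero _ HasQ.q_ne), one_smul, ← this]
        
      by_cases hm : m i = 0
      · rw [h1, h2, hm]; simp
      · have hd : (C.d i : ℤ) ≠ 0 := by have := C.d_pos i; omega
        have h3 : Pr.p y = 0 := by
          have h4 := W'.ef i i y
          rw [if_pos rfl] at h4
          have h5 := congrArg Pr.p h4
          rw [map_sub, Pr.E, Pr.F, sub_zero, map_smul, h1, h2, ← sub_smul, map_smul, smul_smul] at h5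
          have h6 : (hq K (C.d i))⁻¹ * (qq K ^ ((C.d i : ℤ) * m i) - qq K ^ (-((C.d i : ℤ) * m i))) ≠ 0 := by
            rw [mul_comm, ← div_eq_mul_inv]
            exact qd_ne hd hm
          exact (smul_eq_zero.1 h5.symm).resolve_left h6
        rw [h1, h2, map_smul, map_smul, h3]; simp
    | zero => simp
    | add y z _ _ hy hz => simp only [map_add, hy.1, hy.2, hz.1, hz.2, and_self]
  -- (ii)
  have hxK : ∀ j i, W.Kp i (x j) = x j := by
    intro j i
    rw [← sub_eq_zero]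
    refine hnd _ fun y => ?_
    have h := hP.Kp i (W'.Km i y) (x j)
    rw [W'.kpkm] at h
    rw [map_sub, h, hx, hx, (hKp i y).2, sub_self]
  have hxI : ∀ j, x j ∈ W.Inv := by
    intro j i
    refine ⟨?_, ?_, hxK j i⟩
    · refine hnd _ fun y => ?_
      have h := hP.E i (W'.Km i y) (x j)
      rw [W'.kpkm, hx, Pr.E, map_zero, zero_add] at h
      exact h
    · refine hnd _ fun y => ?_
      have h := hP.F i y (x j)
      have h2 : W.Km i (x j) = x j := by
        conv_lhs => rw [← hxK j i]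
        exact W.kmkp i _
      rw [h2, hx, Pr.F, map_zero, zero_add] at h
      exact h
  -- (iii)
  have hrepr : ∀ j, x j = ∑ k, D.repr (x j) (f k) • D (f k) := by
    intro j
    have h1 : x j ∈ Submodule.span K (Set.range (D ∘ f)) := by rw [hf']; exact hxI j
    obtain ⟨c, hc⟩ := (Submodule.mem_span_range_iff_exists_fun K).1 h1
    have h2 : ∀ k, D.repr (x j) (f k) = c k := by
      intro k
      rw [← hc]
      simp only [map_sum, map_smul, Function.comp_apply, Module.Basis.repr_self,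
        Finsupp.smul_single, smul_eq_mul, mul_one, Finsupp.coe_finsetSum, Finset.sum_apply]
      rw [Finset.sum_eq_single k]
      · simp
      · intro l _ hl
        exact Finsupp.single_eq_of_ne (fun h => hl (hf h).symm)
      · simp
    conv_lhs => rw [← hc]
    exact Finset.sum_congr rfl fun k _ => by rw [h2]; rfl
  set A : Matrix (Fin n) (Fin n) K := Matrix.of fun i j => P (D' (g i)) (D (f j)) with hA
  set B : Matrix (Fin n) (Fin n) K := Matrix.of fun k j => D.repr (x j) (f k) with hB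
  have hAB : A * B = 1 := by
    ext i j
    rw [Matrix.mul_apply]
    have h1 : ∑ k, A i k * B k j = P (D' (g i)) (x j) := by
      conv_rhs => rw [hrepr j]
      simp only [map_sum, map_smul, smul_eq_mul]
      exact Finset.sum_congr rfl fun k _ => mul_comm _ _
    have h2 : D' (g i) ∈ W'.Inv := by
      rw [← hg']
      exact Submodule.subset_span ⟨i, rfl⟩
    rw [h1, hx, Pr.id _ h2, Module.Basis.coord_apply, Module.Basis.repr_self, Matrix.one_apply]
    by_cases hij : i = j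
    · subst hij; simp
    · rw [if_neg hij, Finsupp.single_eq_of_ne (fun h => hij (hg h).symm)]
  have hdet : A.det * B.det = 1 := by rw [← Matrix.det_mul, hAB, Matrix.det_one]
  have hA0 : A.det ≠ 0 := left_ne_zero_of_mul_eq_one hdet
  refine ⟨hA0, T13A.det_mem _ fun i j => hint _ _, ?_⟩
  rw [inv_eq_of_mul_eq_one_right hdet]
  exact T13A.det_mem _ fun k j => (T13A.mem_span_iff D _).1 (hxR j) (f k)


section nest

variable {M₁ M₂ N₁ N₂ : Type*} [AddCommGroup M₁] [Module K M₁] [AddCommGroup M₂] [Module K M₂]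
  [AddCommGroup N₁] [Module K N₁] [AddCommGroup N₂] [Module K N₂]
  [Module.Finite K M₁] [Module.Finite K M₂] [Module.Finite K N₁] [Module.Finite K N₂]

namespace T13A

omit [Module.Finite K M₁] [Module.Finite K M₂] [Module.Finite K N₁] [Module.Finite K N₂] in
/-- The coordinates with respect to a dual basis. -/
theorem repr_dual {ev : N →ₗ[K] M →ₗ[K] K} {κ : Type*} [Fintype κ] [DecidableEq κ] {c : κ → N}
    {d : Module.Basis κ K M} (h : ∀ j k, ev (c j) (d k) = if j = k then 1 else 0) (x : M) (j : κ) :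
    d.repr x j = ev (c j) x := by
  conv_rhs => rw [← d.sum_repr x]
  simp only [map_sum, map_smul, h, smul_eq_mul]
  simp

omit [Module.Finite K M₁] [Module.Finite K M₂] [Module.Finite K N₁] [Module.Finite K N₂] in
theorem repr_nest {ev₁ : N₁ →ₗ[K] M₁ →ₗ[K] K} {ev₂ : N₂ →ₗ[K] M₂ →ₗ[K] K}
    {κ₁ κ₂ : Type*} [Fintype κ₁] [DecidableEq κ₁] [Fintype κ₂] [DecidableEq κ₂]
    {c₁ : κ₁ → N₁} {c₂ : κ₂ → N₂} {d₁ : Module.Basis κ₁ K M₁} {d₂ : Module.Basis κ₂ K M₂}
    (h₁ : ∀ j k, ev₁ (c₁ j) (d₁ k) = if j = k then 1 else 0)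
    (h₂ : ∀ j k, ev₂ (c₂ j) (d₂ k) = if j = k then 1 else 0) (x : M₁ ⊗[K] M₂) (k : κ₁) (j : κ₂) :
    (d₁.tensorProduct d₂).repr x (k, j) = nest ev₁ ev₂ (c₂ j ⊗ₜ c₁ k) x := by
  induction x using TensorProduct.induction_on with
  | zero => simp
  | tmul x y =>
    rw [Module.Basis.tensorProduct_repr_tmul_apply, nest_tmul, repr_dual h₁, repr_dual h₂,
      smul_eq_mul, mul_comm]
  | add x y hx hy => rw [map_add, map_add, Finsupp.add_apply, hx, hy]

omit [Module.Finite K M₁] [Module.Finite K M₂] in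
theorem span_tmul_le {α β γ δ : Type*} (a : α → M₁) (b : β → M₂) (c : γ → M₁) (d : δ → M₂)
    (h₁ : ∀ i, a i ∈ Submodule.span (RR K) (Set.range c))
    (h₂ : ∀ i, b i ∈ Submodule.span (RR K) (Set.range d)) :
    Submodule.span (RR K) (Set.range fun p : α × β => a p.1 ⊗ₜ[K] b p.2) ≤
      Submodule.span (RR K) (Set.range fun p : γ × δ => c p.1 ⊗ₜ[K] d p.2) := by
  rw [Submodule.span_le]
  rintro _ ⟨⟨i, j⟩, rfl⟩
  exact tmul_mem_span c d (h₁ i) (h₂ j)

end T13A

theorem nest_perfect {ev₁ : N₁ →ₗ[K] M₁ →ₗ[K] K} {ev₂ : N₂ →ₗ[K] M₂ →ₗ[K] K}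
    {ι₁ ι₂ κ₁ κ₂ : Type*} [Fintype ι₁] [Fintype ι₂] [Fintype κ₁] [Fintype κ₂]
    (b₁ : Module.Basis ι₁ K M₁) (b₂ : Module.Basis ι₂ K M₂)
    (c₁ : Module.Basis κ₁ K N₁) (c₂ : Module.Basis κ₂ K N₂)
    (nd₁ : ∀ x, (∀ y, ev₁ y x = 0) → x = 0) (nd₂ : ∀ x, (∀ y, ev₂ y x = 0) → x = 0)
    (nd₁' : ∀ y, (∀ x, ev₁ y x = 0) → y = 0) (nd₂' : ∀ y, (∀ x, ev₂ y x = 0) → y = 0)
    (h₁ : ∀ x, (∀ j, ev₁ (c₁ j) x ∈ RR K) ↔ x ∈ Submodule.span (RR K) (Set.range b₁))
    (h₂ : ∀ x, (∀ j, ev₂ (c₂ j) x ∈ RR K) ↔ x ∈ Submodule.span (RR K) (Set.range b₂)) (x : M₁ ⊗[K] M₂) :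
    (∀ j k, nest ev₁ ev₂ (c₂ j ⊗ₜ c₁ k) x ∈ RR K) ↔
      x ∈ Submodule.span (RR K) (Set.range fun p : ι₁ × ι₂ => b₁ p.1 ⊗ₜ[K] b₂ p.2) := by
  classical
  obtain ⟨d₁, hd₁⟩ := T13A.exists_dual c₁ nd₁ nd₁'
  obtain ⟨d₂, hd₂⟩ := T13A.exists_dual c₂ nd₂ nd₂'
  have e₁ : Submodule.span (RR K) (Set.range b₁) = Submodule.span (RR K) (Set.range d₁) := by
    ext x
    rw [← h₁, T13A.mem_span_iff]
    exact forall_congr' fun i => by rw [T13A.repr_dual hd₁]
  have e₂ : Submodule.span (RR K) (Set.range b₂) = Submodule.span (RR K) (Set.range d₂) := by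
    ext x
    rw [← h₂, T13A.mem_span_iff]
    exact forall_congr' fun i => by rw [T13A.repr_dual hd₂]
  have e : Submodule.span (RR K) (Set.range fun p : ι₁ × ι₂ => b₁ p.1 ⊗ₜ[K] b₂ p.2) =
      Submodule.span (RR K) (Set.range (d₁.tensorProduct d₂)) := by
    have h : (Set.range (d₁.tensorProduct d₂)) =
        Set.range fun p : κ₁ × κ₂ => d₁ p.1 ⊗ₜ[K] d₂ p.2 := by
      congr 1
      ext p
      exact Module.Basis.tensorProduct_apply' _ _ _
    rw [h]
    refine le_antisymm ?_ ?_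
    · refine T13A.span_tmul_le _ _ _ _ (fun i => ?_) (fun i => ?_)
      · rw [← e₁]; exact Submodule.subset_span ⟨i, rfl⟩
      · rw [← e₂]; exact Submodule.subset_span ⟨i, rfl⟩
    · refine T13A.span_tmul_le _ _ _ _ (fun i => ?_) (fun i => ?_)
      · rw [e₁]; exact Submodule.subset_span ⟨i, rfl⟩
      · rw [e₂]; exact Submodule.subset_span ⟨i, rfl⟩
  rw [e]
  refine Iff.trans ?_ (T13A.mem_span_iff (d₁.tensorProduct d₂) x).symm
  constructor
  · rintro h ⟨k, j⟩
    rw [T13A.repr_nest hd₁ hd₂]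
    exact h j k
  · intro h j k
    rw [← T13A.repr_nest hd₁ hd₂]
    exact h (k, j)

namespace T13A

theorem nest_nondeg_right {ev₁ : N₁ →ₗ[K] M₁ →ₗ[K] K} {ev₂ : N₂ →ₗ[K] M₂ →ₗ[K] K}
    (nd₁ : ∀ x, (∀ y, ev₁ y x = 0) → x = 0) (nd₂ : ∀ x, (∀ y, ev₂ y x = 0) → x = 0)
    (nd₁' : ∀ y, (∀ x, ev₁ y x = 0) → y = 0) (nd₂' : ∀ y, (∀ x, ev₂ y x = 0) → y = 0) :
    ∀ x, (∀ y, nest ev₁ ev₂ y x = 0) → x = 0 := by
  classical
  intro x hx
  obtain ⟨d₁, hd₁⟩ := T13A.exists_dual (Module.finBasis K N₁) nd₁ nd₁'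
  obtain ⟨d₂, hd₂⟩ := T13A.exists_dual (Module.finBasis K N₂) nd₂ nd₂'
  refine (d₁.tensorProduct d₂).repr.injective ?_
  ext ⟨k, j⟩
  rw [T13A.repr_nest hd₁ hd₂, hx]
  simp

omit [Module.Finite K M₁] [Module.Finite K M₂] [Module.Finite K N₁] [Module.Finite K N₂] in
theorem nest_flip (ev₁ : N₁ →ₗ[K] M₁ →ₗ[K] K) (ev₂ : N₂ →ₗ[K] M₂ →ₗ[K] K) (y : N₂ ⊗[K] N₁)
    (x : M₁ ⊗[K] M₂) : nest ev₂.flip ev₁.flip x y = nest ev₁ ev₂ y x := by
  induction x using TensorProduct.induction_on with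
  | zero => simp
  | tmul x₁ x₂ =>
    induction y using TensorProduct.induction_on with
    | zero => simp
    | tmul y₁ y₂ => rw [nest_tmul, nest_tmul]; simp [mul_comm]
    | add y z hy hz => simp only [map_add, LinearMap.add_apply, hy, hz]
  | add x z hx hz => simp only [map_add, LinearMap.add_apply, hx, hz]

end T13A

theorem nest_nondeg {ev₁ : N₁ →ₗ[K] M₁ →ₗ[K] K} {ev₂ : N₂ →ₗ[K] M₂ →ₗ[K] K}
    (nd₁ : ∀ x, (∀ y, ev₁ y x = 0) → x = 0) (nd₂ : ∀ x, (∀ y, ev₂ y x = 0) → x = 0)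
    (nd₁' : ∀ y, (∀ x, ev₁ y x = 0) → y = 0) (nd₂' : ∀ y, (∀ x, ev₂ y x = 0) → y = 0) :
    (∀ x, (∀ y, nest ev₁ ev₂ y x = 0) → x = 0) ∧ (∀ y, (∀ x, nest ev₁ ev₂ y x = 0) → y = 0) := by
  refine ⟨T13A.nest_nondeg_right nd₁ nd₂ nd₁' nd₂', fun y hy => ?_⟩
  refine T13A.nest_nondeg_right (ev₁ := ev₂.flip) (ev₂ := ev₁.flip) nd₂' nd₁' nd₂ nd₁ y fun x => ?_
  rw [T13A.nest_flip]
  exact hy x

omit [Module.Finite K M₁] [Module.Finite K M₂] [Module.Finite K N₁] [Module.Finite K N₂] in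
/-- The nested pairing is invariant (no finiteness assumption). -/
theorem T13A.nest_isPair (V₁ : Mod C K M₁) (V₂ : Mod C K M₂) (V₁' : Mod C K N₁) (V₂' : Mod C K N₂)
    {ev₁ : N₁ →ₗ[K] M₁ →ₗ[K] K} {ev₂ : N₂ →ₗ[K] M₂ →ₗ[K] K} (p₁ : IsPair V₁' V₁ ev₁)
    (p₂ : IsPair V₂' V₂ ev₂) : IsPair (V₂'.tensor V₁') (V₁.tensor V₂) (nest ev₁ ev₂) := by
  have km₁ : ∀ i y x, ev₁ (V₁'.Km i y) (V₁.Km i x) = ev₁ y x := by
    intro i y x
    have := p₁.Kp i (V₁'.Km i y) (V₁.Km i x)
    rw [V₁'.kpkm, V₁.kpkm] at this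
    exact this.symm
  constructor
  · intro i y x
    induction y using TensorProduct.induction_on with
    | zero => simp
    | tmul y₂ y₁ =>
      induction x using TensorProduct.induction_on with
      | zero => simp
      | tmul x₁ x₂ =>
        simp only [Mod.tensor, LinearMap.add_apply, TensorProduct.map_tmul, LinearMap.id_apply,
          map_add, nest_tmul]
        have a := p₁.E i y₁ x₁
        have b := p₂.E i y₂ x₂
        have c := p₁.Kp i y₁ x₁
        linear_combination (ev₁ y₁ x₁) * b + (ev₂ (V₂'.Kp i y₂) x₂) * a +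
          (ev₂ (V₂'.Kp i y₂) (V₂.E i x₂)) * c
      | add x z hx hz =>
        simp only [map_add]
        linear_combination hx + hz
    | add y z hy hz =>
      simp only [map_add, LinearMap.add_apply]
      linear_combination hy + hz
  · intro i y x
    induction y using TensorProduct.induction_on with
    | zero => simp
    | tmul y₂ y₁ =>
      induction x using TensorProduct.induction_on with
      | zero => simp
      | tmul x₁ x₂ =>
        simp only [Mod.tensor, LinearMap.add_apply, TensorProduct.map_tmul, LinearMap.id_apply,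
          map_add, nest_tmul]
        have a := p₁.F i y₁ x₁
        have b := p₂.F i y₂ x₂
        have c := km₁ i y₁ x₁
        linear_combination (ev₁ y₁ x₁) * b + (ev₂ y₂ (V₂.Km i x₂)) * a +
          (ev₂ (V₂'.F i y₂) (V₂.Km i x₂)) * c
      | add x z hx hz =>
        simp only [map_add]
        linear_combination hx + hz
    | add y z hy hz =>
      simp only [map_add, LinearMap.add_apply]
      linear_combination hy + hz
  · intro i y x
    induction y using TensorProduct.induction_on with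
    | zero => simp
    | tmul y₂ y₁ =>
      induction x using TensorProduct.induction_on with
      | zero => simp
      | tmul x₁ x₂ =>
        simp only [Mod.tensor, TensorProduct.map_tmul, nest_tmul, p₁.Kp, p₂.Kp]
      | add x z hx hz => simp only [map_add, hx, hz]
    | add y z hy hz => simp only [map_add, LinearMap.add_apply, hy, hz]

/-- The nested pairing is invariant. -/
theorem nest_isPair (V₁ : Mod C K M₁) (V₂ : Mod C K M₂) (V₁' : Mod C K N₁) (V₂' : Mod C K N₂)
    {ev₁ : N₁ →ₗ[K] M₁ →ₗ[K] K} {ev₂ : N₂ →ₗ[K] M₂ →ₗ[K] K} (p₁ : IsPair V₁' V₁ ev₁)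
    (p₂ : IsPair V₂' V₂ ev₂) : IsPair (V₂'.tensor V₁') (V₁.tensor V₂) (nest ev₁ ev₂) :=
  T13A.nest_isPair V₁ V₂ V₁' V₂' p₁ p₂

end nest

section pair3

variable {M₁ M₂ M₃ N₁ N₂ N₃ : Type*} [AddCommGroup M₁] [Module K M₁] [AddCommGroup M₂] [Module K M₂]
  [AddCommGroup M₃] [Module K M₃]
  [AddCommGroup N₁] [Module K N₁] [AddCommGroup N₂] [Module K N₂] [AddCommGroup N₃] [Module K N₃]

namespace T13A

theorem assoc_tensor (V₁ : Mod C K M₁) (V₂ : Mod C K M₂) (V₃ : Mod C K M₃) (i : I)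
    (z : (M₁ ⊗[K] M₂) ⊗[K] M₃) :
    TensorProduct.assoc K M₁ M₂ M₃ (((V₁.tensor V₂).tensor V₃).E i z) =
      (V₁.tensor (V₂.tensor V₃)).E i (TensorProduct.assoc K M₁ M₂ M₃ z) ∧
    TensorProduct.assoc K M₁ M₂ M₃ (((V₁.tensor V₂).tensor V₃).F i z) =
      (V₁.tensor (V₂.tensor V₃)).F i (TensorProduct.assoc K M₁ M₂ M₃ z) ∧
    TensorProduct.assoc K M₁ M₂ M₃ (((V₁.tensor V₂).tensor V₃).Kp i z) =
      (V₁.tensor (V₂.tensor V₃)).Kp i (TensorProduct.assoc K M₁ M₂ M₃ z) := by
  induction z using TensorProduct.induction_on with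
  | zero => simp
  | tmul w x₃ =>
    induction w using TensorProduct.induction_on with
    | zero => simp
    | tmul x₁ x₂ =>
      simp only [Mod.tensor, LinearMap.add_apply, TensorProduct.map_tmul, LinearMap.id_apply,
        map_add, TensorProduct.assoc_tmul, TensorProduct.add_tmul, TensorProduct.tmul_add,
        add_assoc, and_self]
    | add w z hw hz =>
      simp only [TensorProduct.add_tmul, map_add, hw, hz, and_self]
  | add x y hx hy => simp only [map_add, hx, hy, and_self]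

end T13A

theorem pair3_isPair (V₁ : Mod C K M₁) (V₂ : Mod C K M₂) (V₃ : Mod C K M₃)
    (V₁' : Mod C K N₁) (V₂' : Mod C K N₂) (V₃' : Mod C K N₃)
    {ev₁ : N₁ →ₗ[K] M₁ →ₗ[K] K} {ev₂ : N₂ →ₗ[K] M₂ →ₗ[K] K} {ev₃ : N₃ →ₗ[K] M₃ →ₗ[K] K}
    (p₁ : IsPair V₁' V₁ ev₁) (p₂ : IsPair V₂' V₂ ev₂) (p₃ : IsPair V₃' V₃ ev₃) :
    IsPair ((V₃'.tensor V₂').tensor V₁') ((V₁.tensor V₂).tensor V₃) (pair3 ev₁ ev₂ ev₃) := by
  have p₁₂ := T13A.nest_isPair V₁ V₂ V₁' V₂' p₁ p₂
  have p := T13A.nest_isPair (V₁.tensor V₂) V₃ (V₂'.tensor V₁') V₃' p₁₂ p₃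
  have e : ∀ y, pair3 ev₁ ev₂ ev₃ y =
      nest (nest ev₁ ev₂) ev₃ (TensorProduct.assoc K N₃ N₂ N₁ y) := fun y => rfl
  constructor
  · intro i y x
    obtain ⟨h1, h2, h3⟩ := T13A.assoc_tensor V₃' V₂' V₁' i y
    rw [e, e, h1, h3]
    exact p.E i _ x
  · intro i y x
    obtain ⟨h1, h2, h3⟩ := T13A.assoc_tensor V₃' V₂' V₁' i y
    rw [e, e, h2]
    exact p.F i _ x
  · intro i y x
    obtain ⟨h1, h2, h3⟩ := T13A.assoc_tensor V₃' V₂' V₁' i y
    rw [e, e, h3]
    exact p.Kp i _ x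

end pair3

namespace T13A

theorem stab_Kp {V : Mod C K M} {L : Submodule (RR K) M} (h : V.Stab L) (i : I) (x : M)
    (hx : x ∈ L) : V.Kp i x ∈ L ∧ V.Km i x ∈ L := by
  have hx' := h.wt hx
  clear hx
  induction hx' using Submodule.span_induction with
  | mem x hx =>
    obtain ⟨hx, m, hm⟩ := hx
    have h1 : V.Kp i x = qq K ^ ((C.d i : ℤ) * m i) • x := hm i
    have h2 : V.Km i x = qq K ^ (-((C.d i : ℤ) * m i)) • x := by
      have := congrArg (V.Km i) h1
      rw [V.kmkp, map_smul] at this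
      rw [zpow_neg, this, smul_smul, inv_mul_cancel₀ (zpow_ne_zero _ HasQ.q_ne), one_smul, ← this]
    rw [h1, h2]
    exact ⟨L.smul_mem (⟨_, qz_mem _⟩ : RR K) hx, L.smul_mem (⟨_, qz_mem _⟩ : RR K) hx⟩
  | zero => simp
  | add x y _ _ hx hy =>
    rw [map_add, map_add]
    exact ⟨L.add_mem hx.1 hy.1, L.add_mem hx.2 hy.2⟩
  | smul a x _ hx =>
    rw [show a • x = (a : K) • x from rfl, map_smul, map_smul]
    exact ⟨L.smul_mem a hx.1, L.smul_mem a hx.2⟩

theorem tensor_stab_aux {T : Type*} [AddCommGroup T] [Module K T] {V : Mod C K M} {W : Mod C K N}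
    {U : Mod C K T} (φ : M →ₗ[K] N →ₗ[K] T)
    (hE : ∀ i x y, U.E i (φ x y) = φ (V.E i x) y + φ (V.Kp i x) (W.E i y))
    (hF : ∀ i x y, U.F i (φ x y) = φ (V.F i x) (W.Km i y) + φ x (W.F i y))
    (hK : ∀ i x y, U.Kp i (φ x y) = φ (V.Kp i x) (W.Kp i y)) {L₁ : Submodule (RR K) M}
    {L₂ : Submodule (RR K) N} (h₁ : V.Stab L₁) (h₂ : W.Stab L₂)
    {L : Submodule (RR K) T} (hL : ∀ x ∈ L₁, ∀ y ∈ L₂, φ x y ∈ L)
    {ι : Type*} (f : ι → T) (hf : L ≤ Submodule.span (RR K) (Set.range f))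
    (hf' : ∀ i, ∃ x ∈ L₁, ∃ y ∈ L₂, f i = φ x y) : U.Stab L := by
  constructor
  · intro i x hx
    have hx' := hf hx
    clear hx
    induction hx' using Submodule.span_induction with
    | mem z hz =>
      obtain ⟨j, rfl⟩ := hz
      obtain ⟨x, hx, y, hy, h⟩ := hf' j
      rw [h, hE]
      exact L.add_mem (hL _ (h₁.E i x hx) _ hy) (hL _ (stab_Kp h₁ i x hx).1 _ (h₂.E i y hy))
    | zero => rw [map_zero]; exact L.zero_mem
    | add x y _ _ hx hy => rw [map_add]; exact L.add_mem hx hy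
    | smul a x _ hx =>
      rw [show a • x = (a : K) • x from rfl, map_smul]
      exact L.smul_mem a hx
  · intro i x hx
    have hx' := hf hx
    clear hx
    induction hx' using Submodule.span_induction with
    | mem z hz =>
      obtain ⟨j, rfl⟩ := hz
      obtain ⟨x, hx, y, hy, h⟩ := hf' j
      rw [h, hF]
      exact L.add_mem (hL _ (h₁.F i x hx) _ (stab_Kp h₂ i y hy).2) (hL _ hx _ (h₂.F i y hy))
    | zero => rw [map_zero]; exact L.zero_mem
    | add x y _ _ hx hy => rw [map_add]; exact L.add_mem hx hy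
    | smul a x _ hx =>
      rw [show a • x = (a : K) • x from rfl, map_smul]
      exact L.smul_mem a hx
  · refine hf.trans ?_
    rw [Submodule.span_le]
    rintro _ ⟨j, rfl⟩
    obtain ⟨x, hx, y, hy, h⟩ := hf' j
    rw [h]
    have hw : ∀ x ∈ Submodule.span (RR K) {x | x ∈ L₁ ∧ ∃ m : I → ℤ, x ∈ V.wt m},
        ∀ y ∈ Submodule.span (RR K) {x | x ∈ L₂ ∧ ∃ m : I → ℤ, x ∈ W.wt m},
        φ x y ∈ Submodule.span (RR K) {x | x ∈ L ∧ ∃ m : I → ℤ, x ∈ U.wt m} := by
      intro x hx y hy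
      induction hx using Submodule.span_induction with
      | mem x hx =>
        obtain ⟨hx, m, hm⟩ := hx
        induction hy using Submodule.span_induction with
        | mem y hy =>
          obtain ⟨hy, n, hn⟩ := hy
          refine Submodule.subset_span ⟨hL _ hx _ hy, m + n, fun i => ?_⟩
          have e1 := hm i
          have e2 := hn i
          rw [hK, e1, e2, map_smul, map_smul, LinearMap.smul_apply, smul_smul, ← qadd,
            Pi.add_apply, mul_add, add_comm ((C.d i : ℤ) * n i)]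
        | zero => rw [map_zero]; exact Submodule.zero_mem _
        | add y z _ _ hy hz => rw [map_add]; exact Submodule.add_mem _ hy hz
        | smul a y _ hy =>
          rw [show a • y = (a : K) • y from rfl, map_smul]
          exact Submodule.smul_mem _ a hy
      | zero => rw [map_zero]; exact Submodule.zero_mem _
      | add x z _ _ hx hz =>
        rw [map_add, LinearMap.add_apply]; exact Submodule.add_mem _ hx hz
      | smul a x _ hx =>
        rw [show a • x = (a : K) • x from rfl, map_smul, LinearMap.smul_apply]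
        exact Submodule.smul_mem _ a hx
    exact hw x (h₁.wt hx) y (h₂.wt hy)

end T13A

/-- The tensor product of stable lattices with bases is stable. -/
theorem stab_tensor (V : Mod C K M) (W : Mod C K N) {ι κ : Type*} (b : ι → M) (c : κ → N)
    (hb : V.Stab (Submodule.span (RR K) (Set.range b)))
    (hc : W.Stab (Submodule.span (RR K) (Set.range c))) :
    (V.tensor W).Stab (Submodule.span (RR K) (Set.range fun p : ι × κ => b p.1 ⊗ₜ[K] c p.2)) := by
  refine T13A.tensor_stab_aux (V := V) (W := W) (U := V.tensor W) (TensorProduct.mk K M N)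
    (fun i x y => ?_) (fun i x y => ?_) (fun i x y => ?_) hb hc
    (fun x hx y hy => T13A.tmul_mem_span b c hx hy) _ le_rfl ?_
  · simp [Mod.tensor]
  · simp [Mod.tensor]
  · simp [Mod.tensor]
  · rintro ⟨i, j⟩
    exact ⟨b i, Submodule.subset_span ⟨i, rfl⟩, c j, Submodule.subset_span ⟨j, rfl⟩, rfl⟩

end Pool.Agent.H387.QR
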