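import Pool.Agent.H387.QR.Stm
import Pool.Agent.H387.QR.P12B
import Pool.Agent.H387.QR.P13A
import Pool.Agent.H387.QR.P07B

/-!
# Final assembly, part 1: facts on `CanMod` and `Duality`
-/

namespace Pool.Agent.H387.QR

open scoped TensorProduct

variable {I : Type} [Fintype I] [DecidableEq I] {C : Cartan I}
variable {K : Type} [Field K] [HasQ K] [Cq K]
variable {M N : Type*} [AddCommGroup M] [Module K M] [AddCommGroup N] [Module K N]
variable {ι κ : Type*} [Fintype ι] [DecidableEq ι] [Fintype κ] [DecidableEq κ]
variable {lam lam' : I → ℕ}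

namespace CanMod

/-- the highest weight, as an integral weight -/
def wtz (lam : I → ℕ) : I → ℤ := fun i => (lam i : ℤ)

theorem v_wt (A : CanMod C K lam M ι) : A.v ∈ A.V.wt (wtz lam) := fun i => A.v_K i

theorem high (A : CanMod C K lam M ι) : IsHigh A.V (wtz lam) A.v :=
  isHigh_of_irr A.V A.irr A.v_ne A.v_E A.v_wt

theorem isWt (A : CanMod C K lam M ι) : A.V.IsWt := isWt_of_isHigh A.V A.high

theorem isBar (A : CanMod C K lam M ι) : IsBar (Cq.bar (K := K)) A.V A.bar := ⟨A.bar_E, A.bar_F, A.bar_K⟩

theorem b_latF (A : CanMod C K lam M ι) :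
    Submodule.span (RR K) (Set.range A.b) = latF A.V A.v :=
  latF_of_latA A.V A.v A.b_lat

theorem bd_latF (A : CanMod C K lam M ι) :
    Submodule.span (RR K) (Set.range A.bd) = latF A.V A.v := by
  haveI := A.fin
  exact T12B.latF_bd A.V A.irr A.high A.tau A.tau_v A.tau_E A.tau_F A.tau_K A.b A.b_latF A.bd A.bd_tau

end CanMod

theorem kw_sum (w : List I) : ∑ i, T08.kw w i = w.length := by
  induction w with
  | nil => simp [T08.kw]
  | cons j w ih =>
    simp only [T08.kw, Pi.add_apply, Finset.sum_add_distrib, ih, List.length_cons,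
      Finset.sum_pi_single']
    simp

/-- The weight space of a lowest weight is a line. -/
theorem low_line {K : Type*} [Field K] [HasQ K] {M : Type*} [AddCommGroup M] [Module K M]
    (V : Mod C K M) {m : I → ℤ} {l : M} (hl : IsLow V m l) {y : M} (hy : y ∈ V.wt m) :
    ∃ c : K, y = c • l := by
  classical
  have h0 : y ∈ Submodule.span K (Set.range fun w => V.Ew w l) := by rw [hl.span]; trivial
  obtain ⟨c, hc⟩ := (Finsupp.mem_span_range_iff_exists_finsupp).mp h0
  -- the weight operator selecting the weight `m`
  obtain ⟨Z, hZ⟩ := exists_wtOp V (isWt_of_isLow V hl) (fun m' => if m' = m then 1 else 0)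
  have h1 : Z y = y := by rw [hZ m y hy]; simp
  have h2 : Z y = c [] • l := by
    rw [← hc, Finsupp.sum, map_sum]
    have h3 : ∀ w ∈ c.support, Z (c w • V.Ew w l) = if w = [] then c [] • l else 0 := by
      intro w _
      rw [map_smul]
      by_cases hw : w = []
      · subst hw
        rw [Mod.Ew_nil, LinearMap.id_apply, hZ m l hl.wt]
        simp
      · rw [if_neg hw, hZ _ _ (T08.Ew_wt V hl.wt w), if_neg, zero_smul, smul_zero]
        intro h
        have h4 : C.rt (T08.kw w) = C.rt 0 := by
          funext i
          have := congrFun h i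
          simp only [Pi.add_apply] at this
          rw [T08.rt_zero]
          simp only [Pi.zero_apply]
          linarith
        have h5 := rt_inj h4
        have h6 := kw_sum w
        rw [h5] at h6
        simp only [Pi.zero_apply, Finset.sum_const_zero] at h6
        apply hw
        rw [← List.length_eq_zero_iff]
        exact_mod_cast h6.symm
    rw [Finset.sum_congr rfl h3, Finset.sum_ite_eq' c.support [] (fun _ => c [] • l)]
    split_ifs with h
    · rfl
    · rw [Finsupp.notMem_support_iff.mp h, zero_smul]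
  exact ⟨c [], by rw [← h2, h1]⟩

namespace Duality

variable {A' : CanMod C K lam' N κ} {A : CanMod C K lam M ι}

/-- the lowest weight vector -/
noncomputable def l (P : Duality A' A) : N := A'.b P.low

theorem isLow (P : Duality A' A) : IsLow A'.V (-CanMod.wtz lam) P.l := by
  refine isLow_of_irr A'.V A'.irr (A'.b.ne_zero _) P.low_F ?_
  intro i
  have := P.low_K i
  rw [show (C.d i : ℤ) * (-CanMod.wtz lam) i = -((C.d i : ℤ) * lam i) by
    simp [CanMod.wtz]]
  exact this

theorem nd (P : Duality A' A) (x : M) (hx : ∀ y, P.ev y x = 0) : x = 0 :=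
  nondeg_left A.V A'.V A.irr P.pair (l := P.l) (v := A.v)
    (by rw [show P.ev P.l A.v = 1 from P.norm]; exact one_ne_zero) hx

theorem nd' (P : Duality A' A) (y : N) (hy : ∀ x, P.ev y x = 0) : y = 0 :=
  nondeg_right A.V A'.V A'.irr P.pair (l := P.l) (v := A.v)
    (by rw [show P.ev P.l A.v = 1 from P.norm]; exact one_ne_zero) hy

theorem latF_eq (P : Duality A' A) : latF A'.V A'.v = latE A'.V P.l := by
  haveI := A.fin
  haveI := A'.fin
  refine T12B.latF_eq_latE A.V A'.V A.high P.isLow P.pair P.norm P.nd P.nd' A.b A.b_latF A'.high ?_ ?_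
  · rw [← A'.b_latF]
    exact Submodule.subset_span ⟨P.low, rfl⟩
  · intro y hy hwt
    obtain ⟨c, hc⟩ := low_line A'.V P.isLow hwt
    refine ⟨c, ?_, hc⟩
    rw [← A'.b_latF] at hy
    have h1 : ∀ z ∈ Submodule.span (RR K) (Set.range A'.b), A'.b.repr z P.low ∈ RR K := by
      intro z hz
      induction hz using Submodule.span_induction with
      | mem z hz =>
        obtain ⟨j, rfl⟩ := hz
        rw [A'.b.repr_self, Finsupp.single_apply]
        split_ifs
        · exact Subring.one_mem _
        · exact Subring.zero_mem _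
      | zero => rw [map_zero]; exact Subring.zero_mem _
      | add a b _ _ ha hb => rw [map_add]; exact Subring.add_mem _ ha hb
      | smul r a _ ha =>
        have : r • a = (r : K) • a := rfl
        rw [this, map_smul]
        exact Subring.mul_mem _ r.2 ha
    have h2 := h1 y hy
    rw [hc] at h2
    have h3 : A'.b.repr (c • P.l) P.low = c := by
      rw [map_smul, Finsupp.smul_apply, show P.l = A'.b P.low from rfl, A'.b.repr_self]
      simp
    rwa [h3] at h2

theorem ev_span {c : κ → N} {x : M} {ev : N →ₗ[K] M →ₗ[K] K}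
    (h : ∀ j, ev (c j) x ∈ RR K) :
    ∀ y ∈ Submodule.span (RR K) (Set.range c), ev y x ∈ RR K := by
  intro y hy
  induction hy using Submodule.span_induction with
  | mem z hz => obtain ⟨j, rfl⟩ := hz; exact h j
  | zero => rw [map_zero]; exact Subring.zero_mem _
  | add a b _ _ ha hb => rw [map_add]; exact Subring.add_mem _ ha hb
  | smul r a _ ha =>
    have : r • a = (r : K) • a := rfl
    rw [this, map_smul]
    exact Subring.mul_mem _ r.2 ha

theorem perf (P : Duality A' A) (x : M) : (∀ j, P.ev (A'.bd j) x ∈ RR K) ↔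
    x ∈ Submodule.span (RR K) (Set.range A.bd) := by
  haveI := A.fin
  haveI := A'.fin
  obtain ⟨Pr⟩ := proj_of_isRt (A.V.tensor A'.V) (tensor_isRt A.V A'.V A.high P.isLow)
  rw [A.bd_latF, ← T08.perfect_right A.V A'.V A.high P.isLow P.pair P.norm P.nd P.nd' A.b A.b_latF Pr,
    ← P.latF_eq, ← A'.bd_latF]
  constructor
  · exact ev_span
  · intro h j
    exact h _ (Submodule.subset_span ⟨j, rfl⟩)

end Duality

end Pool.Agent.H387.QR
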