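import Pool.Agent.H387.QR.Fin1

/-!
# Final assembly, part 2: the determinant is a unit of `RR`
-/

namespace Pool.Agent.H387.QR

open scoped TensorProduct

variable {I : Type} [Fintype I] [DecidableEq I] {C : Cartan I}

theorem aeval_memA {K : Type*} [Field K] [HasQ K] (p : Polynomial ℤ) :
    p.eval₂ (Int.castRingHom K) (qq K) ∈ AA K := by
  induction p using Polynomial.induction_on' with
  | add p q hp hq => rw [Polynomial.eval₂_add]; exact Subring.add_mem _ hp hq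
  | monomial n a =>
    rw [Polynomial.eval₂_monomial]
    refine Subring.mul_mem _ ?_ (Subring.pow_mem _ q_memA _)
    simp

theorem spanA_le {K : Type*} [Field K] [HasQ K] {M : Type*} [AddCommGroup M] [Module K M]
    {S : Set M} {x : M} (hx : x ∈ Submodule.span (AA K) S) : x ∈ Submodule.span (RR K) S := by
  induction hx using Submodule.span_induction with
  | mem z hz => exact Submodule.subset_span hz
  | zero => exact Submodule.zero_mem _
  | add a b _ _ ha hb => exact Submodule.add_mem _ ha hb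
  | smul r a _ ha =>
    have : r • a = (⟨(r : K), AA_le r.2⟩ : RR K) • a := rfl
    rw [this]
    exact Submodule.smul_mem _ _ ha

theorem spanA_eq {K : Type*} [Field K] [HasQ K] {M : Type*} [AddCommGroup M] [Module K M]
    {S T : Set M} (h : Submodule.span (AA K) S = Submodule.span (AA K) T) :
    Submodule.span (RR K) S = Submodule.span (RR K) T := by
  apply le_antisymm
  · rw [Submodule.span_le]
    intro x hx
    exact spanA_le (h ▸ Submodule.subset_span hx)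
  · rw [Submodule.span_le]
    intro x hx
    exact spanA_le (h ▸ Submodule.subset_span hx)

variable {K : Type} [Field K] [HasQ K] [Cq K]
variable {lam₁ lam₂ lam₃ lam₁' lam₂' lam₃' : I → ℕ}
variable {M₁ M₂ M₃ N₁ N₂ N₃ : Type*} [AddCommGroup M₁] [Module K M₁]
  [AddCommGroup M₂] [Module K M₂] [AddCommGroup M₃] [Module K M₃]
  [AddCommGroup N₁] [Module K N₁] [AddCommGroup N₂] [Module K N₂] [AddCommGroup N₃] [Module K N₃]
variable {ι₁ ι₂ ι₃ κ₁ κ₂ κ₃ : Type*} [Fintype ι₁] [DecidableEq ι₁] [Fintype ι₂] [DecidableEq ι₂]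
  [Fintype ι₃] [DecidableEq ι₃] [Fintype κ₁] [DecidableEq κ₁] [Fintype κ₂] [DecidableEq κ₂]
  [Fintype κ₃] [DecidableEq κ₃]

section one

variable {A₁ : CanMod C K lam₁ M₁ ι₁} {A₂ : CanMod C K lam₂ M₂ ι₂} {A₃ : CanMod C K lam₃ M₃ ι₃}

theorem DualCan.spanA (B : DualCan A₁ A₂ A₃) : Submodule.span (AA K) (Set.range B.D) =
    Submodule.span (AA K) (Set.range (A₁.bd3 A₂ A₃)) := by
  apply le_antisymm
  · rw [Submodule.span_le]
    rintro _ ⟨j, rfl⟩
    obtain ⟨c, hc⟩ := B.D_tri j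
    rw [SetLike.mem_coe, hc]
    refine Submodule.add_mem _ (Submodule.subset_span ⟨j, rfl⟩) (Submodule.sum_mem _ fun k _ => ?_)
    have h1 : qq K * (c k).eval₂ (Int.castRingHom K) (qq K) ∈ AA K :=
      Subring.mul_mem _ q_memA (aeval_memA _)
    have h2 : (qq K * (c k).eval₂ (Int.castRingHom K) (qq K)) • A₁.bd3 A₂ A₃ k =
      (⟨_, h1⟩ : AA K) • A₁.bd3 A₂ A₃ k := rfl
    rw [h2]
    exact Submodule.smul_mem _ _ (Submodule.subset_span ⟨k, rfl⟩)
  · rw [Submodule.span_le]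
    rintro _ ⟨j, rfl⟩
    obtain ⟨c, hc⟩ := B.D_lat j
    rw [SetLike.mem_coe, hc]
    refine Submodule.sum_mem _ fun k _ => ?_
    exact Submodule.smul_mem _ (c k) (Submodule.subset_span ⟨k, rfl⟩)

theorem DualCan.spanR (B : DualCan A₁ A₂ A₃) : Submodule.span (RR K) (Set.range B.D) =
    Submodule.span (RR K) (Set.range (A₁.bd3 A₂ A₃)) := spanA_eq B.spanA

/-- the dual canonical lattice is stable -/
theorem DualCan.stab (B : DualCan A₁ A₂ A₃) :
    (A₁.V3 A₂ A₃).Stab (Submodule.span (RR K) (Set.range B.D)) := by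
  have h1 : A₁.V.Stab (Submodule.span (RR K) (Set.range A₁.bd)) := by
    rw [A₁.bd_latF]; haveI := A₁.fin; exact T08.latF_stab _ A₁.high
  have h2 : A₂.V.Stab (Submodule.span (RR K) (Set.range A₂.bd)) := by
    rw [A₂.bd_latF]; haveI := A₂.fin; exact T08.latF_stab _ A₂.high
  have h3 : A₃.V.Stab (Submodule.span (RR K) (Set.range A₃.bd)) := by
    rw [A₃.bd_latF]; haveI := A₃.fin; exact T08.latF_stab _ A₃.high
  have h := stab_tensor (A₁.V.tensor A₂.V) A₃.V _ _ (stab_tensor A₁.V A₂.V _ _ h1 h2) h3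
  have e : Set.range (A₁.bd3 A₂ A₃) = Set.range fun p : (ι₁ × ι₂) × ι₃ =>
      (A₁.bd p.1.1 ⊗ₜ[K] A₂.bd p.1.2) ⊗ₜ[K] A₃.bd p.2 := by
    ext z
    constructor
    · rintro ⟨j, rfl⟩
      exact ⟨((j.1, j.2.1), j.2.2), rfl⟩
    · rintro ⟨j, rfl⟩
      exact ⟨(j.1.1, j.1.2, j.2), rfl⟩
  rw [← e] at h
  have h4 := B.spanR
  exact h4 ▸ h

end one

variable {A₁ : CanMod C K lam₁ M₁ ι₁} {A₂ : CanMod C K lam₂ M₂ ι₂} {A₃ : CanMod C K lam₃ M₃ ι₃}
  {A₁' : CanMod C K lam₁' N₁ κ₁} {A₂' : CanMod C K lam₂' N₂ κ₂} {A₃' : CanMod C K lam₃' N₃ κ₃}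
  (P₁ : Duality A₁' A₁) (P₂ : Duality A₂' A₂) (P₃ : Duality A₃' A₃)

include P₁ P₂ P₃ in
theorem pair3_nd : (∀ x, (∀ y, pair3 P₁.ev P₂.ev P₃.ev y x = 0) → x = 0) ∧
    (∀ y, (∀ x, pair3 P₁.ev P₂.ev P₃.ev y x = 0) → y = 0) := by
  haveI := A₁.fin; haveI := A₂.fin; haveI := A₃.fin
  haveI := A₁'.fin; haveI := A₂'.fin; haveI := A₃'.fin
  obtain ⟨h1, h2⟩ := nest_nondeg P₁.nd P₂.nd P₁.nd' P₂.nd'
  obtain ⟨h3, h4⟩ := nest_nondeg h1 P₃.nd h2 P₃.nd'
  constructor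
  · intro x hx
    apply h3
    intro y
    have := hx ((TensorProduct.assoc K N₃ N₂ N₁).symm y)
    rw [pair3, LinearMap.comp_apply, LinearEquiv.coe_coe, LinearEquiv.apply_symm_apply] at this
    exact this
  · intro y hy
    have := h4 (TensorProduct.assoc K N₃ N₂ N₁ y) (fun x => hy x)
    exact (LinearEquiv.map_eq_zero_iff _).mp this

theorem pair3_perf (x : (M₁ ⊗[K] M₂) ⊗[K] M₃) :
    (∀ j, pair3 P₁.ev P₂.ev P₃.ev (A₃'.bd3 A₂' A₁' j) x ∈ RR K) ↔
      x ∈ Submodule.span (RR K) (Set.range (A₁.bd3 A₂ A₃)) := by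
  haveI := A₁.fin; haveI := A₂.fin; haveI := A₃.fin
  haveI := A₁'.fin; haveI := A₂'.fin; haveI := A₃'.fin
  obtain ⟨h1, h2⟩ := nest_nondeg P₁.nd P₂.nd P₁.nd' P₂.nd'
  have h3 : ∀ z, (∀ j, nest P₁.ev P₂.ev ((A₂'.bd.tensorProduct A₁'.bd) j) z ∈ RR K) ↔
      z ∈ Submodule.span (RR K) (Set.range (A₁.bd.tensorProduct A₂.bd)) := by
    intro z
    have h4 := nest_perfect A₁.bd A₂.bd A₁'.bd A₂'.bd P₁.nd P₂.nd P₁.nd' P₂.nd' P₁.perf P₂.perf z
    have e : (Set.range (A₁.bd.tensorProduct A₂.bd)) =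
        Set.range fun p : ι₁ × ι₂ => A₁.bd p.1 ⊗ₜ[K] A₂.bd p.2 := by
      congr 1; funext p; exact Module.Basis.tensorProduct_apply _ _ p.1 p.2
    rw [e, ← h4]
    constructor
    · intro h j k
      have := h (j, k)
      rwa [Module.Basis.tensorProduct_apply] at this
    · rintro h ⟨j, k⟩
      rw [Module.Basis.tensorProduct_apply]
      exact h j k
  have h5 := nest_perfect (A₁.bd.tensorProduct A₂.bd) A₃.bd (A₂'.bd.tensorProduct A₁'.bd) A₃'.bd
    h1 P₃.nd h2 P₃.nd' h3 P₃.perf x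
  have e : Set.range (A₁.bd3 A₂ A₃) = Set.range fun p : (ι₁ × ι₂) × ι₃ =>
      (A₁.bd.tensorProduct A₂.bd) p.1 ⊗ₜ[K] A₃.bd p.2 := by
    ext z
    constructor
    · rintro ⟨j, rfl⟩
      refine ⟨((j.1, j.2.1), j.2.2), ?_⟩
      simp only [Module.Basis.tensorProduct_apply, CanMod.bd3]
    · rintro ⟨j, rfl⟩
      refine ⟨(j.1.1, j.1.2, j.2), ?_⟩
      simp only [CanMod.bd3]
      rw [← Module.Basis.tensorProduct_apply]
  rw [e]
  refine Iff.trans ?_ h5
  constructor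
  · rintro h j ⟨k, k'⟩
    have := h (j, k, k')
    rw [CanMod.bd3, pair3, LinearMap.comp_apply, LinearEquiv.coe_coe,
      TensorProduct.assoc_tmul] at this
    rw [Module.Basis.tensorProduct_apply]
    exact this
  · rintro h ⟨j, k, k'⟩
    have := h j (k, k')
    rw [Module.Basis.tensorProduct_apply] at this
    rw [CanMod.bd3, pair3, LinearMap.comp_apply, LinearEquiv.coe_coe, TensorProduct.assoc_tmul]
    exact this

theorem det_unit (B : DualCan A₁ A₂ A₃) (B' : DualCan A₃' A₂' A₁')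
    {n : ℕ} (f : Fin n → ι₁ × ι₂ × ι₃) (g : Fin n → κ₃ × κ₂ × κ₁)
    (hf : Function.Injective f) (hg : Function.Injective g)
    (hf' : Submodule.span K (Set.range (B.D ∘ f)) = (A₁.V3 A₂ A₃).Inv)
    (hg' : Submodule.span K (Set.range (B'.D ∘ g)) = (A₃'.V3 A₂' A₁').Inv) :
    (Matrix.of fun i j => pair3 P₁.ev P₂.ev P₃.ev (B'.D (g i)) (B.D (f j))).det ≠ 0 ∧
    (Matrix.of fun i j => pair3 P₁.ev P₂.ev P₃.ev (B'.D (g i)) (B.D (f j))).det ∈ RR K ∧
    ((Matrix.of fun i j => pair3 P₁.ev P₂.ev P₃.ev (B'.D (g i)) (B.D (f j))).det)⁻¹ ∈ RR K := by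
  haveI := A₁.fin; haveI := A₂.fin; haveI := A₃.fin
  haveI := A₁'.fin; haveI := A₂'.fin; haveI := A₃'.fin
  rcases Nat.eq_zero_or_pos n with hn | hn
  · subst hn
    rw [Matrix.det_isEmpty]
    refine ⟨one_ne_zero, Subring.one_mem _, ?_⟩
    rw [inv_one]; exact Subring.one_mem _
  have hwt : (A₃'.V3 A₂' A₁').IsWt :=
    tensor_isWt _ _ (tensor_isWt _ _ A₃'.isWt A₂'.isWt) A₁'.isWt
  have hz : B'.D (g ⟨0, hn⟩) ∈ (A₃'.V3 A₂' A₁').Inv := by
    rw [← hg']; exact Submodule.subset_span ⟨⟨0, hn⟩, rfl⟩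
  have hrt : (A₃'.V3 A₂' A₁').IsRt :=
    tensor3_isRt A₃'.V A₂'.V A₁'.V A₃'.high A₂'.high A₁'.high (B'.D.ne_zero _) hz
  obtain ⟨Pr⟩ := proj_of_isRt (A₃'.V3 A₂' A₁') hrt
  have hP : IsPair (A₃'.V3 A₂' A₁') (A₁.V3 A₂ A₃) (pair3 P₁.ev P₂.ev P₃.ev) :=
    pair3_isPair A₁.V A₂.V A₃.V A₁'.V A₂'.V A₃'.V P₁.pair P₂.pair P₃.pair
  obtain ⟨nd, nd'⟩ := pair3_nd P₁ P₂ P₃
  have hperf : ∀ x, (∀ j, pair3 P₁.ev P₂.ev P₃.ev (B'.D j) x ∈ RR K) ↔
      x ∈ Submodule.span (RR K) (Set.range B.D) := by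
    intro x
    rw [B.spanR, ← pair3_perf P₁ P₂ P₃ x]
    constructor
    · intro h j
      have h1 := Duality.ev_span h
      have m : A₃'.bd3 A₂' A₁' j ∈ Submodule.span (RR K) (Set.range B'.D) := by
        rw [B'.spanR]; exact Submodule.subset_span ⟨j, rfl⟩
      exact h1 _ m
    · intro h j
      have h1 := Duality.ev_span h
      have m : B'.D j ∈ Submodule.span (RR K) (Set.range (A₃'.bd3 A₂' A₁')) := by
        rw [← B'.spanR]; exact Submodule.subset_span ⟨j, rfl⟩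
      exact h1 _ m
  refine unit_det (A₁.V3 A₂ A₃) (A₃'.V3 A₂' A₁') hwt _ hP Pr B.D B'.D ?_ (fun x => (hperf x).mp) ?_
    nd B'.stab f g hf hg hf' hg'
  · intro j i
    exact (hperf (B.D i)).mpr (Submodule.subset_span ⟨i, rfl⟩) j
  · -- representability
    intro φ
    have i1 : Function.Injective (pair3 P₁.ev P₂.ev P₃.ev) := by
      rw [injective_iff_map_eq_zero]
      intro y hy
      exact nd' y (fun x => by rw [hy]; rfl)
    have i2 : Function.Injective (pair3 P₁.ev P₂.ev P₃.ev).flip := by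
      rw [injective_iff_map_eq_zero]
      intro x hx
      refine nd x (fun y => ?_)
      have := LinearMap.congr_fun hx y
      exact this
    have f1 := LinearMap.finrank_le_finrank_of_injective i1
    have f2 := LinearMap.finrank_le_finrank_of_injective i2
    have d1 : Module.finrank K ((M₁ ⊗[K] M₂) ⊗[K] M₃ →ₗ[K] K) =
      Module.finrank K ((M₁ ⊗[K] M₂) ⊗[K] M₃) := Subspace.dual_finrank_eq
    have d2 : Module.finrank K ((N₃ ⊗[K] N₂) ⊗[K] N₁ →ₗ[K] K) =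
      Module.finrank K ((N₃ ⊗[K] N₂) ⊗[K] N₁) := Subspace.dual_finrank_eq
    have s2 : Function.Surjective (pair3 P₁.ev P₂.ev P₃.ev).flip :=
      (LinearMap.injective_iff_surjective_of_finrank_eq_finrank (by omega)).mp i2
    obtain ⟨x, hx⟩ := s2 φ
    exact ⟨x, fun y => LinearMap.congr_fun hx y⟩

end Pool.Agent.H387.QR
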