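import Pool.Agent.H387.QR.Fin2

/-!
# Final assembly, part 3: the determinant is bar-invariant
-/

namespace Pool.Agent.H387.QR

open scoped TensorProduct

variable {I : Type} [Fintype I] [DecidableEq I] {C : Cartan I}

variable {K : Type} [Field K] [HasQ K] [Cq K]

theorem bar_bar (x : K) : Cq.bar (Cq.bar x) = x := by
  obtain ⟨a, b, hb, h⟩ := Cq.gen x
  have hev : ∀ p : Polynomial ℂ, Cq.bar (Cq.bar (p.eval₂ Cq.cst (qq K))) = p.eval₂ Cq.cst (qq K) := by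
    intro p
    induction p using Polynomial.induction_on' with
    | add p r hp hr => rw [Polynomial.eval₂_add, map_add, map_add, hp, hr]
    | monomial n c =>
      rw [Polynomial.eval₂_monomial, map_mul, map_mul, Cq.bar_cst, Cq.bar_cst, map_pow, map_pow,
        Cq.bar_q, map_inv₀, Cq.bar_q, inv_inv]
  have h2 := congrArg (fun z : K => Cq.bar (Cq.bar z)) h
  simp only [map_mul, hev] at h2
  rw [← h] at h2
  exact mul_right_cancel₀ (Cq.trans b hb) h2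

variable {lam₁ lam₂ lam₃ lam₁' lam₂' lam₃' : I → ℕ}
variable {M₁ M₂ M₃ N₁ N₂ N₃ : Type*} [AddCommGroup M₁] [Module K M₁]
  [AddCommGroup M₂] [Module K M₂] [AddCommGroup M₃] [Module K M₃]
  [AddCommGroup N₁] [Module K N₁] [AddCommGroup N₂] [Module K N₂] [AddCommGroup N₃] [Module K N₃]
variable {ι₁ ι₂ ι₃ κ₁ κ₂ κ₃ : Type*} [Fintype ι₁] [DecidableEq ι₁] [Fintype ι₂] [DecidableEq ι₂]
  [Fintype ι₃] [DecidableEq ι₃] [Fintype κ₁] [DecidableEq κ₁] [Fintype κ₂] [DecidableEq κ₂]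
  [Fintype κ₃] [DecidableEq κ₃]

variable {A₁ : CanMod C K lam₁ M₁ ι₁} {A₂ : CanMod C K lam₂ M₂ ι₂} {A₃ : CanMod C K lam₃ M₃ ι₃}
  {A₁' : CanMod C K lam₁' N₁ κ₁} {A₂' : CanMod C K lam₂' N₂ κ₂} {A₃' : CanMod C K lam₃' N₃ κ₃}
  (P₁ : Duality A₁' A₁) (P₂ : Duality A₂' A₂) (P₃ : Duality A₃' A₃)

theorem assoc_inv {K : Type*} [Field K] [HasQ K] {L₁ L₂ L₃ : Type*} [AddCommGroup L₁] [Module K L₁]
    [AddCommGroup L₂] [Module K L₂] [AddCommGroup L₃] [Module K L₃]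
    (V₁ : Mod C K L₁) (V₂ : Mod C K L₂) (V₃ : Mod C K L₃)
    {z : (L₁ ⊗[K] L₂) ⊗[K] L₃} (hz : z ∈ ((V₁.tensor V₂).tensor V₃).Inv) :
    TensorProduct.assoc K L₁ L₂ L₃ z ∈ (V₁.tensor (V₂.tensor V₃)).Inv := by
  intro i
  obtain ⟨h1, h2, h3⟩ := hz i
  refine ⟨?_, ?_, ?_⟩
  · rw [← T07A.assoc_E, h1, map_zero]
  · rw [← T07A.assoc_F, h2, map_zero]
  · have h4 : ∀ z : (L₁ ⊗[K] L₂) ⊗[K] L₃,
        (V₁.tensor (V₂.tensor V₃)).Kp i (TensorProduct.assoc K L₁ L₂ L₃ z) =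
        TensorProduct.assoc K L₁ L₂ L₃ (((V₁.tensor V₂).tensor V₃).Kp i z) := by
      intro z
      induction z using TensorProduct.induction_on with
      | zero => simp
      | add a b ha hb => simp only [map_add, ha, hb]
      | tmul x y =>
        induction x using TensorProduct.induction_on with
        | zero => simp
        | add a b ha hb => simp only [TensorProduct.add_tmul, map_add, ha, hb]
        | tmul x z => rfl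
    rw [h4, h3]

theorem DualCan.isBar (B : DualCan A₁ A₂ A₃) : IsBar (Cq.bar (K := K)) (A₁.V3 A₂ A₃) B.Psi :=
  ⟨B.Psi_E, B.Psi_F, B.Psi_K⟩

theorem entry_bar (B : DualCan A₁ A₂ A₃) (B' : DualCan A₃' A₂' A₁')
    (j : ι₁ × ι₂ × ι₃) (k : κ₃ × κ₂ × κ₁) (hj : B.D j ∈ (A₁.V3 A₂ A₃).Inv)
    (hk : B'.D k ∈ (A₃'.V3 A₂' A₁').Inv) :
    Cq.bar (pair3 P₁.ev P₂.ev P₃.ev (B'.D k) (B.D j)) =
      pair3 P₁.ev P₂.ev P₃.ev (B'.D k) (B.D j) := by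
  haveI := A₁.fin; haveI := A₂.fin; haveI := A₃.fin
  haveI := A₁'.fin; haveI := A₂'.fin; haveI := A₃'.fin
  obtain ⟨g⟩ := exists_ginv C K
  obtain ⟨n₁, k₁⟩ := Fw_nilp A₁.V A₁.isWt
  obtain ⟨n₂, k₂⟩ := Fw_nilp _ (tensor_isWt _ _ A₁.isWt A₂.isWt)
  obtain ⟨n₃, k₁'⟩ := Fw_nilp A₁'.V A₁'.isWt
  obtain ⟨n₄, k₂'⟩ := Fw_nilp A₂'.V A₂'.isWt
  obtain ⟨n₅, k₃'⟩ := Fw_nilp A₃'.V A₃'.isWt
  obtain ⟨n₆, k₂₁'⟩ := Fw_nilp _ (tensor_isWt _ _ A₂'.isWt A₁'.isWt)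
  obtain ⟨n₇, k₃₂₁'⟩ := Fw_nilp _ (tensor_isWt _ _ A₃'.isWt (tensor_isWt _ _ A₂'.isWt A₁'.isWt))
  set n := n₁ + n₂ + n₃ + n₄ + n₅ + n₆ + n₇ with hn
  replace k₁ : ∀ w : List I, n ≤ w.length → A₁.V.Fw w = 0 := fun w hw => k₁ w (by omega)
  replace k₂ : ∀ w : List I, n ≤ w.length → (A₁.V.tensor A₂.V).Fw w = 0 :=
    fun w hw => k₂ w (by omega)
  replace k₁' : ∀ w : List I, n ≤ w.length → A₁'.V.Fw w = 0 := fun w hw => k₁' w (by omega)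
  replace k₂' : ∀ w : List I, n ≤ w.length → A₂'.V.Fw w = 0 := fun w hw => k₂' w (by omega)
  replace k₃' : ∀ w : List I, n ≤ w.length → A₃'.V.Fw w = 0 := fun w hw => k₃' w (by omega)
  replace k₂₁' : ∀ w : List I, n ≤ w.length → (A₂'.V.tensor A₁'.V).Fw w = 0 :=
    fun w hw => k₂₁' w (by omega)
  replace k₃₂₁' : ∀ w : List I, n ≤ w.length → (A₃'.V.tensor (A₂'.V.tensor A₁'.V)).Fw w = 0 :=
    fun w hw => k₃₂₁' w (by omega)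
  have hbar : Cq.bar (qq K) = (qq K)⁻¹ := Cq.bar_q
  obtain ⟨m, l, hl⟩ := exists_low A₁.V A₁.irr A₁.high
  have e1 := psi_eq g hbar n A₁.V A₂.V A₃.V A₁.isWt A₂.isWt A₃.isWt k₁ k₂ A₃.high hl
    A₁.isBar A₂.isBar A₃.isBar A₃.bar_v B.Psi B.isBar (fun x => B.Psi_gen _ _ ⟨l, x, hl.F, rfl, rfl⟩)
  have e2 := psi_eq' g hbar n A₃'.V A₂'.V A₁'.V A₃'.isWt A₂'.isWt A₁'.isWt k₃' k₂' A₁'.high
    P₃.isLow A₃'.isBar A₂'.isBar A₁'.isBar A₁'.bar_v B'.Psi B'.isBar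
    (fun x => B'.Psi_gen _ _ ⟨P₃.l, x, P₃.low_F, rfl, rfl⟩) (B'.D k)
  have h := bar_inv_nest g hbar bar_bar n A₁.V A₂.V A₃.V A₁'.V A₂'.V A₃'.V
    A₁.isWt A₂.isWt A₃.isWt A₁'.isWt A₂'.isWt A₃'.isWt k₁ k₂ k₁' k₂' k₃' k₂₁' k₃₂₁'
    A₁.high A₂.high A₃.high P₁.isLow P₂.isLow P₃.isLow
    A₁.isBar A₂.isBar A₃.isBar A₁'.isBar A₂'.isBar A₃'.isBar
    A₁.bar_v A₂.bar_v A₃.bar_v (A₁'.b_bar _) (A₂'.b_bar _) (A₃'.b_bar _)
    P₁.pair P₂.pair P₃.pair P₁.norm P₂.norm P₃.norm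
    (f := B.D j) hj (by rw [← e1]; exact B.D_Psi j)
    (y := TensorProduct.assoc K N₃ N₂ N₁ (B'.D k)) (assoc_inv _ _ _ hk)
    (by rw [← e2, B'.D_Psi k])
  exact h

theorem det_bar (B : DualCan A₁ A₂ A₃) (B' : DualCan A₃' A₂' A₁')
    {n : ℕ} (f : Fin n → ι₁ × ι₂ × ι₃) (g : Fin n → κ₃ × κ₂ × κ₁)
    (hf' : Submodule.span K (Set.range (B.D ∘ f)) = (A₁.V3 A₂ A₃).Inv)
    (hg' : Submodule.span K (Set.range (B'.D ∘ g)) = (A₃'.V3 A₂' A₁').Inv) :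
    Cq.bar (Matrix.of fun i j => pair3 P₁.ev P₂.ev P₃.ev (B'.D (g i)) (B.D (f j))).det =
      (Matrix.of fun i j => pair3 P₁.ev P₂.ev P₃.ev (B'.D (g i)) (B.D (f j))).det := by
  rw [RingHom.map_det]
  congr 1
  ext i j
  simp only [RingHom.mapMatrix_apply, Matrix.map_apply, Matrix.of_apply]
  refine entry_bar P₁ P₂ P₃ B B' _ _ ?_ ?_
  · rw [← hf']; exact Submodule.subset_span ⟨j, rfl⟩
  · rw [← hg']; exact Submodule.subset_span ⟨i, rfl⟩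

end Pool.Agent.H387.QR
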