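import Pool.Agent.H387.QR.Defs4
import Pool.Agent.H387.QR.P00

/-!
# T09. The parity map `s` on an irreducible highest weight module

`σ : K → K` a ring homomorphism with `σ q = -q`, `σ σ = id`.  `V` irreducible with highest weight vector `v` of
weight `lam` (`K_i v = q^{d_i lam_i} v`).  `β i j + β j i ≡ br i j mod 2` for `i ≠ j`.
`n i = d_i lam_i`; `V.off n k` is the weight space `lam - ∑ k_j α_j` (Defs4).  `ε(z) := (-1)^z`.

For a word `w` with content `k = c(w)` (`c(w)_j` = number of letters `j`): `F_w v ∈ V.off n k`.  Define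
`ζ([]) = 0`, `ζ(j :: w) = ζ(w) + ∑_m β j m c(w)_m`  (this is `φ = 0`).
Goal: a `σ`-semilinear `s : M → M` with `s (F_w v) = ε(ζ(w)) F_w v` for all words `w`.

PROOF.
(1) Well-definedness: if `∑_w c_w F_w v = 0` (finite sum) then `∑_w σ(c_w) ε(ζ(w)) F_w v = 0`.
 Let `π : M → K` be the linear form which is the coefficient of `v` (it is zero on all weight spaces
 other than `lam`, whose weight space is `K v`; e.g. via `exists_wtOp`, or a basis of weight vectors; or
 avoid `π`: say: the `lam`-component of `x` is zero).  The set `S = {x : π(E_u x) = 0 for all words u}` is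
 stable under `E_i`, `K_i^{±1}` and `F_i` (`E_u F_i = F_i E_u + (combination of E_{u'} K_i^{±1})`,
 `π(F_i y) = 0`: `comm_FE`, or induction on `u`), and does not contain `v`, so `S = 0` by irreducibility
 (`Irr`).  For words `u, w` of the same content, `E_u F_w v = g(u,w) v`; otherwise `π(E_u F_w v) = 0`.  Claim:
 `σ(g(u,w)) = ε(ξ(u) + ζ(w)) g(u,w)` with `ξ(u)` depending only on `u`.  Given the claim: for
 `x' = ∑ σ(c_w) ε(ζ(w)) F_w v`, `π(E_u x') = ε(ξ(u)) σ(∑ c_w g(u,w)) = ε(ξ(u)) σ(π(E_u x)) = 0`, so `x' ∈ S = 0`.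
 Claim by induction on `|u| = |w|`, `u = u' ++ [i]`: `E_i F_w v = ∑_{l : w_l = i} [N_l]_i F_{w∖l} v` where
 `N_l = lam_i - ∑_{j ∈ w_{>l}} a_ij`, `[N]_i = qd K d_i N`, `σ([N]_i) = ε(d_i N + d_i) [N]_i`; one computes
 `ζ(w) - ζ(w∖l) = ∑_{j ∈ w_{>l}} β_ij + ∑_{j ∈ w_{<l}} β_ji ≡ ∑_{j ∈ w∖l} β_ij + ∑_{j ∈ w_{<l}} br_ij` (mod 2; letters
 `j = i` cause no problem as `2β_ii` and `br i i = 2 d_i` are even), and
 `d_i N_l = n_i - ∑_{j ∈ w_{>l}} br_ij`, so `ζ(w) - ζ(w∖l) + d_i N_l + d_i ≡ n_i + d_i + ∑_{j ∈ w∖l} (β_ij + br_ij)`,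
 which depends only on `i` and the content of `w∖l`, i.e. on `i` and the content of `u'`.  So
 `ξ(u' ++ [i]) = ξ(u') + n_i + d_i + ∑_{j ∈ u'} (β_ij + br_ij)`.
(2) Choose a basis of `M` among the `F_w v` (`hv.span`), define `s` on it and extend semilinearly; (1)
 gives `s (F_w v) = ε(ζ(w)) F_w v` for all `w`.  So `s (F_i x) = ε(∑_j β i j k_j) F_i (s x)` for `x ∈ V.off n k`
 (`x` is a combination of `F_w v` with `c(w) = k`, `rt_inj`/weights), `s` preserves `V.off n k`,
 `s (s x) = x` (`σ σ = id`), and by the computation in (1), for `x ∈ V.off n k`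
 `s (E_i x) = ε(n_i + d_i + ∑_j (β_ij + br_ij)(k - e_i)_j) E_i (s x)`, and `β_ij + br_ij ≡ β_ji` for all `j`
 (incl. `j = i`), so the exponent is `≡ ∑_j β_ji k_j + n_i + d_i + β_ii`, as required (`φ = 0`).
(3) `s` preserves `V.latA v` (`lat`): `σ([a]_i!) = ± [a]_i!`, so `s (F_i^{(a)} x) = ± F_i^{(a)} (s x)` for
 `x` in one weight space; induction on the product of divided powers; `σ (AA K) ⊆ AA K`.
-/

namespace Pool.Agent.H387.QR

open scoped TensorProduct

variable {I : Type} [Fintype I] [DecidableEq I] {C : Cartan I} {K : Type*} [Field K] [HasQ K]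
variable {M : Type*} [AddCommGroup M] [Module K M]


namespace T09

set_option linter.unusedSectionVars false

/-- signs -/
theorem sgn_eq {a b : ℤ} (h : Even (a - b)) : (-1 : K) ^ a = (-1 : K) ^ b := by
  have h1 : a = (a - b) + b := by ring
  rw [h1, zpow_add₀ (neg_ne_zero.2 one_ne_zero), h.neg_one_zpow, one_mul]

theorem sgn_add (a b : ℤ) : (-1 : K) ^ (a + b) = (-1 : K) ^ a * (-1 : K) ^ b :=
  zpow_add₀ (neg_ne_zero.2 one_ne_zero) a b

theorem sgn_mul_self (a : ℤ) : (-1 : K) ^ a * (-1 : K) ^ a = 1 := by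
  rw [← sgn_add]
  exact (Even.add_self a).neg_one_zpow

theorem sgn_inv (a : ℤ) : ((-1 : K) ^ a)⁻¹ = (-1 : K) ^ a :=
  inv_eq_of_mul_eq_one_right (sgn_mul_self a)

theorem map_sgn (σ : K →+* K) (a : ℤ) : σ ((-1 : K) ^ a) = (-1 : K) ^ a := by
  rw [map_zpow₀, map_neg, map_one]

theorem map_q {σ : K →+* K} (hσ : σ (qq K) = -qq K) (a : ℤ) :
    σ (qq K ^ a) = (-1 : K) ^ a * qq K ^ a := by
  rw [map_zpow₀, hσ, ← neg_one_mul, mul_zpow]

theorem map_hq {σ : K →+* K} (hσ : σ (qq K) = -qq K) (a : ℤ) :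
    σ (hq K a) = (-1 : K) ^ a * hq K a := by
  unfold hq
  rw [map_sub, map_q hσ, map_q hσ, sgn_eq (K := K) (a := -a) (b := a) ⟨-a, by ring⟩]
  ring

theorem map_qd {σ : K →+* K} (hσ : σ (qq K) = -qq K) (d a : ℤ) :
    σ (qd K d a) = (-1 : K) ^ (d * a + d) * qd K d a := by
  rw [qd_eq, map_div₀, map_hq hσ, map_hq hσ, sgn_add]
  have h : (-1 : K) ^ d * (-1 : K) ^ d = 1 := sgn_mul_self d
  have h0 : (-1 : K) ^ d ≠ 0 := zpow_ne_zero _ (neg_ne_zero.2 one_ne_zero)
  rw [mul_div_mul_comm]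
  congr 1
  rw [div_eq_iff h0, mul_assoc, h, mul_one]

theorem single_sum (f : I → ℤ) (k : I → ℤ) (i : I) :
    ∑ j, f j * (k + Pi.single i 1 : I → ℤ) j = ∑ j, f j * k j + f i := by
  simp only [Pi.add_apply, mul_add, Finset.sum_add_distrib]
  congr 1
  rw [Finset.sum_eq_single i]
  · simp
  · intro j _ hj
    rw [Pi.single_eq_of_ne hj, mul_zero]
  · intro h; exact absurd (Finset.mem_univ _) h

theorem single_sum' (f : I → ℤ) (k : I → ℤ) (i : I) :
    ∑ j, f j * (k - Pi.single i 1 : I → ℤ) j = ∑ j, f j * k j - f i := by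
  have h := single_sum f (k - Pi.single i 1) i
  rw [sub_add_cancel] at h
  rw [h]; ring

section off

variable (V : Mod C K M) (n : I → ℤ)

theorem off_F {k : I → ℤ} {x : M} (hx : x ∈ V.off n k) (i : I) :
    V.F i x ∈ V.off n (k + Pi.single i 1) := by
  intro j
  rw [V.kf, hx j, map_smul, smul_smul, ← qadd, single_sum]
  congr 2
  ring

theorem off_E {k : I → ℤ} {x : M} (hx : x ∈ V.off n k) (i : I) :
    V.E i x ∈ V.off n (k - Pi.single i 1) := by
  intro j
  rw [V.ke, hx j, map_smul, smul_smul, ← qadd, single_sum']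
  congr 2
  ring

theorem off_Km {k : I → ℤ} {x : M} (hx : x ∈ V.off n k) (i : I) :
    V.Km i x = qq K ^ (-(n i - ∑ j, C.br i j * k j)) • x := by
  have h := congrArg (V.Km i) (hx i)
  rw [V.kmkp, map_smul] at h
  nth_rewrite 2 [h]
  rw [smul_smul, ← qadd, neg_add_cancel, zpow_zero, one_smul]

end off

/-- the graded graph of the twisted map -/
inductive Gam (σ : K →+* K) (V : Mod C K M) (β : I → I → ℤ) (v : M) : (I → ℤ) → M → M → Prop
  | zero (k : I → ℤ) : Gam σ V β v k 0 0
  | base : Gam σ V β v 0 v v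
  | add {k : I → ℤ} {x y x' y' : M} : Gam σ V β v k x y → Gam σ V β v k x' y' →
      Gam σ V β v k (x + x') (y + y')
  | smul {k : I → ℤ} {x y : M} (c : K) : Gam σ V β v k x y → Gam σ V β v k (c • x) (σ c • y)
  | F {k : I → ℤ} {x y : M} (i : I) : Gam σ V β v k x y →
      Gam σ V β v (k + Pi.single i 1) (V.F i x) ((-1 : K) ^ (∑ j, β i j * k j) • V.F i y)

section

variable {σ : K →+* K} {V : Mod C K M} {β : I → I → ℤ} {lam : I → ℤ} {v : M}

theorem v_off (hv : IsHigh V lam v) : v ∈ V.off (fun i => C.d i * lam i) 0 := by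
  intro i
  rw [hv.wt i]
  congr 2
  simp

theorem Gam.off (hv : IsHigh V lam v) {k : I → ℤ} {x y : M} (h : Gam σ V β v k x y) :
    x ∈ V.off (fun i => C.d i * lam i) k ∧ y ∈ V.off (fun i => C.d i * lam i) k := by
  induction h with
  | zero k => exact ⟨Submodule.zero_mem _, Submodule.zero_mem _⟩
  | base => exact ⟨v_off hv, v_off hv⟩
  | add _ _ h1 h2 => exact ⟨Submodule.add_mem _ h1.1 h2.1, Submodule.add_mem _ h1.2 h2.2⟩
  | smul c _ h => exact ⟨Submodule.smul_mem _ _ h.1, Submodule.smul_mem _ _ h.2⟩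
  | F i _ h => exact ⟨off_F V _ h.1 i, Submodule.smul_mem _ _ (off_F V _ h.2 i)⟩

theorem Gam.cast {k k' : I → ℤ} {x y x' y' : M} (h : Gam σ V β v k x y) (hk : k = k')
    (hx : x = x') (hy : y = y') : Gam σ V β v k' x' y' := by
  subst hk; subst hx; subst hy; exact h

theorem Gam.sgn {k : I → ℤ} {x y : M} (h : Gam σ V β v k x y) (a : ℤ) :
    Gam σ V β v k ((-1 : K) ^ a • x) ((-1 : K) ^ a • y) :=
  (Gam.smul ((-1 : K) ^ a) h).cast rfl rfl (by rw [map_sgn])

/-- low degree pieces -/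
theorem Gam.low {k : I → ℤ} {x y : M} (h : Gam σ V β v k x y) :
    ((∃ i, k i < 0) → x = 0 ∧ y = 0) ∧ (k = 0 → ∃ c : K, x = c • v ∧ y = σ c • v) := by
  induction h with
  | zero k => exact ⟨fun _ => ⟨rfl, rfl⟩, fun _ => ⟨0, by simp, by simp⟩⟩
  | base =>
    refine ⟨?_, fun _ => ⟨1, by simp, by simp⟩⟩
    rintro ⟨i, hi⟩
    exact absurd hi (by simp)
  | add _ _ h1 h2 =>
    refine ⟨fun h => ?_, fun h => ?_⟩
    · rw [(h1.1 h).1, (h1.1 h).2, (h2.1 h).1, (h2.1 h).2, add_zero]
      exact ⟨rfl, rfl⟩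
    · obtain ⟨c, hc1, hc2⟩ := h1.2 h
      obtain ⟨c', hc1', hc2'⟩ := h2.2 h
      exact ⟨c + c', by rw [hc1, hc1', add_smul], by rw [hc2, hc2', map_add, add_smul]⟩
  | smul c _ h1 =>
    refine ⟨fun h => ?_, fun h => ?_⟩
    · rw [(h1.1 h).1, (h1.1 h).2, smul_zero, smul_zero]
      exact ⟨rfl, rfl⟩
    · obtain ⟨c', hc1, hc2⟩ := h1.2 h
      exact ⟨c * c', by rw [hc1, mul_smul], by rw [hc2, map_mul, mul_smul]⟩
  | @F k x y i _ h1 =>
    refine ⟨?_, ?_⟩
    · rintro ⟨m, hm⟩
      have h2 : k m < 0 := by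
        rw [Pi.add_apply] at hm
        by_cases hmi : m = i
        · subst hmi
          rw [Pi.single_eq_same] at hm; omega
        · rw [Pi.single_eq_of_ne hmi] at hm; omega
      rw [(h1.1 ⟨m, h2⟩).1, (h1.1 ⟨m, h2⟩).2, map_zero, smul_zero]
      exact ⟨rfl, rfl⟩
    · intro h
      have h2 : k i < 0 := by
        have := congrFun h i
        rw [Pi.add_apply, Pi.single_eq_same, Pi.zero_apply] at this
        omega
      refine ⟨0, ?_, ?_⟩
      · rw [(h1.1 ⟨i, h2⟩).1, map_zero, zero_smul]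
      · rw [(h1.1 ⟨i, h2⟩).2, map_zero, smul_zero, map_zero, zero_smul]

/-- the exponent for `E` -/
def aE (C : Cartan I) (β : I → I → ℤ) (lam : I → ℤ) (i : I) (k : I → ℤ) : ℤ :=
  ∑ j, β j i * k j + C.d i * lam i + C.d i + β i i

theorem par {β : I → I → ℤ} (hβ : ∀ i j, i ≠ j → Even (β i j + β j i - C.br i j)) (i : I)
    (k : I → ℤ) : Even (∑ j, β j i * k j + ∑ j, β i j * k j - ∑ j, C.br i j * k j) := by
  rw [← Finset.sum_add_distrib, ← Finset.sum_sub_distrib]
  refine Finset.even_sum _ fun j _ => ?_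
  rw [← add_mul, ← sub_mul]
  refine Even.mul_right ?_ _
  by_cases h : i = j
  · subst h
    have : C.br i i = 2 * C.d i := by
      unfold Cartan.br; rw [C.diag]; ring
    rw [this]
    exact ⟨β i i - C.d i, by ring⟩
  · have := hβ i j h
    rwa [add_comm (β j i)]

theorem Gam.E (hσ : σ (qq K) = -qq K)
    (hβ : ∀ i j, i ≠ j → Even (β i j + β j i - C.br i j))
    (hv : IsHigh V lam v) {k : I → ℤ} {x y : M} (h : Gam σ V β v k x y) (i : I) :
    Gam σ V β v (k - Pi.single i 1) (V.E i x) ((-1 : K) ^ aE C β lam i k • V.E i y) := by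
  induction h with
  | zero k => exact (Gam.zero _).cast rfl (by simp) (by simp)
  | base => exact (Gam.zero _).cast rfl (by rw [hv.E]) (by rw [hv.E, smul_zero])
  | add _ _ h1 h2 => exact (h1.add h2).cast rfl (by rw [map_add]) (by rw [map_add, smul_add])
  | smul c _ h => exact (h.smul c).cast rfl (by rw [map_smul]) (by rw [map_smul, smul_comm])
  | @F k x y j hxy h1 =>
    have ho := hxy.off hv
    have hF := h1.F j
    have hk : k - Pi.single i 1 + Pi.single j 1 = k + Pi.single j 1 - Pi.single i 1 := by abel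
    -- the exponents
    have e1 : aE C β lam i (k + Pi.single j 1) = aE C β lam i k + β j i := by
      unfold aE
      rw [single_sum (fun j => β j i)]
      ring
    have e2 : ∑ m, β j m * (k - Pi.single i 1 : I → ℤ) m = ∑ m, β j m * k m - β j i :=
      single_sum' _ _ _
    have es : (-1 : K) ^ (∑ m, β j m * (k - Pi.single i 1 : I → ℤ) m) * (-1 : K) ^ aE C β lam i k =
        (-1 : K) ^ aE C β lam i (k + Pi.single j 1) * (-1 : K) ^ (∑ m, β j m * k m) := by
      rw [← sgn_add, ← sgn_add]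
      refine sgn_eq ⟨-β j i, ?_⟩
      rw [e1, e2]; ring
    have hxE := V.ef i j x
    have hyE := V.ef i j y
    by_cases hij : i = j
    · subst hij
      rw [if_pos rfl] at hxE hyE
      set N : ℤ := (C.d i : ℤ) * lam i - ∑ m, C.br i m * k m with hN
      have hxN : (hq K (C.d i))⁻¹ • (V.Kp i x - V.Km i x) = ((hq K (C.d i))⁻¹ * hq K N) • x := by
        rw [ho.1 i, off_Km V _ ho.1 i, ← sub_smul, smul_smul]
        rfl
      have hyN : (hq K (C.d i))⁻¹ • (V.Kp i y - V.Km i y) = ((hq K (C.d i))⁻¹ * hq K N) • y := by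
        rw [ho.2 i, off_Km V _ ho.2 i, ← sub_smul, smul_smul]
        rfl
      have hs := Gam.smul ((hq K (C.d i))⁻¹ * hq K N) hxy
      refine ((hF.cast hk rfl rfl).add (hs.cast (by simp) rfl rfl)).cast rfl ?_ ?_
      · rw [← hxN, ← hxE]; abel
      · have hyE' : V.E i (V.F i y) = V.F i (V.E i y) + ((hq K (C.d i))⁻¹ * hq K N) • y := by
          rw [← hyN, ← hyE]; abel
        rw [map_smul, map_smul, hyE', smul_smul, es, smul_smul, smul_add]
        congr 1
        rw [smul_smul, map_mul, map_inv₀, map_hq hσ, map_hq hσ]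
        congr 1
        have e3 : (-1 : K) ^ aE C β lam i (k + Pi.single i 1) * (-1 : K) ^ (∑ m, β i m * k m) =
            (-1 : K) ^ (C.d i : ℤ) * (-1 : K) ^ N := by
          rw [← sgn_add, ← sgn_add]
          apply sgn_eq
          rw [e1, hN]
          unfold aE
          obtain ⟨r, hr⟩ := par hβ i k
          refine ⟨r + β i i + ∑ m, C.br i m * k m, ?_⟩
          linear_combination hr
        rw [e3, mul_inv]
        rw [sgn_inv]
        ring
    · rw [if_neg hij] at hxE hyE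
      refine (hF.cast hk ?_ ?_)
      · rw [sub_eq_zero] at hxE; exact hxE.symm
      · rw [sub_eq_zero] at hyE
        rw [map_smul, map_smul, hyE, smul_smul, es, smul_smul]

theorem Gam.symm (hσσ : ∀ x, σ (σ x) = x) {k : I → ℤ} {x y : M} (h : Gam σ V β v k x y) :
    Gam σ V β v k y x := by
  induction h with
  | zero k => exact Gam.zero k
  | base => exact Gam.base
  | add _ _ h1 h2 => exact h1.add h2
  | smul c _ h => exact (h.smul (σ c)).cast rfl rfl (by rw [hσσ])
  | @F k x y i _ h =>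
    refine ((h.F i).sgn (∑ j, β i j * k j)).cast rfl rfl ?_
    rw [smul_smul, sgn_mul_self, one_smul]

end


section

variable {σ : K →+* K} {V : Mod C K M} {β : I → I → ℤ} {lam : I → ℤ} {v : M}

theorem off_eq (V : Mod C K M) (lam k : I → ℤ) :
    V.off (fun i => C.d i * lam i) k = V.wt (lam - C.rt k) := by
  ext x
  rw [mem_off, Mod.mem_wt]
  refine forall_congr' fun i => ?_
  have : (C.d i : ℤ) * lam i - ∑ j, C.br i j * k j = (C.d i : ℤ) * (lam - C.rt k) i := by
    rw [Pi.sub_apply, mul_sub]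
    congr 1
    unfold Cartan.rt Cartan.br
    rw [Finset.mul_sum]
    exact Finset.sum_congr rfl fun j _ => by ring
  rw [this]

theorem Fw_gam (σ : K →+* K) (V : Mod C K M) (β : I → I → ℤ) (v : M) (w : List I) :
    ∃ (k : I → ℤ) (e : ℤ), Gam σ V β v k (V.Fw w v) ((-1 : K) ^ e • V.Fw w v) := by
  induction w with
  | nil => exact ⟨0, 0, Gam.base.cast rfl rfl (by simp)⟩
  | cons i w ih =>
    obtain ⟨k, e, h⟩ := ih
    refine ⟨_, ∑ j, β i j * k j + e, (h.F i).cast rfl rfl ?_⟩
    rw [map_smul, smul_smul, ← sgn_add]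
    rfl

theorem isWt (hv : IsHigh V lam v) : V.IsWt := by
  unfold Mod.IsWt
  rw [eq_top_iff, ← hv.span, Submodule.span_le]
  rintro _ ⟨w, rfl⟩
  obtain ⟨k, e, h⟩ := Fw_gam (RingHom.id K) V (fun _ _ => 0) v w
  have := (h.off hv).1
  rw [off_eq] at this
  exact Submodule.mem_iSup_of_mem _ this

/-- the projections to the weight spaces -/
theorem exists_Z (hv : IsHigh V lam v) (k : I → ℤ) : ∃ Z : M →ₗ[K] M, ∀ k', ∀ x ∈
    V.off (fun i => C.d i * lam i) k', Z x = if k' = k then x else 0 := by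
  obtain ⟨Z, hZ⟩ := exists_wtOp V (isWt hv) (fun m => if m = lam - C.rt k then 1 else 0)
  refine ⟨Z, fun k' x hx => ?_⟩
  rw [off_eq] at hx
  rw [hZ _ x hx]
  by_cases h : k' = k
  · subst h
    simp
  · rw [if_neg h, if_neg, zero_smul]
    intro h'
    apply h
    exact rt_inj (C := C) (sub_right_injective h')

theorem dec (hv : IsHigh V lam v) : ⨆ k : I → ℤ, V.off (fun i => C.d i * lam i) k = ⊤ := by
  rw [eq_top_iff, ← hv.span, Submodule.span_le]
  rintro _ ⟨w, rfl⟩
  obtain ⟨k, e, h⟩ := Fw_gam (RingHom.id K) V (fun _ _ => 0) v w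
  exact Submodule.mem_iSup_of_mem k (h.off hv).1

/-- uniqueness -/
theorem Gam.unique (hσ : σ (qq K) = -qq K) (hσσ : ∀ x, σ (σ x) = x)
    (hβ : ∀ i j, i ≠ j → Even (β i j + β j i - C.br i j))
    (hirr : V.Irr) (hv : IsHigh V lam v) {k : I → ℤ} {y : M} (h : Gam σ V β v k 0 y) : y = 0 := by
  let S : (I → ℤ) → Submodule K M := fun k =>
    { carrier := {y | Gam σ V β v k 0 y}
      add_mem' := fun {a b} ha hb => (Gam.add ha hb).cast rfl (add_zero 0) rfl
      zero_mem' := Gam.zero k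
      smul_mem' := fun c a ha => (Gam.smul (σ c) ha).cast rfl (smul_zero _) (by rw [hσσ]) }
  have hmem : ∀ k y, y ∈ S k ↔ Gam σ V β v k 0 y := fun _ _ => Iff.rfl
  have hstab : ∀ (T : M →ₗ[K] M), (∀ k, ∀ y ∈ S k, T y ∈ ⨆ k, S k) → ∀ y ∈ ⨆ k, S k,
      T y ∈ ⨆ k, S k := by
    intro T hT y hy
    induction hy using Submodule.iSup_induction' with
    | mem k y hy => exact hT k y hy
    | zero => rw [map_zero]; exact Submodule.zero_mem _
    | add x y _ _ hx hy => rw [map_add]; exact Submodule.add_mem _ hx hy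
  have hirr' := hirr (⨆ k, S k) (fun i x hx => ⟨?_, ?_, ?_, ?_⟩)
  · rcases hirr' with h1 | h1
    · have h2 : y ∈ ⨆ k, S k := Submodule.mem_iSup_of_mem k h
      rw [h1] at h2
      exact (Submodule.mem_bot K).1 h2
    · exfalso
      have h2 : v ∈ ⨆ k, S k := by rw [h1]; trivial
      obtain ⟨Z, hZ⟩ := exists_Z hv 0
      have h3 : ∀ y ∈ ⨆ k, S k, Z y ∈ S 0 := by
        intro y hy
        induction hy using Submodule.iSup_induction' with
        | mem k y hy =>
          rw [hZ k y (Gam.off hv hy).2]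
          split_ifs with hk
          · subst hk; exact hy
          · exact Submodule.zero_mem _
        | zero => rw [map_zero]; exact Submodule.zero_mem _
        | add x y _ _ hx hy => rw [map_add]; exact Submodule.add_mem _ hx hy
      have h4 := h3 v h2
      rw [hZ 0 v (v_off hv), if_pos rfl, hmem] at h4
      obtain ⟨c, hc1, hc2⟩ := h4.low.2 rfl
      have hc : c = 0 := by
        rcases smul_eq_zero.1 hc1.symm with h5 | h5
        · exact h5
        · exact absurd h5 hv.ne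
      rw [hc, map_zero, zero_smul] at hc2
      exact hv.ne hc2
  · refine hstab (V.E i) (fun k y hy => ?_) x hx
    have h1 := ((Gam.E hσ hβ hv hy i).sgn (aE C β lam i k))
    refine Submodule.mem_iSup_of_mem (k - Pi.single i 1) ((hmem _ _).2 (h1.cast rfl ?_ ?_))
    · rw [map_zero, smul_zero]
    · rw [smul_smul, sgn_mul_self, one_smul]
  · refine hstab (V.F i) (fun k y hy => ?_) x hx
    have h1 := ((Gam.F i hy).sgn (∑ j, β i j * k j))
    refine Submodule.mem_iSup_of_mem (k + Pi.single i 1) ((hmem _ _).2 (h1.cast rfl ?_ ?_))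
    · rw [map_zero, smul_zero]
    · rw [smul_smul, sgn_mul_self, one_smul]
  · refine hstab (V.Kp i) (fun k y hy => ?_) x hx
    rw [(Gam.off hv hy).2 i]
    exact Submodule.smul_mem _ _ (Submodule.mem_iSup_of_mem k hy)
  · refine hstab (V.Km i) (fun k y hy => ?_) x hx
    rw [off_Km V _ (Gam.off hv hy).2 i]
    exact Submodule.smul_mem _ _ (Submodule.mem_iSup_of_mem k hy)

theorem sig_memA {σ : K →+* K} (hσ : σ (qq K) = -qq K) {c : K} (hc : c ∈ AA K) : σ c ∈ AA K := by
  have h : AA K ≤ Subring.comap σ (AA K) := by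
    unfold AA
    rw [Subring.closure_le]
    rintro x (rfl | rfl)
    · show σ (qq K) ∈ AA K
      rw [hσ]
      exact Subring.neg_mem _ q_memA
    · show σ ((qq K)⁻¹) ∈ AA K
      rw [map_inv₀, hσ, inv_neg]
      exact Subring.neg_mem _ qinv_memA
  exact h hc

theorem map_qdfac {σ : K →+* K} (hσ : σ (qq K) = -qq K) (d : ℤ) (a : ℕ) :
    ∃ e : ℤ, σ (qdfac K d a) = (-1 : K) ^ e * qdfac K d a := by
  induction a with
  | zero => exact ⟨0, by simp [qdfac]⟩
  | succ a ih =>
    obtain ⟨e, he⟩ := ih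
    refine ⟨e + (d * (a + 1) + d), ?_⟩
    rw [qdfac, map_mul, he, map_qd hσ, sgn_add e]
    ring

theorem Fpow_gam {σ : K →+* K} {V : Mod C K M} {β : I → I → ℤ} {v : M} {k : I → ℤ} {x : M} {e : ℤ}
    (h : Gam σ V β v k x ((-1 : K) ^ e • x)) (i : I) (a : ℕ) :
    ∃ (k' : I → ℤ) (e' : ℤ),
      Gam σ V β v k' ((V.F i ^ a) x) ((-1 : K) ^ e' • (V.F i ^ a) x) := by
  induction a with
  | zero => exact ⟨k, e, h⟩
  | succ a ih =>
    obtain ⟨k', e', h'⟩ := ih
    refine ⟨_, ∑ j, β i j * k' j + e', (h'.F i).cast rfl ?_ ?_⟩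
    · rw [pow_succ']; rfl
    · rw [map_smul, smul_smul, ← sgn_add, pow_succ']; rfl

theorem Fdw_gam {σ : K →+* K} (hσ : σ (qq K) = -qq K) (V : Mod C K M) (β : I → I → ℤ) (v : M)
    (w : List (I × ℕ)) :
    ∃ (k : I → ℤ) (e : ℤ), Gam σ V β v k (V.Fdw w v) ((-1 : K) ^ e • V.Fdw w v) := by
  induction w with
  | nil => exact ⟨0, 0, Gam.base.cast rfl rfl (by simp [Mod.Fdw])⟩
  | cons p w ih =>
    obtain ⟨k, e, h⟩ := ih
    obtain ⟨k', e', h'⟩ := Fpow_gam h p.1 p.2
    obtain ⟨e'', he''⟩ := map_qdfac hσ (C.d p.1 : ℤ) p.2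
    refine ⟨k', e'' + e', (h'.smul (qdfac K (C.d p.1) p.2)⁻¹).cast rfl rfl ?_⟩
    rw [map_inv₀, he'', mul_inv, sgn_inv, sgn_add]
    show _ = ((-1 : K) ^ e'' * (-1 : K) ^ e') • ((qdfac K (C.d p.1) p.2)⁻¹ •
      (V.F p.1 ^ p.2) (V.Fdw w v))
    rw [smul_smul, smul_smul]
    congr 1
    ring

end

end T09

open T09 in
theorem exists_tw {σ : K →+* K} (hσ : σ (qq K) = -qq K) (hσσ : ∀ x, σ (σ x) = x)
    (β : I → I → ℤ) (hβ : ∀ i j, i ≠ j → Even (β i j + β j i - C.br i j))
    (V : Mod C K M) [Module.Finite K M] (hirr : V.Irr) {lam : I → ℤ} {v : M}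
    (hv : IsHigh V lam v) : ∃ s : M →ₛₗ[σ] M, s v = v ∧
      IsTw σ V β (fun i => C.d i * lam i) 0 s ∧ (∀ x ∈ V.latA v, s x ∈ V.latA v) := by
  choose Z hZ using fun k => exists_Z hv k
  have hZoff : ∀ k x, Z k x ∈ V.off (fun i => C.d i * lam i) k := by
    intro k x
    have hx : x ∈ ⨆ k : I → ℤ, V.off (fun i => C.d i * lam i) k := by rw [dec hv]; trivial
    induction hx using Submodule.iSup_induction' with
    | mem k' y hy =>
      rw [hZ k k' y hy]
      split_ifs with h
      · subst h; exact hy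
      · exact Submodule.zero_mem _
    | zero => rw [map_zero]; exact Submodule.zero_mem _
    | add x y _ _ hx hy => rw [map_add]; exact Submodule.add_mem _ hx hy
  -- a vector with zero components is zero
  have hzero : ∀ x, (∀ k, Z k x = 0) → x = 0 := by
    intro x hx0
    have hx : x ∈ ⨆ k : I → ℤ, V.off (fun i => C.d i * lam i) k := by rw [dec hv]; trivial
    obtain ⟨f, hf, rfl⟩ := (Submodule.mem_iSup_iff_exists_finsupp _ _).1 hx
    refine Finset.sum_eq_zero fun k hk => ?_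
    have h1 := hx0 k
    rw [Finsupp.sum, map_sum] at h1
    have h2 : ∑ k' ∈ f.support, Z k (f k') = f k := by
      rw [Finset.sum_eq_single k]
      · rw [hZ k k _ (hf k), if_pos rfl]
      · intro k' _ hk'
        rw [hZ k k' _ (hf k'), if_neg hk']
      · intro h
        rw [Finsupp.notMem_support_iff.1 h, map_zero]
    rw [h2] at h1
    exact h1
  -- the relation
  set T : M → M → Prop := fun x y => ∀ k, Gam σ V β v k (Z k x) (Z k y) with hT
  have Tadd : ∀ x y x' y', T x y → T x' y' → T (x + x') (y + y') := by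
    intro x y x' y' h h' k
    exact ((h k).add (h' k)).cast rfl (by rw [map_add]) (by rw [map_add])
  have Tsmul : ∀ (c : K) x y, T x y → T (c • x) (σ c • y) := by
    intro c x y h k
    exact ((h k).smul c).cast rfl (by rw [map_smul]) (by rw [map_smul])
  have Tgam : ∀ k x y, Gam σ V β v k x y → T x y := by
    intro k x y h k'
    have ho := h.off hv
    rw [hZ k' k x ho.1, hZ k' k y ho.2]
    by_cases hk : k = k'
    · subst hk; rw [if_pos rfl, if_pos rfl]; exact h
    · rw [if_neg hk, if_neg hk]; exact Gam.zero _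
  have Tuniq : ∀ x y y', T x y → T x y' → y = y' := by
    intro x y y' h h'
    have h1 : T (x + (-1 : K) • x) (y + σ (-1 : K) • y') := Tadd _ _ _ _ h (Tsmul _ _ _ h')
    have h2 : y + σ (-1 : K) • y' = 0 := by
      refine hzero _ fun k => ?_
      have h3 := h1 k
      have h4 : x + (-1 : K) • x = 0 := by rw [neg_one_smul, add_neg_cancel]
      rw [h4, map_zero] at h3
      exact h3.unique hσ hσσ hβ hirr hv
    rw [map_neg, map_one, neg_one_smul, ← sub_eq_add_neg, sub_eq_zero] at h2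
    exact h2
  have Tex : ∀ x, ∃ y, T x y := by
    intro x
    have hx : x ∈ Submodule.span K (Set.range fun w => V.Fw w v) := by rw [hv.span]; trivial
    induction hx using Submodule.span_induction with
    | mem x hx =>
      obtain ⟨w, rfl⟩ := hx
      obtain ⟨k, e, h⟩ := Fw_gam σ V β v w
      exact ⟨_, Tgam _ _ _ h⟩
    | zero => exact ⟨0, fun k => (Gam.zero k).cast rfl (map_zero _).symm (map_zero _).symm⟩
    | add x y _ _ hx hy =>
      obtain ⟨x', hx⟩ := hx
      obtain ⟨y', hy⟩ := hy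
      exact ⟨_, Tadd _ _ _ _ hx hy⟩
    | smul c x _ hx =>
      obtain ⟨x', hx⟩ := hx
      exact ⟨_, Tsmul _ _ _ hx⟩
  choose f hf using Tex
  let s : M →ₛₗ[σ] M :=
    { toFun := f
      map_add' := fun x y => Tuniq _ _ _ (hf (x + y)) (Tadd _ _ _ _ (hf x) (hf y))
      map_smul' := fun c x => Tuniq _ _ _ (hf (c • x)) (Tsmul _ _ _ (hf x)) }
  have hs : ∀ k x y, Gam σ V β v k x y → s x = y := fun k x y h =>
    Tuniq _ _ _ (hf x) (Tgam k x y h)
  have hs' : ∀ k, ∀ x ∈ V.off (fun i => C.d i * lam i) k, Gam σ V β v k x (s x) := by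
    intro k x hx
    have h1 := hf x k
    rw [hZ k k x hx, if_pos rfl] at h1
    have h2 := hs _ _ _ h1
    rw [h2]
    exact h1
  refine ⟨s, hs 0 v v Gam.base, ⟨dec hv, ?_, ?_, ?_, ?_⟩, ?_⟩
  · intro k x hx
    exact ((hs' k x hx).off hv).2
  · intro i k x hx
    have h := hs _ _ _ ((hs' k x hx).F i)
    rw [h]
    congr 2
    simp
  · intro i k x hx
    have h := hs _ _ _ (Gam.E hσ hβ hv (hs' k x hx) i)
    rw [h]
    congr 2
    unfold aE
    simp
  · intro x
    have hx : x ∈ ⨆ k : I → ℤ, V.off (fun i => C.d i * lam i) k := by rw [dec hv]; trivial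
    induction hx using Submodule.iSup_induction' with
    | mem k y hy => exact hs _ _ _ ((hs' k y hy).symm hσσ)
    | zero => rw [map_zero, map_zero]
    | add x y _ _ hx hy => rw [map_add, map_add, hx, hy]
  · intro x hx
    unfold Mod.latA at hx
    induction hx using Submodule.span_induction with
    | mem x hx =>
      obtain ⟨w, rfl⟩ := hx
      obtain ⟨k, e, h⟩ := Fdw_gam hσ V β v w
      rw [hs _ _ _ h]
      have he : (-1 : K) ^ e ∈ AA K := by
        rcases Int.even_or_odd e with h1 | h1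
        · rw [h1.neg_one_zpow]; exact Subring.one_mem _
        · rw [h1.neg_one_zpow]; exact Subring.neg_mem _ (Subring.one_mem _)
      exact Submodule.smul_mem _ (⟨(-1 : K) ^ e, he⟩ : AA K) (Submodule.subset_span ⟨w, rfl⟩)
    | zero => rw [map_zero]; exact Submodule.zero_mem _
    | add x y _ _ hx hy => rw [map_add]; exact Submodule.add_mem _ hx hy
    | smul c x _ hx =>
      have h1 : s (c • x) = σ (c : K) • s x := s.map_smulₛₗ (c : K) x
      rw [h1]
      exact Submodule.smul_mem _ (⟨σ (c : K), sig_memA hσ c.2⟩ : AA K) hx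

end Pool.Agent.H387.QR
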