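import Pool.Agent.H387.QR.P10A

/-!
# T10C. The parity map preserves the dual lattice

`σ q = -q`, `ε(z) = (-1)^z`.

(3) `tw_dual`: the `τ`-form `(E_i x, y) = (x, F_i y)`, `(F_i x, y) = (x, E_i y)`, `(K_i x, y) = (x, K_i y)`, `(v,v) = 1`.
`(s x, s y) = ε(ω'(k)) σ((x,y))` for `x, y ∈ V.off n k`, `ω'(k) = (k,k)/2 + ∑ n_i k_i`.  It suffices to take
`x = F_w v`; `(F_i x₁, y) = (x₁, E_i y)`: one needs `ω'(k) ≡ ω'(k-e_i) + (∑ β i j (k-e_i)_j + φ_i) +
(∑ β j i k_j + n_i + d_i + β_ii + φ_i) ≡ ω'(k-e_i) + ∑ br i j k_j + n_i + d_i`. ok.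
So if `(x, z) ∈ AA` for all `z ∈ V.latA v` then the same holds for `s x`: `V.latA v` is spanned by weight
vectors `z`, the form of vectors of different weights is zero (so for `x = ∑ x_k` the components `x_k`
have the property as well), `(s x_k, z) = ± σ((x_k, s z))` (`s s = id`), `s z ∈ V.latA v`, `σ (AA) ⊆ AA`.
-/

namespace Pool.Agent.H387.QR

open scoped TensorProduct

variable {I : Type} [Fintype I] [DecidableEq I] {C : Cartan I} {K : Type*} [Field K] [HasQ K]
variable {M : Type*} [AddCommGroup M] [Module K M] {N : Type*} [AddCommGroup N] [Module K N]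


namespace T10C

open T10A

theorem off_F {V : Mod C K M} {n k : I → ℤ} {x : M} (hx : x ∈ V.off n k) (i : I) :
    V.F i x ∈ V.off n (k + Pi.single i 1) := by
  intro j
  have h := hx j
  rw [V.kf, h, map_smul, smul_smul, ← qadd]
  congr 2
  simp only [Pi.add_apply, mul_add, Finset.sum_add_distrib, Pi.single_apply, mul_ite, mul_one,
    mul_zero, Finset.sum_ite_eq', Finset.mem_univ, if_true]
  ring

theorem off_E {V : Mod C K M} {n k : I → ℤ} {x : M} {i : I}
    (hx : x ∈ V.off n (k + Pi.single i 1)) : V.E i x ∈ V.off n k := by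
  intro j
  have h := hx j
  rw [V.ke, h, map_smul, smul_smul, ← qadd]
  congr 2
  simp only [Pi.add_apply, mul_add, Finset.sum_add_distrib, Pi.single_apply, mul_ite, mul_one,
    mul_zero, Finset.sum_ite_eq', Finset.mem_univ, if_true]
  ring

/-- the content of a word -/
def cw : List I → I → ℤ
  | [] => 0
  | i :: w => cw w + Pi.single i 1

theorem off_v {V : Mod C K M} {n : I → ℤ} {lam : I → ℤ} {v : M}
    (hv : IsHigh V lam v) (hn : ∀ i, n i = C.d i * lam i) : v ∈ V.off n 0 := by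
  intro i
  rw [hv.wt i, hn]
  simp

theorem off_Fw {V : Mod C K M} {n : I → ℤ} {lam : I → ℤ} {v : M}
    (hv : IsHigh V lam v) (hn : ∀ i, n i = C.d i * lam i) (w : List I) :
    V.Fw w v ∈ V.off n (cw w) := by
  induction w with
  | nil => exact off_v hv hn
  | cons i w ih =>
    rw [Mod.Fw_cons, LinearMap.comp_apply]
    exact off_F ih i

/-- the weight spaces are spanned by the vectors `F_w v` -/
theorem off_le_span {V : Mod C K M} {n : I → ℤ} {lam : I → ℤ} {v : M}
    (hv : IsHigh V lam v) (hn : ∀ i, n i = C.d i * lam i) (k : I → ℤ) :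
    V.off n k ≤ Submodule.span K {x | ∃ w, cw w = k ∧ x = V.Fw w v} := by
  have hle : ∀ l : I → ℤ, Submodule.span K {x | ∃ w, cw w = l ∧ x = V.Fw w v} ≤ V.off n l := by
    intro l
    rw [Submodule.span_le]
    rintro _ ⟨w, rfl, rfl⟩
    exact off_Fw hv hn w
  have htop : ⊤ ≤ Submodule.span K {x | ∃ w, cw w = k ∧ x = V.Fw w v} ⊔
      ⨆ l, ⨆ (_ : l ≠ k), V.off n l := by
    rw [← hv.span, Submodule.span_le]
    rintro _ ⟨w, rfl⟩
    by_cases h : cw w = k
    · exact Submodule.mem_sup_left (Submodule.subset_span ⟨w, h, rfl⟩)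
    · refine Submodule.mem_sup_right ?_
      exact Submodule.mem_iSup_of_mem (cw w) (Submodule.mem_iSup_of_mem h (off_Fw hv hn w))
  intro y hy
  obtain ⟨a, ha, b, hb, hab⟩ := Submodule.mem_sup.1 (htop (Submodule.mem_top (x := y)))
  have hb' : b ∈ V.off n k := by
    have : b = y - a := by rw [← hab]; abel
    rw [this]
    exact Submodule.sub_mem _ hy (hle k ha)
  have h0 : b = 0 := Submodule.disjoint_def.1 ((off_indep V n) k) b hb' hb
  rw [← hab, h0, add_zero]
  exact ha

theorem cw_nonneg (w : List I) (j : I) : 0 ≤ cw w j := by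
  induction w with
  | nil => exact le_rfl
  | cons i w ih =>
    have h1 : (0 : ℤ) ≤ (Pi.single i 1 : I → ℤ) j := by
      rw [Pi.single_apply]; split_ifs <;> norm_num
    exact add_nonneg ih h1

theorem cw_eq_zero {w : List I} (h : cw w = 0) : w = [] := by
  cases w with
  | nil => rfl
  | cons i w =>
    exfalso
    have h1 := congrFun h i
    have h2 := cw_nonneg w i
    rw [cw, Pi.add_apply, Pi.single_eq_same, Pi.zero_apply] at h1
    omega

theorem off_zero {V : Mod C K M} {n : I → ℤ} {lam : I → ℤ} {v : M}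
    (hv : IsHigh V lam v) (hn : ∀ i, n i = C.d i * lam i) {y : M} (hy : y ∈ V.off n 0) :
    ∃ c : K, y = c • v := by
  have h := off_le_span hv hn 0 hy
  have h2 : Submodule.span K {x | ∃ w, cw w = 0 ∧ x = V.Fw w v} ≤ Submodule.span K {v} := by
    rw [Submodule.span_le]
    rintro _ ⟨w, hw, rfl⟩
    rw [cw_eq_zero hw]
    exact Submodule.mem_span_singleton_self v
  obtain ⟨c, hc⟩ := Submodule.mem_span_singleton.1 (h2 h)
  exact ⟨c, hc.symm⟩

/-- the exponent `(k,k)/2 + ∑ n_i k_i` -/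
def om (C : Cartan I) (n k : I → ℤ) : ℤ :=
  (∑ i, ∑ j, k i * C.br i j * k j) / 2 + ∑ i, n i * k i

theorem om_succ (C : Cartan I) (n k : I → ℤ) (i : I) :
    om C n (k + Pi.single i 1) = om C n k + ∑ j, C.br i j * k j + C.d i + n i := by
  have h1 : ∑ a, ∑ b, (k + Pi.single i 1 : I → ℤ) a * C.br a b * (k + Pi.single i 1 : I → ℤ) b =
      (∑ a, ∑ b, k a * C.br a b * k b) + (∑ j, C.br i j * k j + C.d i) * 2 := by
    have e1 : ∀ a b, (k + Pi.single i 1 : I → ℤ) a * C.br a b * (k + Pi.single i 1 : I → ℤ) b =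
        k a * C.br a b * k b + (Pi.single i 1 : I → ℤ) a * (C.br a b * k b) +
          (Pi.single i 1 : I → ℤ) b * (k a * C.br a b) +
          (Pi.single i 1 : I → ℤ) a * ((Pi.single i 1 : I → ℤ) b * C.br a b) := by
      intro a b
      rw [Pi.add_apply, Pi.add_apply]
      ring
    simp only [e1, Finset.sum_add_distrib, ← Finset.mul_sum]
    simp only [Pi.single_apply, ite_mul, one_mul, zero_mul, Finset.sum_ite_eq', Finset.mem_univ,
      if_true]
    have e2 : C.br i i = C.d i * 2 := by rw [Cartan.br, C.diag]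
    have e3 : ∑ x, k x * C.br x i = ∑ j, C.br i j * k j := by
      refine Finset.sum_congr rfl fun j _ => ?_
      rw [br_symm C j i, mul_comm]
    rw [e2, e3]
    ring
  rw [om, om, h1, Int.add_mul_ediv_right _ _ (by norm_num)]
  have h2 : ∑ a, n a * (k + Pi.single i 1 : I → ℤ) a = ∑ a, n a * k a + n i := by
    simp only [Pi.add_apply, mul_add, Finset.sum_add_distrib, Pi.single_apply, mul_ite, mul_one,
      mul_zero, Finset.sum_ite_eq', Finset.mem_univ, if_true]
  rw [h2]
  ring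

theorem sgn_eq {K : Type*} [Field K] {a b : ℤ} (h : Even (a - b)) : (-1 : K) ^ a = (-1 : K) ^ b := by
  have h1 : a = b + (a - b) := by ring
  rw [h1, zpow_add₀ (by norm_num), h.neg_one_zpow, mul_one]

theorem sgn_sq {K : Type*} [Field K] (a : ℤ) : (-1 : K) ^ a * (-1 : K) ^ a = 1 := by
  rw [← zpow_add₀ (by norm_num)]
  exact (Even.add_self a).neg_one_zpow

theorem map_sgn {K : Type*} [Field K] (σ : K →+* K) (a : ℤ) : σ ((-1 : K) ^ a) = (-1 : K) ^ a := by
  rw [map_zpow₀, map_neg, map_one]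

theorem par (C : Cartan I) {β : I → I → ℤ} (hβ : ∀ i j, i ≠ j → Even (β i j + β j i - C.br i j))
    (i : I) (k : I → ℤ) : Even (∑ j, β i j * k j + ∑ j, β j i * k j - ∑ j, C.br i j * k j) := by
  rw [← Finset.sum_add_distrib, ← Finset.sum_sub_distrib]
  refine Finset.sum_induction _ Even (fun _ _ => Even.add) Even.zero fun j _ => ?_
  have e : β i j * k j + β j i * k j - C.br i j * k j = (β i j + β j i - C.br i j) * k j := by ring
  rw [e]
  refine Even.mul_right ?_ _
  rcases eq_or_ne i j with rfl | h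
  · rw [Cartan.br, C.diag]
    exact ⟨β i i - C.d i, by ring⟩
  · exact hβ i j h

end T10C

open T10C

section

variable {σ : K →+* K} {β : I → I → ℤ} {V : Mod C K M} {n φ : I → ℤ} {s : M →ₛₗ[σ] M}

theorem T10C.key_w (hβ : ∀ i j, i ≠ j → Even (β i j + β j i - C.br i j))
    (hs : IsTw σ V β n φ s) {lam : I → ℤ} {v : M}
    (hv : IsHigh V lam v) (hn : ∀ i, n i = C.d i * lam i) (sv : s v = v)
    (tau : M →ₗ[K] M →ₗ[K] K) (tv : tau v v = 1)
    (tF : ∀ i x y, tau (V.F i x) y = tau x (V.E i y))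
    (w : List I) : ∀ y ∈ V.off n (cw w),
      tau (s (V.Fw w v)) (s y) = (-1 : K) ^ om C n (cw w) * σ (tau (V.Fw w v) y) := by
  induction w with
  | nil =>
    intro y hy
    obtain ⟨c, rfl⟩ := off_zero hv hn hy
    have h0 : om C n (cw ([] : List I)) = 0 := by simp [om, cw]
    rw [h0, zpow_zero, one_mul, Mod.Fw_nil, LinearMap.id_apply, sv, LinearMap.map_smulₛₗ, sv,
      map_smul, map_smul, tv, smul_eq_mul, smul_eq_mul, map_mul, map_one]
  | cons i w ih =>
    intro y hy
    have hx := off_Fw hv hn w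
    have hEy := off_E (k := cw w) hy
    have h1 := hs.F i _ _ hx
    have h2 := hs.E i _ _ hy
    have h3 : V.E i (s y) = (-1 : K) ^ (∑ j, β j i * cw (i :: w) j + n i + C.d i + β i i + φ i) •
        s (V.E i y) := by
      rw [h2, smul_smul, sgn_sq, one_smul]
    rw [Mod.Fw_cons, LinearMap.comp_apply, h1, map_smul, LinearMap.smul_apply, tF, h3, map_smul,
      ih _ hEy, tF, smul_eq_mul, smul_eq_mul, ← mul_assoc, ← mul_assoc,
      ← zpow_add₀ (by norm_num), ← zpow_add₀ (by norm_num)]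
    congr 1
    refine sgn_eq ?_
    rw [cw, om_succ]
    have h4 : ∑ j, β j i * (cw w + Pi.single i 1 : I → ℤ) j = ∑ j, β j i * cw w j + β i i := by
      simp only [Pi.add_apply, mul_add, Finset.sum_add_distrib, Pi.single_apply, mul_ite, mul_one,
        mul_zero, Finset.sum_ite_eq', Finset.mem_univ, if_true]
    rw [h4]
    have h5 := par C hβ i (cw w)
    have h6 : ∑ j, β i j * cw w j + φ i +
        (∑ j, β j i * cw w j + β i i + n i + (C.d i : ℤ) + β i i + φ i) + om C n (cw w) -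
        (om C n (cw w) + ∑ j, C.br i j * cw w j + C.d i + n i) =
        (∑ j, β i j * cw w j + ∑ j, β j i * cw w j - ∑ j, C.br i j * cw w j) +
          ((φ i + β i i) + (φ i + β i i)) := by ring
    rw [h6]
    exact h5.add (Even.add_self _)

theorem T10C.key (hβ : ∀ i j, i ≠ j → Even (β i j + β j i - C.br i j))
    (hs : IsTw σ V β n φ s) {lam : I → ℤ} {v : M}
    (hv : IsHigh V lam v) (hn : ∀ i, n i = C.d i * lam i) (sv : s v = v)
    (tau : M →ₗ[K] M →ₗ[K] K) (tv : tau v v = 1)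
    (tF : ∀ i x y, tau (V.F i x) y = tau x (V.E i y)) {k : I → ℤ} {x y : M}
    (hx : x ∈ V.off n k) (hy : y ∈ V.off n k) :
    tau (s x) (s y) = (-1 : K) ^ om C n k * σ (tau x y) := by
  have hx' := off_le_span hv hn k hx
  induction hx' using Submodule.span_induction with
  | mem x h =>
    obtain ⟨w, rfl, rfl⟩ := h
    exact key_w hβ hs hv hn sv tau tv tF w y hy
  | zero => simp
  | add a b ha hb iha ihb =>
    have hle : Submodule.span K {x | ∃ w, cw w = k ∧ x = V.Fw w v} ≤ V.off n k := by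
      rw [Submodule.span_le]
      rintro _ ⟨w, rfl, rfl⟩
      exact off_Fw hv hn w
    rw [map_add, map_add, LinearMap.add_apply, iha (hle ha), ihb (hle hb), map_add,
      LinearMap.add_apply, map_add, mul_add]
  | smul c a ha iha =>
    have hle : Submodule.span K {x | ∃ w, cw w = k ∧ x = V.Fw w v} ≤ V.off n k := by
      rw [Submodule.span_le]
      rintro _ ⟨w, rfl, rfl⟩
      exact off_Fw hv hn w
    rw [LinearMap.map_smulₛₗ, map_smul, LinearMap.smul_apply, iha (hle ha), map_smul,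
      LinearMap.smul_apply, smul_eq_mul, smul_eq_mul, map_mul]
    ring

theorem T10C.orth (tau : M →ₗ[K] M →ₗ[K] K)
    (tK : ∀ i x y, tau (V.Kp i x) y = tau x (V.Kp i y)) {k l : I → ℤ} {x y : M}
    (hx : x ∈ V.off n k) (hy : y ∈ V.off n l) (hkl : k ≠ l) : tau x y = 0 := by
  by_contra h0
  have h1 : ∀ i, ∑ j, C.br i j * (k - l) j = 0 := by
    intro i
    have h2 := tK i x y
    rw [hx i, hy i, map_smul, LinearMap.smul_apply, map_smul, smul_eq_mul, smul_eq_mul] at h2
    have h3 := mul_right_cancel₀ h0 h2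
    have h4 : qq K ^ ((n i - ∑ j, C.br i j * k j) - (n i - ∑ j, C.br i j * l j)) = 1 := by
      rw [zpow_sub₀ HasQ.q_ne, h3, div_self (zpow_ne_zero _ HasQ.q_ne)]
    have h5 : (n i - ∑ j, C.br i j * k j) - (n i - ∑ j, C.br i j * l j) = 0 := by
      by_contra h6
      exact q_zpow_ne_one h6 h4
    simp only [Pi.sub_apply, mul_sub, Finset.sum_sub_distrib]
    omega
  have h2 := C.pos (k - l) (sub_ne_zero.2 hkl)
  have h3 : ∑ i, ∑ j, (k - l) i * ((C.d i : ℤ) * C.a i j) * (k - l) j =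
      ∑ i, (k - l) i * ∑ j, C.br i j * (k - l) j := by
    refine Finset.sum_congr rfl fun i _ => ?_
    rw [Finset.mul_sum]
    refine Finset.sum_congr rfl fun j _ => ?_
    rw [Cartan.br]
    ring
  rw [h3] at h2
  simp only [h1, mul_zero, Finset.sum_const_zero, lt_irrefl] at h2

theorem T10C.pow_F {k : I → ℤ} {x : M} (hx : x ∈ V.off n k) (i : I) (m : ℕ) :
    ∃ l, (V.F i ^ m) x ∈ V.off n l := by
  induction m with
  | zero => exact ⟨k, by simpa using hx⟩
  | succ m ih =>
    obtain ⟨l, hl⟩ := ih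
    refine ⟨l + Pi.single i 1, ?_⟩
    rw [pow_succ', Module.End.mul_apply]
    exact off_F hl i

theorem T10C.off_Fdw {lam : I → ℤ} {v : M}
    (hv : IsHigh V lam v) (hn : ∀ i, n i = C.d i * lam i) (w : List (I × ℕ)) :
    ∃ k, V.Fdw w v ∈ V.off n k := by
  induction w with
  | nil => exact ⟨0, off_v hv hn⟩
  | cons p w ih =>
    obtain ⟨k, hk⟩ := ih
    obtain ⟨l, hl⟩ := pow_F hk p.1 p.2
    refine ⟨l, ?_⟩
    rw [Mod.Fdw, LinearMap.comp_apply, Mod.Fd, LinearMap.smul_apply]
    exact Submodule.smul_mem _ _ hl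

theorem T10C.map_AA (hσ : σ (qq K) = -qq K) {x : K} (hx : x ∈ AA K) : σ x ∈ AA K := by
  have h : AA K ≤ (AA K).comap σ := by
    rw [AA, Subring.closure_le]
    rintro y (rfl | hy)
    · change σ (qq K) ∈ AA K
      rw [hσ]
      exact Subring.neg_mem _ q_memA
    · rw [Set.mem_singleton_iff.1 hy]
      change σ (qq K)⁻¹ ∈ AA K
      rw [map_inv₀, hσ, inv_neg]
      exact Subring.neg_mem _ qinv_memA
  exact h hx

theorem T10C.sgn_mem (a : ℤ) : (-1 : K) ^ a ∈ AA K := by
  rcases Int.even_or_odd a with h | h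
  · rw [h.neg_one_zpow]; exact Subring.one_mem _
  · rw [h.neg_one_zpow]; exact Subring.neg_mem _ (Subring.one_mem _)

end

theorem tw_dual {σ : K →+* K} (hσ : σ (qq K) = -qq K)
    (β : I → I → ℤ) (hβ : ∀ i j, i ≠ j → Even (β i j + β j i - C.br i j))
    (V : Mod C K M) {n φ : I → ℤ} {s : M →ₛₗ[σ] M}
    (hs : IsTw σ V β n φ s) {lam : I → ℤ} {v : M}
    (hv : IsHigh V lam v) (hn : ∀ i, n i = C.d i * lam i) (sv : s v = v)
    (hlat : ∀ x ∈ V.latA v, s x ∈ V.latA v)
    (tau : M →ₗ[K] M →ₗ[K] K) (tv : tau v v = 1)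
    (tE : ∀ i x y, tau (V.E i x) y = tau x (V.F i y))
    (tF : ∀ i x y, tau (V.F i x) y = tau x (V.E i y))
    (tK : ∀ i x y, tau (V.Kp i x) y = tau x (V.Kp i y))
    {x : M} (hx : ∀ z ∈ V.latA v, tau x z ∈ AA K) : ∀ z ∈ V.latA v, tau (s x) z ∈ AA K := by
  intro z hz
  refine Submodule.span_induction (p := fun z _ => tau (s x) z ∈ AA K) ?_ ?_ ?_ ?_ hz
  · rintro _ ⟨w, rfl⟩
    obtain ⟨k, hk⟩ := off_Fdw hv hn w
    have hzl : V.Fdw w v ∈ V.latA v := Submodule.subset_span ⟨w, rfl⟩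
    have hsz : s (V.Fdw w v) ∈ V.off n k := hs.off k _ hk
    -- the vectors of other weights are orthogonal
    have ho : ∀ y ∈ ⨆ l, ⨆ (_ : l ≠ k), V.off n l, ∀ u ∈ V.off n k, tau y u = 0 := by
      intro y hy u hu
      have hle : (⨆ l, ⨆ (_ : l ≠ k), V.off n l) ≤ LinearMap.ker (tau.flip u) := by
        refine iSup₂_le fun l hl y hy => ?_
        rw [LinearMap.mem_ker, LinearMap.flip_apply]
        exact orth tau tK hy hu hl
      have h := hle hy
      rwa [LinearMap.mem_ker, LinearMap.flip_apply] at h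
    have hso : ∀ y ∈ ⨆ l, ⨆ (_ : l ≠ k), V.off n l, s y ∈ ⨆ l, ⨆ (_ : l ≠ k), V.off n l := by
      intro y hy
      have hle : (⨆ l, ⨆ (_ : l ≠ k), V.off n l) ≤
          (⨆ l, ⨆ (_ : l ≠ k), V.off n l).comap s := by
        refine iSup₂_le fun l hl y hy => ?_
        exact Submodule.mem_iSup_of_mem l (Submodule.mem_iSup_of_mem hl (hs.off l y hy))
      exact hle hy
    have htop : (⊤ : Submodule K M) ≤ V.off n k ⊔ ⨆ l, ⨆ (_ : l ≠ k), V.off n l := by
      rw [← hs.dec]
      refine iSup_le fun l => ?_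
      by_cases h : l = k
      · rw [h]; exact le_sup_left
      · exact le_sup_of_le_right (le_iSup₂_of_le l h le_rfl)
    obtain ⟨a, ha, b, hb, hab⟩ := Submodule.mem_sup.1 (htop (Submodule.mem_top (x := x)))
    have h1 : tau (s x) (V.Fdw w v) = tau (s a) (V.Fdw w v) := by
      rw [← hab, map_add, map_add, LinearMap.add_apply, ho _ (hso b hb) _ hk, add_zero]
    have h2 : tau x (s (V.Fdw w v)) = tau a (s (V.Fdw w v)) := by
      rw [← hab, map_add, LinearMap.add_apply, ho _ hb _ hsz, add_zero]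
    have h3 := key hβ hs hv hn sv tau tv tF ha hsz
    rw [hs.inv] at h3
    change tau (s x) (V.Fdw w v) ∈ AA K
    rw [h1, h3, ← h2]
    exact Subring.mul_mem _ (sgn_mem _) (map_AA hσ (hx _ (hlat _ hzl)))
  · change tau (s x) 0 ∈ AA K
    rw [map_zero]
    exact Subring.zero_mem _
  · intro a b _ _ ha hb
    change tau (s x) (a + b) ∈ AA K
    rw [map_add]
    exact Subring.add_mem _ ha hb
  · intro c a _ ha
    change tau (s x) (c • a) ∈ AA K
    have h1 : c • a = (c : K) • a := rfl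
    rw [h1, map_smul, smul_eq_mul]
    exact Subring.mul_mem _ c.2 ha

end Pool.Agent.H387.QR
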