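import Pool.Agent.H387.QR.Defs4

/-!
# T10A. Parity maps on tensor products (helper870)
-/

set_option linter.unusedSectionVars false

namespace Pool.Agent.H387.QR.T10A

open scoped TensorProduct DirectSum
open Pool.Agent.H387.QR

variable {I : Type} [Fintype I] [DecidableEq I] {C : Cartan I} {K : Type*} [Field K] [HasQ K]
variable {M : Type*} [AddCommGroup M] [Module K M] {N : Type*} [AddCommGroup N] [Module K N]

/-- integral powers of `q` are distinct -/
theorem zpow_inj {a b : ℤ} (h : qq K ^ a = qq K ^ b) : a = b := by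
  have key : ∀ m : ℤ, 0 < m → qq K ^ m ≠ 1 := by
    intro m hm h1
    have h2 : ((m.toNat : ℕ) : ℤ) = m := Int.toNat_of_nonneg hm.le
    rw [← h2, zpow_natCast] at h1
    exact HasQ.q_pow m.toNat (by omega) h1
  have hne : (qq K) ≠ 0 := HasQ.q_ne
  rcases lt_trichotomy a b with hab | hab | hab
  · exfalso
    apply key (b - a) (by omega)
    rw [zpow_sub₀ hne, ← h, div_self (zpow_ne_zero _ hne)]
  · exact hab
  · exfalso
    apply key (a - b) (by omega)
    rw [zpow_sub₀ hne, h, div_self (zpow_ne_zero _ hne)]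

/-- the weights determine the index -/
theorem chi_inj (n : I → ℤ) :
    Function.Injective (fun (k : I → ℤ) (i : I) => qq K ^ (n i - ∑ j, C.br i j * k j)) := by
  intro k k' h
  by_contra hne
  have h1 : ∀ i, ∑ j, C.br i j * (k j - k' j) = 0 := by
    intro i
    have h2 := zpow_inj (congrFun h i)
    have h3 : ∑ j, C.br i j * (k j - k' j) = ∑ j, C.br i j * k j - ∑ j, C.br i j * k' j := by
      rw [← Finset.sum_sub_distrib]
      exact Finset.sum_congr rfl fun j _ => by ring
    omega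
  have h4 := C.pos (k - k') (sub_ne_zero.2 hne)
  have h5 : ∑ i, ∑ j, (k - k') i * (C.d i * C.a i j) * (k - k') j = 0 := by
    refine Finset.sum_eq_zero fun i _ => ?_
    have h6 : ∑ j, (k - k') i * (C.d i * C.a i j) * (k - k') j =
        (k - k') i * ∑ j, C.br i j * (k j - k' j) := by
      rw [Finset.mul_sum]
      refine Finset.sum_congr rfl fun j _ => ?_
      simp only [Pi.sub_apply, Cartan.br]
      ring
    rw [h6, h1 i, mul_zero]
  omega

theorem off_indep (V : Mod C K M) (n : I → ℤ) : iSupIndep (V.off n) := by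
  have h1 := Module.End.independent_iInf_maxGenEigenspace_of_forall_mapsTo (f := V.Kp)
    (fun i j φ => Module.End.mapsTo_maxGenEigenspace_of_comm
      (show Commute (V.Kp j) (V.Kp i) from LinearMap.ext fun x => V.kcomm j i x) φ)
  have h2 := h1.comp (chi_inj (C := C) (K := K) n)
  refine h2.mono ?_
  intro k x hx
  show x ∈ ⨅ i, Module.End.maxGenEigenspace (V.Kp i) (qq K ^ (n i - ∑ j, C.br i j * k j))
  rw [Submodule.mem_iInf]
  intro i
  have h3 : x ∈ Module.End.eigenspace (V.Kp i) (qq K ^ (n i - ∑ j, C.br i j * k j)) := by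
    rw [Module.End.mem_eigenspace_iff]
    exact hx i
  exact Module.End.genEigenspace_le_maximal _ _ _ h3

/-- Transfer of a decomposition. -/
theorem le_of_indep {ι : Type*} {A B : ι → Submodule K M} (hAB : ∀ i, A i ≤ B i)
    (hA : ⨆ i, A i = ⊤) (hB : iSupIndep B) (i : ι) : B i ≤ A i := by
  have h1 : A i ⊔ ⨆ (j) (_ : j ≠ i), A j = ⊤ := by
    rw [eq_top_iff, ← hA]
    refine iSup_le fun j => ?_
    by_cases hj : j = i
    · subst hj; exact le_sup_left
    · exact le_sup_of_le_right (le_iSup₂_of_le j hj le_rfl)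
  have h2 : ⨆ (j) (_ : j ≠ i), A j ≤ ⨆ (j) (_ : j ≠ i), B j := iSup₂_mono fun j _ => hAB j
  calc B i = B i ⊓ (A i ⊔ ⨆ (j) (_ : j ≠ i), A j) := by rw [h1, inf_top_eq]
    _ = A i ⊔ B i ⊓ ⨆ (j) (_ : j ≠ i), A j := by
        rw [inf_comm, sup_inf_assoc_of_le _ (hAB i), inf_comm (B i)]
    _ ≤ A i ⊔ B i ⊓ ⨆ (j) (_ : j ≠ i), B j := by gcongr
    _ = A i := by rw [(hB i).eq_bot, sup_bot_eq]

theorem eps_congr {a b : ℤ} (h : Even (a - b)) : (-1 : K) ^ a = (-1) ^ b := by
  have h1 : a = b + (a - b) := by ring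
  rw [h1, zpow_add₀ (by norm_num), h.neg_one_zpow, mul_one]

theorem sig_eps (σ : K →+* K) (a : ℤ) : σ ((-1 : K) ^ a) = (-1) ^ a := by
  rw [map_zpow₀, map_neg, map_one]

theorem eps_mul_self (a : ℤ) : (-1 : K) ^ a * (-1) ^ a = 1 := by
  rw [← zpow_add₀ (by norm_num), Even.neg_one_zpow ⟨a, rfl⟩]

/-- the operator with prescribed signs -/
theorem exists_Z (V : Mod C K M) (W : Mod C K N) (n n' : I → ℤ)
    (hV : ⨆ k : I → ℤ, V.off n k = ⊤) (hW : ⨆ k : I → ℤ, W.off n' k = ⊤)
    (χ : (I → ℤ) → (I → ℤ) → ℤ) : ∃ Z : M ⊗[K] N →ₗ[K] M ⊗[K] N, ∀ k l : I → ℤ,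
      ∀ x ∈ V.off n k, ∀ y ∈ W.off n' l, Z (x ⊗ₜ y) = (-1 : K) ^ χ k l • (x ⊗ₜ[K] y) := by
  classical
  have h1 := DirectSum.isInternal_submodule_of_iSupIndep_of_iSup_eq_top (off_indep V n) hV
  have h2 := DirectSum.isInternal_submodule_of_iSupIndep_of_iSup_eq_top (off_indep W n') hW
  let eM := (LinearEquiv.ofBijective (DirectSum.coeLinearMap (V.off n)) h1).symm
  let eN := (LinearEquiv.ofBijective (DirectSum.coeLinearMap (W.off n')) h2).symm
  let T : (⨁ i : (I → ℤ) × (I → ℤ), (V.off n i.1) ⊗[K] (W.off n' i.2)) →ₗ[K] M ⊗[K] N :=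
    DirectSum.toModule K _ _ fun i => (-1 : K) ^ χ i.1 i.2 •
      TensorProduct.map (V.off n i.1).subtype (W.off n' i.2).subtype
  refine ⟨T ∘ₗ (TensorProduct.directSum K K (fun k => V.off n k)
    (fun l => W.off n' l)).toLinearMap ∘ₗ TensorProduct.map eM.toLinearMap eN.toLinearMap, ?_⟩
  intro k l x hx y hy
  have h3 : eM x = DirectSum.lof K (I → ℤ) (fun k => V.off n k) k ⟨x, hx⟩ := by
    rw [LinearEquiv.symm_apply_eq]
    exact (DirectSum.coeLinearMap_lof (V.off n) k ⟨x, hx⟩).symm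
  have h4 : eN y = DirectSum.lof K (I → ℤ) (fun k => W.off n' k) l ⟨y, hy⟩ := by
    rw [LinearEquiv.symm_apply_eq]
    exact (DirectSum.coeLinearMap_lof (W.off n') l ⟨y, hy⟩).symm
  rw [LinearMap.comp_apply, LinearMap.comp_apply, TensorProduct.map_tmul]
  simp only [LinearEquiv.coe_coe]
  rw [h3, h4, TensorProduct.directSum_lof_tmul_lof]
  simp only [T]
  rw [DirectSum.toModule_lof]
  simp


/-! ### weights -/

theorem F_mem (V : Mod C K M) {n k : I → ℤ} {x : M} (hx : x ∈ V.off n k) (i : I) :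
    V.F i x ∈ V.off n (k + Pi.single i 1) := by
  intro j
  rw [V.kf, hx j, map_smul, smul_smul, ← zpow_add₀ HasQ.q_ne]
  congr 2
  have h1 : ∑ l, C.br j l * (k + Pi.single i 1 : I → ℤ) l = ∑ l, C.br j l * k l + C.br j i := by
    simp only [Pi.add_apply, mul_add, Finset.sum_add_distrib]
    congr 1
    rw [Finset.sum_eq_single i]
    · rw [Pi.single_eq_same, mul_one]
    · intro l _ hl; rw [Pi.single_eq_of_ne hl, mul_zero]
    · intro h; exact absurd (Finset.mem_univ i) h
  rw [h1]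
  ring

theorem E_mem (V : Mod C K M) {n k : I → ℤ} {x : M} (hx : x ∈ V.off n k) (i : I) :
    V.E i x ∈ V.off n (k - Pi.single i 1) := by
  intro j
  rw [V.ke, hx j, map_smul, smul_smul, ← zpow_add₀ HasQ.q_ne]
  congr 2
  have h1 : ∑ l, C.br j l * (k - Pi.single i 1 : I → ℤ) l = ∑ l, C.br j l * k l - C.br j i := by
    simp only [Pi.sub_apply, mul_sub, Finset.sum_sub_distrib]
    congr 1
    rw [Finset.sum_eq_single i]
    · rw [Pi.single_eq_same, mul_one]
    · intro l _ hl; rw [Pi.single_eq_of_ne hl, mul_zero]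
    · intro h; exact absurd (Finset.mem_univ i) h
  rw [h1]
  ring

theorem Km_eq (V : Mod C K M) {n k : I → ℤ} {x : M} (hx : x ∈ V.off n k) (i : I) :
    V.Km i x = qq K ^ (-(n i - ∑ j, C.br i j * k j)) • x := by
  have h1 := congrArg (V.Km i) (hx i)
  rw [V.kmkp, map_smul] at h1
  nth_rewrite 2 [h1]
  rw [smul_smul, ← zpow_add₀ HasQ.q_ne, neg_add_cancel, zpow_zero, one_smul]

theorem tmul_mem (V : Mod C K M) (W : Mod C K N) {n n' k l : I → ℤ} {x : M} {y : N}
    (hx : x ∈ V.off n k) (hy : y ∈ W.off n' l) :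
    x ⊗ₜ[K] y ∈ (V.tensor W).off (n + n') (k + l) := by
  intro i
  show TensorProduct.map (V.Kp i) (W.Kp i) (x ⊗ₜ y) = _
  rw [TensorProduct.map_tmul, hx i, hy i, TensorProduct.smul_tmul_smul, ← zpow_add₀ HasQ.q_ne]
  congr 2
  have h1 : ∑ j, C.br i j * (k + l) j = ∑ j, C.br i j * k j + ∑ j, C.br i j * l j := by
    rw [← Finset.sum_add_distrib]
    exact Finset.sum_congr rfl fun j _ => by rw [Pi.add_apply]; ring
  rw [h1, Pi.add_apply]
  ring

/-- the span of the pure tensors of weight vectors of total weight `m` -/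
def TT (V : Mod C K M) (W : Mod C K N) (n n' m : I → ℤ) : Submodule K (M ⊗[K] N) :=
  Submodule.span K {z | ∃ k l : I → ℤ, k + l = m ∧ ∃ x ∈ V.off n k, ∃ y ∈ W.off n' l, z = x ⊗ₜ[K] y}

theorem TT_top (V : Mod C K M) (W : Mod C K N) (n n' : I → ℤ)
    (hV : ⨆ k : I → ℤ, V.off n k = ⊤) (hW : ⨆ k : I → ℤ, W.off n' k = ⊤) :
    ⨆ m : I → ℤ, TT V W n n' m = ⊤ := by
  rw [eq_top_iff]
  intro z _
  induction z using TensorProduct.induction_on with
  | zero => exact Submodule.zero_mem _
  | add z w hz hw => exact Submodule.add_mem _ (hz trivial) (hw trivial)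
  | tmul x y =>
    have hx : x ∈ ⨆ k : I → ℤ, V.off n k := by rw [hV]; trivial
    have hy : y ∈ ⨆ k : I → ℤ, W.off n' k := by rw [hW]; trivial
    induction hx using Submodule.iSup_induction' with
    | zero => rw [TensorProduct.zero_tmul]; exact Submodule.zero_mem _
    | add a b _ _ ha hb => rw [TensorProduct.add_tmul]; exact Submodule.add_mem _ (ha trivial) (hb trivial)
    | mem k a ha =>
      induction hy using Submodule.iSup_induction' with
      | zero => rw [TensorProduct.tmul_zero]; exact Submodule.zero_mem _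
      | add c d _ _ hc hd => rw [TensorProduct.tmul_add]; exact Submodule.add_mem _ (hc trivial) (hd trivial)
      | mem l c hc =>
        refine Submodule.mem_iSup_of_mem (k + l) ?_
        exact Submodule.subset_span ⟨k, l, rfl, a, ha, c, hc, rfl⟩

theorem off_le_TT (V : Mod C K M) (W : Mod C K N) (n n' : I → ℤ)
    (hV : ⨆ k : I → ℤ, V.off n k = ⊤) (hW : ⨆ k : I → ℤ, W.off n' k = ⊤) (m : I → ℤ) :
    (V.tensor W).off (n + n') m ≤ TT V W n n' m := by
  refine le_of_indep (fun m => ?_) (TT_top V W n n' hV hW) (off_indep (V.tensor W) (n + n')) m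
  unfold TT
  rw [Submodule.span_le]
  rintro _ ⟨k, l, rfl, x, hx, y, hy, rfl⟩
  exact tmul_mem V W hx hy

/-! ### parities -/

theorem sum_single (f : I → ℤ) (i : I) : ∑ j, f j * (Pi.single i 1 : I → ℤ) j = f i := by
  rw [Finset.sum_eq_single i]
  · rw [Pi.single_eq_same, mul_one]
  · intro l _ hl; rw [Pi.single_eq_of_ne hl, mul_zero]
  · intro h; exact absurd (Finset.mem_univ i) h

/-- the exponent -/
def chi (β : I → I → ℤ) (n' φ φ' k l : I → ℤ) : ℤ :=
  ∑ i, ∑ j, β i j * l i * k j + ∑ i, (n' i + φ i + φ' i) * k i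

theorem chi_left (β : I → I → ℤ) (n' φ φ' k l e : I → ℤ) :
    chi β n' φ φ' (k + e) l = chi β n' φ φ' k l + ∑ i, (∑ j, β j i * l j) * e i +
      ∑ i, (n' i + φ i + φ' i) * e i := by
  unfold chi
  have h1 : ∑ i, ∑ j, β i j * l i * (k + e) j = ∑ i, ∑ j, β i j * l i * k j +
      ∑ i, (∑ j, β j i * l j) * e i := by
    have h2 : ∑ i, (∑ j, β j i * l j) * e i = ∑ i, ∑ j, β i j * l i * e j := by
      rw [Finset.sum_comm]
      refine Finset.sum_congr rfl fun i _ => ?_
      rw [Finset.sum_mul]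
    rw [h2, ← Finset.sum_add_distrib]
    refine Finset.sum_congr rfl fun i _ => ?_
    rw [← Finset.sum_add_distrib]
    exact Finset.sum_congr rfl fun j _ => by rw [Pi.add_apply]; ring
  have h3 : ∑ i, (n' i + φ i + φ' i) * (k + e) i = ∑ i, (n' i + φ i + φ' i) * k i +
      ∑ i, (n' i + φ i + φ' i) * e i := by
    rw [← Finset.sum_add_distrib]
    exact Finset.sum_congr rfl fun j _ => by rw [Pi.add_apply]; ring
  rw [h1, h3]
  ring

theorem chi_right (β : I → I → ℤ) (n' φ φ' k l e : I → ℤ) :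
    chi β n' φ φ' k (l + e) = chi β n' φ φ' k l + ∑ i, (∑ j, β i j * k j) * e i := by
  unfold chi
  have h1 : ∑ i, ∑ j, β i j * (l + e) i * k j = ∑ i, ∑ j, β i j * l i * k j +
      ∑ i, (∑ j, β i j * k j) * e i := by
    rw [← Finset.sum_add_distrib]
    refine Finset.sum_congr rfl fun i _ => ?_
    rw [Finset.sum_mul, ← Finset.sum_add_distrib]
    exact Finset.sum_congr rfl fun j _ => by rw [Pi.add_apply]; ring
  rw [h1]
  ring

theorem even_sum {f g : I → ℤ} (h : ∀ i, Even (f i)) : Even (∑ i, f i * g i) := by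
  refine Finset.even_sum _ fun i _ => (h i).mul_right _

theorem br_self (i : I) : C.br i i = 2 * C.d i := by
  unfold Cartan.br
  rw [C.diag]
  ring


variable {σ : K →+* K}

/-- scalars pass through `s` with a sign -/
theorem s_scalar (hσ : σ (qq K) = -qq K) (s : M →ₛₗ[σ] M) (c : ℤ) (x : M) :
    s (qq K ^ c • x) = (-1 : K) ^ c • (qq K ^ c • s x) := by
  rw [map_smulₛₗ, map_zpow₀, hσ, smul_smul, ← mul_zpow, neg_one_mul]

theorem TT_le (V : Mod C K M) (W : Mod C K N) (n n' m : I → ℤ) :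
    TT V W n n' m ≤ (V.tensor W).off (n + n') m := by
  unfold TT
  rw [Submodule.span_le]
  rintro _ ⟨k, l, rfl, x, hx, y, hy, rfl⟩
  exact tmul_mem V W hx hy

/-- the statement on pure tensors implies it on the whole weight space -/
theorem all_of_pure (V : Mod C K M) (W : Mod C K N) (n n' : I → ℤ)
    (hV : ⨆ k : I → ℤ, V.off n k = ⊤) (hW : ⨆ k : I → ℤ, W.off n' k = ⊤) (m : I → ℤ)
    (f g : M ⊗[K] N → M ⊗[K] N) (hf : ∀ a b, f (a + b) = f a + f b)
    (hg : ∀ a b, g (a + b) = g a + g b) (hf' : ∀ (c : K) a, f (c • a) = σ c • f a)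
    (hg' : ∀ (c : K) a, g (c • a) = σ c • g a)
    (h : ∀ k l : I → ℤ, k + l = m → ∀ x ∈ V.off n k, ∀ y ∈ W.off n' l,
      f (x ⊗ₜ y) = g (x ⊗ₜ y)) (z : M ⊗[K] N) (hz : z ∈ (V.tensor W).off (n + n') m) :
    f z = g z := by
  have hz' := off_le_TT V W n n' hV hW m hz
  unfold TT at hz'
  clear hz
  induction hz' using Submodule.span_induction with
  | mem z hz =>
    obtain ⟨k, l, hkl, x, hx, y, hy, rfl⟩ := hz
    exact h k l hkl x hx y hy
  | zero =>
    have h1 := hf' 0 0
    have h2 := hg' 0 0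
    rw [smul_zero, map_zero, zero_smul] at h1 h2
    rw [h1, h2]
  | add a b _ _ iha ihb => rw [hf, hg, iha, ihb]
  | smul c a _ iha => rw [hf', hg', iha]

theorem tw_tensor (hσ : σ (qq K) = -qq K) (hσσ : ∀ x, σ (σ x) = x)
    (β : I → I → ℤ) (hβ : ∀ i j, i ≠ j → Even (β i j + β j i - C.br i j))
    (V : Mod C K M) (W : Mod C K N) [Module.Finite K M] [Module.Finite K N]
    {n n' φ φ' : I → ℤ} {s : M →ₛₗ[σ] M} {s' : N →ₛₗ[σ] N}
    (hs : IsTw σ V β n φ s) (hs' : IsTw σ W β n' φ' s') :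
    ∃ S : M ⊗[K] N →ₛₗ[σ] M ⊗[K] N, IsTw σ (V.tensor W) β (n + n') φ' S ∧
      ∀ k l : I → ℤ, ∀ x ∈ V.off n k, ∀ y ∈ W.off n' l, S (x ⊗ₜ y) =
        (-1 : K) ^ (∑ i, ∑ j, β i j * l i * k j + ∑ i, (n' i + φ i + φ' i) * k i) •
          (s x ⊗ₜ[K] s' y) := by
  obtain ⟨Z, hZ⟩ := exists_Z V W n n' hs.dec hs'.dec (chi β n' φ φ')
  obtain ⟨S, hS⟩ : ∃ S : M ⊗[K] N →ₛₗ[σ] M ⊗[K] N, ∀ k l : I → ℤ, ∀ x ∈ V.off n k,
      ∀ y ∈ W.off n' l, S (x ⊗ₜ y) = (-1 : K) ^ chi β n' φ φ' k l • (s x ⊗ₜ[K] s' y) := by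
    refine ⟨(TensorProduct.map s s').comp Z, ?_⟩
    intro k l x hx y hy
    show (TensorProduct.map s s') (Z (x ⊗ₜ y)) = _
    rw [hZ k l x hx y hy, map_smulₛₗ, sig_eps, TensorProduct.map_tmul]
  have hpar : ∀ i, Even (β i i + β i i - C.br i i) := by
    intro i
    rw [br_self]
    exact ⟨β i i - C.d i, by ring⟩
  have hβ' : ∀ i j, Even (β i j + β j i - C.br i j) := by
    intro i j
    by_cases h : i = j
    · subst h; exact hpar i
    · exact hβ i j h
  refine ⟨S, ⟨?_, ?_, ?_, ?_, ?_⟩, hS⟩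
  · -- decomposition
    rw [eq_top_iff, ← TT_top V W n n' hs.dec hs'.dec]
    exact iSup_mono fun m => TT_le V W n n' m
  · -- weights
    intro m z hz
    have hz' := off_le_TT V W n n' hs.dec hs'.dec m hz
    unfold TT at hz'
    clear hz
    induction hz' using Submodule.span_induction with
    | mem z hz =>
      obtain ⟨k, l, rfl, x, hx, y, hy, rfl⟩ := hz
      rw [hS k l x hx y hy]
      exact Submodule.smul_mem _ _ (tmul_mem V W (hs.off k x hx) (hs'.off l y hy))
    | zero => rw [map_zero]; exact Submodule.zero_mem _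
    | add a b _ _ iha ihb => rw [map_add]; exact Submodule.add_mem _ iha ihb
    | smul c a _ iha => rw [map_smulₛₗ]; exact Submodule.smul_mem _ _ iha
  · -- F
    intro i m z hz
    refine all_of_pure (σ := σ) V W n n' hs.dec hs'.dec m (fun z => S ((V.tensor W).F i z))
      (fun z => (-1 : K) ^ (∑ j, β i j * m j + φ' i) • (V.tensor W).F i (S z))
      (fun a b => by simp only [map_add]) (fun a b => by simp only [map_add, smul_add])
      (fun c a => by simp only [map_smul, map_smulₛₗ])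
      (fun c a => by
        simp only [map_smulₛₗ, map_smul, RingHom.id_apply]
        rw [smul_comm]) ?_ z hz
    rintro k l rfl x hx y hy
    have e1 : (V.tensor W).F i (x ⊗ₜ[K] y) = V.F i x ⊗ₜ W.Km i y + x ⊗ₜ W.F i y := rfl
    have e2 : (V.tensor W).F i (s x ⊗ₜ[K] s' y) = V.F i (s x) ⊗ₜ W.Km i (s' y) + s x ⊗ₜ W.F i (s' y) :=
      rfl
    have hKm : W.Km i y ∈ W.off n' l := by
      rw [Km_eq W hy]
      exact Submodule.smul_mem _ _ hy
    have t1 : S (V.F i x ⊗ₜ[K] W.Km i y) =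
        (-1 : K) ^ (∑ j, β i j * (k + l) j + φ' i + chi β n' φ φ' k l) •
          (V.F i (s x) ⊗ₜ[K] W.Km i (s' y)) := by
      rw [hS _ _ _ (F_mem V hx i) _ hKm, hs.F i k x hx, Km_eq W hy, Km_eq W (hs'.off l y hy),
        s_scalar hσ, TensorProduct.smul_tmul_smul, smul_smul, ← zpow_add₀ (by norm_num),
        ← zpow_add₀ (by norm_num)]
      congr 1
      apply eps_congr
      rw [chi_left, sum_single, sum_single]
      have h1 : ∑ j, β i j * (k + l) j = ∑ j, β i j * k j + ∑ j, β i j * l j := by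
        rw [← Finset.sum_add_distrib]
        exact Finset.sum_congr rfl fun j _ => by rw [Pi.add_apply]; ring
      have h2 : ∑ j, (β i j + β j i - C.br i j) * l j =
          ∑ j, β i j * l j + ∑ j, β j i * l j - ∑ j, C.br i j * l j := by
        rw [← Finset.sum_add_distrib, ← Finset.sum_sub_distrib]
        exact Finset.sum_congr rfl fun j _ => by ring
      obtain ⟨a, ha⟩ := even_sum (g := l) (hβ' i)
      rw [h2] at ha
      refine ⟨a - ∑ j, β i j * l j + ∑ j, C.br i j * l j + φ i, ?_⟩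
      rw [h1]
      linarith
    have t2 : S (x ⊗ₜ[K] W.F i y) =
        (-1 : K) ^ (∑ j, β i j * (k + l) j + φ' i + chi β n' φ φ' k l) •
          (s x ⊗ₜ[K] W.F i (s' y)) := by
      rw [hS _ _ _ hx _ (F_mem W hy i), hs'.F i l y hy, TensorProduct.tmul_smul, smul_smul,
        ← zpow_add₀ (by norm_num)]
      congr 1
      apply eps_congr
      rw [chi_right, sum_single]
      have h1 : ∑ j, β i j * (k + l) j = ∑ j, β i j * k j + ∑ j, β i j * l j := by
        rw [← Finset.sum_add_distrib]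
        exact Finset.sum_congr rfl fun j _ => by rw [Pi.add_apply]; ring
      rw [h1]
      exact ⟨0, by ring⟩
    show S ((V.tensor W).F i (x ⊗ₜ[K] y)) = _ • (V.tensor W).F i (S (x ⊗ₜ[K] y))
    rw [e1, map_add, t1, t2, hS k l x hx y hy, map_smul, e2, smul_smul,
      ← zpow_add₀ (by norm_num), smul_add]
  · -- E
    intro i m z hz
    refine all_of_pure (σ := σ) V W n n' hs.dec hs'.dec m (fun z => S ((V.tensor W).E i z))
      (fun z => (-1 : K) ^ (∑ j, β j i * m j + (n + n') i + C.d i + β i i + φ' i) •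
        (V.tensor W).E i (S z))
      (fun a b => by simp only [map_add]) (fun a b => by simp only [map_add, smul_add])
      (fun c a => by simp only [map_smul, map_smulₛₗ])
      (fun c a => by
        simp only [map_smulₛₗ, map_smul, RingHom.id_apply]
        rw [smul_comm]) ?_ z hz
    rintro k l rfl x hx y hy
    have e1 : (V.tensor W).E i (x ⊗ₜ[K] y) = V.E i x ⊗ₜ y + V.Kp i x ⊗ₜ W.E i y := rfl
    have e2 : (V.tensor W).E i (s x ⊗ₜ[K] s' y) = V.E i (s x) ⊗ₜ s' y + V.Kp i (s x) ⊗ₜ W.E i (s' y) :=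
      rfl
    have hKp : V.Kp i x ∈ V.off n k := by
      rw [hx i]
      exact Submodule.smul_mem _ _ hx
    have h1 : ∑ j, β j i * (k + l) j = ∑ j, β j i * k j + ∑ j, β j i * l j := by
      rw [← Finset.sum_add_distrib]
      exact Finset.sum_congr rfl fun j _ => by rw [Pi.add_apply]; ring
    have hsub : ∀ a : I → ℤ, a - Pi.single i 1 = a + -(Pi.single i 1) := fun a => sub_eq_add_neg _ _
    have hneg : ∀ f : I → ℤ, ∑ j, f j * (-(Pi.single i 1 : I → ℤ)) j = - f i := by
      intro f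
      rw [← sum_single f i, ← Finset.sum_neg_distrib]
      exact Finset.sum_congr rfl fun j _ => by rw [Pi.neg_apply]; ring
    have t1 : S (V.E i x ⊗ₜ[K] y) =
        (-1 : K) ^ (∑ j, β j i * (k + l) j + (n + n') i + C.d i + β i i + φ' i +
          chi β n' φ φ' k l) • (V.E i (s x) ⊗ₜ[K] s' y) := by
      have e3 : ∀ c : K, (c • V.E i (s x)) ⊗ₜ[K] s' y = c • (V.E i (s x) ⊗ₜ[K] s' y) :=
        fun c => rfl
      rw [hS _ _ _ (E_mem V hx i) _ hy, hs.E i k x hx, e3, smul_smul,
        ← zpow_add₀ (by norm_num)]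
      congr 1
      apply eps_congr
      rw [hsub, chi_left, hneg, hneg, h1, Pi.add_apply]
      exact ⟨-(∑ j, β j i * l j) - n' i - φ' i, by ring⟩
    have t2 : S (V.Kp i x ⊗ₜ[K] W.E i y) =
        (-1 : K) ^ (∑ j, β j i * (k + l) j + (n + n') i + C.d i + β i i + φ' i +
          chi β n' φ φ' k l) • (V.Kp i (s x) ⊗ₜ[K] W.E i (s' y)) := by
      rw [hS _ _ _ hKp _ (E_mem W hy i), hs'.E i l y hy, hx i, hs.off k x hx i,
        s_scalar hσ, TensorProduct.smul_tmul_smul, smul_smul, ← zpow_add₀ (by norm_num),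
        ← zpow_add₀ (by norm_num)]
      congr 1
      apply eps_congr
      rw [hsub, chi_right, hneg, h1, Pi.add_apply]
      have h2 : ∑ j, (β i j + β j i - C.br i j) * k j =
          ∑ j, β i j * k j + ∑ j, β j i * k j - ∑ j, C.br i j * k j := by
        rw [← Finset.sum_add_distrib, ← Finset.sum_sub_distrib]
        exact Finset.sum_congr rfl fun j _ => by ring
      obtain ⟨a, ha⟩ := even_sum (g := k) (hβ' i)
      rw [h2] at ha
      refine ⟨-a - ∑ j, C.br i j * k j, ?_⟩
      linarith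
    show S ((V.tensor W).E i (x ⊗ₜ[K] y)) = _ • (V.tensor W).E i (S (x ⊗ₜ[K] y))
    rw [e1, map_add, t1, t2, hS k l x hx y hy, map_smul, e2, smul_smul,
      ← zpow_add₀ (by norm_num), smul_add]
  · -- involution
    intro z
    induction z using TensorProduct.induction_on with
    | zero => rw [map_zero, map_zero]
    | add z w hz hw => rw [map_add, map_add, hz, hw]
    | tmul x y =>
      have hx : x ∈ ⨆ k : I → ℤ, V.off n k := by rw [hs.dec]; trivial
      have hy : y ∈ ⨆ k : I → ℤ, W.off n' k := by rw [hs'.dec]; trivial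
      induction hx using Submodule.iSup_induction' with
      | zero => rw [TensorProduct.zero_tmul, map_zero, map_zero]
      | add a b _ _ ha hb => rw [TensorProduct.add_tmul, map_add, map_add, ha, hb]
      | mem k a ha =>
        induction hy using Submodule.iSup_induction' with
        | zero => rw [TensorProduct.tmul_zero, map_zero, map_zero]
        | add c d _ _ hc hd => rw [TensorProduct.tmul_add, map_add, map_add, hc, hd]
        | mem l c hc =>
          rw [hS k l a ha c hc, map_smulₛₗ, sig_eps, hS k l _ (hs.off k a ha) _ (hs'.off l c hc),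
            smul_smul, eps_mul_self, one_smul, hs.inv, hs'.inv]

end Pool.Agent.H387.QR.T10A
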