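import Pool.Agent.H387.QR.Defs5
import Pool.Agent.H387.QR.P10A

/-!
# T14A. Parity of the determinant (abstract form)

`off_indep` (T10A) is a sorry-ed lemma.
-/

namespace Pool.Agent.H387.QR.T14A

open Pool.Agent.H387.QR.T10A (off_indep)

open scoped TensorProduct

variable {I : Type} [Fintype I] [DecidableEq I] {C : Cartan I} {K : Type*} [Field K] [HasQ K]
variable {M : Type*} [AddCommGroup M] [Module K M] {N : Type*} [AddCommGroup N] [Module K N]


/-- If there is a nonzero invariant then it has a degree. -/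
theorem exists_k0 (V : Mod C K M) (n : I → ℤ) (hdec : ⨆ k : I → ℤ, V.off n k = ⊤) {x : M}
    (hx : x ∈ V.Inv) (hx0 : x ≠ 0) : ∃ k0 : I → ℤ, ∀ i, n i - ∑ j, C.br i j * k0 j = 0 := by
  classical
  have hxt : x ∈ ⨆ k : I → ℤ, V.off n k := by rw [hdec]; trivial
  rw [Submodule.mem_iSup_iff_exists_finsupp] at hxt
  obtain ⟨f, hf, hsum⟩ := hxt
  have hne : ∃ k0, f k0 ≠ 0 := by
    by_contra h
    push Not at h
    apply hx0
    rw [← hsum, Finsupp.sum]
    exact Finset.sum_eq_zero fun k _ => h k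
  obtain ⟨k0, hk0⟩ := hne
  refine ⟨k0, fun i => ?_⟩
  have h1 : ∑ k ∈ f.support, (qq K ^ (n i - ∑ j, C.br i j * k j) - 1) • f k = 0 := by
    have h2 : V.Kp i x = x := (hx i).2.2
    rw [← hsum, Finsupp.sum, map_sum] at h2
    simp only [sub_smul, one_smul, Finset.sum_sub_distrib]
    rw [sub_eq_zero, ← h2]
    refine Finset.sum_congr rfl fun k _ => ?_
    exact (hf k i).symm
  have hind := off_indep V n
  have hk0s : k0 ∈ f.support := Finsupp.mem_support_iff.mpr hk0
  have h3 : (qq K ^ (n i - ∑ j, C.br i j * k0 j) - 1) • f k0 = 0 := by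
    have hd := hind k0
    rw [Submodule.disjoint_def] at hd
    apply hd
    · exact Submodule.smul_mem _ _ (hf k0)
    · rw [← Finset.add_sum_erase _ _ hk0s] at h1
      rw [eq_neg_of_add_eq_zero_left h1]
      apply Submodule.neg_mem
      apply Submodule.sum_mem
      intro k hk
      apply Submodule.smul_mem
      have hkne : k ≠ k0 := Finset.ne_of_mem_erase hk
      exact Submodule.mem_iSup_of_mem k (Submodule.mem_iSup_of_mem hkne (hf k))
  rcases smul_eq_zero.mp h3 with h4 | h4
  · by_contra hne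
    exact q_zpow_ne_one hne (sub_eq_zero.mp h4)
  · exact absurd h4 hk0

theorem inv_le_off (V : Mod C K M) (n k0 : I → ℤ) (h : ∀ i, n i - ∑ j, C.br i j * k0 j = 0) :
    V.Inv ≤ V.off n k0 := by
  intro x hx i
  rw [h i, zpow_zero, one_smul]
  exact (hx i).2.2

theorem neg_one_zpow_or (z : ℤ) : (-1 : K) ^ z = 1 ∨ (-1 : K) ^ z = -1 := by
  rcases Int.even_or_odd z with h | h
  · exact Or.inl h.neg_one_zpow
  · exact Or.inr h.neg_one_zpow

theorem neg_one_zpow_ne (z : ℤ) : (-1 : K) ^ z ≠ 0 := zpow_ne_zero _ (neg_ne_zero.mpr one_ne_zero)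

theorem S_inv {σ : K →+* K} (β : I → I → ℤ) (V : Mod C K M) {n φ : I → ℤ}
    (S : M →ₛₗ[σ] M) (hS : IsTw σ V β n φ S) (k0 : I → ℤ)
    (h : ∀ i, n i - ∑ j, C.br i j * k0 j = 0) {x : M} (hx : x ∈ V.Inv) : S x ∈ V.Inv := by
  have hxo := inv_le_off V n k0 h hx
  intro i
  refine ⟨?_, ?_, ?_⟩
  · have h1 := hS.E i k0 x hxo
    rw [(hx i).1, map_zero] at h1
    exact (smul_eq_zero.mp h1.symm).resolve_left (neg_one_zpow_ne _)
  · have h1 := hS.F i k0 x hxo
    rw [(hx i).2.1, map_zero] at h1
    exact (smul_eq_zero.mp h1.symm).resolve_left (neg_one_zpow_ne _)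
  · have h1 := hS.off k0 x hxo i
    rw [h i, zpow_zero, one_smul] at h1
    exact h1

/-- coordinates of a vector in the span of part of a basis -/
theorem sum_sub {ι : Type*} [Fintype ι] (D : Module.Basis ι K M) {m : ℕ} (f : Fin m → ι)
    (hf : Function.Injective f) {x : M} (hx : x ∈ Submodule.span K (Set.range (D ∘ f))) :
    x = ∑ k, D.repr x (f k) • D (f k) := by
  classical
  have h0 : ∀ i, i ∉ Set.range f → D.repr x i = 0 := by
    intro i hi
    induction hx using Submodule.span_induction with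
    | mem y hy =>
      obtain ⟨k, rfl⟩ := hy
      simp only [Function.comp_apply, Module.Basis.repr_self]
      rw [Finsupp.single_apply, if_neg]
      rintro rfl
      exact hi ⟨k, rfl⟩
    | zero => simp
    | add y z _ _ hy hz => simp [hy, hz]
    | smul c y _ hy => simp [hy]
  calc x = ∑ i, D.repr x i • D i := (D.sum_repr x).symm
    _ = ∑ i ∈ Finset.univ.image f, D.repr x i • D i := by
        symm
        apply Finset.sum_subset (Finset.subset_univ _)
        intro i _ hi
        rw [h0 i, zero_smul]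
        rintro ⟨k, rfl⟩
        exact hi (Finset.mem_image_of_mem f (Finset.mem_univ k))
    _ = _ := by
        rw [Finset.sum_image]
        intro a _ b _ hab
        exact hf hab

theorem repr_mem {ι : Type*} [Fintype ι] (D : Module.Basis ι K M) {x : M}
    (hx : x ∈ Submodule.span (AA K) (Set.range D)) (i : ι) : D.repr x i ∈ AA K := by
  induction hx using Submodule.span_induction with
  | mem y hy =>
    classical
    obtain ⟨k, rfl⟩ := hy
    rw [Module.Basis.repr_self, Finsupp.single_apply]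
    split_ifs
    · exact Subring.one_mem _
    · exact Subring.zero_mem _
  | zero => simp [Subring.zero_mem]
  | add y z _ _ hy hz =>
    rw [map_add, Finsupp.add_apply]; exact Subring.add_mem _ hy hz
  | smul c y _ hy =>
    have : c • y = (c : K) • y := rfl
    rw [this, map_smul, Finsupp.smul_apply, smul_eq_mul]
    exact Subring.mul_mem _ c.2 hy

theorem sigma_AA {σ : K →+* K} (hσ : σ (qq K) = -qq K) {x : K} (hx : x ∈ AA K) : σ x ∈ AA K := by
  induction hx using Subring.closure_induction with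
  | mem y hy =>
    rcases hy with rfl | hy
    · rw [hσ]; exact Subring.neg_mem _ q_memA
    · rw [Set.mem_singleton_iff] at hy
      subst hy
      rw [map_inv₀, hσ, inv_neg]
      exact Subring.neg_mem _ qinv_memA
  | zero => rw [map_zero]; exact Subring.zero_mem _
  | one => rw [map_one]; exact Subring.one_mem _
  | add y z _ _ hy hz => rw [map_add]; exact Subring.add_mem _ hy hz
  | mul y z _ _ hy hz => rw [map_mul]; exact Subring.mul_mem _ hy hz
  | neg y _ hy => rw [map_neg]; exact Subring.neg_mem _ hy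

theorem det_mem {m : ℕ} (A : Matrix (Fin m) (Fin m) K) (hA : ∀ i j, A i j ∈ AA K) :
    A.det ∈ AA K := by
  rw [Matrix.det_apply]
  apply Subring.sum_mem
  intro p _
  have : (Equiv.Perm.sign p) • ∏ i, A (p i) i =
      ((Equiv.Perm.sign p : ℤ) : K) * ∏ i, A (p i) i := by
    rw [Units.smul_def, zsmul_eq_mul]
  rw [this]
  exact Subring.mul_mem _ (intCast_mem (AA K) _) (Subring.prod_mem _ fun i _ => hA _ _)

/-- The matrix of a twisted map on the invariants: its determinant is a unit of `AA`. -/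
theorem mat {σ : K →+* K} (hσ : σ (qq K) = -qq K)
    (β : I → I → ℤ) (V : Mod C K M) {n φ : I → ℤ}
    (S : M →ₛₗ[σ] M) (hS : IsTw σ V β n φ S) (k0 : I → ℤ)
    (h : ∀ i, n i - ∑ j, C.br i j * k0 j = 0) {ι : Type*} [Fintype ι] (D : Module.Basis ι K M)
    (hL : ∀ j, S (D j) ∈ Submodule.span (AA K) (Set.range D))
    {m : ℕ} (f : Fin m → ι) (hf : Function.Injective f)
    (hf' : Submodule.span K (Set.range (D ∘ f)) = V.Inv) :
    ∃ s : Matrix (Fin m) (Fin m) K, (∀ j, S (D (f j)) = ∑ k, s j k • D (f k)) ∧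
      s.det ∈ AA K ∧ (s.det)⁻¹ ∈ AA K ∧ s.det ≠ 0 := by
  classical
  have hmem : ∀ j, D (f j) ∈ V.Inv := by
    intro j; rw [← hf']; exact Submodule.subset_span ⟨j, rfl⟩
  set s : Matrix (Fin m) (Fin m) K := Matrix.of fun j k => D.repr (S (D (f j))) (f k) with hs
  have hs1 : ∀ j, S (D (f j)) = ∑ k, s j k • D (f k) := by
    intro j
    have : S (D (f j)) ∈ Submodule.span K (Set.range (D ∘ f)) := by
      rw [hf']; exact S_inv β V S hS k0 h (hmem j)
    exact sum_sub D f hf this
  have hsA : ∀ j k, s j k ∈ AA K := fun j k => repr_mem D (hL (f j)) (f k)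
  have hlin : LinearIndependent K (fun k => D (f k)) := D.linearIndependent.comp f hf
  have hprod : σ.mapMatrix s * s = 1 := by
    ext j l
    have h1 : S (S (D (f j))) = ∑ l, (∑ k, σ (s j k) * s k l) • D (f l) := by
      rw [hs1 j, map_sum]
      calc ∑ k, S (s j k • D (f k)) = ∑ k, ∑ l, (σ (s j k) * s k l) • D (f l) := by
            refine Finset.sum_congr rfl fun k _ => ?_
            rw [LinearMap.map_smulₛₗ, hs1 k, Finset.smul_sum]
            refine Finset.sum_congr rfl fun l _ => ?_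
            rw [smul_smul]
        _ = _ := by
            rw [Finset.sum_comm]
            refine Finset.sum_congr rfl fun l _ => ?_
            rw [Finset.sum_smul]
    rw [hS.inv] at h1
    have h2 : D (f j) = ∑ l, (1 : Matrix (Fin m) (Fin m) K) j l • D (f l) := by
      simp [Matrix.one_apply]
    rw [h2] at h1
    have h3 := Fintype.linearIndependent_iff.mp hlin
      (fun l => (∑ k, σ (s j k) * s k l) - (1 : Matrix (Fin m) (Fin m) K) j l) (by
        simp only [sub_smul, Finset.sum_sub_distrib]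
        rw [← h1, sub_self]) l
    rw [Matrix.mul_apply]
    simpa using sub_eq_zero.mp h3
  have hdet : σ s.det * s.det = 1 := by
    have := congrArg Matrix.det hprod
    rw [Matrix.det_mul, Matrix.det_one, ← RingHom.map_det] at this
    exact this
  have hd0 : s.det ≠ 0 := right_ne_zero_of_mul_eq_one hdet
  refine ⟨s, hs1, det_mem s hsA, ?_, hd0⟩
  have : (s.det)⁻¹ = σ s.det := by
    exact inv_eq_of_mul_eq_one_left hdet
  rw [this]
  exact sigma_AA hσ (det_mem s hsA)

end Pool.Agent.H387.QR.T14A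

namespace Pool.Agent.H387.QR

open scoped TensorProduct
open Pool.Agent.H387.QR.T14A

variable {I : Type} [Fintype I] [DecidableEq I] {C : Cartan I} {K : Type*} [Field K] [HasQ K]
variable {M : Type*} [AddCommGroup M] [Module K M] {N : Type*} [AddCommGroup N] [Module K N]

theorem parity_det {σ : K →+* K} (hσ : σ (qq K) = -qq K) (hσσ : ∀ x, σ (σ x) = x)
    (β : I → I → ℤ) (W : Mod C K M) (W' : Mod C K N) {n φ φ' : I → ℤ}
    (S : M →ₛₗ[σ] M) (S' : N →ₛₗ[σ] N) (hS : IsTw σ W β n φ S) (hS' : IsTw σ W' β (-n) φ' S')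
    (P : N →ₗ[K] M →ₗ[K] K) {u : K} (hu : u ∈ AA K) (hu' : u⁻¹ ∈ AA K) (hu0 : u ≠ 0)
    (hP : TwPair σ W' W P β n φ φ' S' S u) {ι κ : Type*} [Fintype ι] [Fintype κ]
    (D : Module.Basis ι K M) (D' : Module.Basis κ K N)
    (hL : ∀ j, S (D j) ∈ Submodule.span (AA K) (Set.range D))
    (hL' : ∀ j, S' (D' j) ∈ Submodule.span (AA K) (Set.range D'))
    {m : ℕ} (f : Fin m → ι) (g : Fin m → κ) (hf : Function.Injective f) (hg : Function.Injective g)
    (hf' : Submodule.span K (Set.range (D ∘ f)) = W.Inv)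
    (hg' : Submodule.span K (Set.range (D' ∘ g)) = W'.Inv) :
    ∃ w ∈ AA K, w⁻¹ ∈ AA K ∧ w ≠ 0 ∧ σ (Matrix.of fun i j => P (D' (g i)) (D (f j))).det =
      w * (Matrix.of fun i j => P (D' (g i)) (D (f j))).det := by
  classical
  rcases Nat.eq_zero_or_pos m with hm | hm
  · subst hm
    refine ⟨1, Subring.one_mem _, by rw [inv_one]; exact Subring.one_mem _, one_ne_zero, ?_⟩
    rw [Matrix.det_isEmpty, map_one, mul_one]
  have hx0 : D (f ⟨0, hm⟩) ∈ W.Inv := by rw [← hf']; exact Submodule.subset_span ⟨_, rfl⟩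
  obtain ⟨k0, hk0⟩ := exists_k0 W n hS.dec hx0 (D.ne_zero _)
  have hk0' : ∀ i, (-n) i - ∑ j, C.br i j * (-k0) j = 0 := by
    intro i
    have := hk0 i
    simp only [Pi.neg_apply, mul_neg, Finset.sum_neg_distrib]
    omega
  obtain ⟨s, hs, hs1, hs2, hs3⟩ := mat hσ β W S hS k0 hk0 D hL f hf hf'
  obtain ⟨t, ht, ht1, ht2, ht3⟩ := mat hσ β W' S' hS' (-k0) hk0' D' hL' g hg hg'
  set A : Matrix (Fin m) (Fin m) K := Matrix.of fun i j => P (D' (g i)) (D (f j)) with hA
  set e : K := (-1 : K) ^ omg C β n φ φ' k0 with he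
  have he0 : e ≠ 0 := neg_one_zpow_ne _
  have heA : e ∈ AA K := by
    rcases neg_one_zpow_or (K := K) (omg C β n φ φ' k0) with h | h
    · rw [he, h]; exact Subring.one_mem _
    · rw [he, h]; exact Subring.neg_mem _ (Subring.one_mem _)
  have heA' : e⁻¹ ∈ AA K := by
    rcases neg_one_zpow_or (K := K) (omg C β n φ φ' k0) with h | h
    · rw [he, h, inv_one]; exact Subring.one_mem _
    · rw [he, h, inv_neg, inv_one]; exact Subring.neg_mem _ (Subring.one_mem _)
  have hmat : t * A * s.transpose = (u * e) • σ.mapMatrix A := by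
    ext i j
    have hx : D (f j) ∈ W.off n k0 := inv_le_off W n k0 hk0 (by
      rw [← hf']; exact Submodule.subset_span ⟨j, rfl⟩)
    have hy : D' (g i) ∈ W'.off (-n) (-k0) := inv_le_off W' (-n) (-k0) hk0' (by
      rw [← hg']; exact Submodule.subset_span ⟨i, rfl⟩)
    have h1 := hP k0 _ hx _ hy
    rw [hs j, ht i] at h1
    simp only [map_sum, LinearMap.map_smul, LinearMap.sum_apply, LinearMap.smul_apply,
      smul_eq_mul] at h1
    simp only [Matrix.mul_apply, Matrix.transpose_apply, Matrix.smul_apply, smul_eq_mul,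
      RingHom.mapMatrix_apply, Matrix.map_apply, hA, Matrix.of_apply]
    rw [← h1]
    refine Finset.sum_congr rfl fun k _ => ?_
    rw [Finset.sum_mul]
    refine Finset.sum_congr rfl fun l _ => ?_
    ring
  have hdet : t.det * A.det * s.det = (u * e) ^ m * σ A.det := by
    have := congrArg Matrix.det hmat
    rw [Matrix.det_mul, Matrix.det_mul, Matrix.det_transpose, Matrix.det_smul,
      Fintype.card_fin, ← RingHom.map_det] at this
    exact this
  have hue : u * e ≠ 0 := mul_ne_zero hu0 he0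
  refine ⟨((u * e) ^ m)⁻¹ * (t.det * s.det), ?_, ?_, ?_, ?_⟩
  · refine Subring.mul_mem _ ?_ (Subring.mul_mem _ ht1 hs1)
    rw [← inv_pow, mul_inv]
    exact Subring.pow_mem _ (Subring.mul_mem _ hu' heA') _
  · rw [mul_inv, inv_inv, mul_inv]
    exact Subring.mul_mem _ (Subring.pow_mem _ (Subring.mul_mem _ hu heA) _)
      (Subring.mul_mem _ ht2 hs2)
  · exact mul_ne_zero (inv_ne_zero (pow_ne_zero _ hue)) (mul_ne_zero ht3 hs3)
  · have h1 : σ A.det = ((u * e) ^ m)⁻¹ * ((u * e) ^ m * σ A.det) := by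
      rw [inv_mul_cancel_left₀ (pow_ne_zero _ hue)]
    rw [h1, ← hdet]; ring

end Pool.Agent.H387.QR
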