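import Pool.Agent.H387.QR.Fin3
import Pool.Agent.H387.QR.P09
import Pool.Agent.H387.QR.P10B
import Pool.Agent.H387.QR.P10C
import Pool.Agent.H387.QR.P14A

/-!
# Final assembly, part 4: parity of the determinant
-/

namespace Pool.Agent.H387.QR

open scoped TensorProduct

section general

variable {I : Type} [Fintype I] [DecidableEq I] {C : Cartan I} {K : Type*} [Field K] [HasQ K]
variable {M : Type*} [AddCommGroup M] [Module K M] {N : Type*} [AddCommGroup N] [Module K N]

theorem exists_beta (C : Cartan I) :
    ∃ β : I → I → ℤ, ∀ i j, i ≠ j → Even (β i j + β j i - C.br i j) := by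
  classical
  let e := Fintype.equivFin I
  refine ⟨fun i j => if e i < e j then C.br i j else 0, fun i j hij => ?_⟩
  have hne : e i ≠ e j := fun h => hij (e.injective h)
  rcases lt_or_gt_of_ne hne with h | h
  · simp [h, not_lt.mpr h.le]
  · simp [h, not_lt.mpr h.le, br_symm C j i]

theorem rt_br (k : I → ℤ) (i : I) : (C.d i : ℤ) * C.rt k i = ∑ j, C.br i j * k j := by
  rw [Cartan.rt, Finset.mul_sum]
  refine Finset.sum_congr rfl fun j _ => ?_
  rw [Cartan.br]; ring

theorem br_diag' (i : I) : C.br i i = 2 * C.d i := by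
  rw [Cartan.br, C.diag]; ring

theorem eps_congr' {a b : ℤ} (h : Even (a - b)) : (-1 : K) ^ a = (-1) ^ b := T10A.eps_congr h

/-- Change of the base point. -/
theorem IsTw.rebase {σ : K →+* K} {V : Mod C K M} {β : I → I → ℤ}
    (hβ : ∀ i j, i ≠ j → Even (β i j + β j i - C.br i j)) {n φ : I → ℤ} {s : M →ₛₗ[σ] M}
    (hs : IsTw σ V β n φ s) {n' κ : I → ℤ} (h : ∀ i, n i - n' i = ∑ j, C.br i j * κ j) :
    IsTw σ V β n' (fun i => φ i + ∑ j, β i j * κ j) s := by
  have hoff : ∀ k : I → ℤ, V.off n' k = V.off n (k + κ) := by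
    intro k
    ext x
    simp only [mem_off]
    refine forall_congr' fun i => ?_
    have : n' i - ∑ j, C.br i j * k j = n i - ∑ j, C.br i j * (k + κ) j := by
      simp only [Pi.add_apply, mul_add, Finset.sum_add_distrib]
      have := h i
      linarith
    rw [this]
  refine ⟨?_, ?_, ?_, ?_, hs.inv⟩
  · rw [eq_top_iff, ← hs.dec]
    refine iSup_le fun k => ?_
    have : V.off n k = V.off n' (k - κ) := by rw [hoff]; simp
    rw [this]
    exact le_iSup (fun k => V.off n' k) (k - κ)
  · intro k x hx
    rw [hoff] at hx ⊢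
    exact hs.off _ x hx
  · intro i k x hx
    rw [hoff] at hx
    rw [hs.F i _ x hx]
    congr 2
    simp only [Pi.add_apply, mul_add, Finset.sum_add_distrib]
    ring
  · intro i k x hx
    rw [hoff] at hx
    rw [hs.E i _ x hx]
    congr 1
    apply eps_congr'
    simp only [Pi.add_apply, mul_add, Finset.sum_add_distrib]
    have h1 : Even (∑ j, (β j i * κ j - β i j * κ j) + (n i - n' i)) := by
      rw [h i, ← Finset.sum_add_distrib]
      apply Finset.even_sum
      intro j _
      by_cases hij : i = j
      · subst hij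
        rw [br_diag']
        exact ⟨C.d i * κ i, by ring⟩
      · obtain ⟨c, hc⟩ := hβ i j hij
        have : β j i * κ j - β i j * κ j + C.br i j * κ j = 2 * ((β j i - c) * κ j) := by
          have : C.br i j = β i j + β j i - (c + c) := by linarith
          rw [this]; ring
        rw [this]
        exact even_two_mul _
    rw [Finset.sum_sub_distrib] at h1
    obtain ⟨c, hc⟩ := h1
    exact ⟨c, by linarith⟩

/-- Transport by an isomorphism. -/
theorem IsTw.transport {σ : K →+* K} {V : Mod C K M} {W : Mod C K N} (e : M ≃ₗ[K] N)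
    (hE : ∀ i x, e (V.E i x) = W.E i (e x)) (hF : ∀ i x, e (V.F i x) = W.F i (e x))
    (hK : ∀ i x, e (V.Kp i x) = W.Kp i (e x)) {β : I → I → ℤ} {n φ : I → ℤ} {s : N →ₛₗ[σ] N}
    (hs : IsTw σ W β n φ s) :
    IsTw σ V β n φ (e.symm.toLinearMap.comp (s.comp e.toLinearMap)) := by
  have hoff : ∀ (k : I → ℤ) (x : M), x ∈ V.off n k ↔ e x ∈ W.off n k := by
    intro k x
    simp only [mem_off]
    refine forall_congr' fun i => ?_
    rw [← hK, ← map_smul]
    exact e.injective.eq_iff.symm
  refine ⟨?_, ?_, ?_, ?_, ?_⟩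
  · have h2 : ∀ k, V.off n k = Submodule.map e.symm.toLinearMap (W.off n k) := by
      intro k; ext x
      rw [hoff k x]
      constructor
      · intro h
        exact ⟨e x, h, by simp⟩
      · rintro ⟨y, hy, rfl⟩
        simpa using hy
    simp only [h2]
    rw [← Submodule.map_iSup, hs.dec, Submodule.map_top, LinearEquiv.range]
  · intro k x hx
    rw [hoff] at hx ⊢
    have := hs.off k _ hx
    simpa using this
  · intro i k x hx
    rw [hoff] at hx
    apply e.injective
    have := hs.F i k _ hx
    simp only [LinearMap.comp_apply, LinearEquiv.coe_coe, LinearEquiv.apply_symm_apply, hF,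
      map_smul, this]
  · intro i k x hx
    rw [hoff] at hx
    apply e.injective
    have := hs.E i k _ hx
    simp only [LinearMap.comp_apply, LinearEquiv.coe_coe, LinearEquiv.apply_symm_apply, hE,
      map_smul, this]
  · intro x
    simp [hs.inv]

/-- A nonzero weight vector in a highest weight module. -/
theorem wt_of_high (V : Mod C K M) {lam : I → ℤ} {v : M} (hv : IsHigh V lam v) {m : I → ℤ} {x : M}
    (hx : x ≠ 0) (hm : x ∈ V.wt m) : ∃ k : I → ℤ, m = lam - C.rt k := by
  classical
  by_contra hcon
  push Not at hcon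
  obtain ⟨Z, hZ⟩ := exists_wtOp V (isWt_of_isHigh V hv) (fun m' => if m' = m then 1 else 0)
  have h1 : Z x = x := by rw [hZ m x hm]; simp
  have h2 : ∀ y ∈ Submodule.span K (Set.range fun w => V.Fw w v), Z y = 0 := by
    intro y hy
    induction hy using Submodule.span_induction with
    | mem z hz =>
      obtain ⟨w, rfl⟩ := hz
      show Z (V.Fw w v) = 0
      rw [hZ _ _ (T08.Fw_wt V hv.wt w), if_neg (fun h => hcon _ h.symm), zero_smul]
    | zero => simp
    | add a b _ _ ha hb => rw [map_add, ha, hb, add_zero]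
    | smul r a _ ha => rw [map_smul, ha, smul_zero]
  have h3 : x ∈ Submodule.span K (Set.range fun w => V.Fw w v) := by rw [hv.span]; trivial
  exact hx (by rw [← h1, h2 x h3])

theorem off_of_wt (V : Mod C K M) {lam m k : I → ℤ} (h : m = lam - C.rt k) {x : M}
    (hx : x ∈ V.wt m) : x ∈ V.off (fun i => C.d i * lam i) k := by
  intro i
  rw [hx i, h, ← rt_br]
  congr 2
  simp only [Pi.sub_apply]
  ring

end general

end Pool.Agent.H387.QR
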