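import Pool.Agent.H387.QR.Fin4

/-!
# Final assembly, part 5: parity of the determinant
-/

namespace Pool.Agent.H387.QR

open scoped TensorProduct

variable {I : Type} [Fintype I] [DecidableEq I] {C : Cartan I}

section one

variable {K : Type} [Field K] [HasQ K] [Cq K]
variable {M N : Type*} [AddCommGroup M] [Module K M] [AddCommGroup N] [Module K N]
variable {ι κ : Type*} [Fintype ι] [DecidableEq ι] [Fintype κ] [DecidableEq κ]
variable {lam lam' : I → ℕ}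

theorem CanMod.expand (A : CanMod C K lam M ι) (x : M) :
    x = ∑ k, A.tau x (A.b k) • A.bd k := by
  conv_lhs => rw [← A.bd.sum_repr x]
  refine Finset.sum_congr rfl fun k _ => ?_
  congr 1
  conv_rhs => rw [← A.bd.sum_repr x]
  rw [map_sum, LinearMap.sum_apply]
  simp only [map_smul, LinearMap.smul_apply, A.bd_tau, smul_eq_mul, mul_ite, mul_one, mul_zero]
  rw [Finset.sum_ite_eq' Finset.univ k]
  simp

theorem CanMod.bd_wt (A : CanMod C K lam M ι) (j : ι) : ∃ m, A.bd j ∈ A.V.wt m := by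
  obtain ⟨m, hm⟩ := A.b_wt j
  refine ⟨m, fun i => ?_⟩
  rw [A.expand (A.V.Kp i (A.bd j))]
  rw [Finset.sum_eq_single j]
  · rw [A.tau_K, hm i, map_smul, A.bd_tau]; simp
  · intro k _ hk
    obtain ⟨m', hm'⟩ := A.b_wt k
    rw [A.tau_K, hm' i, map_smul, A.bd_tau, if_neg (Ne.symm hk)]
    simp
  · intro h; exact absurd (Finset.mem_univ j) h

theorem CanMod.bd_off (A : CanMod C K lam M ι) (j : ι) :
    ∃ k, A.bd j ∈ A.V.off (fun i => C.d i * CanMod.wtz lam i) k := by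
  obtain ⟨m, hm⟩ := A.bd_wt j
  obtain ⟨k, hk⟩ := wt_of_high A.V A.high (A.bd.ne_zero j) hm
  exact ⟨k, off_of_wt A.V hk hm⟩

theorem CanMod.exists_tw (A : CanMod C K lam M ι) {σ : K →+* K} (hσ : σ (qq K) = -qq K)
    (hσσ : ∀ x, σ (σ x) = x) (β : I → I → ℤ)
    (hβ : ∀ i j, i ≠ j → Even (β i j + β j i - C.br i j)) :
    ∃ s : M →ₛₗ[σ] M, s A.v = A.v ∧ IsTw σ A.V β (fun i => C.d i * CanMod.wtz lam i) 0 s ∧
      (∀ x ∈ A.V.latA A.v, s x ∈ A.V.latA A.v) ∧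
      (∀ j, s (A.bd j) ∈ Submodule.span (AA K) (Set.range A.bd)) := by
  haveI := A.fin
  obtain ⟨s, hs1, hs2, hs3⟩ := Pool.Agent.H387.QR.exists_tw hσ hσσ β hβ A.V A.irr A.high
  refine ⟨s, hs1, hs2, hs3, fun j => ?_⟩
  have h1 : ∀ z ∈ A.V.latA A.v, A.tau (A.bd j) z ∈ AA K := by
    rw [← A.b_lat]
    intro z hz
    induction hz using Submodule.span_induction with
    | mem z hz =>
      obtain ⟨k, rfl⟩ := hz
      rw [A.bd_tau]
      split_ifs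
      · exact Subring.one_mem _
      · exact Subring.zero_mem _
    | zero => rw [map_zero]; exact Subring.zero_mem _
    | add a b _ _ ha hb => rw [map_add]; exact Subring.add_mem _ ha hb
    | smul r a _ ha =>
      have : r • a = (r : K) • a := rfl
      rw [this, map_smul]
      exact Subring.mul_mem _ r.2 ha
  have h2 := tw_dual hσ β hβ A.V hs2 A.high (fun i => rfl) hs1 hs3 A.tau A.tau_v A.tau_E A.tau_F
    A.tau_K h1
  rw [A.expand (s (A.bd j))]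
  refine Submodule.sum_mem _ fun k _ => ?_
  have h3 : A.tau (s (A.bd j)) (A.b k) ∈ AA K :=
    h2 _ (by rw [← A.b_lat]; exact Submodule.subset_span ⟨k, rfl⟩)
  have h4 : A.tau (s (A.bd j)) (A.b k) • A.bd k =
    (⟨A.tau (s (A.bd j)) (A.b k), h3⟩ : AA K) • A.bd k := rfl
  rw [h4]
  exact Submodule.smul_mem _ _ (Submodule.subset_span ⟨k, rfl⟩)

variable {A' : CanMod C K lam' N κ} {A : CanMod C K lam M ι}

theorem sigma_AA {σ : K →+* K} (hσ : σ (qq K) = -qq K) {x : K} (hx : x ∈ AA K) :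
    σ x ∈ AA K := by
  unfold AA at hx
  induction hx using Subring.closure_induction with
  | mem x hx =>
    rcases hx with rfl | hx
    · rw [hσ]; exact Subring.neg_mem _ q_memA
    · rw [Set.mem_singleton_iff] at hx
      have h : (-qq K)⁻¹ = -(qq K)⁻¹ := by
        apply inv_eq_of_mul_eq_one_left
        have := inv_mul_cancel₀ (HasQ.q_ne (K := K))
        linear_combination this
      rw [hx, map_inv₀, hσ, h]; exact Subring.neg_mem _ qinv_memA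
  | zero => rw [map_zero]; exact Subring.zero_mem _
  | one => rw [map_one]; exact Subring.one_mem _
  | add x y _ _ hx hy => rw [map_add]; exact Subring.add_mem _ hx hy
  | neg x _ hx => rw [map_neg]; exact Subring.neg_mem _ hx
  | mul x y _ _ hx hy => rw [map_mul]; exact Subring.mul_mem _ hx hy

/-- The pairing of one factor, with all parity data. -/
theorem Duality.exists_tw (P : Duality A' A) {σ : K →+* K} (hσ : σ (qq K) = -qq K)
    (hσσ : ∀ x, σ (σ x) = x) (β : I → I → ℤ)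
    (hβ : ∀ i j, i ≠ j → Even (β i j + β j i - C.br i j)) :
    ∃ (s : M →ₛₗ[σ] M) (s' : N →ₛₗ[σ] N) (φ' : I → ℤ) (u : K),
      IsTw σ A.V β (fun i => C.d i * CanMod.wtz lam i) 0 s ∧
      IsTw σ A'.V β (-(fun i => C.d i * CanMod.wtz lam i)) φ' s' ∧
      TwPair σ A'.V A.V P.ev β (fun i => C.d i * CanMod.wtz lam i) 0 φ' s' s u ∧
      u ∈ AA K ∧ u⁻¹ ∈ AA K ∧ u ≠ 0 ∧
      (∀ j, s (A.bd j) ∈ Submodule.span (AA K) (Set.range A.bd)) ∧
      (∀ j, s' (A'.bd j) ∈ Submodule.span (AA K) (Set.range A'.bd)) ∧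
      (∀ j, ∃ k, A'.bd j ∈ A'.V.off (-(fun i => C.d i * CanMod.wtz lam i)) k) := by
  obtain ⟨s, hs1, hs2, hs3, hs4⟩ := A.exists_tw hσ hσσ β hβ
  obtain ⟨s', hs1', hs2', hs3', hs4'⟩ := A'.exists_tw hσ hσσ β hβ
  have hl0 : P.l ≠ 0 := A'.b.ne_zero _
  obtain ⟨k₀, hk₀⟩ := wt_of_high A'.V A'.high hl0 P.isLow.wt
  have hbase : ∀ i, (C.d i : ℤ) * CanMod.wtz lam' i -
      (-(fun i => (C.d i : ℤ) * CanMod.wtz lam i)) i = ∑ j, C.br i j * k₀ j := by
    intro i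
    rw [← rt_br]
    have := congrFun hk₀ i
    simp only [Pi.neg_apply, Pi.sub_apply] at this ⊢
    have h2 : C.rt k₀ i = CanMod.wtz lam' i + CanMod.wtz lam i := by linarith
    rw [h2]; ring
  have hs5' := hs2'.rebase hβ hbase
  -- the scalar on the lowest weight vector
  have hll : P.l ∈ A'.V.off (fun i => C.d i * CanMod.wtz lam' i) k₀ :=
    off_of_wt A'.V hk₀ P.isLow.wt
  have hsl := hs2'.off _ _ hll
  have hsl' : s' P.l ∈ A'.V.wt (-CanMod.wtz lam) := by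
    intro i
    rw [hsl i, ← rt_br]
    congr 2
    have := congrFun hk₀ i
    rw [this]
    simp only [Pi.sub_apply]
    ring
  obtain ⟨u, hu⟩ := low_line A'.V P.isLow hsl'
  have hreprA : ∀ z ∈ Submodule.span (AA K) (Set.range A'.b), A'.b.repr z P.low ∈ AA K := by
    intro z hz
    induction hz using Submodule.span_induction with
    | mem z hz =>
      obtain ⟨j, rfl⟩ := hz
      rw [A'.b.repr_self, Finsupp.single_apply]
      split_ifs
      · exact Subring.one_mem _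
      · exact Subring.zero_mem _
    | zero => rw [map_zero]; exact Subring.zero_mem _
    | add a b _ _ ha hb => rw [map_add]; exact Subring.add_mem _ ha hb
    | smul r a _ ha =>
      have : r • a = (r : K) • a := rfl
      rw [this, map_smul]
      exact Subring.mul_mem _ r.2 ha
  have huA : u ∈ AA K := by
    have h1 : P.l ∈ A'.V.latA A'.v := by
      rw [← A'.b_lat]; exact Submodule.subset_span ⟨P.low, rfl⟩
    have h2 := hs3' _ h1
    rw [← A'.b_lat] at h2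
    have h3 := hreprA _ h2
    rw [hu, map_smul, Finsupp.smul_apply, show P.l = A'.b P.low from rfl, A'.b.repr_self] at h3
    simpa using h3
  have huu : σ u * u = 1 := by
    have h1 := hs2'.inv P.l
    rw [hu, map_smulₛₗ, hu, smul_smul] at h1
    have h2 : (σ u * u - 1) • P.l = 0 := by rw [sub_smul, h1, one_smul, sub_self]
    rcases smul_eq_zero.mp h2 with h | h
    · linear_combination h
    · exact absurd h hl0
  have hu0 : u ≠ 0 := by rintro rfl; simp at huu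
  refine ⟨s, s', _, u, hs2, hs5', ?_, huA, ?_, hu0, hs4, hs4', ?_⟩
  · exact T10B.twPair_base hσ β hβ A.V A'.V hs2 hs5' A.high P.isLow (fun i => rfl) P.pair P.norm
      hs1 hu
  · have : u⁻¹ = σ u := by
      rw [inv_eq_of_mul_eq_one_left huu]
    rw [this]
    exact sigma_AA hσ huA
  · intro j
    obtain ⟨k, hk⟩ := A'.bd_off j
    refine ⟨k - k₀, fun i => ?_⟩
    rw [hk i]
    congr 2
    have := hbase i
    simp only [Pi.sub_apply, mul_sub, Finset.sum_sub_distrib]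
    linarith

end one

variable {K : Type} [Field K] [HasQ K] [Cq K]
variable {lam₁ lam₂ lam₃ lam₁' lam₂' lam₃' : I → ℕ}
variable {M₁ M₂ M₃ N₁ N₂ N₃ : Type*} [AddCommGroup M₁] [Module K M₁]
  [AddCommGroup M₂] [Module K M₂] [AddCommGroup M₃] [Module K M₃]
  [AddCommGroup N₁] [Module K N₁] [AddCommGroup N₂] [Module K N₂] [AddCommGroup N₃] [Module K N₃]
variable {ι₁ ι₂ ι₃ κ₁ κ₂ κ₃ : Type*} [Fintype ι₁] [DecidableEq ι₁] [Fintype ι₂] [DecidableEq ι₂]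
  [Fintype ι₃] [DecidableEq ι₃] [Fintype κ₁] [DecidableEq κ₁] [Fintype κ₂] [DecidableEq κ₂]
  [Fintype κ₃] [DecidableEq κ₃]

variable {A₁ : CanMod C K lam₁ M₁ ι₁} {A₂ : CanMod C K lam₂ M₂ ι₂} {A₃ : CanMod C K lam₃ M₃ ι₃}
  {A₁' : CanMod C K lam₁' N₁ κ₁} {A₂' : CanMod C K lam₂' N₂ κ₂} {A₃' : CanMod C K lam₃' N₃ κ₃}
  (P₁ : Duality A₁' A₁) (P₂ : Duality A₂' A₂) (P₃ : Duality A₃' A₃)

theorem neg_one_zpow_memA {K : Type*} [Field K] [HasQ K] (n : ℤ) : (-1 : K) ^ n ∈ AA K := by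
  rcases Int.even_or_odd n with h | h
  · rw [h.neg_one_zpow]; exact Subring.one_mem _
  · rw [h.neg_one_zpow]; exact Subring.neg_mem _ (Subring.one_mem _)

theorem smul_memA {K : Type*} [Field K] [HasQ K] {L : Type*} [AddCommGroup L] [Module K L]
    {c : K} (hc : c ∈ AA K) {S : Set L} {z : L} (hz : z ∈ Submodule.span (AA K) S) :
    c • z ∈ Submodule.span (AA K) S :=
  Submodule.smul_mem (Submodule.span (AA K) S) (⟨c, hc⟩ : AA K) hz

/-- spans of tensors over `AA` -/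
theorem tmul_spanA {K : Type*} [Field K] [HasQ K] {L L' : Type*} [AddCommGroup L] [Module K L]
    [AddCommGroup L'] [Module K L'] {S : Set L} {T : Set L'} {U : Set (L ⊗[K] L')}
    (hU : ∀ x ∈ S, ∀ y ∈ T, x ⊗ₜ[K] y ∈ U) {x : L} {y : L'}
    (hx : x ∈ Submodule.span (AA K) S) (hy : y ∈ Submodule.span (AA K) T) :
    x ⊗ₜ[K] y ∈ Submodule.span (AA K) U := by
  induction hx using Submodule.span_induction with
  | mem x hx =>
    induction hy using Submodule.span_induction with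
    | mem y hy => exact Submodule.subset_span (hU x hx y hy)
    | zero => rw [TensorProduct.tmul_zero]; exact Submodule.zero_mem _
    | add a b _ _ ha hb => rw [TensorProduct.tmul_add]; exact Submodule.add_mem _ ha hb
    | smul r a _ ha =>
      have : x ⊗ₜ[K] (r • a) = r • (x ⊗ₜ[K] a) := by
        show x ⊗ₜ[K] ((r : K) • a) = (r : K) • (x ⊗ₜ[K] a)
        rw [TensorProduct.tmul_smul]
      rw [this]
      exact Submodule.smul_mem _ _ ha
  | zero => rw [TensorProduct.zero_tmul]; exact Submodule.zero_mem _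
  | add a b _ _ ha hb => rw [TensorProduct.add_tmul]; exact Submodule.add_mem _ ha hb
  | smul r a _ ha =>
    have : (r • a) ⊗ₜ[K] y = r • (a ⊗ₜ[K] y) := rfl
    rw [this]
    exact Submodule.smul_mem _ _ ha

/-- A semilinear map preserving generators up to the lattice preserves the lattice. -/
theorem semi_spanA {σ : K →+* K} (hσ : σ (qq K) = -qq K) {L : Type*} [AddCommGroup L]
    [Module K L] (S : L →ₛₗ[σ] L) {T : Set L} (h : ∀ x ∈ T, S x ∈ Submodule.span (AA K) T) {x : L}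
    (hx : x ∈ Submodule.span (AA K) T) : S x ∈ Submodule.span (AA K) T := by
  induction hx using Submodule.span_induction with
  | mem x hx => exact h x hx
  | zero => rw [map_zero]; exact Submodule.zero_mem _
  | add a b _ _ ha hb => rw [map_add]; exact Submodule.add_mem _ ha hb
  | smul r a _ ha =>
    have : S (r • a) = (⟨σ r, sigma_AA hσ r.2⟩ : AA K) • S a := by
      show S ((r : K) • a) = σ r • S a
      rw [map_smulₛₗ]
    rw [this]
    exact Submodule.smul_mem _ _ ha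

theorem det_parity {σ : K →+* K} (hσ : σ (qq K) = -qq K)
    (hσσ : ∀ x, σ (σ x) = x) (B : DualCan A₁ A₂ A₃) (B' : DualCan A₃' A₂' A₁')
    {n : ℕ} (f : Fin n → ι₁ × ι₂ × ι₃) (g : Fin n → κ₃ × κ₂ × κ₁)
    (hf : Function.Injective f) (hg : Function.Injective g)
    (hf' : Submodule.span K (Set.range (B.D ∘ f)) = (A₁.V3 A₂ A₃).Inv)
    (hg' : Submodule.span K (Set.range (B'.D ∘ g)) = (A₃'.V3 A₂' A₁').Inv) :
    ∃ w ∈ AA K, w⁻¹ ∈ AA K ∧ w ≠ 0 ∧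
      σ (Matrix.of fun i j => pair3 P₁.ev P₂.ev P₃.ev (B'.D (g i)) (B.D (f j))).det =
      w * (Matrix.of fun i j => pair3 P₁.ev P₂.ev P₃.ev (B'.D (g i)) (B.D (f j))).det := by
  haveI := A₁.fin; haveI := A₂.fin; haveI := A₃.fin
  haveI := A₁'.fin; haveI := A₂'.fin; haveI := A₃'.fin
  obtain ⟨β, hβ⟩ := exists_beta C
  obtain ⟨s₁, s₁', φ₁', u₁, t₁, t₁', w₁, uA₁, uB₁, u0₁, l₁, l₁', o₁'⟩ := P₁.exists_tw hσ hσσ β hβ
  obtain ⟨s₂, s₂', φ₂', u₂, t₂, t₂', w₂, uA₂, uB₂, u0₂, l₂, l₂', o₂'⟩ := P₂.exists_tw hσ hσσ β hβ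
  obtain ⟨s₃, s₃', φ₃', u₃, t₃, t₃', w₃, uA₃, uB₃, u0₃, l₃, l₃', o₃'⟩ := P₃.exists_tw hσ hσσ β hβ
  set n₁ : I → ℤ := fun i => C.d i * CanMod.wtz lam₁ i with hn₁
  set n₂ : I → ℤ := fun i => C.d i * CanMod.wtz lam₂ i with hn₂
  set n₃ : I → ℤ := fun i => C.d i * CanMod.wtz lam₃ i with hn₃
  obtain ⟨S₁₂, T₁₂, E₁₂⟩ := T10A.tw_tensor hσ hσσ β hβ A₁.V A₂.V t₁ t₂
  obtain ⟨S, T, E⟩ := T10A.tw_tensor hσ hσσ β hβ (A₁.V.tensor A₂.V) A₃.V T₁₂ t₃
  obtain ⟨S₂₁', T₂₁', E₂₁'⟩ := T10A.tw_tensor hσ hσσ β hβ A₂'.V A₁'.V t₂' t₁'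
  have eN₁₂ : -n₂ + -n₁ = -(n₁ + n₂) := by abel
  have T₂₁'' : IsTw σ (A₂'.V.tensor A₁'.V) β (-(n₁ + n₂)) φ₁' S₂₁' := eN₁₂ ▸ T₂₁'
  obtain ⟨S', T', E'⟩ := T10A.tw_tensor hσ hσσ β hβ A₃'.V (A₂'.V.tensor A₁'.V) t₃' T₂₁''
  have eN : -n₃ + -(n₁ + n₂) = -(n₁ + n₂ + n₃) := by abel
  have T'' : IsTw σ (A₃'.V.tensor (A₂'.V.tensor A₁'.V)) β (-(n₁ + n₂ + n₃)) φ₁' S' := eN ▸ T'
  have W₁₂ := T10B.twPair_nest hσ β hβ A₁.V A₂.V A₁'.V A₂'.V t₁ t₂ t₁' t₂' P₁.pair P₂.pair w₁ w₂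
    E₁₂ E₂₁'
  have W := T10B.twPair_nest hσ β hβ (A₁.V.tensor A₂.V) A₃.V (A₂'.V.tensor A₁'.V) A₃'.V T₁₂ t₃
    T₂₁'' t₃' (nest_isPair A₁.V A₂.V A₁'.V A₂'.V P₁.pair P₂.pair) P₃.pair W₁₂ w₃ E E'
  -- transport along `assoc`
  have aK : ∀ i (z : (N₃ ⊗[K] N₂) ⊗[K] N₁), TensorProduct.assoc K N₃ N₂ N₁
      ((A₃'.V3 A₂' A₁').Kp i z) =
      (A₃'.V.tensor (A₂'.V.tensor A₁'.V)).Kp i (TensorProduct.assoc K N₃ N₂ N₁ z) := by
    intro i z
    induction z using TensorProduct.induction_on with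
    | zero => simp
    | add a b ha hb => simp only [map_add, ha, hb]
    | tmul x y =>
      induction x using TensorProduct.induction_on with
      | zero => simp
      | add a b ha hb => simp only [TensorProduct.add_tmul, map_add, ha, hb]
      | tmul x z => rfl
  have T3 := IsTw.transport (V := A₃'.V3 A₂' A₁') (TensorProduct.assoc K N₃ N₂ N₁)
    (fun i x => T07A.assoc_E A₃'.V A₂'.V A₁'.V i x) (fun i x => T07A.assoc_F A₃'.V A₂'.V A₁'.V i x)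
    aK T''
  set S'' := (TensorProduct.assoc K N₃ N₂ N₁).symm.toLinearMap.comp
    (S'.comp (TensorProduct.assoc K N₃ N₂ N₁).toLinearMap) with hS''
  have hoff : ∀ (k : I → ℤ) (z : (N₃ ⊗[K] N₂) ⊗[K] N₁),
      z ∈ (A₃'.V3 A₂' A₁').off (-(n₁ + n₂ + n₃)) k →
      TensorProduct.assoc K N₃ N₂ N₁ z ∈
        (A₃'.V.tensor (A₂'.V.tensor A₁'.V)).off (-(n₁ + n₂ + n₃)) k := by
    intro k z hz i
    rw [← aK, hz i, map_smul]
  have W3 : TwPair σ (A₃'.V3 A₂' A₁') (A₁.V3 A₂ A₃) (pair3 P₁.ev P₂.ev P₃.ev) β (n₁ + n₂ + n₃)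
      0 φ₁' S'' S (u₁ * u₂ * u₃) := by
    intro k x hx y hy
    have h1 := W k x hx _ (hoff _ _ hy)
    have h2 : pair3 P₁.ev P₂.ev P₃.ev (S'' y) (S x) =
        nest (nest P₁.ev P₂.ev) P₃.ev (S' (TensorProduct.assoc K N₃ N₂ N₁ y)) (S x) := by
      rw [hS'', pair3]
      simp only [LinearMap.comp_apply, LinearEquiv.coe_coe, LinearEquiv.apply_symm_apply]
    rw [h2, h1]
    rfl
  -- the lattices
  have hL : ∀ j, S (B.D j) ∈ Submodule.span (AA K) (Set.range B.D) := by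
    intro j
    have h0 : B.D j ∈ Submodule.span (AA K) (Set.range (A₁.bd3 A₂ A₃)) := by
      rw [← B.spanA]; exact Submodule.subset_span ⟨j, rfl⟩
    rw [B.spanA]
    refine semi_spanA hσ S ?_ h0
    rintro _ ⟨⟨a, b, c⟩, rfl⟩
    obtain ⟨ka, hka⟩ := A₁.bd_off a
    obtain ⟨kb, hkb⟩ := A₂.bd_off b
    obtain ⟨kc, hkc⟩ := A₃.bd_off c
    have hab := T10A.tmul_mem A₁.V A₂.V hka hkb
    show S ((A₁.bd a ⊗ₜ A₂.bd b) ⊗ₜ A₃.bd c) ∈ _
    rw [E _ _ _ hab _ hkc, E₁₂ _ _ _ hka _ hkb]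
    have h3 : (s₁ (A₁.bd a) ⊗ₜ[K] s₂ (A₂.bd b)) ⊗ₜ[K] s₃ (A₃.bd c) ∈
        Submodule.span (AA K) (Set.range (A₁.bd3 A₂ A₃)) := by
      have h4 : s₁ (A₁.bd a) ⊗ₜ[K] s₂ (A₂.bd b) ∈ Submodule.span (AA K)
          (Set.range fun p : ι₁ × ι₂ => A₁.bd p.1 ⊗ₜ[K] A₂.bd p.2) := by
        refine tmul_spanA ?_ (l₁ a) (l₂ b)
        rintro _ ⟨x, rfl⟩ _ ⟨y, rfl⟩
        exact ⟨(x, y), rfl⟩
      refine tmul_spanA ?_ h4 (l₃ c)
      rintro _ ⟨x, rfl⟩ _ ⟨y, rfl⟩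
      exact ⟨(x.1, x.2, y), rfl⟩
    rw [← TensorProduct.smul_tmul', smul_smul]
    exact smul_memA (Subring.mul_mem _ (neg_one_zpow_memA _) (neg_one_zpow_memA _)) h3
  have hL' : ∀ j, S'' (B'.D j) ∈ Submodule.span (AA K) (Set.range B'.D) := by
    intro j
    have h0 : B'.D j ∈ Submodule.span (AA K) (Set.range (A₃'.bd3 A₂' A₁')) := by
      rw [← B'.spanA]; exact Submodule.subset_span ⟨j, rfl⟩
    rw [B'.spanA]
    refine semi_spanA hσ S'' ?_ h0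
    rintro _ ⟨⟨a, b, c⟩, rfl⟩
    obtain ⟨ka, hka⟩ := o₃' a
    obtain ⟨kb, hkb⟩ := o₂' b
    obtain ⟨kc, hkc⟩ := o₁' c
    have hbc : A₂'.bd b ⊗ₜ[K] A₁'.bd c ∈ (A₂'.V.tensor A₁'.V).off (-(n₁ + n₂)) (kb + kc) :=
      eN₁₂ ▸ T10A.tmul_mem A₂'.V A₁'.V hkb hkc
    have e1 : S'' ((A₃'.bd a ⊗ₜ A₂'.bd b) ⊗ₜ A₁'.bd c) =
        (TensorProduct.assoc K N₃ N₂ N₁).symm
          (S' (A₃'.bd a ⊗ₜ (A₂'.bd b ⊗ₜ A₁'.bd c))) := rfl
    show S'' ((A₃'.bd a ⊗ₜ A₂'.bd b) ⊗ₜ A₁'.bd c) ∈ _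
    rw [e1, E' _ _ _ hka _ hbc, E₂₁' _ _ _ hkb _ hkc]
    have h3 : (s₃' (A₃'.bd a) ⊗ₜ[K] s₂' (A₂'.bd b)) ⊗ₜ[K] s₁' (A₁'.bd c) ∈
        Submodule.span (AA K) (Set.range (A₃'.bd3 A₂' A₁')) := by
      have h4 : s₃' (A₃'.bd a) ⊗ₜ[K] s₂' (A₂'.bd b) ∈ Submodule.span (AA K)
          (Set.range fun p : κ₃ × κ₂ => A₃'.bd p.1 ⊗ₜ[K] A₂'.bd p.2) := by
        refine tmul_spanA ?_ (l₃' a) (l₂' b)
        rintro _ ⟨x, rfl⟩ _ ⟨y, rfl⟩
        exact ⟨(x, y), rfl⟩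
      refine tmul_spanA ?_ h4 (l₁' c)
      rintro _ ⟨x, rfl⟩ _ ⟨y, rfl⟩
      exact ⟨(x.1, x.2, y), rfl⟩
    rw [TensorProduct.tmul_smul, smul_smul, map_smul, TensorProduct.assoc_symm_tmul]
    exact smul_memA (Subring.mul_mem _ (neg_one_zpow_memA _) (neg_one_zpow_memA _)) h3
  have huA : u₁ * u₂ * u₃ ∈ AA K := Subring.mul_mem _ (Subring.mul_mem _ uA₁ uA₂) uA₃
  have huB : (u₁ * u₂ * u₃)⁻¹ ∈ AA K := by
    rw [mul_inv, mul_inv]; exact Subring.mul_mem _ (Subring.mul_mem _ uB₁ uB₂) uB₃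
  have hu0 : u₁ * u₂ * u₃ ≠ 0 := mul_ne_zero (mul_ne_zero u0₁ u0₂) u0₃
  exact parity_det hσ hσσ β (A₁.V3 A₂ A₃) (A₃'.V3 A₂' A₁') S S'' T T3 _ huA huB hu0 W3 B.D B'.D
    hL hL' f g hf hg hf' hg'

end Pool.Agent.H387.QR
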