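import Pool.Agent.H387.QR.QRound

/-!
# T01. A bar-invariant unit of `ℤ[q, q⁻¹][1/[n]]`, with `σ x = (unit of ℤ[q,q⁻¹]) x`, is q-round
-/

namespace Pool.Agent.H387.QR.T01

open Polynomial

/-- the field -/
abbrev L : Type := RatFunc ℂ

theorem invneg {K : Type} [Field K] (a : K) : (-a)⁻¹ = -a⁻¹ := inv_neg

theorem negdiv {K : Type} [Field K] (a b : K) : -a / -b = a / b := neg_div_neg_eq a b

/-- integral polynomials as rational functions -/
noncomputable def ev : ℤ[X] →+* L :=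
  (algebraMap ℂ[X] L).comp (mapRingHom (Int.castRingHom ℂ))

theorem ev_inj : Function.Injective ev := by
  intro a b h
  exact map_injective _ Int.cast_injective (RatFunc.algebraMap_injective ℂ h)

theorem ev_X : ev X = qq L := by
  show algebraMap ℂ[X] L (map _ X) = RatFunc.X
  rw [map_X, RatFunc.algebraMap_X]

/-- the cyclotomic polynomials at `q` -/
noncomputable def ph (d : ℕ) : L := ev (cyclotomic d ℤ)

theorem ph_ne (d : ℕ) : ph d ≠ 0 := by
  intro h
  exact cyclotomic_ne_zero d ℤ (ev_inj (h.trans (map_zero ev).symm))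

/-- products of powers of the cyclotomic polynomials -/
noncomputable def MM (e : ℕ →₀ ℤ) : L := e.prod fun d n => ph d ^ n

theorem MM_zero : MM 0 = 1 := Finsupp.prod_zero_index

theorem MM_add (e e' : ℕ →₀ ℤ) : MM (e + e') = MM e * MM e' :=
  Finsupp.prod_add_index' (fun _ => zpow_zero _) fun d a b => zpow_add₀ (ph_ne d) a b

theorem MM_ne (e : ℕ →₀ ℤ) : MM e ≠ 0 := by
  unfold MM Finsupp.prod
  exact Finset.prod_ne_zero_iff.2 fun d _ => zpow_ne_zero _ (ph_ne d)

theorem MM_neg (e : ℕ →₀ ℤ) : MM (-e) = (MM e)⁻¹ := by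
  apply eq_inv_of_mul_eq_one_left
  rw [← MM_add, neg_add_cancel, MM_zero]

theorem MM_nsmul (n : ℕ) (e : ℕ →₀ ℤ) : MM (n • e) = MM e ^ n := by
  induction n with
  | zero => rw [zero_smul, MM_zero, pow_zero]
  | succ n ih => rw [add_smul, one_smul, MM_add, ih, pow_succ]

theorem MM_zsmul (n : ℤ) (e : ℕ →₀ ℤ) : MM (n • e) = MM e ^ n := by
  obtain ⟨m, rfl | rfl⟩ := n.eq_nat_or_neg
  · rw [natCast_zsmul, MM_nsmul, zpow_natCast]
  · rw [neg_smul, MM_neg, natCast_zsmul, MM_nsmul, zpow_neg, zpow_natCast]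

theorem MM_single (d : ℕ) (n : ℤ) : MM (Finsupp.single d n) = ph d ^ n :=
  Finsupp.prod_single_index (zpow_zero _)

theorem MM_sum {ι : Type} (s : Finset ι) (f : ι → ℕ →₀ ℤ) : MM (∑ i ∈ s, f i) = ∏ i ∈ s, MM (f i) := by
  classical
  induction s using Finset.induction_on with
  | empty => simp [MM_zero]
  | insert a s ha ih => rw [Finset.sum_insert ha, Finset.prod_insert ha, MM_add, ih]

/-! ### Quantum integers -/

/-- the divisors `≥ 3` of `2 n` -/
def dv (n : ℕ) : Finset ℕ := (2 * n).divisors.filter (3 ≤ ·)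

/-- the quantum integer as a polynomial -/
noncomputable def GG (n : ℕ) : ℤ[X] := ∏ d ∈ dv n, cyclotomic d ℤ

theorem GG_mul {n : ℕ} (hn : 0 < n) : GG n * (X ^ 2 - 1) = X ^ (2 * n) - 1 := by
  rw [← prod_cyclotomic_eq_X_pow_sub_one (n := 2 * n) (by omega) ℤ,
    ← prod_cyclotomic_eq_X_pow_sub_one (n := 2) (by omega) ℤ,
    ← Finset.prod_filter_mul_prod_filter_not (2 * n).divisors (3 ≤ ·)]
  congr 1
  refine Finset.prod_congr ?_ fun _ _ => rfl
  ext d
  rw [Finset.mem_filter, Nat.mem_divisors, Nat.mem_divisors]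
  constructor
  · rintro ⟨h1, _⟩
    have h2 := Nat.le_of_dvd (by omega) h1
    exact ⟨⟨h1.trans (dvd_mul_right _ _), by omega⟩, by omega⟩
  · rintro ⟨⟨h1, h2⟩, h3⟩
    have h4 : d ≠ 0 := by
      rintro rfl
      exact h2 (Nat.eq_zero_of_zero_dvd h1)
    refine ⟨?_, by norm_num⟩
    interval_cases d
    · exact absurd rfl h4
    · exact one_dvd _
    · exact dvd_rfl

theorem ev_GG {n : ℕ} (hn : 0 < n) : ev (GG n) = qq L ^ (n - 1) * qn L n := by
  have h1 := congrArg ev (GG_mul hn)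
  rw [map_mul, map_sub, map_sub, map_pow, map_pow, map_one, ev_X] at h1
  have hq : qq L ≠ 0 := HasQ.q_ne
  have h2 : qq L ^ 2 - 1 ≠ 0 := by
    rw [sub_ne_zero]
    exact HasQ.q_pow 2 (by omega)
  rw [eq_comm, ← mul_right_inj' h2, mul_comm (qq L ^ 2 - 1) (ev (GG n)), h1, qn]
  obtain ⟨m, rfl⟩ : ∃ m, n = m + 1 := ⟨n - 1, by omega⟩
  have h3 : qq L - (qq L)⁻¹ ≠ 0 := by
    intro h
    apply h2
    have h4 : qq L ^ 2 - 1 = qq L * (qq L - (qq L)⁻¹) := by
      rw [mul_sub, mul_inv_cancel₀ hq]; ring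
    rw [h4, h, mul_zero]
  have h5 : qq L ^ 2 - 1 = qq L * (qq L - (qq L)⁻¹) := by
    rw [mul_sub, mul_inv_cancel₀ hq]; ring
  rw [h5]
  have h6 : qq L ^ (-((m + 1 : ℕ) : ℤ)) = (qq L ^ (m + 1))⁻¹ := by
    rw [zpow_neg, zpow_natCast]
  rw [h6, zpow_natCast]
  have h7 : qq L ^ (m + 1) ≠ 0 := pow_ne_zero _ hq
  rw [show m + 1 - 1 = m by omega]
  calc qq L * (qq L - (qq L)⁻¹) * (qq L ^ m * ((qq L ^ (m + 1) - (qq L ^ (m + 1))⁻¹) / (qq L - (qq L)⁻¹)))
      = qq L ^ (m + 1) * (qq L ^ (m + 1) - (qq L ^ (m + 1))⁻¹) *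
        ((qq L - (qq L)⁻¹) / (qq L - (qq L)⁻¹)) := by rw [pow_succ]; ring
    _ = qq L ^ (2 * (m + 1)) - 1 := by
      rw [div_self h3, mul_one, mul_sub, mul_inv_cancel₀ h7]; ring

/-- the exponents of the quantum integers -/
noncomputable def ind (n : ℕ) : ℕ →₀ ℤ := ∑ d ∈ dv n, Finsupp.single d 1

theorem ind_apply (n d : ℕ) : ind n d = if d ∈ dv n then 1 else 0 := by
  unfold ind
  rw [Finsupp.finsetSum_apply]
  simp only [Finsupp.single_apply]
  rw [Finset.sum_ite_eq']

theorem MM_ind {n : ℕ} (hn : 0 < n) : MM (ind n) = qq L ^ (n - 1) * qn L n := by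
  rw [← ev_GG hn, ind, MM_sum, GG, map_prod]
  refine Finset.prod_congr rfl fun d _ => ?_
  rw [MM_single, zpow_one, ph]

theorem mem_dv {n d : ℕ} (hn : 0 < n) : d ∈ dv n ↔ d ∣ 2 * n ∧ 3 ≤ d := by
  unfold dv
  rw [Finset.mem_filter, Nat.mem_divisors]
  constructor
  · rintro ⟨⟨h1, _⟩, h2⟩; exact ⟨h1, h2⟩
  · rintro ⟨h1, h2⟩; exact ⟨⟨h1, by omega⟩, h2⟩

/-! ### The multiplicative group generated by `q` and the quantum integers -/

/-- elements of the form `q ^ k * (q-round)` -/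
def Hh (y : L) : Prop := ∃ (k : ℤ) (s t : List ℤ), (∀ n ∈ s, n ≠ 0) ∧ (∀ n ∈ t, n ≠ 0) ∧
  y = qq L ^ k * ((s.map (qn L)).prod / (t.map (qn L)).prod)

theorem Hh_one : Hh 1 := ⟨0, [], [], by simp, by simp, by simp⟩

theorem Hh_q (k : ℤ) : Hh (qq L ^ k) := ⟨k, [], [], by simp, by simp, by simp⟩

theorem Hh_qn {n : ℤ} (hn : n ≠ 0) : Hh (qn L n) :=
  ⟨0, [n], [], by simpa using hn, by simp, by simp⟩

theorem Hh.mul {y z : L} (hy : Hh y) (hz : Hh z) : Hh (y * z) := by
  obtain ⟨k, s, t, hs, ht, rfl⟩ := hy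
  obtain ⟨k', s', t', hs', ht', rfl⟩ := hz
  refine ⟨k + k', s ++ s', t ++ t', ?_, ?_, ?_⟩
  · intro n hn
    rcases List.mem_append.1 hn with h | h
    · exact hs n h
    · exact hs' n h
  · intro n hn
    rcases List.mem_append.1 hn with h | h
    · exact ht n h
    · exact ht' n h
  · rw [List.map_append, List.map_append, List.prod_append, List.prod_append,
      zpow_add₀ HasQ.q_ne, mul_div_mul_comm]
    ring

theorem Hh.inv {y : L} (hy : Hh y) : Hh y⁻¹ := by
  obtain ⟨k, s, t, hs, ht, rfl⟩ := hy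
  refine ⟨-k, t, s, ht, hs, ?_⟩
  rw [mul_inv, inv_div, zpow_neg]

theorem Hh.pow {y : L} (hy : Hh y) (n : ℕ) : Hh (y ^ n) := by
  induction n with
  | zero => rw [pow_zero]; exact Hh_one
  | succ n ih => rw [pow_succ]; exact ih.mul hy

theorem Hh.zpow {y : L} (hy : Hh y) (n : ℤ) : Hh (y ^ n) := by
  obtain ⟨m, rfl | rfl⟩ := n.eq_nat_or_neg
  · rw [zpow_natCast]; exact hy.pow m
  · rw [zpow_neg, zpow_natCast]; exact (hy.pow m).inv

theorem Hh.neg {y : L} (hy : Hh y) : Hh (-y) := by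
  have h : -y = qn L (-1) * y := by rw [qn_neg, qn_one]; ring
  rw [h]
  exact (Hh_qn (by norm_num)).mul hy

theorem main_ind : ∀ (D : ℕ) (e : ℕ →₀ ℤ), (∀ d, e d ≠ 0 → 3 ≤ d ∧ d ≤ D) →
    (∀ m, Odd m → 3 ≤ m → e (2 * m) = e m) → Hh (MM e) := by
  intro D
  induction D with
  | zero =>
    intro e he _
    have h0 : e = 0 := by
      ext d
      by_contra h
      have := he d h
      omega
    rw [h0, MM_zero]
    exact Hh_one
  | succ D ih =>
    intro e he hs
    by_cases h0 : e (D + 1) = 0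
    · refine ih e (fun d hd => ?_) hs
      have h1 := he d hd
      have h2 : d ≠ D + 1 := by rintro rfl; exact hd h0
      omega
    · have h3 := (he _ h0).1
      have heven : ¬ Odd (D + 1) := by
        intro hodd
        have h4 := hs _ hodd h3
        rw [← h4] at h0
        have := he _ h0
        omega
      rw [Nat.not_odd_iff_even] at heven
      obtain ⟨n, hn⟩ := heven
      have hn0 : 0 < n := by omega
      have hn2 : D + 1 = 2 * n := by omega
      have hsplit : e = (e - e (D + 1) • ind n) + e (D + 1) • ind n := by abel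
      rw [hsplit, MM_add, MM_zsmul, MM_ind hn0]
      refine Hh.mul (ih _ ?_ ?_) ?_
      · intro d hd
        rw [Finsupp.sub_apply, Finsupp.smul_apply, ind_apply, smul_eq_mul] at hd
        by_cases hmem : d ∈ dv n
        · have h5 := (mem_dv hn0).1 hmem
          have h6 := Nat.le_of_dvd (by omega) h5.1
          refine ⟨h5.2, ?_⟩
          have h7 : d ≠ D + 1 := by
            rintro rfl
            rw [if_pos hmem] at hd
            apply hd
            ring
          omega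
        · rw [if_neg hmem, mul_zero, sub_zero] at hd
          have h5 := he d hd
          refine ⟨h5.1, ?_⟩
          have h7 : d ≠ D + 1 := by
            rintro rfl
            apply hmem
            rw [mem_dv hn0]
            exact ⟨by rw [hn2], h3⟩
          omega
      · intro m hm hm3
        rw [Finsupp.sub_apply, Finsupp.sub_apply, Finsupp.smul_apply, Finsupp.smul_apply,
          ind_apply, ind_apply, hs m hm hm3]
        have h5 : 2 * m ∈ dv n ↔ m ∈ dv n := by
          rw [mem_dv hn0, mem_dv hn0]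
          constructor
          · rintro ⟨h6, _⟩
            exact ⟨(dvd_mul_left m 2).trans h6, hm3⟩
          · rintro ⟨h6, _⟩
            refine ⟨?_, by omega⟩
            have h7 : Nat.Coprime m 2 := by
              rw [Nat.coprime_comm]; exact (Nat.coprime_two_left (n := m)).2 hm
            exact mul_dvd_mul_left 2 (h7.dvd_of_dvd_mul_left h6)
        simp only [h5]
      · refine Hh.zpow (Hh.mul ?_ (Hh_qn (by exact_mod_cast hn0.ne'))) _
        rw [← zpow_natCast]
        exact Hh_q _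

/-! ### Units -/

/-- `X` and the cyclotomic polynomials of order in `D` -/
def SS (D : Set ℕ) : Set ℤ[X] := {X} ∪ (fun d => cyclotomic d ℤ) '' D

theorem SS_prime {D : Set ℕ} (hD : ∀ d ∈ D, 3 ≤ d) : ∀ p ∈ SS D, Prime p := by
  rintro p (rfl | ⟨d, hd, rfl⟩)
  · exact prime_X
  · exact (cyclotomic.irreducible (by have := hD d hd; omega)).prime

theorem unit_int {P : ℤ[X]} (h : P ∣ 1) : P = 1 ∨ P = -1 := by
  obtain ⟨r, hr, rfl⟩ := Polynomial.isUnit_iff.1 (isUnit_iff_dvd_one.2 h)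
  rcases Int.isUnit_iff.1 hr with rfl | rfl
  · left; simp
  · right; simp

theorem dvd_closure {S : Set ℤ[X]} (hS : ∀ p ∈ S, Prime p) {s : ℤ[X]} (hs : s ∈ Submonoid.closure S) :
    ∀ P, P ∣ s → ∃ t ∈ Submonoid.closure S, P = t ∨ P = -t := by
  induction hs using Submonoid.closure_induction_left with
  | one =>
    intro P hP
    exact ⟨1, Submonoid.one_mem _, unit_int hP⟩
  | mul_left g hg s hs ih =>
    intro P hP
    have hgp := hS g hg
    by_cases hgP : g ∣ P
    · obtain ⟨P', rfl⟩ := hgP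
      have h1 : P' ∣ s := (mul_dvd_mul_iff_left hgp.ne_zero).1 hP
      obtain ⟨t, ht, h | h⟩ := ih P' h1
      · exact ⟨g * t, Submonoid.mul_mem _ (Submonoid.subset_closure hg) ht, Or.inl (by rw [h])⟩
      · exact ⟨g * t, Submonoid.mul_mem _ (Submonoid.subset_closure hg) ht, Or.inr (by rw [h]; ring)⟩
    · obtain ⟨R, hR⟩ := hP
      have h1 : g ∣ P * R := ⟨s, hR.symm⟩
      obtain ⟨R', rfl⟩ := (hgp.dvd_or_dvd h1).resolve_left hgP
      have h2 : s = P * R' := by
        apply mul_left_cancel₀ hgp.ne_zero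
        rw [hR]; ring
      exact ih P ⟨R', h2⟩

/-- elements `± q ^ k * MM e` -/
def Sm (D : Set ℕ) (y : L) : Prop := ∃ (k : ℤ) (e : ℕ →₀ ℤ), (∀ d, e d ≠ 0 → d ∈ D) ∧
  (y = qq L ^ k * MM e ∨ y = -(qq L ^ k * MM e))

theorem Sm.mul {D : Set ℕ} {y z : L} (hy : Sm D y) (hz : Sm D z) : Sm D (y * z) := by
  obtain ⟨k, e, he, hy⟩ := hy
  obtain ⟨k', e', he', hz⟩ := hz
  refine ⟨k + k', e + e', ?_, ?_⟩
  · intro d hd
    by_cases h : e d = 0
    · rw [Finsupp.add_apply, h, zero_add] at hd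
      exact he' d hd
    · exact he d h
  · rw [zpow_add₀ HasQ.q_ne, MM_add]
    rcases hy with rfl | rfl <;> rcases hz with rfl | rfl
    · left; ring
    · right; ring
    · right; ring
    · left; ring

theorem Sm.inv {D : Set ℕ} {y : L} (hy : Sm D y) : Sm D y⁻¹ := by
  obtain ⟨k, e, he, hy⟩ := hy
  refine ⟨-k, -e, ?_, ?_⟩
  · intro d hd
    rw [Finsupp.neg_apply, ne_eq, neg_eq_zero] at hd
    exact he d hd
  · rw [zpow_neg, MM_neg]
    rcases hy with rfl | rfl
    · left; rw [mul_inv]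
    · right; rw [← mul_inv]; exact invneg _

theorem Sm_one (D : Set ℕ) : Sm D 1 := ⟨0, 0, by simp, Or.inl (by simp [MM_zero])⟩

theorem Sm_ev {D : Set ℕ} {s : ℤ[X]} (hs : s ∈ Submonoid.closure (SS D)) : Sm D (ev s) := by
  induction hs using Submonoid.closure_induction with
  | mem p hp =>
    rcases hp with rfl | ⟨d, hd, rfl⟩
    · exact ⟨1, 0, by simp, Or.inl (by rw [ev_X, MM_zero, zpow_one, mul_one])⟩
    · refine ⟨0, Finsupp.single d 1, ?_, Or.inl ?_⟩
      · intro d' hd'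
        rw [Finsupp.single_apply] at hd'
        split_ifs at hd' with h
        · rw [← h]; exact hd
        · exact absurd rfl hd'
      · rw [MM_single, zpow_zero, zpow_one, one_mul, ph]
  | one => rw [map_one]; exact Sm_one D
  | mul a b _ _ ha hb => rw [map_mul]; exact ha.mul hb

/-- fractions -/
def Fr (D : Set ℕ) (x : L) : Prop := ∃ s ∈ Submonoid.closure (SS D), ∃ P, x * ev s = ev P

theorem Fr_closure {D : Set ℕ} {G : Set L} (hG : ∀ g ∈ G, Fr D g) {x : L}
    (hx : x ∈ Subring.closure G) : Fr D x := by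
  induction hx using Subring.closure_induction with
  | mem x hx => exact hG x hx
  | zero => exact ⟨1, Submonoid.one_mem _, 0, by simp⟩
  | one => exact ⟨1, Submonoid.one_mem _, 1, by simp⟩
  | add x y _ _ hx hy =>
    obtain ⟨s, hs, P, h1⟩ := hx
    obtain ⟨t, ht, Q, h2⟩ := hy
    refine ⟨s * t, Submonoid.mul_mem _ hs ht, P * t + Q * s, ?_⟩
    rw [map_add, map_mul, map_mul, map_mul, ← h1, ← h2]; ring
  | neg x _ hx =>
    obtain ⟨s, hs, P, h1⟩ := hx
    exact ⟨s, hs, -P, by rw [map_neg, ← h1]; ring⟩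
  | mul x y _ _ hx hy =>
    obtain ⟨s, hs, P, h1⟩ := hx
    obtain ⟨t, ht, Q, h2⟩ := hy
    refine ⟨s * t, Submonoid.mul_mem _ hs ht, P * Q, ?_⟩
    rw [map_mul, map_mul, ← h1, ← h2]; ring

theorem ev_ne {D : Set ℕ} {s : ℤ[X]} (hs : s ∈ Submonoid.closure (SS D)) :
    ev s ≠ 0 := by
  intro h
  obtain ⟨k, e, _, h1 | h1⟩ := Sm_ev hs
  · rw [h] at h1
    exact mul_ne_zero (zpow_ne_zero _ HasQ.q_ne) (MM_ne e) h1.symm
  · rw [h] at h1
    exact neg_ne_zero.2 (mul_ne_zero (zpow_ne_zero _ HasQ.q_ne) (MM_ne e)) h1.symm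

theorem Sm_unit {D : Set ℕ} (hD : ∀ d ∈ D, 3 ≤ d) {x : L} (h0 : x ≠ 0) (h1 : Fr D x)
    (h2 : Fr D x⁻¹) : Sm D x := by
  obtain ⟨s, hs, P, hP⟩ := h1
  obtain ⟨t, ht, Q, hQ⟩ := h2
  have h3 : P * Q = s * t := by
    apply ev_inj
    rw [map_mul, map_mul, ← hP, ← hQ]
    field_simp
  obtain ⟨p, hp, h4⟩ := dvd_closure (SS_prime hD) (Submonoid.mul_mem _ hs ht) P ⟨Q, h3.symm⟩
  have hs0 := ev_ne hs
  have h5 : x = ev P * (ev s)⁻¹ := by
    rw [← hP, mul_assoc, mul_inv_cancel₀ hs0, mul_one]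
  rw [h5]
  refine Sm.mul ?_ (Sm_ev hs).inv
  rcases h4 with rfl | rfl
  · exact Sm_ev hp
  · obtain ⟨k, e, he, h | h⟩ := Sm_ev hp
    · exact ⟨k, e, he, Or.inr (by rw [map_neg, h])⟩
    · exact ⟨k, e, he, Or.inl (by rw [map_neg, h, neg_neg])⟩

theorem Fr_q (D : Set ℕ) : Fr D (qq L) := ⟨1, Submonoid.one_mem _, X, by rw [map_one, mul_one, ev_X]⟩

theorem X_mem (D : Set ℕ) : (X : ℤ[X]) ∈ Submonoid.closure (SS D) :=
  Submonoid.subset_closure (Or.inl rfl)

theorem Fr_qinv (D : Set ℕ) : Fr D (qq L)⁻¹ :=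
  ⟨X, X_mem D, 1, by rw [map_one, ev_X, inv_mul_cancel₀ HasQ.q_ne]⟩

theorem Sm_AA {u : L} (hu : u ∈ AA L) (hu' : u⁻¹ ∈ AA L) (hu0 : u ≠ 0) : Sm ∅ u := by
  have hG : ∀ g ∈ ({qq L, (qq L)⁻¹} : Set L), Fr ∅ g := by
    rintro g (rfl | rfl)
    · exact Fr_q _
    · exact Fr_qinv _
  exact Sm_unit (by simp) hu0 (Fr_closure hG hu) (Fr_closure hG hu')

theorem Sm_RR {x : L} (hx : x ∈ RR L) (hx' : x⁻¹ ∈ RR L) (h0 : x ≠ 0) : Sm {d | 3 ≤ d} x := by
  have hG : ∀ g ∈ ({qq L, (qq L)⁻¹} ∪ {x | ∃ n : ℕ, 0 < n ∧ x = (qn L n)⁻¹} : Set L),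
      Fr {d | 3 ≤ d} g := by
    rintro g ((rfl | rfl) | ⟨n, hn, rfl⟩)
    · exact Fr_q _
    · exact Fr_qinv _
    · refine ⟨GG n, ?_, X ^ (n - 1), ?_⟩
      · refine Submonoid.prod_mem _ fun d hd => Submonoid.subset_closure (Or.inr ⟨d, ?_, rfl⟩)
        exact ((mem_dv hn).1 hd).2
      · rw [ev_GG hn, map_pow, ev_X]
        have : qn L n ≠ 0 := qn_ne (by exact_mod_cast hn.ne')
        field_simp
  exact Sm_unit (fun d hd => hd) h0 (Fr_closure hG hx) (Fr_closure hG hx')

/-! ### Independence -/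

theorem indep_aux {k : ℤ} {e : ℕ →₀ ℤ} (he : ∀ d, e d ≠ 0 → 1 ≤ d)
    (h : qq L ^ k * MM e = 1 ∨ qq L ^ k * MM e = -1) (m : ℕ) (hm : 0 < e m) : False := by
  classical
  set A : ℤ[X] := ∏ d ∈ e.support, cyclotomic d ℤ ^ (e d).toNat with hA
  set B : ℤ[X] := ∏ d ∈ e.support, cyclotomic d ℤ ^ (-e d).toNat with hB
  have hAB : ev A = MM e * ev B := by
    rw [hA, hB, map_prod, map_prod, MM, Finsupp.prod, ← Finset.prod_mul_distrib]
    refine Finset.prod_congr rfl fun d _ => ?_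
    rw [map_pow, map_pow, ← ph, ← zpow_natCast, ← zpow_natCast, ← zpow_add₀ (ph_ne d)]
    congr 1
    omega
  have hX : ev (X ^ k.toNat) = qq L ^ k * ev (X ^ (-k).toNat) := by
    rw [map_pow, map_pow, ev_X, ← zpow_natCast, ← zpow_natCast, ← zpow_add₀ HasQ.q_ne]
    congr 1
    omega
  have hmain : X ^ k.toNat * A = X ^ (-k).toNat * B ∨ X ^ k.toNat * A = -(X ^ (-k).toNat * B) := by
    have h1 : ev (X ^ k.toNat * A) = (qq L ^ k * MM e) * ev (X ^ (-k).toNat * B) := by
      rw [map_mul, hX, hAB, map_mul]; ring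
    rcases h with h | h
    · left; apply ev_inj; rw [h1, h, one_mul]
    · right; apply ev_inj; rw [h1, h, map_neg]; ring
  have hm0 : 1 ≤ m := he m hm.ne'
  have hζ : IsPrimitiveRoot (Complex.exp (2 * Real.pi * Complex.I / m)) m :=
    Complex.isPrimitiveRoot_exp m (by omega)
  set ζ := Complex.exp (2 * Real.pi * Complex.I / m) with hζd
  have hroot : ∀ d : ℕ, 1 ≤ d → (aeval ζ (cyclotomic d ℤ) = 0 ↔ d = m) := by
    intro d hd
    rw [aeval_def, ← eval_map, algebraMap_int_eq, map_cyclotomic_int, ← IsRoot.def]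
    have : NeZero (d : ℂ) := ⟨by exact_mod_cast (by omega : d ≠ 0)⟩
    rw [isRoot_cyclotomic_iff]
    constructor
    · intro h; exact h.unique hζ
    · rintro rfl; exact hζ
  have hzero : aeval ζ (X ^ k.toNat * A) = 0 := by
    rw [map_mul, hA, map_prod, Finset.prod_eq_zero (i := m) (Finsupp.mem_support_iff.2 hm.ne'),
      mul_zero]
    rw [map_pow, (hroot m hm0).2 rfl, zero_pow (by omega)]
  have hne : aeval ζ (X ^ (-k).toNat * B) ≠ 0 := by
    rw [map_mul, hB, map_prod, map_pow, aeval_X]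
    refine mul_ne_zero (pow_ne_zero _ (Complex.exp_ne_zero _)) ?_
    refine Finset.prod_ne_zero_iff.2 fun d hd => ?_
    rw [map_pow]
    by_cases hdm : d = m
    · rw [hdm, show (-e m).toNat = 0 by omega, pow_zero]
      exact one_ne_zero
    · exact pow_ne_zero _ fun h' =>
        hdm ((hroot d (he d (Finsupp.mem_support_iff.1 hd))).1 h')
  rcases hmain with h' | h'
  · rw [h'] at hzero; exact hne hzero
  · rw [h', map_neg, neg_eq_zero] at hzero; exact hne hzero

theorem indep {k : ℤ} {e : ℕ →₀ ℤ} (he : ∀ d, e d ≠ 0 → 1 ≤ d)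
    (h : qq L ^ k * MM e = 1 ∨ qq L ^ k * MM e = -1) : e = 0 := by
  ext m
  rw [Finsupp.zero_apply]
  rcases lt_trichotomy (e m) 0 with hm | hm | hm
  · exfalso
    refine indep_aux (k := -k) (e := -e) (fun d hd => he d ?_) ?_ m ?_
    · rwa [Finsupp.neg_apply, ne_eq, neg_eq_zero] at hd
    · rw [zpow_neg, MM_neg, ← mul_inv]
      rcases h with h | h
      · left; rw [h, inv_one]
      · right; rw [h]; exact (invneg _).trans (by rw [inv_one])
    · rw [Finsupp.neg_apply]; omega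
  · exact hm
  · exact (indep_aux he h m hm).elim

/-! ### The substitution `q ↦ -q` -/

theorem neg_prim {m : ℕ} (hm : Odd m) {μ : ℂ} (h : IsPrimitiveRoot μ m) :
    IsPrimitiveRoot (-μ) (2 * m) := by
  convert IsPrimitiveRoot.orderOf (-μ)
  rw [neg_eq_neg_one_mul, (Commute.all _ _).orderOf_mul_eq_mul_orderOf_of_coprime]
  · rw [← h.eq_orderOf, orderOf_neg_one, ringChar.eq_zero, if_neg (by norm_num)]
  · rw [← h.eq_orderOf, orderOf_neg_one, ringChar.eq_zero, if_neg (by norm_num)]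
    exact (Nat.coprime_two_left (n := m)).2 hm

theorem cyc_neg {m : ℕ} (hm : Odd m) (hm3 : 3 ≤ m) :
    (cyclotomic m ℤ).comp (-X) = cyclotomic (2 * m) ℤ := by
  apply map_injective (Int.castRingHom ℂ) Int.cast_injective
  have hζ : IsPrimitiveRoot (Complex.exp (2 * Real.pi * Complex.I / m)) m :=
    Complex.isPrimitiveRoot_exp m (by omega)
  have hζ2 := neg_prim hm hζ
  rw [Polynomial.map_comp, map_cyclotomic_int, map_cyclotomic_int, Polynomial.map_neg, map_X,
    cyclotomic_eq_prod_X_sub_primitiveRoots hζ, cyclotomic_eq_prod_X_sub_primitiveRoots hζ2]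
  have himg : primitiveRoots (2 * m) ℂ = (primitiveRoots m ℂ).image (fun μ => -μ) := by
    symm
    apply Finset.eq_of_subset_of_card_le
    · intro ν hν
      obtain ⟨μ, hμ, rfl⟩ := Finset.mem_image.1 hν
      rw [mem_primitiveRoots (by omega)] at hμ ⊢
      exact neg_prim hm hμ
    · rw [Finset.card_image_of_injective _ neg_injective, hζ.card_primitiveRoots,
        hζ2.card_primitiveRoots, Nat.totient_mul ((Nat.coprime_two_left (n := m)).2 hm)]
      simp
  rw [himg, Finset.prod_image (fun a _ b _ h => neg_injective h), Polynomial.prod_comp]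
  have h1 : ∀ μ ∈ primitiveRoots m ℂ, (X - C μ).comp (-X) = -1 * (X - C (-μ)) := by
    intro μ _
    simp
    ring
  rw [Finset.prod_congr rfl h1, Finset.prod_mul_distrib, Finset.prod_const,
    hζ.card_primitiveRoots, (Nat.totient_even (by omega)).neg_one_pow, one_mul]

theorem comp_comp_neg (P : ℤ[X]) : (P.comp (-X)).comp (-X) = P := by
  rw [comp_assoc, neg_comp, X_comp, neg_neg, comp_X]

theorem cyc_four {d : ℕ} (hd : 4 ∣ d) : (cyclotomic d ℤ).comp (-X) = cyclotomic d ℤ := by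
  obtain ⟨k, rfl⟩ := hd
  have h := cyclotomic_expand_eq_cyclotomic (p := 2) (n := 2 * k) Nat.prime_two
    (dvd_mul_right _ _) ℤ
  rw [show 4 * k = 2 * k * 2 by ring, ← h, expand_eq_comp_X_pow, comp_assoc, pow_comp, X_comp]
  congr 1
  ring

/-- the involution of the orders -/
def io (d : ℕ) : ℕ := if d % 4 = 0 then d else if d % 2 = 0 then d / 2 else 2 * d

theorem io_io (d : ℕ) : io (io d) = d := by
  unfold io
  split_ifs <;> omega

theorem io_inj : Function.Injective io := Function.LeftInverse.injective io_io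

theorem cyc_io {d : ℕ} (hd : 3 ≤ d) : (cyclotomic d ℤ).comp (-X) = cyclotomic (io d) ℤ := by
  unfold io
  split_ifs with h1 h2
  · exact cyc_four (Nat.dvd_of_mod_eq_zero h1)
  · have h3 := cyc_neg (m := d / 2) (Nat.odd_iff.2 (by omega)) (by omega)
    rw [show 2 * (d / 2) = d by omega] at h3
    rw [← h3, comp_comp_neg]
  · exact cyc_neg (Nat.odd_iff.2 (by omega)) hd

theorem sigma_ev (σ : L →+* L) (hσ : σ RatFunc.X = -RatFunc.X) (P : ℤ[X]) :
    σ (ev P) = ev (P.comp (-X)) := by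
  have h : σ.comp ev = ev.comp (compRingHom (-X)) := by
    apply Polynomial.ringHom_ext
    · intro a
      simp
    · rw [RingHom.comp_apply, RingHom.comp_apply, ev_X, coe_compRingHom_apply, X_comp, map_neg,
        ev_X]
      exact hσ
  exact RingHom.congr_fun h P

theorem sigma_MM (σ : L →+* L) (hσ : σ RatFunc.X = -RatFunc.X) {e : ℕ →₀ ℤ}
    (he : ∀ d, e d ≠ 0 → 3 ≤ d) : σ (MM e) = MM (e.mapDomain io) := by
  unfold MM
  rw [Finsupp.prod_mapDomain_index_inj io_inj, Finsupp.prod, Finsupp.prod, map_prod]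
  refine Finset.prod_congr rfl fun d hd => ?_
  rw [map_zpow₀, ph, sigma_ev σ hσ, cyc_io (he d (Finsupp.mem_support_iff.1 hd)), ph]

end Pool.Agent.H387.QR.T01

namespace Pool.Agent.H387.QR

open T01 in
theorem isQRound_of_unit (bar σ : RatFunc ℂ →+* RatFunc ℂ) (hbar : bar RatFunc.X = RatFunc.X⁻¹)
    (hσ : σ RatFunc.X = -RatFunc.X) {x : RatFunc ℂ} (h0 : x ≠ 0) (hx : x ∈ RR (RatFunc ℂ))
    (hx' : x⁻¹ ∈ RR (RatFunc ℂ)) (h1 : bar x = x) {u : RatFunc ℂ} (hu : u ∈ AA (RatFunc ℂ))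
    (hu' : u⁻¹ ∈ AA (RatFunc ℂ)) (hu0 : u ≠ 0) (h2 : σ x = u * x) : IsQRound x := by
  obtain ⟨k, e, he, hxe⟩ := Sm_RR hx hx' h0
  obtain ⟨j, f, hf, huf⟩ := Sm_AA hu hu' hu0
  have hf0 : f = 0 := by
    ext d
    by_contra h
    exact hf d h
  rw [hf0, MM_zero, mul_one] at huf
  have hq : qq L ≠ 0 := HasQ.q_ne
  have hσq : σ (qq L) = -qq L := hσ
  have hbq : bar (qq L) = (qq L)⁻¹ := hbar
  have he3 : ∀ d, e d ≠ 0 → 3 ≤ d := he
  -- the exponents are symmetric
  have hneg : ∀ n : ℤ, (-qq L) ^ n = qq L ^ n ∨ (-qq L) ^ n = -(qq L ^ n) := by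
    intro n
    rcases Int.even_or_odd n with hn | hn
    · left; exact hn.neg_zpow _
    · right; exact hn.neg_zpow _
  have hsym : e.mapDomain io = e := by
    have h3 : MM (e.mapDomain io) = qq L ^ j * MM e ∨ MM (e.mapDomain io) = -(qq L ^ j * MM e) := by
      have h4 : σ (qq L ^ k * MM e) = u * (qq L ^ k * MM e) := by
        rcases hxe with h | h
        · rw [← h]; exact h2
        · have h5 : qq L ^ k * MM e = -x := by rw [h, neg_neg]
          rw [h5, map_neg, h2]; ring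
      rw [map_mul, map_zpow₀, hσq, sigma_MM σ hσ he3] at h4
      have hqk : qq L ^ k ≠ 0 := zpow_ne_zero _ hq
      rcases hneg k with h5 | h5 <;> rcases huf with h6 | h6
      · left
        apply mul_left_cancel₀ hqk
        rw [h5, h6] at h4
        rw [h4]; ring
      · right
        apply mul_left_cancel₀ hqk
        rw [h5, h6] at h4
        rw [h4]; ring
      · right
        apply mul_left_cancel₀ hqk
        rw [h5, h6] at h4
        linear_combination -h4
      · left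
        apply mul_left_cancel₀ hqk
        rw [h5, h6] at h4
        linear_combination -h4
    have h4 : e.mapDomain io - e = 0 := by
      refine indep (k := -j) (e := e.mapDomain io - e) ?_ ?_
      · intro d hd
        by_contra h5
        have h6 : d = 0 := by omega
        apply hd
        have h7 : e 0 = 0 := by
          by_contra h8
          have := he3 0 h8
          omega
        have h8 : e.mapDomain io 0 = e 0 := by
          have : io 0 = 0 := rfl
          conv_lhs => rw [← this]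
          exact Finsupp.mapDomain_apply io_inj e 0
        rw [h6, Finsupp.sub_apply, h8, h7, sub_zero]
      · rw [sub_eq_add_neg, MM_add, MM_neg]
        have h5 := MM_ne e
        have h6 : qq L ^ j ≠ 0 := zpow_ne_zero _ hq
        rcases h3 with h | h
        · left
          rw [h, zpow_neg]
          field_simp
        · right
          rw [h, zpow_neg]
          field_simp
    exact sub_eq_zero.1 h4
  have hsym2 : ∀ m, Odd m → 3 ≤ m → e (2 * m) = e m := by
    intro m hm _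
    have h3 := Finsupp.mapDomain_apply io_inj e m
    rw [hsym] at h3
    have h4 : io m = 2 * m := by
      unfold io
      have := Nat.odd_iff.1 hm
      rw [if_neg (by omega), if_neg (by omega)]
    rwa [h4] at h3
  have hH : Hh x := by
    have h3 : Hh (MM e) := by
      refine main_ind (e.support.sup id) e (fun d hd => ⟨he3 d hd, ?_⟩) hsym2
      exact Finset.le_sup (f := id) (Finsupp.mem_support_iff.2 hd)
    rcases hxe with h | h
    · rw [h]; exact (Hh_q k).mul h3
    · rw [h]; exact ((Hh_q k).mul h3).neg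
  obtain ⟨c, s, t, hs, ht, hst⟩ := hH
  have hbn : ∀ n : ℤ, bar (qn L n) = qn L n := by
    intro n
    rw [qn, map_div₀, map_sub, map_sub, map_zpow₀, map_zpow₀, map_inv₀, hbq, inv_inv, inv_zpow,
      inv_zpow, zpow_neg, inv_inv]
    rw [← neg_sub (qq L ^ n), ← neg_sub (qq L)]
    exact negdiv _ _
  have hbl : ∀ s : List ℤ, bar (s.map (qn L)).prod = (s.map (qn L)).prod := by
    intro s
    rw [map_list_prod, List.map_map]
    congr 1
    refine List.map_congr_left fun n _ => ?_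
    exact hbn n
  have hne : ∀ s : List ℤ, (∀ n ∈ s, n ≠ 0) → (s.map (qn L)).prod ≠ 0 := by
    intro s hs h
    rw [List.prod_eq_zero_iff, List.mem_map] at h
    obtain ⟨n, hn, hn0⟩ := h
    exact qn_ne (hs n hn) hn0
  have hc : c = 0 := by
    by_contra hc
    have h3 := h1
    rw [hst, map_mul, map_div₀, hbl, hbl, map_zpow₀, hbq] at h3
    have h4 : (s.map (qn L)).prod / (t.map (qn L)).prod ≠ 0 := div_ne_zero (hne s hs) (hne t ht)
    have h5 := mul_right_cancel₀ h4 h3
    have h6 : qq L ^ (c + c) = 1 := by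
      rw [zpow_add₀ hq]
      nth_rw 1 [← h5]
      rw [inv_zpow, inv_mul_cancel₀ (zpow_ne_zero _ hq)]
    exact q_zpow_ne_one (by omega) h6
  refine ⟨s, t, hs, ht, ?_⟩
  rw [hst, hc, zpow_zero, one_mul]

end Pool.Agent.H387.QR
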