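import Pool.Agent.H387.QR.Fin5
import Pool.Agent.H387.QR.P01

/-!
# Final assembly, part 6: q-roundness
-/

namespace Pool.Agent.H387.QR

open scoped TensorProduct

theorem ratFunc_hom_ext {σ τ : RatFunc ℂ →+* RatFunc ℂ}
    (hC : ∀ c : ℂ, σ (RatFunc.C c) = τ (RatFunc.C c))
    (hX : σ RatFunc.X = τ RatFunc.X) : σ = τ := by
  apply IsLocalization.ringHom_ext (nonZeroDivisors (Polynomial ℂ))
  apply Polynomial.ringHom_ext
  · intro c
    have := hC c
    simpa using this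
  · simpa using hX

theorem transcendental_neg_X : Transcendental ℂ (-(RatFunc.X : RatFunc ℂ)) := by
  intro h
  have := h.neg
  rw [neg_neg] at this
  exact RatFunc.transcendental_X this

/-- The automorphism of `ℂ(q)` with `q ↦ -q`. -/
noncomputable def sigq : RatFunc ℂ →ₐ[ℂ] RatFunc ℂ :=
  RatFunc.liftAlgHom (Polynomial.aeval (-(RatFunc.X : RatFunc ℂ))) (by
    apply nonZeroDivisors_le_comap_nonZeroDivisors_of_injective
    exact transcendental_iff_injective.mp transcendental_neg_X)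

theorem sigq_X : sigq (RatFunc.X : RatFunc ℂ) = -(RatFunc.X : RatFunc ℂ) := by
  have := RatFunc.liftAlgHom_apply (Polynomial.aeval (-(RatFunc.X : RatFunc ℂ))) (by
    apply nonZeroDivisors_le_comap_nonZeroDivisors_of_injective
    exact transcendental_iff_injective.mp transcendental_neg_X) (RatFunc.X : RatFunc ℂ)
  rw [RatFunc.num_X, RatFunc.denom_X, Polynomial.aeval_X, map_one, div_one] at this
  exact this

theorem sigq_sigq (x : RatFunc ℂ) : sigq (sigq x) = x := by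
  have : (sigq : RatFunc ℂ →+* RatFunc ℂ).comp (sigq : RatFunc ℂ →+* RatFunc ℂ) =
      RingHom.id (RatFunc ℂ) := by
    apply ratFunc_hom_ext
    · intro c
      have h : (sigq : RatFunc ℂ →+* RatFunc ℂ) (RatFunc.C c) = RatFunc.C c := sigq.commutes c
      rw [RingHom.comp_apply, h, h]; rfl
    · have h : (sigq : RatFunc ℂ →+* RatFunc ℂ) RatFunc.X = -RatFunc.X := sigq_X
      rw [RingHom.comp_apply, h, map_neg, h, neg_neg]; rfl
  exact congrArg (fun f : RatFunc ℂ →+* RatFunc ℂ => f x) this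

section hom

variable {K L : Type*} [Field K] [HasQ K] [Field L] [HasQ L] (f : K →+* L)

theorem hom_qn (hf : f (qq K) = qq L) (n : ℤ) : f (qn K n) = qn L n := by
  simp only [qn, map_div₀, map_sub, map_zpow₀, map_inv₀, hf]

theorem hom_AA (hf : f (qq K) = qq L) {x : K} (hx : x ∈ AA K) : f x ∈ AA L := by
  have h : AA K ≤ (AA L).comap f := by
    rw [AA, Subring.closure_le]
    rintro y (rfl | hy)
    · show f (qq K) ∈ AA L
      rw [hf]; exact q_memA
    · rw [Set.mem_singleton_iff] at hy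
      subst hy
      show f (qq K)⁻¹ ∈ AA L
      rw [map_inv₀, hf]; exact qinv_memA
  exact h hx

theorem hom_RR (hf : f (qq K) = qq L) {x : K} (hx : x ∈ RR K) : f x ∈ RR L := by
  have h : RR K ≤ (RR L).comap f := by
    rw [RR, Subring.closure_le]
    rintro y ((rfl | hy) | ⟨n, hn, rfl⟩)
    · show f (qq K) ∈ RR L
      rw [hf]; exact q_mem
    · rw [Set.mem_singleton_iff] at hy
      subst hy
      show f (qq K)⁻¹ ∈ RR L
      rw [map_inv₀, hf]; exact qinv_mem
    · show f (qn K n)⁻¹ ∈ RR L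
      rw [map_inv₀, hom_qn f hf]
      exact qn_inv_mem (by omega)
  exact h hx

theorem hom_IsQRound (hf : f (qq K) = qq L) {x : K} (hx : IsQRound x) : IsQRound (f x) := by
  obtain ⟨s, t, hs, ht, rfl⟩ := hx
  refine ⟨s, t, hs, ht, ?_⟩
  have : ∀ s : List ℤ, f (s.map (qn K)).prod = (s.map (qn L)).prod := by
    intro s
    rw [map_list_prod, List.map_map]
    congr 1
    exact List.map_congr_left fun n _ => hom_qn f hf n
  rw [map_div₀, this, this]

end hom

variable {K : Type} [Field K] [HasQ K] [Cq K]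

theorem eval_inj : Function.Injective (Polynomial.eval₂RingHom (Cq.cst (K := K)) (qq K)) := by
  rw [injective_iff_map_eq_zero]
  intro p hp
  by_contra h
  exact Cq.trans p h hp

variable (K) in
/-- The homomorphism `ℂ(q) → K`. -/
noncomputable def toK : RatFunc ℂ →+* K :=
  RatFunc.liftRingHom (Polynomial.eval₂RingHom (Cq.cst (K := K)) (qq K))
    (nonZeroDivisors_le_comap_nonZeroDivisors_of_injective _ eval_inj)

theorem toK_alg (p : Polynomial ℂ) : toK K (algebraMap _ _ p) = p.eval₂ Cq.cst (qq K) := by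
  rw [toK, RatFunc.liftRingHom_apply, RatFunc.num_algebraMap, RatFunc.denom_algebraMap, map_one,
    div_one]
  rfl

theorem toK_X : toK K RatFunc.X = qq K := by
  rw [← RatFunc.algebraMap_X, toK_alg, Polynomial.eval₂_X]

theorem toK_bij : Function.Bijective (toK K) := by
  refine ⟨(toK K).injective, fun x => ?_⟩
  obtain ⟨a, b, hb, h⟩ := Cq.gen x
  refine ⟨algebraMap _ _ a / algebraMap _ _ b, ?_⟩
  rw [map_div₀, toK_alg, toK_alg, ← h, mul_div_cancel_right₀ _ (Cq.trans b hb)]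

variable (K) in
/-- The isomorphism `ℂ(q) ≃ K`. -/
noncomputable def isoK : RatFunc ℂ ≃+* K := RingEquiv.ofBijective (toK K) toK_bij

theorem isoK_q : (isoK K : RatFunc ℂ →+* K) (qq (RatFunc ℂ)) = qq K := toK_X

theorem isoK_symm_q : ((isoK K).symm : K →+* RatFunc ℂ) (qq K) = qq (RatFunc ℂ) := by
  have := isoK_q (K := K)
  rw [← this]
  exact (isoK K).symm_apply_apply _

variable (K) in
/-- The automorphism of `K = ℂ(q)` with `q ↦ -q`. -/
noncomputable def sigK : K →+* K :=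
  (isoK K : RatFunc ℂ →+* K).comp
    ((sigq : RatFunc ℂ →+* RatFunc ℂ).comp ((isoK K).symm : K →+* RatFunc ℂ))

theorem sigK_q : sigK K (qq K) = -qq K := by
  have h1 := isoK_symm_q (K := K)
  have h2 := isoK_q (K := K)
  have h3 : (sigq : RatFunc ℂ →+* RatFunc ℂ) (qq (RatFunc ℂ)) = -qq (RatFunc ℂ) := sigq_X
  rw [sigK, RingHom.comp_apply, RingHom.comp_apply, h1, h3, map_neg, h2]

theorem sigK_sigK (x : K) : sigK K (sigK K x) = x := by
  show isoK K (sigq ((isoK K).symm (isoK K (sigq ((isoK K).symm x))))) = x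
  rw [RingEquiv.symm_apply_apply, sigq_sigq, RingEquiv.apply_symm_apply]

theorem isQRound_of_unitK {x : K} (h0 : x ≠ 0) (hx : x ∈ RR K)
    (hx' : x⁻¹ ∈ RR K) (h1 : Cq.bar x = x) {u : K} (hu : u ∈ AA K)
    (hu' : u⁻¹ ∈ AA K) (hu0 : u ≠ 0) (h2 : sigK K x = u * x) : IsQRound x := by
  set g : K →+* RatFunc ℂ := ((isoK K).symm : K →+* RatFunc ℂ) with hg
  set f : RatFunc ℂ →+* K := (isoK K : RatFunc ℂ →+* K) with hf
  have hgf : ∀ y, g (f y) = y := fun y => (isoK K).symm_apply_apply y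
  have hfg : ∀ y, f (g y) = y := fun y => (isoK K).apply_symm_apply y
  have key := isQRound_of_unit (g.comp (Cq.bar.comp f)) (g.comp ((sigK K).comp f)) (x := g x)
    (u := g u) ?_ ?_ ?_ ?_ ?_ ?_ ?_ ?_ ?_ ?_
  · have := hom_IsQRound f isoK_q key
    rwa [hfg] at this
  · show g (Cq.bar (f (qq (RatFunc ℂ)))) = (qq (RatFunc ℂ))⁻¹
    rw [isoK_q, Cq.bar_q, map_inv₀, isoK_symm_q]
  · show g (sigK K (f (qq (RatFunc ℂ)))) = -(qq (RatFunc ℂ))
    rw [isoK_q, sigK_q, map_neg, isoK_symm_q]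
  · intro h
    apply h0
    rw [← hfg x, h, map_zero]
  · exact hom_RR g isoK_symm_q hx
  · rw [← map_inv₀]; exact hom_RR g isoK_symm_q hx'
  · show g (Cq.bar (f (g x))) = g x
    rw [hfg, h1]
  · exact hom_AA g isoK_symm_q hu
  · rw [← map_inv₀]; exact hom_AA g isoK_symm_q hu'
  · intro h
    apply hu0
    rw [← hfg u, h, map_zero]
  · show g (sigK K (f (g x))) = g u * g x
    rw [hfg, h2, map_mul]

/-- **q-roundness of the trihedron determinant.** -/
theorem qRound {I : Type} [Fintype I] [DecidableEq I] (C : Cartan I)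
    {lam₁ lam₂ lam₃ lam₁' lam₂' lam₃' : I → ℕ}
    {M₁ M₂ M₃ N₁ N₂ N₃ : Type} [AddCommGroup M₁] [Module K M₁]
    [AddCommGroup M₂] [Module K M₂] [AddCommGroup M₃] [Module K M₃]
    [AddCommGroup N₁] [Module K N₁] [AddCommGroup N₂] [Module K N₂]
    [AddCommGroup N₃] [Module K N₃]
    {ι₁ ι₂ ι₃ κ₁ κ₂ κ₃ : Type} [Fintype ι₁] [DecidableEq ι₁] [Fintype ι₂] [DecidableEq ι₂]
    [Fintype ι₃] [DecidableEq ι₃] [Fintype κ₁] [DecidableEq κ₁] [Fintype κ₂] [DecidableEq κ₂]
    [Fintype κ₃] [DecidableEq κ₃]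
    (A₁ : CanMod C K lam₁ M₁ ι₁) (A₂ : CanMod C K lam₂ M₂ ι₂) (A₃ : CanMod C K lam₃ M₃ ι₃)
    (A₁' : CanMod C K lam₁' N₁ κ₁) (A₂' : CanMod C K lam₂' N₂ κ₂) (A₃' : CanMod C K lam₃' N₃ κ₃)
    (P₁ : Duality A₁' A₁) (P₂ : Duality A₂' A₂) (P₃ : Duality A₃' A₃)
    (B : DualCan A₁ A₂ A₃) (B' : DualCan A₃' A₂' A₁')
    {n : ℕ} (f : Fin n → ι₁ × ι₂ × ι₃) (g : Fin n → κ₃ × κ₂ × κ₁)
    (hf : Enumerates B f) (hg : Enumerates B' g) :
    IsQRound (trihedron P₁ P₂ P₃ B B' g f).det := by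
  obtain ⟨hf, hf'⟩ := hf
  obtain ⟨hg, hg'⟩ := hg
  obtain ⟨h0, h1, h2⟩ := det_unit P₁ P₂ P₃ B B' f g hf hg hf' hg'
  have h3 := det_bar P₁ P₂ P₃ B B' f g hf' hg'
  obtain ⟨w, hw, hw', hw0, h4⟩ := det_parity P₁ P₂ P₃ (sigK_q (K := K)) sigK_sigK B B' f g
    hf hg hf' hg'
  exact isQRound_of_unitK h0 h1 h2 h3 hw hw' hw0 h4

end Pool.Agent.H387.QR
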