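import Pool.Agent.H387.QR.Defs3
import Pool.Agent.H387.QR.PTheta

/-!
# T07A. The bar involution on tensor products

You may use the lemmas `rad_of_finite`, `tensor_isWt`, `Fw_nilp`, `Theta_E`, `Theta_F`, `Theta_Kp` below
as sorry-ed lemmas (they are proved in other subtasks; in your final file keep them as sorry-ed
statements of exactly this form at the top; I plug the proofs in).

Notation: coproduct `Δ(E) = E ⊗ 1 + K ⊗ E`, `Δ(F) = F ⊗ K⁻¹ + 1 ⊗ F`.  `TensorProduct.map` exists for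
SEMILINEAR maps in this Mathlib.  `tbar g n V W βV βW = Θ ∘ (βV ⊗ βW)` (Defs3).

PROOF.
Step 0.  `Θ(x ⊗ y) = x ⊗ y` if `F_i x = 0` for all `i`, or if `E_i y = 0` for all `i` (all terms with
`u ≠ []` vanish: `F_u x = 0`; `k(u,v) ≠ 0` implies `v ≠ []`, `E_v y = 0`; for `u = []`: `g.nil`).
Step 1.  If `β_V`, `β_W` are bars (`IsBar`) on `V`, `W` then `Ψ := Θ ∘ (β_V ⊗ β_W)` is a bar on `V.tensor W`
(`E_i Θ(βx ⊗ βy) = Θ(E_i βx ⊗ βy + K_i⁻¹ βx ⊗ E_i βy) = Θ(β E_i x ⊗ β y + β K_i x ⊗ β E_i y)`, etc.).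
Note `β (Km x) = Kp (β x)` follows from `IsBar.Kp`.
Step 4.  `Ψ = tbar (tbar β₁ β₂) β₃` on `(M₁ ⊗ M₂) ⊗ M₃`: both are bars, and they agree
on the vectors `(l ⊗ x) ⊗ v₃` (Step 0: `tbar β₁ β₂ (l ⊗ x) = β₁ l ⊗ β₂ x` because `β₁ l` is killed by the
`F_i`), and two bars agreeing on a `U`-generating set are equal: the vectors `z` with `Ψ z = Ψ̂ z` form
a `K`-subspace stable under `E_i, F_i, K_i^{±1}`; it contains `(l₁ ⊗ x) ⊗ v₃`, hence all `(z ⊗ x) ⊗ v₃`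
(induction on `z = E_w l₁`, for all `x`: `E_i ((z ⊗ x) ⊗ v₃) = E_i(z ⊗ x) ⊗ v₃` as `E_i v₃ = 0`, and
`E_i z ⊗ x = E_i (z ⊗ x) - K_i z ⊗ E_i x`, `K_i z` a multiple of `z`), hence all `t ⊗ y`
(induction on `y = F_w v₃`, for all `t`: `t ⊗ F_i y = F_i (t ⊗ y) - F_i t ⊗ K_i⁻¹ y`).
Step 5.  The same for `N = (N₃ ⊗ N₂) ⊗ N₁`, but with the other bracketing: `assoc : (N₃ ⊗ N₂) ⊗ N₁ ≃
N₃ ⊗ (N₂ ⊗ N₁)` is an isomorphism of modules (it intertwines `((V₃'.tensor V₂').tensor V₁')` and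
`V₃'.tensor (V₂'.tensor V₁')`), and `Ψ'` corresponds to `tbar β₃' (tbar β₂' β₁')`: both are
bars, and agree on `l₃' ⊗ (x ⊗ v₁')`, which generate (as in Step 4).
-/

namespace Pool.Agent.H387.QR

open scoped TensorProduct

variable {I : Type} [Fintype I] [DecidableEq I] {C : Cartan I} {K : Type*} [Field K] [HasQ K]


variable {bar : K →+* K}

namespace T07A

section aux

variable {M : Type*} [AddCommGroup M] [Module K M] {N : Type*} [AddCommGroup N] [Module K N]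

theorem Fw_zero (V : Mod C K M) {x : M} (hx : ∀ i, V.F i x = 0) (u : List I) (hu : u ≠ []) :
    V.Fw u x = 0 := by
  induction u using List.reverseRecOn with
  | nil => exact absurd rfl hu
  | append_singleton u i _ =>
    rw [Mod.Fw_append, LinearMap.comp_apply, Mod.Fw_cons, Mod.Fw_nil, LinearMap.comp_id, hx,
      map_zero]

theorem Ew_zero (V : Mod C K M) {x : M} (hx : ∀ i, V.E i x = 0) (u : List I) (hu : u ≠ []) :
    V.Ew u x = 0 := by
  induction u using List.reverseRecOn with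
  | nil => exact absurd rfl hu
  | append_singleton u i _ =>
    rw [Mod.Ew_append, LinearMap.comp_apply, Mod.Ew_cons, Mod.Ew_nil, LinearMap.comp_id, hx,
      map_zero]

theorem Et_nil (g : GInv C K) (W : Mod C K N) : W.Et g [] = LinearMap.id := by
  unfold Mod.Et
  have : wd I ([] : List I).length = {[]} := rfl
  rw [this, Finset.sum_singleton, g.nil, one_smul, Mod.Ew_nil]

/-- `Θ` in terms of its first term and the others. -/
theorem Theta_split (g : GInv C K) (n : ℕ) (V : Mod C K M) (W : Mod C K N) (x : M) (y : N)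
    (h : ∀ u : List I, u ≠ [] → (V.Fw u x) ⊗ₜ[K] (W.Et g u y) = 0) :
    Theta V W g n (x ⊗ₜ y) = x ⊗ₜ y := by
  unfold Theta
  rw [LinearMap.sum_apply, Finset.sum_eq_single 0]
  · have : wd I 0 = {[]} := rfl
    rw [this, Finset.sum_singleton, zw_nil, one_smul, Et_nil, Mod.Fw_nil, TensorProduct.map_tmul]
    rfl
  · intro m _ hm
    rw [LinearMap.sum_apply]
    refine Finset.sum_eq_zero fun u hu => ?_
    rw [mem_wd] at hu
    have hu0 : u ≠ [] := by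
      rintro rfl
      exact hm hu.symm
    rw [LinearMap.smul_apply, TensorProduct.map_tmul, h u hu0, smul_zero]
  · intro h0
    exact absurd (Finset.mem_range.2 (Nat.succ_pos n)) h0

theorem tE (V : Mod C K M) (W : Mod C K N) (i : I) (x : M) (y : N) :
    (V.tensor W).E i (x ⊗ₜ y) = V.E i x ⊗ₜ y + V.Kp i x ⊗ₜ W.E i y := rfl

theorem tF (V : Mod C K M) (W : Mod C K N) (i : I) (x : M) (y : N) :
    (V.tensor W).F i (x ⊗ₜ y) = V.F i x ⊗ₜ W.Km i y + x ⊗ₜ W.F i y := rfl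

theorem tKp (V : Mod C K M) (W : Mod C K N) (i : I) (x : M) (y : N) :
    (V.tensor W).Kp i (x ⊗ₜ y) = V.Kp i x ⊗ₜ W.Kp i y := rfl

theorem tKm (V : Mod C K M) (W : Mod C K N) (i : I) (x : M) (y : N) :
    (V.tensor W).Km i (x ⊗ₜ y) = V.Km i x ⊗ₜ W.Km i y := rfl

end aux

end T07A

section two

variable {M : Type*} [AddCommGroup M] [Module K M] {N : Type*} [AddCommGroup N] [Module K N]

theorem Theta_low (g : GInv C K) (n : ℕ) (V : Mod C K M) (W : Mod C K N) {x : M}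
    (hx : ∀ i, V.F i x = 0) (y : N) : Theta V W g n (x ⊗ₜ y) = x ⊗ₜ y := by
  refine T07A.Theta_split g n V W x y fun u hu => ?_
  rw [T07A.Fw_zero V hx u hu, TensorProduct.zero_tmul]

theorem Theta_high (g : GInv C K) (n : ℕ) (V : Mod C K M) (W : Mod C K N) (x : M) {y : N}
    (hy : ∀ i, W.E i y = 0) : Theta V W g n (x ⊗ₜ y) = x ⊗ₜ y := by
  refine T07A.Theta_split g n V W x y fun u hu => ?_
  have : W.Et g u y = 0 := by
    unfold Mod.Et
    rw [LinearMap.sum_apply]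
    refine Finset.sum_eq_zero fun v hv => ?_
    rw [mem_wd] at hv
    have hv0 : v ≠ [] := by
      rintro rfl
      exact hu (List.length_eq_zero_iff.1 hv.symm)
    rw [LinearMap.smul_apply, T07A.Ew_zero W hy v hv0, smul_zero]
  rw [this, TensorProduct.tmul_zero]

theorem T07A.bar_Km {V : Mod C K M} {β : M →ₛₗ[bar] M} (b : IsBar bar V β) (i : I) (x : M) :
    β (V.Km i x) = V.Kp i (β x) := by
  have h := b.Kp i (V.Km i x)
  rw [V.kpkm] at h
  rw [h, V.kpkm]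

theorem tbar_isBar (g : GInv C K) (n : ℕ) (V : Mod C K M) (W : Mod C K N) (hV : V.Rad) (hW : W.Rad)
    (hn : ∀ w : List I, n ≤ w.length → V.Fw w = 0) {βV : M →ₛₗ[bar] M} {βW : N →ₛₗ[bar] N}
    (bV : IsBar bar V βV) (bW : IsBar bar W βW) :
    IsBar bar (V.tensor W) (tbar g n V W βV βW) := by
  constructor
  · intro i z
    induction z using TensorProduct.induction_on with
    | zero => simp only [map_zero]
    | add x y hx hy => simp only [map_add, hx, hy]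
    | tmul x y =>
      have h := LinearMap.congr_fun (Theta_E g V W hV hW n hn i) (βV x ⊗ₜ βW y)
      simp only [LinearMap.comp_apply, LinearMap.add_apply, TensorProduct.map_tmul,
        LinearMap.id_apply] at h
      rw [tbar_tmul, h, T07A.tE, map_add, tbar_tmul, tbar_tmul, ← map_add, bV.E, bV.Kp, bW.E]
  · intro i z
    induction z using TensorProduct.induction_on with
    | zero => simp only [map_zero]
    | add x y hx hy => simp only [map_add, hx, hy]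
    | tmul x y =>
      have h := LinearMap.congr_fun (Theta_F g V W hV hW n hn i) (βV x ⊗ₜ βW y)
      simp only [LinearMap.comp_apply, LinearMap.add_apply, TensorProduct.map_tmul,
        LinearMap.id_apply] at h
      rw [tbar_tmul, h, T07A.tF, map_add, tbar_tmul, tbar_tmul, ← map_add, bV.F, T07A.bar_Km bW,
        bW.F]
  · intro i z
    have hK : ∀ z, (V.tensor W).Km i (Theta V W g n z) = Theta V W g n ((V.tensor W).Km i z) := by
      intro z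
      have h := LinearMap.congr_fun (Theta_Kp g V W n i) ((V.tensor W).Km i z)
      simp only [LinearMap.comp_apply] at h
      rw [(V.tensor W).kpkm] at h
      rw [← h, (V.tensor W).kmkp]
    induction z using TensorProduct.induction_on with
    | zero => simp only [map_zero]
    | add x y hx hy => simp only [map_add, hx, hy]
    | tmul x y =>
      rw [tbar_tmul, hK]
      rw [T07A.tKp, T07A.tKm, tbar_tmul, bV.Kp, bW.Kp]

end two

variable {M₁ M₂ M₃ : Type*} [AddCommGroup M₁] [Module K M₁] [AddCommGroup M₂] [Module K M₂]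
  [AddCommGroup M₃] [Module K M₃]
  [Module.Finite K M₁] [Module.Finite K M₂] [Module.Finite K M₃]

namespace T07A

omit [Module.Finite K M₁] [Module.Finite K M₂] [Module.Finite K M₃] in
/-- generation -/
theorem gen (V₁ : Mod C K M₁) (V₂ : Mod C K M₂) (V₃ : Mod C K M₃)
    {m₃ n₁ : I → ℤ} {l₁ : M₁} {v₃ : M₃} (a₃ : IsHigh V₃ m₃ v₃) (c₁ : IsLow V₁ n₁ l₁)
    (Z : Submodule K ((M₁ ⊗[K] M₂) ⊗[K] M₃))
    (hE : ∀ i, ∀ z ∈ Z, ((V₁.tensor V₂).tensor V₃).E i z ∈ Z)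
    (hF : ∀ i, ∀ z ∈ Z, ((V₁.tensor V₂).tensor V₃).F i z ∈ Z)
    (h0 : ∀ x, (l₁ ⊗ₜ x) ⊗ₜ v₃ ∈ Z) (z) : z ∈ Z := by
  -- step (a)
  have ha : ∀ (w : List I) (x : M₂), (V₁.Ew w l₁ ⊗ₜ x) ⊗ₜ v₃ ∈ Z := by
    intro w
    induction w with
    | nil => intro x; exact h0 x
    | cons i w ih =>
      intro x
      have h1 := hE i _ (ih x)
      rw [tE, a₃.E i, TensorProduct.tmul_zero, add_zero, tE, TensorProduct.add_tmul] at h1
      have h2 : V₁.Kp i (V₁.Ew w l₁) =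
          (qq K ^ (pr C i w) * qq K ^ ((C.d i : ℤ) * n₁ i)) • V₁.Ew w l₁ := by
        rw [Mod.Kp_Ew, c₁.wt i, map_smul, smul_smul]
      rw [h2, ← TensorProduct.smul_tmul', ← TensorProduct.smul_tmul'] at h1
      have h3 := Z.smul_mem (qq K ^ (pr C i w) * qq K ^ ((C.d i : ℤ) * n₁ i)) (ih (V₂.E i x))
      have h4 := Z.sub_mem h1 h3
      rw [add_sub_cancel_right] at h4
      exact h4
  have hb : ∀ (z : M₁) (x : M₂), (z ⊗ₜ x) ⊗ₜ v₃ ∈ Z := by
    intro z x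
    let P : Submodule K M₁ := Submodule.comap
      ((TensorProduct.mk K (M₁ ⊗[K] M₂) M₃).flip v₃ ∘ₗ (TensorProduct.mk K M₁ M₂).flip x) Z
    have hP : P = ⊤ := by
      rw [eq_top_iff, ← c₁.span, Submodule.span_le]
      rintro _ ⟨w, rfl⟩
      exact ha w x
    have : z ∈ P := by rw [hP]; trivial
    exact this
  have hc : ∀ t : M₁ ⊗[K] M₂, t ⊗ₜ v₃ ∈ Z := by
    intro t
    induction t using TensorProduct.induction_on with
    | zero => rw [TensorProduct.zero_tmul]; exact Z.zero_mem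
    | tmul x y => exact hb x y
    | add x y hx hy => rw [TensorProduct.add_tmul]; exact Z.add_mem hx hy
  -- step (b)
  have hd : ∀ (w : List I) (t : M₁ ⊗[K] M₂), t ⊗ₜ V₃.Fw w v₃ ∈ Z := by
    intro w
    induction w with
    | nil => intro t; exact hc t
    | cons i w ih =>
      intro t
      have h1 := hF i _ (ih t)
      rw [tF] at h1
      have h5 : V₃.Km i v₃ = (qq K ^ ((C.d i : ℤ) * m₃ i))⁻¹ • v₃ := by
        have h6 := congrArg (V₃.Km i) (a₃.wt i)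
        rw [V₃.kmkp, map_smul] at h6
        have hq : qq K ^ ((C.d i : ℤ) * m₃ i) ≠ 0 := zpow_ne_zero _ HasQ.q_ne
        rw [eq_inv_smul_iff₀ hq]
        exact h6.symm
      have h2 : V₃.Km i (V₃.Fw w v₃) =
          (qq K ^ (pr C i w) * (qq K ^ ((C.d i : ℤ) * m₃ i))⁻¹) • V₃.Fw w v₃ := by
        rw [Mod.Km_Fw, h5, map_smul, smul_smul]
      rw [h2, TensorProduct.tmul_smul] at h1
      have h3 := Z.smul_mem (qq K ^ (pr C i w) * (qq K ^ ((C.d i : ℤ) * m₃ i))⁻¹)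
        (ih ((V₁.tensor V₂).F i t))
      have h4 := Z.sub_mem h1 h3
      rw [add_sub_cancel_left] at h4
      exact h4
  have he : ∀ (t : M₁ ⊗[K] M₂) (y : M₃), t ⊗ₜ y ∈ Z := by
    intro t y
    let P : Submodule K M₃ := Submodule.comap (TensorProduct.mk K (M₁ ⊗[K] M₂) M₃ t) Z
    have hP : P = ⊤ := by
      rw [eq_top_iff, ← a₃.span, Submodule.span_le]
      rintro _ ⟨w, rfl⟩
      exact hd w t
    have : y ∈ P := by rw [hP]; trivial
    exact this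
  induction z using TensorProduct.induction_on with
  | zero => exact Z.zero_mem
  | tmul x y => exact he x y
  | add x y hx hy => exact Z.add_mem hx hy

omit [Module.Finite K M₁] [Module.Finite K M₂] [Module.Finite K M₃] in
/-- uniqueness -/
theorem uniq {T : Type*} [AddCommGroup T] [Module K T] (V' : Mod C K T)
    (V₁ : Mod C K M₁) (V₂ : Mod C K M₂) (V₃ : Mod C K M₃)
    {m₃ n₁ : I → ℤ} {l₁ : M₁} {v₃ : M₃} (a₃ : IsHigh V₃ m₃ v₃) (c₁ : IsLow V₁ n₁ l₁)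
    (A B : (M₁ ⊗[K] M₂) ⊗[K] M₃ →ₛₗ[bar] T)
    (hAE : ∀ i z, A (((V₁.tensor V₂).tensor V₃).E i z) = V'.E i (A z))
    (hBE : ∀ i z, B (((V₁.tensor V₂).tensor V₃).E i z) = V'.E i (B z))
    (hAF : ∀ i z, A (((V₁.tensor V₂).tensor V₃).F i z) = V'.F i (A z))
    (hBF : ∀ i z, B (((V₁.tensor V₂).tensor V₃).F i z) = V'.F i (B z))
    (h0 : ∀ x, A ((l₁ ⊗ₜ x) ⊗ₜ v₃) = B ((l₁ ⊗ₜ x) ⊗ₜ v₃)) : A = B := by
  let Z : Submodule K ((M₁ ⊗[K] M₂) ⊗[K] M₃) :=
    { carrier := {z | A z = B z}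
      add_mem' := by
        intro a b ha hb
        show A (a + b) = B (a + b)
        rw [map_add, map_add, show A a = B a from ha, show A b = B b from hb]
      zero_mem' := by
        show A 0 = B 0
        rw [map_zero, map_zero]
      smul_mem' := by
        intro c a ha
        show A (c • a) = B (c • a)
        rw [LinearMap.map_smulₛₗ, LinearMap.map_smulₛₗ, show A a = B a from ha] }
  have h : ∀ z, z ∈ Z := gen V₁ V₂ V₃ a₃ c₁ Z
    (fun i z hz => by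
      show A _ = B _
      rw [hAE, hBE, show A z = B z from hz])
    (fun i z hz => by
      show A _ = B _
      rw [hAF, hBF, show A z = B z from hz]) h0
  exact LinearMap.ext h

omit [Module.Finite K M₁] [Module.Finite K M₂] [Module.Finite K M₃] in
theorem assoc_E (V₁ : Mod C K M₁) (V₂ : Mod C K M₂) (V₃ : Mod C K M₃) (i : I)
    (z : (M₁ ⊗[K] M₂) ⊗[K] M₃) :
    TensorProduct.assoc K M₁ M₂ M₃ (((V₁.tensor V₂).tensor V₃).E i z) =
      (V₁.tensor (V₂.tensor V₃)).E i (TensorProduct.assoc K M₁ M₂ M₃ z) := by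
  induction z using TensorProduct.induction_on with
  | zero => simp only [map_zero]
  | add x y hx hy => simp only [map_add, hx, hy]
  | tmul t w =>
    induction t using TensorProduct.induction_on with
    | zero => simp only [TensorProduct.zero_tmul, map_zero]
    | add x y hx hy => simp only [TensorProduct.add_tmul, map_add, hx, hy]
    | tmul x y =>
      rw [tE, tE, tKp, TensorProduct.add_tmul, map_add, map_add, TensorProduct.assoc_tmul,
        TensorProduct.assoc_tmul, TensorProduct.assoc_tmul, TensorProduct.assoc_tmul, tE, tE,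
        TensorProduct.tmul_add, add_assoc]

omit [Module.Finite K M₁] [Module.Finite K M₂] [Module.Finite K M₃] in
theorem assoc_F (V₁ : Mod C K M₁) (V₂ : Mod C K M₂) (V₃ : Mod C K M₃) (i : I)
    (z : (M₁ ⊗[K] M₂) ⊗[K] M₃) :
    TensorProduct.assoc K M₁ M₂ M₃ (((V₁.tensor V₂).tensor V₃).F i z) =
      (V₁.tensor (V₂.tensor V₃)).F i (TensorProduct.assoc K M₁ M₂ M₃ z) := by
  induction z using TensorProduct.induction_on with
  | zero => simp only [map_zero]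
  | add x y hx hy => simp only [map_add, hx, hy]
  | tmul t w =>
    induction t using TensorProduct.induction_on with
    | zero => simp only [TensorProduct.zero_tmul, map_zero]
    | add x y hx hy => simp only [TensorProduct.add_tmul, map_add, hx, hy]
    | tmul x y =>
      rw [tF, tF, TensorProduct.add_tmul, map_add, map_add, TensorProduct.assoc_tmul,
        TensorProduct.assoc_tmul, TensorProduct.assoc_tmul, TensorProduct.assoc_tmul, tF, tF, tKm,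
        TensorProduct.tmul_add, add_assoc]

end T07A

theorem psi_eq (g : GInv C K) (hbar : bar (qq K) = (qq K)⁻¹) (n : ℕ)
    (V₁ : Mod C K M₁) (V₂ : Mod C K M₂) (V₃ : Mod C K M₃)
    (h₁ : V₁.IsWt) (h₂ : V₂.IsWt) (h₃ : V₃.IsWt)
    (k₁ : ∀ w : List I, n ≤ w.length → V₁.Fw w = 0)
    (k₂ : ∀ w : List I, n ≤ w.length → (V₁.tensor V₂).Fw w = 0)
    {m₃ n₁ : I → ℤ} {l₁ : M₁} {v₃ : M₃} (a₃ : IsHigh V₃ m₃ v₃) (c₁ : IsLow V₁ n₁ l₁)
    {β₁ : M₁ →ₛₗ[bar] M₁} {β₂ : M₂ →ₛₗ[bar] M₂} {β₃ : M₃ →ₛₗ[bar] M₃}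
    (b₁ : IsBar bar V₁ β₁) (b₂ : IsBar bar V₂ β₂) (b₃ : IsBar bar V₃ β₃) (e₃ : β₃ v₃ = v₃)
    (Ψ : (M₁ ⊗[K] M₂) ⊗[K] M₃ →ₛₗ[bar] (M₁ ⊗[K] M₂) ⊗[K] M₃)
    (hΨ : IsBar bar ((V₁.tensor V₂).tensor V₃) Ψ)
    (hΨn : ∀ x, Ψ ((l₁ ⊗ₜ x) ⊗ₜ v₃) = (β₁ l₁ ⊗ₜ β₂ x) ⊗ₜ v₃) :
    Ψ = tbar g n (V₁.tensor V₂) V₃ (tbar g n V₁ V₂ β₁ β₂) β₃ := by
  have hR : (V₁.tensor V₂).Rad := rad_of_finite _ (tensor_isWt _ _ h₁ h₂)
  have hB1 : IsBar bar (V₁.tensor V₂) (tbar g n V₁ V₂ β₁ β₂) :=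
    tbar_isBar g n V₁ V₂ (rad_of_finite _ h₁) (rad_of_finite _ h₂) k₁ b₁ b₂
  have hB2 : IsBar bar ((V₁.tensor V₂).tensor V₃)
      (tbar g n (V₁.tensor V₂) V₃ (tbar g n V₁ V₂ β₁ β₂) β₃) :=
    tbar_isBar g n (V₁.tensor V₂) V₃ hR (rad_of_finite _ h₃) k₂ hB1 b₃
  refine T07A.uniq ((V₁.tensor V₂).tensor V₃) V₁ V₂ V₃ a₃ c₁ _ _ hΨ.E hB2.E hΨ.F hB2.F ?_
  intro x
  have hl : ∀ i, V₁.F i (β₁ l₁) = 0 := by
    intro i
    rw [← b₁.F, c₁.F i, map_zero]
  rw [hΨn, tbar_tmul, tbar_tmul, e₃, Theta_low g n V₁ V₂ hl,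
    Theta_high g n (V₁.tensor V₂) V₃ _ a₃.E]

/-- the other bracketing -/
theorem psi_eq' (g : GInv C K) (hbar : bar (qq K) = (qq K)⁻¹) (n : ℕ)
    (V₁ : Mod C K M₁) (V₂ : Mod C K M₂) (V₃ : Mod C K M₃)
    (h₁ : V₁.IsWt) (h₂ : V₂.IsWt) (h₃ : V₃.IsWt)
    (k₁ : ∀ w : List I, n ≤ w.length → V₁.Fw w = 0)
    (k₂ : ∀ w : List I, n ≤ w.length → V₂.Fw w = 0)
    {m₃ n₁ : I → ℤ} {l₁ : M₁} {v₃ : M₃} (a₃ : IsHigh V₃ m₃ v₃) (c₁ : IsLow V₁ n₁ l₁)
    {β₁ : M₁ →ₛₗ[bar] M₁} {β₂ : M₂ →ₛₗ[bar] M₂} {β₃ : M₃ →ₛₗ[bar] M₃}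
    (b₁ : IsBar bar V₁ β₁) (b₂ : IsBar bar V₂ β₂) (b₃ : IsBar bar V₃ β₃) (e₃ : β₃ v₃ = v₃)
    (Ψ : (M₁ ⊗[K] M₂) ⊗[K] M₃ →ₛₗ[bar] (M₁ ⊗[K] M₂) ⊗[K] M₃)
    (hΨ : IsBar bar ((V₁.tensor V₂).tensor V₃) Ψ)
    (hΨn : ∀ x, Ψ ((l₁ ⊗ₜ x) ⊗ₜ v₃) = (β₁ l₁ ⊗ₜ β₂ x) ⊗ₜ v₃)
    (z : (M₁ ⊗[K] M₂) ⊗[K] M₃) :
    TensorProduct.assoc K M₁ M₂ M₃ (Ψ z) =
      tbar g n V₁ (V₂.tensor V₃) β₁ (tbar g n V₂ V₃ β₂ β₃) (TensorProduct.assoc K M₁ M₂ M₃ z) := by
  have hR : (V₂.tensor V₃).Rad := rad_of_finite _ (tensor_isWt _ _ h₂ h₃)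
  have hB1 : IsBar bar (V₂.tensor V₃) (tbar g n V₂ V₃ β₂ β₃) :=
    tbar_isBar g n V₂ V₃ (rad_of_finite _ h₂) (rad_of_finite _ h₃) k₂ b₂ b₃
  have hB2 : IsBar bar (V₁.tensor (V₂.tensor V₃))
      (tbar g n V₁ (V₂.tensor V₃) β₁ (tbar g n V₂ V₃ β₂ β₃)) :=
    tbar_isBar g n V₁ (V₂.tensor V₃) (rad_of_finite _ h₁) hR k₁ b₁ hB1
  have hl : ∀ i, V₁.F i (β₁ l₁) = 0 := by
    intro i
    rw [← b₁.F, c₁.F i, map_zero]
  have h := T07A.uniq (V₁.tensor (V₂.tensor V₃)) V₁ V₂ V₃ a₃ c₁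
    ((TensorProduct.assoc K M₁ M₂ M₃).toLinearMap.comp Ψ)
    ((tbar g n V₁ (V₂.tensor V₃) β₁ (tbar g n V₂ V₃ β₂ β₃)).comp
      (TensorProduct.assoc K M₁ M₂ M₃).toLinearMap)
    (fun i z => by
      show TensorProduct.assoc K M₁ M₂ M₃ (Ψ _) = _
      rw [hΨ.E, T07A.assoc_E]; rfl)
    (fun i z => by
      show tbar g n V₁ (V₂.tensor V₃) β₁ (tbar g n V₂ V₃ β₂ β₃)
        (TensorProduct.assoc K M₁ M₂ M₃ _) = _
      rw [T07A.assoc_E, hB2.E]; rfl)
    (fun i z => by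
      show TensorProduct.assoc K M₁ M₂ M₃ (Ψ _) = _
      rw [hΨ.F, T07A.assoc_F]; rfl)
    (fun i z => by
      show tbar g n V₁ (V₂.tensor V₃) β₁ (tbar g n V₂ V₃ β₂ β₃)
        (TensorProduct.assoc K M₁ M₂ M₃ _) = _
      rw [T07A.assoc_F, hB2.F]; rfl)
    (fun x => by
      show TensorProduct.assoc K M₁ M₂ M₃ (Ψ _) =
        tbar g n V₁ (V₂.tensor V₃) β₁ (tbar g n V₂ V₃ β₂ β₃)
        (TensorProduct.assoc K M₁ M₂ M₃ _)
      rw [hΨn, TensorProduct.assoc_tmul, TensorProduct.assoc_tmul, tbar_tmul, tbar_tmul, e₃,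
        Theta_high g n V₂ V₃ _ a₃.E, Theta_low g n V₁ (V₂.tensor V₃) hl])
  exact LinearMap.congr_fun h z

end Pool.Agent.H387.QR
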