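import Pool.Agent.H387.QR.PA1
import Pool.Agent.H387.QR.PA2

/-!
# A3. Inverting `h_i⁻¹ ad_i r_i` on `fc η ∩ ker D_i` over `R`

Use the lemmas of `section hyp` as sorry-ed lemmas (proved in A1, A2).

PROOF.  Fix `i`, `h = hq K d_i`, `[n] = qd K d_i n`, `m = cor C η i ≥ 1`.  On `fc η ∩ ker D_i`,
`r_i = h · rD`, `rD := h⁻¹ (r_i - q^{d_i m} D_i)`, which maps `fR η` to `fR (η.erase i)` (`rD_mem`) and `fc η` to
`fc (η.erase i)`; `X := ad_i ∘ rD : Fn → Fn` maps `fR η` to `fR η` and `fc η` to `fc η` (if `i ∈ η`,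
`i ::ₘ η.erase i = η`; `i ∈ η` because `m ≥ 1` and `a_ij ≤ 0` for `j ≠ i`; `ad_i` is integral: `L_i`, `R_i`, and
`Q_i⁻¹` is a power of `q` on `fc`).  On `fc η ∩ ker D_i`, `X = h⁻¹ ad_i r_i`, and `X` preserves
`fc η ∩ ker D_i` (`D_i r_i = r_i D_i` is `D_r`, `D_ad`).
Let `B k = {b ∈ fc η : D_i b = 0, ad_i^k b = 0}`, `x_k = - [k+1] [m+k]` (nonzero, in `RR` with its inverse:
`qd_ne`, `qd_mem`, `qd_inv_mem`).  For `b ∈ B (k+1)`: `X b - x_k b ∈ B k`: with `e = ad_i`, `f = h⁻¹ r_i`,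
`e f - f e = - h⁻¹ (Q_i - Q_i⁻¹) = - [m']` on `fc η'`, `m' = cor C η' i` (`ad_comm`, `Q_fc`, `Qinv_fc`); `e` maps
`fc η'` to `fc (i ::ₘ η')`, where `m'` increases by `2`; so
`e^k (e f b) = f e^{k+1} b + ∑_{j=0}^{k} e^{k-j} [e, f] e^j b = - ∑_{j=0}^{k} [m + 2j] e^k b = - [k+1][m+k] e^k b`
(`∑_{j=0}^k [m+2j] = [k+1][m+k]`).  `fc η` is finite-dimensional (spanned by the finitely many `ph w`), so
`ad_nilp` gives one `N` with `fc η ∩ ker D_i = B N`.  Apply `poly_inv`.
-/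

namespace Pool.Agent.H387.QR

variable {I : Type} [Fintype I] [DecidableEq I] {C : Cartan I} {K : Type*} [Field K] [HasQ K]


theorem smul_fR {η : Multiset I} {a : Fn I K} (ha : a ∈ fR C K η) {c : K} (hc : c ∈ RR K) :
    c • a ∈ fR C K η :=
  (fR C K η).smul_mem (⟨c, hc⟩ : RR K) ha

theorem ad_memR (i : I) {η : Multiset I} {a : Fn I K} (ha : a ∈ fR C K η) :
    adop C K i a ∈ fR C K (i ::ₘ η) := by
  rw [adop, LinearMap.sub_apply, LinearMap.comp_apply, Qinv_fc i (fR_le η ha), map_smul]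
  exact Submodule.sub_mem _ (L_memR i ha) (smul_fR (R_memR i ha) (qz_mem _))

theorem ad_mem (i : I) {η : Multiset I} {a : Fn I K} (ha : a ∈ fc C K η) :
    adop C K i a ∈ fc C K (i ::ₘ η) := by
  rw [adop, LinearMap.sub_apply, LinearMap.comp_apply, Qinv_fc i ha, map_smul]
  exact Submodule.sub_mem _ (L_mem i ha) (Submodule.smul_mem _ _ (R_mem i ha))

theorem cor_cons (i j : I) (η : Multiset I) : cor C (j ::ₘ η) i = C.a i j + cor C η i := by
  simp [cor]

theorem mem_of_cor {i : I} {η : Multiset I} (hm : 1 ≤ cor C η i) : i ∈ η := by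
  by_contra h
  have : cor C η i ≤ 0 := by
    clear hm
    unfold cor
    induction η using Multiset.induction_on with
    | empty => simp
    | cons j η ih =>
      rw [Multiset.map_cons, Multiset.sum_cons]
      have h1 := C.off i j fun e => h (e ▸ Multiset.mem_cons_self _ _)
      have h2 := ih fun e => h (Multiset.mem_cons_of_mem e)
      omega
  omega

theorem pow_ad_mem (i : I) {η : Multiset I} {a : Fn I K} (ha : a ∈ fc C K η) (j : ℕ) :
    ∃ η' : Multiset I, ((adop C K i) ^ j) a ∈ fc C K η' ∧ cor C η' i = cor C η i + 2 * j := by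
  induction j with
  | zero => exact ⟨η, by simpa using ha, by simp⟩
  | succ j ih =>
    obtain ⟨η', h1, h2⟩ := ih
    refine ⟨i ::ₘ η', ?_, ?_⟩
    · rw [pow_succ', Module.End.mul_apply]
      exact ad_mem i h1
    · rw [cor_cons, C.diag, h2]; push_cast; ring

/-- The commutator of `ad_i` and `h_i⁻¹ r_i`. -/
theorem ef_comm (i : I) {η : Multiset I} {a : Fn I K} (ha : a ∈ fc C K η) :
    adop C K i ((hq K (C.d i))⁻¹ • rop i a) = (hq K (C.d i))⁻¹ • rop i (adop C K i a) -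
      qd K (C.d i) (cor C η i) • a := by
  have h1 := ad_comm (C := C) i a
  rw [Q_fc i ha, Qinv_fc i ha, ← sub_smul] at h1
  have h2 : adop C K i (rop i a) = rop i (adop C K i a) -
      (qq K ^ ((C.d i : ℤ) * cor C η i) - qq K ^ (-((C.d i : ℤ) * cor C η i))) • a := by
    rw [← h1]; abel
  rw [map_smul, h2, smul_sub, smul_smul]
  congr 2
  rw [qd, div_eq_inv_mul]

theorem qsum {d : ℤ} (hd : d ≠ 0) (m k : ℤ) :
    qd K d (k + 2) * qd K d (m + k + 1) = qd K d (k + 1) * qd K d (m + k) +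
      qd K d (m + 2 * (k + 1)) := by
  have hh := hq_ne (K := K) hd
  have e1 : ∀ a b : ℤ, hq K a * hq K b =
      qq K ^ (a + b) + qq K ^ (-(a + b)) - qq K ^ (a - b) - qq K ^ (-(a - b)) := by
    intro a b
    simp only [hq, sub_mul, mul_sub, ← qadd]
    rw [show a + -b = a - b by ring, show -a + b = -(a - b) by ring, show -a + -b = -(a + b) by ring]
    ring
  have e2 : ∀ a b : ℤ, qd K d a * qd K d b = (hq K (d * a) * hq K (d * b)) / (hq K d * hq K d) := by
    intro a b; rw [qd_eq, qd_eq, div_mul_div_comm]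
  have e3 : qd K d (m + 2 * (k + 1)) =
      (hq K (d * (m + 2 * (k + 1))) * hq K d) / (hq K d * hq K d) := by
    rw [qd_eq, mul_div_mul_right _ _ hh]
  rw [e2, e2, e3, ← add_div, e1 (d * (k + 2)) (d * (m + k + 1)), e1 (d * (k + 1)) (d * (m + k)),
    e1 (d * (m + 2 * (k + 1))) d]
  congr 1
  rw [show d * (k + 2) + d * (m + k + 1) = d * (m + 2 * (k + 1)) + d by ring,
    show d * (k + 2) - d * (m + k + 1) = d * (k + 1) - d * (m + k) by ring,
    show d * (k + 1) + d * (m + k) = d * (m + 2 * (k + 1)) - d by ring]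
  ring

theorem pow_comm (i : I) {η : Multiset I} {b : Fn I K} (hb : b ∈ fc C K η) (k : ℕ) :
    ((adop C K i) ^ (k + 1)) ((hq K (C.d i))⁻¹ • rop i b) =
      (hq K (C.d i))⁻¹ • rop i (((adop C K i) ^ (k + 1)) b) -
        (qd K (C.d i) (k + 1) * qd K (C.d i) (cor C η i + k)) • ((adop C K i) ^ k) b := by
  have hd : (C.d i : ℤ) ≠ 0 := by have := C.d_pos i; omega
  induction k with
  | zero =>
    have h1 : qd K (C.d i) 1 = 1 := by
      rw [qd_eq, mul_one]; exact div_self (hq_ne hd)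
    simp only [zero_add, pow_one, pow_zero, Nat.cast_zero, add_zero, h1, one_mul,
      Module.End.one_apply]
    exact ef_comm i hb
  | succ k ih =>
    obtain ⟨η', h1, h2⟩ := pow_ad_mem i hb (k + 1)
    rw [pow_succ' _ (k + 1), Module.End.mul_apply, ih, map_sub, ef_comm i h1, map_smul,
      Module.End.mul_apply, h2]
    rw [show (adop C K i) (((adop C K i) ^ k) b) = ((adop C K i) ^ (k + 1)) b by
      rw [pow_succ', Module.End.mul_apply]]
    rw [sub_sub, ← add_smul]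
    congr 2
    have := qsum (K := K) hd (cor C η i) k
    push_cast
    rw [show ((k : ℤ) + 1 + 1) = k + 2 by ring, show cor C η i + ((k : ℤ) + 1) =
      cor C η i + k + 1 by ring, this]
    ring

theorem fc_fg (η : Multiset I) : (fc C K η).FG := by
  classical
  obtain ⟨l, rfl⟩ := Quot.exists_rep η
  refine Submodule.fg_span ?_
  refine Set.Finite.subset ((l.permutations.toFinset.image (ph C (K := K))).finite_toSet) ?_
  rintro a ⟨w, hw, rfl⟩
  simp only [Finset.coe_image, Set.mem_image, Finset.mem_coe, List.mem_toFinset,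
    List.mem_permutations]
  exact ⟨w, Multiset.coe_eq_coe.mp hw, rfl⟩

theorem nilp_unif (i : I) (η : Multiset I) : ∃ N : ℕ, ∀ a ∈ fc C K η, Dop i a = 0 →
    ((adop C K i) ^ N) a = 0 := by
  have hn : IsNoetherian K (fc C K η) := isNoetherian_of_fg_of_noetherian _ (fc_fg η)
  obtain ⟨S, hS⟩ := isNoetherian_submodule.mp hn (fc C K η ⊓ LinearMap.ker (Dop i)) inf_le_left
  have hmem : ∀ s ∈ S, s ∈ fc C K η ∧ Dop i s = 0 := by
    intro s hs
    have : s ∈ fc C K η ⊓ LinearMap.ker (Dop i) := hS ▸ Submodule.subset_span hs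
    exact ⟨this.1, this.2⟩
  have hex : ∀ s : S, ∃ N : ℕ, ((adop C K i) ^ N) (s : Fn I K) = 0 := fun s =>
    ad_nilp i η (hmem s s.2).1 (hmem s s.2).2
  choose f hf using hex
  refine ⟨Finset.univ.sup f, fun a ha hD => ?_⟩
  have ha' : a ∈ Submodule.span K (S : Set (Fn I K)) := by rw [hS]; exact ⟨ha, hD⟩
  have hle : Submodule.span K (S : Set (Fn I K)) ≤
      LinearMap.ker ((adop C K i) ^ (Finset.univ.sup f)) := by
    rw [Submodule.span_le]
    intro s hs
    have h1 : f ⟨s, hs⟩ ≤ Finset.univ.sup f := Finset.le_sup (Finset.mem_univ _)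
    obtain ⟨r, hr⟩ := Nat.exists_eq_add_of_le h1
    show ((adop C K i) ^ (Finset.univ.sup f)) s = 0
    rw [hr, add_comm, pow_add, Module.End.mul_apply, hf ⟨s, hs⟩, map_zero]
  exact hle ha'

theorem X_inv (i : I) (η : Multiset I) (hm : 1 ≤ cor C η i) : ∃ G : Fn I K →ₗ[K] Fn I K,
    (∀ b ∈ fc C K η, Dop i b = 0 → G ((hq K (C.d i))⁻¹ • adop C K i (rop i b)) = b) ∧
    (∀ a ∈ fR C K η, G a ∈ fR C K η) := by
  have hd : (C.d i : ℤ) ≠ 0 := by have := C.d_pos i; omega
  have hi : i ∈ η := mem_of_cor hm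
  set h := hq K (C.d i) with hh
  set m := cor C η i with hmdef
  let rD : Fn I K →ₗ[K] Fn I K := h⁻¹ • (rop i - qq K ^ ((C.d i : ℤ) * m) • Dop i)
  let X : Fn I K →ₗ[K] Fn I K := adop C K i ∘ₗ rD
  let B : ℕ → Submodule K (Fn I K) := fun k =>
    fc C K η ⊓ (LinearMap.ker (Dop i) ⊓ LinearMap.ker ((adop C K i) ^ k))
  let x : ℕ → K := fun k => - (qd K (C.d i) (k + 1) * qd K (C.d i) (m + k))
  have hXb : ∀ b, Dop i b = 0 → X b = adop C K i (h⁻¹ • rop i b) := by
    intro b hb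
    show adop C K i (h⁻¹ • (rop i b - qq K ^ ((C.d i : ℤ) * m) • Dop i b)) = _
    rw [hb, smul_zero, sub_zero]
  have hk1 : ∀ k : ℕ, ((k : ℤ) + 1) ≠ 0 := fun k => by omega
  have hk2 : ∀ k : ℕ, (m + (k : ℤ)) ≠ 0 := fun k => by omega
  obtain ⟨N, hN⟩ := nilp_unif (C := C) (K := K) i η
  have hB0 : B 0 = ⊥ := by
    rw [eq_bot_iff]
    rintro b ⟨-, -, hb⟩
    have hb' : ((adop C K i) ^ 0) b = 0 := hb
    rw [pow_zero, Module.End.one_apply] at hb'
    exact hb'
  have hx0 : ∀ k, x k ≠ 0 := fun k =>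
    neg_ne_zero.mpr (mul_ne_zero (qd_ne hd (hk1 k)) (qd_ne hd (hk2 k)))
  have hx1 : ∀ k, x k ∈ RR K := fun k =>
    Subring.neg_mem _ (Subring.mul_mem _ (qd_mem hd _) (qd_mem hd _))
  have hx2 : ∀ k, (x k)⁻¹ ∈ RR K := by
    intro k
    show (-(qd K (C.d i) (k + 1) * qd K (C.d i) (m + k)))⁻¹ ∈ RR K
    rw [inv_neg, mul_inv]
    exact Subring.neg_mem _ (Subring.mul_mem _ (qd_inv_mem hd (hk1 k)) (qd_inv_mem hd (hk2 k)))
  have hBX : ∀ k, ∀ b ∈ B (k + 1), X b - x k • b ∈ B k := by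
    rintro k b ⟨hb1, hb2, hb3⟩
    have hb2' : Dop i b = 0 := hb2
    have hb3' : ((adop C K i) ^ (k + 1)) b = 0 := hb3
    rw [hXb b hb2']
    have hDr : Dop i (h⁻¹ • rop i b) = 0 := by
      rw [map_smul, D_r, hb2', map_zero, smul_zero]
    refine ⟨?_, ?_, ?_⟩
    · refine Submodule.sub_mem _ ?_ (Submodule.smul_mem _ _ hb1)
      have h1 := ad_mem i (Submodule.smul_mem _ h⁻¹ (r_mem i hb1))
      rwa [Multiset.cons_erase hi] at h1
    · show Dop i _ = 0
      have e : Dop i (x k • b) = 0 := by rw [map_smul, hb2', smul_zero]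
      rw [map_sub, e, sub_zero]
      exact D_ad i hDr
    · show ((adop C K i) ^ k) _ = 0
      have h1 := pow_comm i hb1 k
      rw [hb3', map_zero, smul_zero, zero_sub, pow_succ, Module.End.mul_apply] at h1
      rw [map_sub, show ((adop C K i) ^ k) (x k • b) = x k • ((adop C K i) ^ k) b from
        map_smul _ _ _, hh, h1]
      show -((qd K (C.d i) (k + 1) * qd K (C.d i) (m + k)) • ((adop C K i) ^ k) b) -
        (-(qd K (C.d i) (k + 1) * qd K (C.d i) (m + k))) • ((adop C K i) ^ k) b = 0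
      rw [neg_smul]; abel
  obtain ⟨G, hG1, hG2, -⟩ := poly_inv X B x hB0 hx0 hx1 hx2 hBX N
  refine ⟨G, ?_, ?_⟩
  · intro b hb hD
    have h1 := (hG1 b ⟨hb, hD, hN b hb hD⟩).2
    rw [hXb b hD, map_smul] at h1
    exact h1
  · intro a ha
    refine hG2 (fR C K η) ?_ a ha
    intro a ha
    have h1 := ad_memR i (rD_mem i ha)
    rw [Multiset.cons_erase hi] at h1
    exact h1

end Pool.Agent.H387.QR
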