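import Pool.Agent.H387.QR.Qnum

/-!
# `ℂ(q)` as a field with a parameter
-/

namespace Pool.Agent.H387.QR

/-- `ℂ(q)`, with the parameter `q`. -/
noncomputable instance instHasQRatFunc : HasQ (RatFunc ℂ) where
  q := RatFunc.X
  q_ne := RatFunc.X_ne_zero
  q_pow n hn h := by
    have h1 : (algebraMap (Polynomial ℂ) (RatFunc ℂ)) (Polynomial.X ^ n) =
        (algebraMap (Polynomial ℂ) (RatFunc ℂ)) 1 := by
      rw [map_pow, RatFunc.algebraMap_X, h, map_one]
    have h2 := RatFunc.algebraMap_injective ℂ h1
    have h3 := congrArg Polynomial.natDegree h2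
    rw [Polynomial.natDegree_X_pow, Polynomial.natDegree_one] at h3
    omega

end Pool.Agent.H387.QR
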