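import Pool.Agent.H387.QR.Shuf

/-!
# Quantum numbers and the ring `ℤ[q, q⁻¹][1/[n]]`
-/

namespace Pool.Agent.H387.QR

variable (K : Type*) [Field K] [HasQ K]

/-- The ring generated by `q`, `q⁻¹` and the inverses of the quantum integers `[n]`, `n > 0`. -/
def RR : Subring K := Subring.closure ({qq K, (qq K)⁻¹} ∪ {x | ∃ n : ℕ, 0 < n ∧ x = (qn K n)⁻¹})

variable {K}

theorem q_zpow_ne_one {n : ℤ} (hn : n ≠ 0) : qq K ^ n ≠ 1 := by
  intro h
  rcases lt_or_gt_of_ne hn with h1 | h1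
  · have : qq K ^ (-n) = 1 := by rw [zpow_neg, h, inv_one]
    lift -n to ℕ using by omega with m hm
    rw [zpow_natCast] at this
    exact HasQ.q_pow m (by omega) this
  · lift n to ℕ using h1.le with m
    rw [zpow_natCast] at h
    exact HasQ.q_pow m (by omega) h

theorem hq_ne {d : ℤ} (hd : d ≠ 0) : hq K d ≠ 0 := by
  intro h
  rw [hq, sub_eq_zero] at h
  have : qq K ^ (d + d) = 1 := by
    rw [qadd]; nth_rw 1 [h]; rw [← qadd]; simp
  exact q_zpow_ne_one (by omega) this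

theorem hq_one : hq K 1 = qq K - (qq K)⁻¹ := by simp [hq]

theorem qn_eq (n : ℤ) : qn K n = hq K n / hq K 1 := by
  rw [qn, hq_one, hq]

theorem qn_ne {n : ℤ} (hn : n ≠ 0) : qn K n ≠ 0 := by
  rw [qn_eq]; exact div_ne_zero (hq_ne hn) (hq_ne one_ne_zero)

theorem qd_eq (d n : ℤ) : qd K d n = hq K (d * n) / hq K d := by
  simp only [qd, hq]

theorem qd_eq_qn {d : ℤ} (hd : d ≠ 0) (n : ℤ) : qd K d n = qn K (d * n) / qn K d := by
  rw [qd_eq, qn_eq, qn_eq]
  have := hq_ne (K := K) hd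
  have := hq_ne (K := K) one_ne_zero
  field_simp

theorem qd_ne {d n : ℤ} (hd : d ≠ 0) (hn : n ≠ 0) : qd K d n ≠ 0 := by
  rw [qd_eq]; exact div_ne_zero (hq_ne (mul_ne_zero hd hn)) (hq_ne hd)

theorem q_mem : qq K ∈ RR K := Subring.subset_closure (Or.inl (by simp))
theorem qinv_mem : (qq K)⁻¹ ∈ RR K := Subring.subset_closure (Or.inl (by simp))

theorem qz_mem (n : ℤ) : qq K ^ n ∈ RR K := by
  rcases le_total 0 n with h | h
  · lift n to ℕ using h
    rw [zpow_natCast]; exact Subring.pow_mem _ q_mem _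
  · obtain ⟨m, rfl⟩ : ∃ m : ℕ, n = -m := ⟨(-n).toNat, by omega⟩
    rw [zpow_neg, zpow_natCast, ← inv_pow]; exact Subring.pow_mem _ qinv_mem _

theorem hq_neg (d : ℤ) : hq K (-d) = -hq K d := by simp [hq]

theorem qn_neg (n : ℤ) : qn K (-n) = -qn K n := by rw [qn_eq, qn_eq, hq_neg, neg_div]

theorem qn_zero : qn K 0 = 0 := by simp [qn]

theorem qn_one : qn K 1 = 1 := by rw [qn_eq]; exact div_self (hq_ne one_ne_zero)

theorem qn_succ (n : ℤ) : qn K (n + 1) = qq K * qn K n + qq K ^ (-n) := by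
  have h := hq_ne (K := K) one_ne_zero
  rw [qn_eq, qn_eq, div_eq_iff h, add_mul, mul_assoc, div_mul_cancel₀ _ h]
  simp only [hq, neg_add, qadd, zpow_one, zpow_neg]
  have hq := HasQ.q_ne (K := K)
  have h2 : qq K ^ n ≠ 0 := zpow_ne_zero _ hq
  field_simp
  ring

theorem AA_le : AA K ≤ RR K := Subring.closure_mono Set.subset_union_left

theorem q_memA : qq K ∈ AA K := Subring.subset_closure (by simp)
theorem qinv_memA : (qq K)⁻¹ ∈ AA K := Subring.subset_closure (by simp)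

theorem qz_memA (n : ℤ) : qq K ^ n ∈ AA K := by
  rcases le_total 0 n with h | h
  · lift n to ℕ using h
    rw [zpow_natCast]; exact Subring.pow_mem _ q_memA _
  · obtain ⟨m, rfl⟩ : ∃ m : ℕ, n = -m := ⟨(-n).toNat, by omega⟩
    rw [zpow_neg, zpow_natCast, ← inv_pow]; exact Subring.pow_mem _ qinv_memA _

theorem qn_memA (n : ℤ) : qn K n ∈ AA K := by
  have key : ∀ m : ℕ, qn K m ∈ AA K := by
    intro m
    induction m with
    | zero => rw [Nat.cast_zero, qn_zero]; exact Subring.zero_mem _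
    | succ m ih =>
      rw [Nat.cast_succ, qn_succ]
      exact Subring.add_mem _ (Subring.mul_mem _ q_memA ih) (qz_memA _)
  rcases le_total 0 n with h | h
  · lift n to ℕ using h; exact key n
  · obtain ⟨m, rfl⟩ : ∃ m : ℕ, n = -m := ⟨(-n).toNat, by omega⟩
    rw [qn_neg]; exact Subring.neg_mem _ (key m)

theorem qn_mem (n : ℤ) : qn K n ∈ RR K := AA_le (qn_memA n)

theorem qn_inv_mem {n : ℤ} (hn : n ≠ 0) : (qn K n)⁻¹ ∈ RR K := by
  rcases lt_or_gt_of_ne hn with h | h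
  · obtain ⟨m, rfl⟩ : ∃ m : ℕ, n = -m := ⟨(-n).toNat, by omega⟩
    rw [qn_neg, inv_neg]
    exact Subring.neg_mem _ (Subring.subset_closure (Or.inr ⟨m, by omega, rfl⟩))
  · lift n to ℕ using h.le
    exact Subring.subset_closure (Or.inr ⟨n, by omega, rfl⟩)

theorem qd_mem {d : ℤ} (hd : d ≠ 0) (n : ℤ) : qd K d n ∈ RR K := by
  rw [qd_eq_qn hd, div_eq_mul_inv]
  exact Subring.mul_mem _ (qn_mem _) (qn_inv_mem hd)

theorem qd_inv_mem {d n : ℤ} (hd : d ≠ 0) (hn : n ≠ 0) : (qd K d n)⁻¹ ∈ RR K := by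
  rw [qd_eq_qn hd, inv_div, div_eq_mul_inv]
  exact Subring.mul_mem _ (qn_mem _) (qn_inv_mem (mul_ne_zero hd hn))

theorem hq_eq (d : ℤ) : hq K d = hq K 1 * qn K d := by
  rw [qn_eq, mul_div_cancel₀ _ (hq_ne one_ne_zero)]

theorem hq_mem (d : ℤ) : hq K d ∈ RR K := by
  rw [hq]; exact Subring.sub_mem _ (qz_mem _) (qz_mem _)

theorem hq_div_mem {d : ℤ} (hd : d ≠ 0) : hq K 1 * (hq K d)⁻¹ ∈ RR K := by
  rw [hq_eq d, mul_inv, ← mul_assoc, mul_inv_cancel₀ (hq_ne one_ne_zero), one_mul]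
  exact qn_inv_mem hd

/-- `q ^ a - q ^ b` is divisible by `h_d` if `2 d` divides `a - b`. -/
theorem sub_div_mem {d : ℤ} (hd : d ≠ 0) (a n : ℤ) :
    (qq K ^ (a + 2 * d * n) - qq K ^ a) * (hq K d)⁻¹ ∈ RR K := by
  have : (qq K ^ (a + 2 * d * n) - qq K ^ a) * (hq K d)⁻¹ = qq K ^ (a + d * n) * qd K d n := by
    rw [qd_eq, hq, hq]
    rw [div_eq_mul_inv, ← mul_assoc]
    congr 1
    rw [mul_sub, ← qadd, ← qadd]
    congr 2 <;> ring_nf
  rw [this]
  exact Subring.mul_mem _ (qz_mem _) (qd_mem hd _)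

/-- `1 + t + ... + t ^ (n - 1)` for `t = q ^ (2 d)`. -/
def tn (K : Type*) [Field K] [HasQ K] (d : ℤ) : ℕ → K
  | 0 => 0
  | n + 1 => 1 + qq K ^ (2 * d) * tn K d n

theorem tn_eq {d : ℤ} (hd : d ≠ 0) (n : ℕ) : tn K d n = qq K ^ (d * (n - 1)) * qd K d n := by
  induction n with
  | zero => simp [tn, qd]
  | succ n ih =>
    rw [tn, ih, qd_eq, qd_eq]
    have h := hq_ne (K := K) hd
    rw [eq_comm, ← mul_div_assoc, div_eq_iff h, add_mul, mul_assoc, mul_assoc,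
      div_mul_cancel₀ _ h]
    have e1 : ∀ a b c : ℤ, qq K ^ a * (qq K ^ b - qq K ^ c) = qq K ^ (a + b) - qq K ^ (a + c) := by
      intro a b c; rw [mul_sub, ← qadd, ← qadd]
    simp only [hq, e1, one_mul]
    push_cast
    rw [show (d * ((n : ℤ) + 1 - 1) + d * (n + 1) : ℤ) = 2 * d + (d * (n - 1) + d * n) by ring,
      show (d * ((n : ℤ) + 1 - 1) + -(d * (n + 1)) : ℤ) = -d by ring,
      show (2 * d + (d * ((n : ℤ) - 1) + -(d * n)) : ℤ) = d by ring]
    ring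

theorem tn_ne {d : ℤ} (hd : d ≠ 0) {n : ℕ} (hn : 0 < n) : tn K d n ≠ 0 := by
  rw [tn_eq hd]
  exact mul_ne_zero (zpow_ne_zero _ HasQ.q_ne) (qd_ne hd (by omega))

theorem tn_mem {d : ℤ} (n : ℕ) : tn K d n ∈ RR K := by
  induction n with
  | zero => exact Subring.zero_mem _
  | succ n ih =>
    exact Subring.add_mem _ (Subring.one_mem _) (Subring.mul_mem _ (qz_mem _) ih)

theorem tn_inv_mem {d : ℤ} (hd : d ≠ 0) {n : ℕ} (hn : 0 < n) : (tn K d n)⁻¹ ∈ RR K := by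
  rw [tn_eq hd, mul_inv, ← zpow_neg]
  exact Subring.mul_mem _ (qz_mem _) (qd_inv_mem hd (by omega))

end Pool.Agent.H387.QR
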