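import Pool.Agent.H387.QR.Base

/-!
# The quantum shuffle model

Functions on words, with the operators `D i`, `r i` (remove the first, the last letter) and
`L i`, `R i` (multiply by the letter `i` on the left, on the right).
-/

namespace Pool.Agent.H387.QR

variable {I : Type} [Fintype I] [DecidableEq I] (C : Cartan I) {K : Type*} [Field K] [HasQ K]

theorem qadd (K : Type*) [Field K] [HasQ K] (m n : ℤ) :
    qq K ^ (m + n) = qq K ^ m * qq K ^ n := zpow_add₀ HasQ.q_ne m n

/-- The inner product of `α_i` with the content of a word. -/
def pr (i : I) (w : List I) : ℤ := (w.map (C.br i)).sum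

@[simp] theorem pr_nil (i : I) : pr C i [] = 0 := rfl
@[simp] theorem pr_cons (i j : I) (w : List I) : pr C i (j :: w) = C.br i j + pr C i w := by
  simp [pr]
@[simp] theorem pr_append (i : I) (v w : List I) : pr C i (v ++ w) = pr C i v + pr C i w := by
  simp [pr]

theorem br_symm (i j : I) : C.br i j = C.br j i := C.symm i j

/-- value of `L_i a` at a word -/
def Lw (i : I) : List I → (List I → K) → K
  | [], _ => 0
  | j :: w, a => (if j = i then a w else 0) + qq K ^ (C.br i j) * Lw i w (fun u => a (j :: u))

/-- value of `R_i a` at a word -/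
def Rw (i : I) : List I → (List I → K) → K
  | [], _ => 0
  | j :: w, a => (if j = i then qq K ^ (pr C i w) * a w else 0) + Rw i w (fun u => a (j :: u))

theorem Lw_add (i : I) (w : List I) (a b : List I → K) :
    Lw C i w (a + b) = Lw C i w a + Lw C i w b := by
  induction w generalizing a b with
  | nil => simp [Lw]
  | cons j w ih =>
    have := ih (fun u => a (j :: u)) (fun u => b (j :: u))
    simp only [Lw, Pi.add_apply] at this ⊢
    rw [show (fun u => a (j :: u) + b (j :: u)) =
      (fun u => a (j :: u)) + (fun u => b (j :: u)) from rfl, this]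
    split_ifs <;> ring

theorem Lw_smul (i : I) (w : List I) (c : K) (a : List I → K) :
    Lw C i w (c • a) = c * Lw C i w a := by
  induction w generalizing a with
  | nil => simp [Lw]
  | cons j w ih =>
    have := ih (fun u => a (j :: u))
    simp only [Lw, Pi.smul_apply, smul_eq_mul] at this ⊢
    rw [show (fun u => c * a (j :: u)) = c • (fun u => a (j :: u)) from rfl, this]
    split_ifs <;> ring

theorem Lw_zero (i : I) (w : List I) : Lw C i w (fun _ => (0 : K)) = 0 := by
  induction w with
  | nil => rfl
  | cons j w ih => simp [Lw, ih]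

theorem Rw_add (i : I) (w : List I) (a b : List I → K) :
    Rw C i w (a + b) = Rw C i w a + Rw C i w b := by
  induction w generalizing a b with
  | nil => simp [Rw]
  | cons j w ih =>
    have := ih (fun u => a (j :: u)) (fun u => b (j :: u))
    simp only [Rw, Pi.add_apply] at this ⊢
    rw [show (fun u => a (j :: u) + b (j :: u)) =
      (fun u => a (j :: u)) + (fun u => b (j :: u)) from rfl, this]
    split_ifs <;> ring

theorem Rw_smul (i : I) (w : List I) (c : K) (a : List I → K) :
    Rw C i w (c • a) = c * Rw C i w a := by
  induction w generalizing a with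
  | nil => simp [Rw]
  | cons j w ih =>
    have := ih (fun u => a (j :: u))
    simp only [Rw, Pi.smul_apply, smul_eq_mul] at this ⊢
    rw [show (fun u => c * a (j :: u)) = c • (fun u => a (j :: u)) from rfl, this]
    split_ifs <;> ring

/-- functions on words -/
abbrev Fn (I : Type) (K : Type*) := List I → K

/-- remove the first letter -/
def Dop (j : I) : Fn I K →ₗ[K] Fn I K where
  toFun a := fun w => a (j :: w)
  map_add' _ _ := rfl
  map_smul' _ _ := rfl

/-- remove the last letter -/
def rop (j : I) : Fn I K →ₗ[K] Fn I K where
  toFun a := fun w => a (w ++ [j])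
  map_add' _ _ := rfl
  map_smul' _ _ := rfl

/-- left multiplication by a letter -/
def Lop (i : I) : Fn I K →ₗ[K] Fn I K where
  toFun a := fun w => Lw C i w a
  map_add' a b := by funext w; exact Lw_add C i w a b
  map_smul' c a := by funext w; exact Lw_smul C i w c a

/-- right multiplication by a letter -/
def Rop (i : I) : Fn I K →ₗ[K] Fn I K where
  toFun a := fun w => Rw C i w a
  map_add' a b := by funext w; exact Rw_add C i w a b
  map_smul' c a := by funext w; exact Rw_smul C i w c a

/-- multiplication by the function `q ^ (α_i, w)` -/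
def Qop (i : I) : Fn I K →ₗ[K] Fn I K where
  toFun a := fun w => qq K ^ (pr C i w) * a w
  map_add' a b := by funext w; simp [mul_add]
  map_smul' c a := by funext w; simp [mul_left_comm]

/-- multiplication by the function `q ^ -(α_i, w)` -/
def Qinv (i : I) : Fn I K →ₗ[K] Fn I K where
  toFun a := fun w => qq K ^ (-pr C i w) * a w
  map_add' a b := by funext w; simp [mul_add]
  map_smul' c a := by funext w; simp [mul_left_comm]

theorem Dop_apply (j : I) (a : Fn I K) (w : List I) : Dop j a w = a (j :: w) := rfl
theorem rop_apply (j : I) (a : Fn I K) (w : List I) : rop j a w = a (w ++ [j]) := rfl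
theorem Qop_apply (j : I) (a : Fn I K) (w : List I) :
    Qop C j a w = qq K ^ (pr C j w) * a w := rfl
theorem Qinv_apply (j : I) (a : Fn I K) (w : List I) :
    Qinv C j a w = qq K ^ (-pr C j w) * a w := rfl
@[simp] theorem Lop_nil (i : I) (a : Fn I K) : Lop C i a [] = 0 := rfl
@[simp] theorem Rop_nil (i : I) (a : Fn I K) : Rop C i a [] = 0 := rfl
theorem Lop_cons (i j : I) (a : Fn I K) (w : List I) : Lop C i a (j :: w) =
    (if j = i then a w else 0) + qq K ^ (C.br i j) * Lop C i (Dop j a) w := rfl
theorem Rop_cons (i j : I) (a : Fn I K) (w : List I) : Rop C i a (j :: w) =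
    (if j = i then qq K ^ (pr C i w) * a w else 0) + Rop C i (Dop j a) w := rfl

theorem fn_ext {a b : Fn I K} (h0 : a [] = b []) (h : ∀ j, Dop j a = Dop j b) : a = b := by
  funext w
  cases w with
  | nil => exact h0
  | cons j w => exact congrFun (h j) w

theorem D_L (i j : I) (a : Fn I K) : Dop j (Lop C i a) =
    (if j = i then a else 0) + qq K ^ (C.br i j) • Lop C i (Dop j a) := by
  funext w
  rw [Dop_apply, Lop_cons]
  split_ifs <;> simp

theorem D_R (i j : I) (a : Fn I K) : Dop j (Rop C i a) =
    (if j = i then Qop C i a else 0) + Rop C i (Dop j a) := by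
  funext w
  rw [Dop_apply, Rop_cons]
  split_ifs <;> simp [Qop_apply]

theorem D_r (i j : I) (a : Fn I K) : Dop j (rop i a) = rop i (Dop j a) := rfl

theorem D_Q (i j : I) (a : Fn I K) :
    Dop j (Qop C i a) = qq K ^ (C.br i j) • Qop C i (Dop j a) := by
  funext w
  simp only [Dop_apply, Qop_apply, pr_cons, Pi.smul_apply, smul_eq_mul, qadd K]
  ring

theorem D_Qinv (i j : I) (a : Fn I K) :
    Dop j (Qinv C i a) = qq K ^ (-C.br i j) • Qinv C i (Dop j a) := by
  funext w
  simp only [Dop_apply, Qinv_apply, pr_cons, Pi.smul_apply, smul_eq_mul, neg_add,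
    qadd K]
  ring

theorem r_Q (i j : I) (a : Fn I K) :
    rop j (Qop C i a) = qq K ^ (C.br i j) • Qop C i (rop j a) := by
  funext w
  simp only [rop_apply, Qop_apply, pr_append, pr_cons, pr_nil, add_zero, Pi.smul_apply,
    smul_eq_mul, qadd K]
  ring

theorem r_Qinv (i j : I) (a : Fn I K) :
    rop j (Qinv C i a) = qq K ^ (-C.br i j) • Qinv C i (rop j a) := by
  funext w
  simp only [rop_apply, Qinv_apply, pr_append, pr_cons, pr_nil, add_zero, Pi.smul_apply,
    smul_eq_mul, neg_add, qadd K]
  ring

theorem Q_Qinv (i : I) (a : Fn I K) : Qop C i (Qinv C i a) = a := by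
  funext w
  rw [Qop_apply, Qinv_apply, ← mul_assoc, ← qadd]
  simp

theorem Qinv_Q (i : I) (a : Fn I K) : Qinv C i (Qop C i a) = a := by
  funext w
  rw [Qinv_apply, Qop_apply, ← mul_assoc, ← qadd]
  simp

theorem L_Q (i j : I) (a : Fn I K) :
    Lop C j (Qop C i a) = qq K ^ (-C.br i j) • Qop C i (Lop C j a) := by
  funext w
  induction w generalizing a with
  | nil => simp [Qop_apply]
  | cons k w ih =>
    rw [Lop_cons, D_Q, map_smul, Pi.smul_apply, ih]
    simp only [Pi.smul_apply, Qop_apply, Lop_cons, pr_cons, smul_eq_mul, qadd K]
    by_cases h : k = j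
    · subst h
      simp only [if_true, zpow_neg]
      have : qq K ^ (C.br i k) ≠ 0 := zpow_ne_zero _ HasQ.q_ne
      field_simp
    · simp only [h, if_false, zpow_neg]
      ring

theorem R_Q (i j : I) (a : Fn I K) :
    Rop C j (Qop C i a) = qq K ^ (-C.br i j) • Qop C i (Rop C j a) := by
  funext w
  induction w generalizing a with
  | nil => simp [Qop_apply]
  | cons k w ih =>
    rw [Rop_cons, D_Q, map_smul, Pi.smul_apply, ih]
    simp only [Pi.smul_apply, Qop_apply, Rop_cons, pr_cons, smul_eq_mul, qadd K]
    by_cases h : k = j
    · subst h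
      simp only [if_true, zpow_neg]
      have : qq K ^ (C.br i k) ≠ 0 := zpow_ne_zero _ HasQ.q_ne
      field_simp
    · simp only [h, if_false, zpow_neg]
      ring

theorem L_R (i j : I) (a : Fn I K) : Lop C i (Rop C j a) = Rop C j (Lop C i a) := by
  funext w
  induction w generalizing a with
  | nil => simp
  | cons k w ih =>
    rw [Lop_cons, Rop_cons, D_L, D_R]
    simp only [map_add, map_smul, Pi.add_apply, Pi.smul_apply, smul_eq_mul, ih]
    have h1 : qq K ^ (C.br i j) * Lop C i (Qop C j a) w = qq K ^ (pr C j w) * Lop C i a w := by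
      rw [L_Q, Pi.smul_apply, smul_eq_mul, ← mul_assoc, ← qadd, br_symm C j i,
        Qop_apply]
      simp
    by_cases hi : k = i
    · by_cases hj : k = j
      · subst hi; subst hj
        simp only [if_true]
        linear_combination h1
      · subst hi
        simp [hj]
    · by_cases hj : k = j
      · subst hj
        simp only [hi, if_true, if_false, map_zero, Pi.zero_apply]
        linear_combination h1
      · simp [hi, hj]

theorem r_L (i j : I) (a : Fn I K) : rop j (Lop C i a) =
    Lop C i (rop j a) + (if j = i then Qop C i a else 0) := by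
  funext w
  induction w generalizing a with
  | nil =>
    rw [rop_apply, List.nil_append, Lop_cons]
    by_cases h : j = i <;> simp [h, Qop_apply]
  | cons k w ih =>
    have := ih (Dop k a)
    rw [rop_apply] at this ⊢
    rw [List.cons_append, Lop_cons, this]
    simp only [Pi.add_apply]
    rw [Lop_cons, D_r]
    by_cases h : j = i
    · subst h
      simp only [if_true, Qop_apply, pr_cons, Pi.add_apply, qadd K, Dop_apply]
      rw [rop_apply]
      split_ifs <;> ring
    · simp only [h, if_false, Pi.zero_apply, add_zero, Pi.add_apply]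
      rw [rop_apply]

theorem r_R (i j : I) (a : Fn I K) : rop j (Rop C i a) =
    (if j = i then a else 0) + qq K ^ (C.br i j) • Rop C i (rop j a) := by
  funext w
  induction w generalizing a with
  | nil =>
    rw [rop_apply, List.nil_append, Rop_cons]
    by_cases h : j = i <;> simp [h]
  | cons k w ih =>
    have := ih (Dop k a)
    rw [rop_apply] at this ⊢
    rw [List.cons_append, Rop_cons, this]
    simp only [Pi.add_apply, Pi.smul_apply]
    rw [Rop_cons, D_r]
    simp only [pr_append, pr_cons, pr_nil, add_zero, qadd K, Pi.add_apply,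
      Pi.smul_apply, smul_eq_mul]
    rw [rop_apply]
    by_cases h : j = i
    · subst h
      simp only [if_true, Dop_apply]
      split_ifs <;> ring
    · simp only [h, if_false, Pi.zero_apply, zero_add]
      split_ifs <;> ring

/-- The function of a word (the product of its letters). -/
def ph : List I → Fn I K
  | [] => fun w => if w = [] then 1 else 0
  | i :: w => Lop C i (ph w)

@[simp] theorem ph_cons (i : I) (w : List I) : ph C (K := K) (i :: w) = Lop C i (ph C w) := rfl

theorem D_ph_nil (j : I) : Dop j (ph C (K := K) []) = 0 := by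
  funext w; simp [Dop_apply, ph]

theorem R_ph_nil (i : I) : Rop C i (ph C (K := K) []) = ph C [i] := by
  rw [ph_cons]
  apply fn_ext
  · simp
  · intro j
    rw [D_L, D_R, D_ph_nil]
    by_cases h : j = i
    · subst h
      simp only [if_true, map_zero, add_zero, smul_zero]
      funext w
      rw [Qop_apply]
      cases w <;> simp [ph]
    · simp [h]

theorem R_ph (i : I) (w : List I) : Rop C i (ph C (K := K) w) = ph C (w ++ [i]) := by
  induction w with
  | nil => exact R_ph_nil C i
  | cons j w ih => rw [ph_cons, ← L_R, ih, List.cons_append, ph_cons]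

theorem Lw_comm (i j : I) (u w : List I) (G : List I → List I → K) :
    Lw C i u (fun x => Lw C j w (fun y => G x y)) =
      Lw C j w (fun y => Lw C i u (fun x => G x y)) := by
  induction u generalizing G with
  | nil =>
    simp only [Lw]
    rw [Lw_zero]
  | cons k u ih =>
    simp only [Lw]
    rw [ih (fun x y => G (k :: x) y)]
    have e : (fun y => (if k = i then G u y else 0) +
        qq K ^ (C.br i k) * Lw C i u (fun x => G (k :: x) y)) =
        (fun y => if k = i then G u y else 0) +
        qq K ^ (C.br i k) • (fun y => Lw C i u (fun x => G (k :: x) y)) := by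
      funext y; simp
    rw [e, Lw_add, Lw_smul]
    congr 1
    by_cases h : k = i
    · simp [h]
    · simp only [h, if_false]
      rw [Lw_zero]

theorem ph_apply_nil (u : List I) : ph C (K := K) u [] = if u = [] then 1 else 0 := by
  cases u with
  | nil => simp [ph]
  | cons i u => simp

theorem ph_dual (i : I) (u w : List I) :
    Lw C i u (fun x => ph C (K := K) x w) = ph C u (i :: w) := by
  induction u generalizing w with
  | nil => simp [Lw, ph]
  | cons j u ih =>
    have h1 : ∀ x : List I, ph C (K := K) (j :: x) w = Lw C j w (fun y => ph C x y) := fun x => rfl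
    rw [Lw]
    simp only [h1]
    rw [Lw_comm]
    simp only [ih]
    rw [ph_cons, Lop_cons, br_symm C j i]
    by_cases h : j = i
    · subst h; rfl
    · simp only [h, Ne.symm h, if_false]; rfl

theorem ph_symm (u w : List I) : ph C (K := K) u w = ph C w u := by
  induction u generalizing w with
  | nil => rw [ph_apply_nil]; simp [ph]
  | cons i u ih =>
    have h1 : ph C (K := K) (i :: u) w = Lw C i w (fun y => ph C u y) := rfl
    rw [h1]
    simp only [ih]
    exact ph_dual C i w u

end Pool.Agent.H387.QR
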